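/-
H919S: real tensors with all singular tuples real (S00123).  Definitions.
-/
import Mathlib

set_option autoImplicit false

namespace Pool.Agent.H919S

open Finset Filter Topology

/-- complex vectors on all legs: coordinates indexed by `ℕ` (total functions). -/
abbrev Vec (κ : Type) := κ → ℕ → ℂ

/-- real tensors with legs `κ`, indices in `ℕ`. -/
abbrev Ten (κ : Type) := (κ → ℕ) → ℝ

section general

variable {κ : Type} [Fintype κ] [DecidableEq κ]

/-- all multi-indices `ι` with `ι k ≤ m k`. -/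
def box (m : κ → ℕ) : Finset (κ → ℕ) := Fintype.piFinset fun k => range (m k + 1)

/-- value of the multilinear form of type `m`. -/
noncomputable def ev (m : κ → ℕ) (T : Ten κ) (x : Vec κ) : ℂ :=
  ∑ ι ∈ box m, (T ι : ℂ) * ∏ k, x k (ι k)

/-- partial derivative of the multilinear form of type `m` w.r.t. coordinate `i` of leg `k`. -/
noncomputable def der (m : κ → ℕ) (T : Ten κ) (x : Vec κ) (k : κ) (i : ℕ) : ℂ :=
  ∑ ι ∈ (box m).filter (fun ι => ι k = i), (T ι : ℂ) * ∏ l ∈ univ.erase k, x l (ι l)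

/-- chart of type `m`: leading coordinate `1` at index `m k`, zero beyond. -/
def Cht (m : κ → ℕ) (x : Vec κ) : Prop := (∀ k, x k (m k) = 1) ∧ ∀ k i, m k < i → x k i = 0

/-- critical points of type `m` of `T`. -/
def Sol (m : κ → ℕ) (T : Ten κ) : Set (Vec κ) :=
  {x | Cht m x ∧ ∀ k i, i < m k → der m T x k i = 0}

def IsRe (x : Vec κ) : Prop := ∀ k i, (x k i).im = 0

noncomputable def cj (x : Vec κ) : Vec κ := fun k i => (starRingEnd ℂ) (x k i)

/-- the coordinates `(k,i)` with `i < m k`. -/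
def Jm (m : κ → ℕ) : Finset (κ × ℕ) :=
  (univ : Finset κ).biUnion fun k => (range (m k)).image fun i => (k, i)

/-- nondegenerate point (in the coordinates `J`) of the system `G`, in line-derivative form. -/
def NDG (J : Finset (κ × ℕ)) (G : Vec κ → κ → ℕ → ℂ) (p : Vec κ) : Prop :=
  ∀ y : Vec κ, (∀ k i, (k, i) ∉ J → y k i = 0) →
    (∀ k i, (k, i) ∈ J → HasDerivAt (fun t : ℝ => G (fun k i => p k i + (t : ℂ) * y k i) k i) 0 0) →
    ∀ k i, y k i = 0

/-- coordinates outside `J` are those of `c`. -/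
def InCh (J : Finset (κ × ℕ)) (c x : Vec κ) : Prop := ∀ k i, (k, i) ∉ J → x k i = c k i

/-- vector with coordinates `ξ` in `J` and those of `c` outside `J`. -/
noncomputable def extJ (J : Finset (κ × ℕ)) (c : Vec κ) (ξ : J → ℂ) : Vec κ := fun k i =>
  if h : (k, i) ∈ J then ξ ⟨(k, i), h⟩ else c k i

/-- the mixed volume number. -/
noncomputable def W (m : κ → ℕ) : ℤ :=
  MvPolynomial.coeff (Finsupp.equivFunOnFinite.symm m)
    (∏ k, (∑ i ∈ univ.erase k, (MvPolynomial.X i : MvPolynomial κ ℤ)) ^ (m k))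

def GoodAt (m : κ → ℕ) (T : Ten κ) : Prop :=
  (∀ x ∈ Sol m T, IsRe x ∧ ev m T x ≠ 0 ∧ NDG (Jm m) (der m T) x) ∧
    (Sol m T).Finite ∧ ((Sol m T).ncard : ℤ) = W m

def Good (n : κ → ℕ) (T : Ten κ) : Prop := ∀ m, m ≤ n → GoodAt m T

/-- every format on the legs `κ` has a good tensor. -/
def PP (κ : Type) [Fintype κ] [DecidableEq κ] : Prop := ∀ n : κ → ℕ, ∃ T : Ten κ, Good n T

/-- shifted tensor. -/
def sh (e : κ → ℕ) (T : Ten κ) : Ten κ := fun ι => T (e + ι)

/-- drop the first `e k` coordinates of leg `k`. -/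
def drv (e : κ → ℕ) (x : Vec κ) : Vec κ := fun k i => x k (e k + i)

/-- insert `e k` zeros in front of leg `k`. -/
noncomputable def ins (e : κ → ℕ) (x : Vec κ) : Vec κ := fun k i => if i < e k then 0 else x k (i - e k)

/-- good, and all first coordinates nonzero. -/
def GoodF (m : κ → ℕ) (T : Ten κ) : Prop := GoodAt m T ∧ ∀ x ∈ Sol m T, ∀ k, x k 0 ≠ 0

/-- sign condition. -/
def Sgn (θ : ℝ) (m : κ → ℕ) (T : Ten κ) : Prop :=
  ∀ k, 0 < m k → ∀ p ∈ Sol (m - Pi.single k 1) (sh (Pi.single k 1) T),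
    0 < θ * (der m T (ins (Pi.single k 1) p) k 0).re * ∏ l ∈ univ.erase k, (p l 0).re

end general

section three

/-- shift vector of the branch type: `none ↦ (1,1,1)`, `some r ↦` all ones except `0` at `r`. -/
def ee (o : Option (Fin 3)) : Fin 3 → ℕ := fun j => o.elim 1 (fun r => if j = r then 0 else 1)

/-- weights of the branch type: `none ↦ (1,1,1)`, `some r ↦` all twos except `0` at `r`. -/
def ww (o : Option (Fin 3)) : Fin 3 → ℕ := fun j => o.elim 1 (fun r => if j = r then 0 else 2)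

/-- exponent of `ε` in equation `(k,0)`. -/
def xp (o : Option (Fin 3)) : Fin 3 → ℕ := fun k => o.elim 0 (fun r => if k = r then 2 else 0)

/-- number of solutions over one point. -/
def mult (o : Option (Fin 3)) : ℤ := o.elim 2 (fun _ => 1)

/-- rescale first coordinates by `ε ^ weight`. -/
noncomputable def scl (o : Option (Fin 3)) (ε : ℝ) (x : Vec (Fin 3)) : Vec (Fin 3) := fun k i =>
  if i = 0 then (ε : ℂ) ^ (ww o k) * x k 0 else x k i

/-- the rescaled system. -/
noncomputable def GA (m : Fin 3 → ℕ) (T : Ten (Fin 3)) (θ : ℝ) (o : Option (Fin 3)) (ε : ℝ)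
    (x : Vec (Fin 3)) (k : Fin 3) (i : ℕ) : ℂ :=
  (if i = 0 then (θ : ℂ) * (ε : ℂ) ^ (xp o k) * ∏ l ∈ univ.erase k, x l 0 else 0) +
    der m (Function.update T 0 0) (scl o ε x) k i

/-- zeros of the limit system. -/
def ZA (m : Fin 3 → ℕ) (T : Ten (Fin 3)) (θ : ℝ) (o : Option (Fin 3)) : Set (Vec (Fin 3)) :=
  {p | Cht m p ∧ ∀ k i, i < m k → GA m T θ o 0 p k i = 0}

/-- the tensor with a huge entry at `0`. -/
noncomputable def TA (T : Ten (Fin 3)) (θ ε : ℝ) : Ten (Fin 3) := Function.update T 0 (θ * (ε ^ 2)⁻¹)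

/-- all proper shifts are good. -/
def HypA (n : Fin 3 → ℕ) (T : Ten (Fin 3)) (th : (Fin 3 → ℕ) → ℝ) : Prop :=
  ∀ e m : Fin 3 → ℕ, e ≠ 0 → e + m ≤ n → GoodF m (sh e T) ∧ Sgn (th e) m (sh e T)

def SgnFn (th : (Fin 3 → ℕ) → ℝ) : Prop :=
  (∀ e, th e = 1 ∨ th e = -1) ∧ th 0 * th (ee (some 0)) * th (ee (some 1)) * th (ee (some 2)) = -1

def ZGood (m : Fin 3 → ℕ) (T : Ten (Fin 3)) (θ : ℝ) (o : Option (Fin 3)) : Prop :=
  (ZA m T θ o).Finite ∧ ((ZA m T θ o).ncard : ℤ) = mult o * W (m - ee o) ∧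
    ∀ p ∈ ZA m T θ o, IsRe p ∧ (∀ j, p j 0 ≠ 0) ∧ NDG (Jm m) (GA m T θ o 0) p ∧
      ∃ k, 0 < m k ∧ der m (Function.update T 0 0) (scl o 0 p) k (m k) ≠ 0

end three

section comp

variable {α β : Type} [Fintype α] [DecidableEq α] [Fintype β] [DecidableEq β]

/-- type on `Option α`: `K` on the extra leg `none`, `m` on the others. -/
def oc {α : Type} (K : ℕ) (m : α → ℕ) : Option α → ℕ := fun o => o.elim K m

/-- slice of a tensor at index `K` of the leg `none`. -/
def slc {α : Type} (A : Ten (Option α)) (K : ℕ) : Ten α := fun ι => A (oc K ι)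

/-- composition of two tensors along their extra legs. -/
noncomputable def cmp (N : ℕ) (A : Ten (Option α)) (C : Ten (Option β)) (ε : ℝ) : Ten (α ⊕ β) :=
  fun ι => ∑ K ∈ range (N + 1), ε ^ K * A (oc K fun a => ι (Sum.inl a)) * C (oc K fun b => ι (Sum.inr b))

/-- half of the extended system. `c j` = `C_j(y)`, `v j` = `V_j`. -/
noncomputable def half (N K : ℕ) (mα : α → ℕ) (A : Ten (Option α)) (ε : ℝ) (x : Vec (Option α))
    (c v : ℕ → ℂ) (k : Option α) (i : ℕ) : ℂ :=
  match k with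
  | some a => der (oc N mα) A
      (Function.update x none (fun j => if j ≤ K then x none j * c K else (ε : ℂ) ^ (j - K) * c j))
      (some a) i
  | none => der (oc N mα) A x none i - (ε : ℂ) ^ (K - i) * v i * der (oc N mα) A x none K

/-- left part and right part of a vector. -/
def lft {α β : Type} (x : Vec (α ⊕ β)) : Vec α := fun a => x (Sum.inl a)
def rgt {α β : Type} (x : Vec (α ⊕ β)) : Vec β := fun b => x (Sum.inr b)

/-- type of the extended system. -/
def tB (K : ℕ) (m : α ⊕ β → ℕ) : Option α ⊕ Option β → ℕ :=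
  Sum.elim (oc K fun a => m (Sum.inl a)) (oc K fun b => m (Sum.inr b))

noncomputable def GB (N K : ℕ) (m : α ⊕ β → ℕ) (A : Ten (Option α)) (C : Ten (Option β)) (ε : ℝ)
    (x : Vec (Option α ⊕ Option β)) (k : Option α ⊕ Option β) (i : ℕ) : ℂ :=
  match k with
  | Sum.inl k => half N K (fun a => m (Sum.inl a)) A ε (lft x)
      (fun j => der (oc N fun b => m (Sum.inr b)) C (rgt x) none j) (rgt x none) k i
  | Sum.inr k => half N K (fun b => m (Sum.inr b)) C ε (rgt x)
      (fun j => der (oc N fun a => m (Sum.inl a)) A (lft x) none j) (lft x none) k i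

/-- forget the extra legs. -/
def prj {α β : Type} (x : Vec (Option α ⊕ Option β)) : Vec (α ⊕ β) :=
  Sum.elim (fun a => x (Sum.inl (some a))) (fun b => x (Sum.inr (some b)))

/-- `A_j(x)`: value of slice `j`. -/
noncomputable def vA (m : α ⊕ β → ℕ) (A : Ten (Option α)) (z : Vec (α ⊕ β)) (j : ℕ) : ℂ :=
  ev (fun a => m (Sum.inl a)) (slc A j) (lft z)
noncomputable def vC (m : α ⊕ β → ℕ) (C : Ten (Option β)) (z : Vec (α ⊕ β)) (j : ℕ) : ℂ :=
  ev (fun b => m (Sum.inr b)) (slc C j) (rgt z)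

/-- extended vector of a solution. -/
noncomputable def lif (K : ℕ) (m : α ⊕ β → ℕ) (A : Ten (Option α)) (C : Ten (Option β)) (ε : ℝ)
    (z : Vec (α ⊕ β)) : Vec (Option α ⊕ Option β) :=
  Sum.elim
    (fun o => o.elim (fun j => if j ≤ K then (ε : ℂ) ^ j * vC m C z j / ((ε : ℂ) ^ K * vC m C z K) else 0)
      (fun a => z (Sum.inl a)))
    (fun o => o.elim (fun j => if j ≤ K then (ε : ℂ) ^ j * vA m A z j / ((ε : ℂ) ^ K * vA m A z K) else 0)
      (fun b => z (Sum.inr b)))

end comp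

section sph

variable {κ : Type} [Fintype κ] [DecidableEq κ]

/-- coordinates of the chart `x_{k,m_k}=1` in full format `n`. -/
def Jc (n m : κ → ℕ) : Finset (κ × ℕ) :=
  (univ : Finset κ).biUnion fun k => ((range (n k + 1)).erase (m k)).image fun i => (k, i)

/-- local system in the chart of type `m`. -/
noncomputable def GC (n m : κ → ℕ) (T : Ten κ) (δ : ℝ) (x : Vec κ) (k : κ) (i : ℕ) : ℂ :=
  if i < m k then der n T x k i - (δ : ℂ) ^ (m k - i) * der n T x k (m k) * x k i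
  else der n T x k (m k) * x k i - (δ : ℂ) ^ (i - m k) * der n T x k i

/-- `x` is a `δ`-weighted singular tuple. -/
def SC (n : κ → ℕ) (T : Ten κ) (δ : ℝ) : Set (Vec κ) :=
  {x | (∀ k i, n k < i → x k i = 0) ∧ (∀ k, ∃ i, x k i ≠ 0) ∧
    ∀ k, ∃ l : ℂ, ∀ i, i ≤ n k → (δ : ℂ) ^ i * der n T x k i = l * x k i}

/-- legwise proportional. -/
def Prp (x y : Vec κ) : Prop := ∀ k, ∃ c : ℂ, c ≠ 0 ∧ ∀ i, x k i = c * y k i

end sph

end Pool.Agent.H919S
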