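/-
H919S: statements (as Props) of all the steps of the proof of S00123.
-/
import Pool.Agent.H919S.Defs

set_option autoImplicit false

namespace Pool.Agent.H919S

open Finset Filter Topology

/-! ### basic lemmas, usable by everybody as a hypothesis `(B : Basics)` -/

def B01_supp : Prop := ∀ (κ : Type) [Fintype κ] [DecidableEq κ] (m n : κ → ℕ) (T : Ten κ) (x : Vec κ),
  m ≤ n → (∀ k i, m k < i → x k i = 0) → ∀ k i, i ≤ m k → der n T x k i = der m T x k i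

def B02_euler : Prop := ∀ (κ : Type) [Fintype κ] [DecidableEq κ] (m : κ → ℕ) (T : Ten κ) (x : Vec κ) (k : κ),
  ev m T x = ∑ i ∈ range (m k + 1), x k i * der m T x k i

def B03_tend : Prop := ∀ (κ : Type) [Fintype κ] [DecidableEq κ] (ι : Type) (l : Filter ι) (X : ι → Vec κ) (z : Vec κ),
  (∀ k i, Tendsto (fun a => X a k i) l (𝓝 (z k i))) → ∀ (m : κ → ℕ) (T : Ten κ),
    (∀ k i, Tendsto (fun a => der m T (X a) k i) l (𝓝 (der m T z k i))) ∧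
      Tendsto (fun a => ev m T (X a)) l (𝓝 (ev m T z))

def B04_cd : Prop := ∀ (κ : Type) [Fintype κ] [DecidableEq κ] (E : Type) [NormedAddCommGroup E] [NormedSpace ℝ E]
  (X : E → Vec κ), (∀ k i, ContDiff ℝ 1 (fun p => X p k i)) → ∀ (m : κ → ℕ) (T : Ten κ) (k : κ) (i : ℕ),
    ContDiff ℝ 1 (fun p => der m T (X p) k i)

def B05_hom : Prop := ∀ (κ : Type) [Fintype κ] [DecidableEq κ] (m : κ → ℕ) (T : Ten κ) (c : κ → ℂ) (x : Vec κ),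
  (∀ k i, der m T (fun l i => c l * x l i) k i = (∏ l ∈ univ.erase k, c l) * der m T x k i) ∧
    ev m T (fun l i => c l * x l i) = (∏ l, c l) * ev m T x

def B06_cj : Prop := ∀ (κ : Type) [Fintype κ] [DecidableEq κ] (m : κ → ℕ) (T : Ten κ) (x : Vec κ) (k : κ) (i : ℕ),
  der m T (cj x) k i = (starRingEnd ℂ) (der m T x k i)

/-- `der` at leg `k` only depends on the other legs, and only on the coordinates in the box, and on `T` in the box. -/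
def B07_congr : Prop := ∀ (κ : Type) [Fintype κ] [DecidableEq κ] (m : κ → ℕ) (T T' : Ten κ) (x x' : Vec κ) (k : κ) (i : ℕ),
  (∀ ι ∈ box m, ι k = i → T ι = T' ι) → (∀ l, l ≠ k → ∀ j, j ≤ m l → x l j = x' l j) → der m T x k i = der m T' x' k i

def B08_shift : Prop := ∀ (κ : Type) [Fintype κ] [DecidableEq κ] (m e : κ → ℕ) (T : Ten κ) (x : Vec κ), e ≤ m →
  (∀ j, (∀ k, k ≠ j → ∀ i, i < e k → x k i = 0) → ∀ i, e j ≤ i →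
    der m T x j i = der (m - e) (sh e T) (drv e x) j (i - e j)) ∧
  ((∀ k i, i < e k → x k i = 0) → ev m T x = ev (m - e) (sh e T) (drv e x))

def B09_chain : Prop := ∀ (κ : Type) [Fintype κ] [DecidableEq κ] (X : ℝ → Vec κ) (Y : Vec κ),
  (∀ k i, HasDerivAt (fun t : ℝ => X t k i) (Y k i) 0) → ∀ (m : κ → ℕ) (T : Ten κ) (k : κ) (i : ℕ) (D : ℂ),
    (HasDerivAt (fun t : ℝ => der m T (X t) k i) D 0 ↔
      HasDerivAt (fun t : ℝ => der m T (fun k i => X 0 k i + (t : ℂ) * Y k i) k i) D 0)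

/-- no solutions at infinity. -/
def B10_noinf : Prop := ∀ (κ : Type) [Fintype κ] [DecidableEq κ] (m : κ → ℕ) (T : Ten κ),
  (∀ m', m' ≤ m → ∀ p ∈ Sol m' T, ev m' T p ≠ 0) → ∀ m' z, m' ≤ m → Cht m' z →
    (∀ k i, i < m k → der m T z k i = 0) → m' = m ∧ z ∈ Sol m T

/-- normalised limits along an ultrafilter. -/
def B11_lim : Prop := ∀ (κ : Type) [Fintype κ] [DecidableEq κ] (l : Ultrafilter ℝ) (n : κ → ℕ) (x : ℝ → Vec κ),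
  (∀ᶠ ε in (l : Filter ℝ), ∀ k i, n k < i → x ε k i = 0) → (∀ᶠ ε in (l : Filter ℝ), ∀ k, ∃ i, x ε k i ≠ 0) →
    ∃ (m : κ → ℕ) (z : Vec κ), m ≤ n ∧ Cht m z ∧ (∀ᶠ ε in (l : Filter ℝ), ∀ k, x ε k (m k) ≠ 0) ∧
      ∀ k i, Tendsto (fun ε => x ε k i / x ε k (m k)) l (𝓝 (z k i))

/-- implicit function theorem along an ultrafilter, Banach version. -/
def B12_ift : Prop := ∀ (l : Ultrafilter ℝ), (l : Filter ℝ) ≤ 𝓝[>] 0 →
  ∀ (E : Type) [NormedAddCommGroup E] [NormedSpace ℝ E] [FiniteDimensional ℝ E] (F : ℝ × E → E) (p : E),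
    ContDiff ℝ 1 F → F (0, p) = 0 → (∀ y : E, HasDerivAt (fun t : ℝ => F (0, p + t • y)) 0 0 → y = 0) →
    ∃ ξ : ℝ → E, Tendsto ξ l (𝓝 p) ∧ (∀ᶠ ε in (l : Filter ℝ), F (ε, ξ ε) = 0) ∧
      (∀ᶠ ε in (l : Filter ℝ), ∀ y : E, HasDerivAt (fun t : ℝ => F (ε, ξ ε + t • y)) 0 0 → y = 0) ∧
      ∀ η : ℝ → E, Tendsto η l (𝓝 p) → (∀ᶠ ε in (l : Filter ℝ), F (ε, η ε) = 0) → ∀ᶠ ε in (l : Filter ℝ), η ε = ξ ε

/-- implicit function theorem along an ultrafilter for vectors, with reality. -/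
def B13_iftV : Prop := ∀ (κ : Type) [Fintype κ] [DecidableEq κ] (l : Ultrafilter ℝ), (l : Filter ℝ) ≤ 𝓝[>] 0 →
  ∀ (J : Finset (κ × ℕ)) (G : ℝ → Vec κ → κ → ℕ → ℂ) (p : Vec κ),
    (∀ k i, (k, i) ∈ J → ContDiff ℝ 1 (fun q : ℝ × (J → ℂ) => G q.1 (extJ J p q.2) k i)) →
    (∀ ε x k i, (k, i) ∈ J → G ε (cj x) k i = (starRingEnd ℂ) (G ε x k i)) →
    IsRe p → (∀ k i, (k, i) ∈ J → G 0 p k i = 0) → NDG J (G 0) p →
    ∃ ξ : ℝ → Vec κ, (∀ ε, InCh J p (ξ ε)) ∧ (∀ k i, Tendsto (fun ε => ξ ε k i) l (𝓝 (p k i))) ∧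
      (∀ᶠ ε in (l : Filter ℝ), ∀ k i, (k, i) ∈ J → G ε (ξ ε) k i = 0) ∧
      (∀ᶠ ε in (l : Filter ℝ), NDG J (G ε) (ξ ε)) ∧ (∀ᶠ ε in (l : Filter ℝ), IsRe (ξ ε)) ∧
      ∀ η : ℝ → Vec κ, (∀ᶠ ε in (l : Filter ℝ), InCh J p (η ε)) →
        (∀ k i, Tendsto (fun ε => η ε k i) l (𝓝 (p k i))) →
        (∀ᶠ ε in (l : Filter ℝ), ∀ k i, (k, i) ∈ J → G ε (η ε) k i = 0) → ∀ᶠ ε in (l : Filter ℝ), η ε = ξ ε

/-- counting lemma. -/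
def B14_count : Prop := ∀ (l : Ultrafilter ℝ) (Y B : Type) [Finite B] (R : Y → Y → Prop) (S : ℝ → Set Y) (s : B → ℝ → Y),
  (∀ b, ∀ᶠ ε in (l : Filter ℝ), s b ε ∈ S ε) →
  (∀ x : ℝ → Y, (∀ᶠ ε in (l : Filter ℝ), x ε ∈ S ε) → ∃ b, ∀ᶠ ε in (l : Filter ℝ), R (x ε) (s b ε)) →
  (∀ b b', (∀ᶠ ε in (l : Filter ℝ), R (s b ε) (s b' ε)) → b = b') →
  ∀ᶠ ε in (l : Filter ℝ), (∀ b, s b ε ∈ S ε) ∧ (∀ y ∈ S ε, ∃ b, R y (s b ε)) ∧ ∀ b b', R (s b ε) (s b' ε) → b = b'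

/-- chain rule for a smooth function of the coordinates in `J`. -/
def B15_chainG : Prop := ∀ (κ : Type) [Fintype κ] [DecidableEq κ] (J : Finset (κ × ℕ)) (g : Vec κ → ℂ)
  (X : ℝ → Vec κ) (Y : Vec κ), ContDiff ℝ 1 (fun ξ : J → ℂ => g (extJ J (X 0) ξ)) →
  (∀ᶠ t in 𝓝 (0 : ℝ), InCh J (X 0) (X t)) → (∀ k i, HasDerivAt (fun t : ℝ => X t k i) (Y k i) 0) →
  ∀ D : ℂ, (HasDerivAt (fun t : ℝ => g (X t)) D 0 ↔
    HasDerivAt (fun t : ℝ => g (fun k i => X 0 k i + (t : ℂ) * Y k i)) D 0)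

structure Basics : Prop where
  supp : B01_supp
  euler : B02_euler
  tend : B03_tend
  cd : B04_cd
  hom : B05_hom
  cjd : B06_cj
  congr : B07_congr
  shift : B08_shift
  chain : B09_chain
  noinf : B10_noinf
  lim : B11_lim
  iftV : B13_iftV
  count : B14_count
  chainG : B15_chainG

/-! ### combinatorics -/

def C1_total : Prop := ∀ (d : ℕ) (n : Fin d → ℕ),
  MvPolynomial.coeff (Finsupp.equivFunOnFinite.symm n)
    (∏ k : Fin d, ∑ j ∈ Finset.range (n k + 1),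
      (∑ i ∈ Finset.univ.erase k, (MvPolynomial.X i : MvPolynomial (Fin d) ℤ)) ^ j
        * (MvPolynomial.X k : MvPolynomial (Fin d) ℤ) ^ (n k - j)) = ∑ m ∈ box n, W m

def C2_three : Prop := ∀ m : Fin 3 → ℕ, m ≠ 0 →
  W m = ∑ o : Option (Fin 3), if (∀ k, ee o k ≤ m k) then mult o * W (m - ee o) else 0

def C3_comp : Prop := ∀ (α β : Type) [Fintype α] [DecidableEq α] [Fintype β] [DecidableEq β] (m : α ⊕ β → ℕ) (N : ℕ),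
  ∑ a, m (Sum.inl a) ≤ N → ∑ b, m (Sum.inr b) ≤ N →
    W m = ∑ K ∈ range (N + 1), W (oc K fun a => m (Sum.inl a)) * W (oc K fun b => m (Sum.inr b))

/-! ### base cases and relabelling -/

def P0_base : Prop := PP (Fin 0)
def P1_base : Prop := PP (Fin 1)
def P2_base : Prop := PP (Fin 2)
def PR_relabel : Prop := ∀ (κ κ' : Type) [Fintype κ] [DecidableEq κ] [Fintype κ'] [DecidableEq κ'],
  (κ ≃ κ') → PP κ → PP κ'

/-! ### (A) three legs -/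

def A01_upd : Prop := ∀ (κ : Type) [Fintype κ] [DecidableEq κ] (m : κ → ℕ) (T : Ten κ) (c : ℝ) (x : Vec κ) (k : κ) (i : ℕ),
  der m (Function.update T 0 c) x k i =
    (if i = 0 then (c : ℂ) * ∏ l ∈ univ.erase k, x l 0 else 0) + der m (Function.update T 0 0) x k i

/-- smoothness and conjugation for `GA`. -/
def A00_cd : Prop := ∀ (m : Fin 3 → ℕ) (T : Ten (Fin 3)) (θ : ℝ) (o : Option (Fin 3)),
  (∀ (E : Type) [NormedAddCommGroup E] [NormedSpace ℝ E] (e : E → ℝ) (X : E → Vec (Fin 3)), ContDiff ℝ 1 e →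
    (∀ k i, ContDiff ℝ 1 (fun p => X p k i)) → ∀ k i, ContDiff ℝ 1 (fun p => GA m T θ o (e p) (X p) k i)) ∧
  ∀ (ε : ℝ) (x : Vec (Fin 3)) (k : Fin 3) (i : ℕ), GA m T θ o ε (cj x) k i = (starRingEnd ℂ) (GA m T θ o ε x k i)

def A02_GAid : Prop := ∀ (m : Fin 3 → ℕ) (T : Ten (Fin 3)) (θ ε : ℝ) (o : Option (Fin 3)) (x : Vec (Fin 3)) (k : Fin 3) (i : ℕ),
  ε ≠ 0 → der m (TA T θ ε) (scl o ε x) k i = GA m T θ o ε x k i

/-- branch type `some r`: the limit system. -/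
def A03_Zsome : Prop := ∀ (m : Fin 3 → ℕ) (T : Ten (Fin 3)) (th : (Fin 3 → ℕ) → ℝ) (r : Fin 3),
  HypA m T th → SgnFn th → ee (some r) ≤ m → ZGood m T (th 0) (some r)

/-- branch type `none`: the limit system. -/
def A04_Znone : Prop := ∀ (m : Fin 3 → ℕ) (T : Ten (Fin 3)) (th : (Fin 3 → ℕ) → ℝ),
  HypA m T th → SgnFn th → ee none ≤ m → ZGood m T (th 0) none

/-- covering, first part: the limit point. -/
def A05_cov0 : Prop := ∀ (l : Ultrafilter ℝ), (l : Filter ℝ) ≤ 𝓝[>] 0 → ∀ (m : Fin 3 → ℕ) (T : Ten (Fin 3))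
  (th : (Fin 3 → ℕ) → ℝ) (x : ℝ → Vec (Fin 3)), HypA m T th → SgnFn th → (∃ i j, i ≠ j ∧ 0 < m i ∧ 0 < m j) →
  (∀ᶠ ε in (l : Filter ℝ), x ε ∈ Sol m (TA T (th 0) ε)) →
  ∃ o : Option (Fin 3), ee o ≤ m ∧ ∃ P ∈ Sol (m - ee o) (sh (ee o) T),
    ∀ k i, Tendsto (fun ε => x ε k i) l (𝓝 (ins (ee o) P k i))

/-- covering, second part: the rescaled limit exists and lies in `ZA`. -/
def A06_cov1 : Prop := ∀ (l : Ultrafilter ℝ), (l : Filter ℝ) ≤ 𝓝[>] 0 → ∀ (m : Fin 3 → ℕ) (T : Ten (Fin 3))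
  (th : (Fin 3 → ℕ) → ℝ) (x : ℝ → Vec (Fin 3)) (o : Option (Fin 3)) (P : Vec (Fin 3)), HypA m T th → SgnFn th →
  (∀ᶠ ε in (l : Filter ℝ), x ε ∈ Sol m (TA T (th 0) ε)) →
  ee o ≤ m → P ∈ Sol (m - ee o) (sh (ee o) T) → (∀ k i, Tendsto (fun ε => x ε k i) l (𝓝 (ins (ee o) P k i))) →
  ∃ p ∈ ZA m T (th 0) o, ∀ k i,
    Tendsto (fun ε => if i = 0 then x ε k 0 / (ε : ℂ) ^ (ww o k) else x ε k i) l (𝓝 (p k i))

/-- separation. -/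
def A07_sep : Prop := ∀ (l : Ultrafilter ℝ), (l : Filter ℝ) ≤ 𝓝[>] 0 → ∀ (o o' : Option (Fin 3))
  (p p' : Vec (Fin 3)) (ξ ξ' : ℝ → Vec (Fin 3)), (∀ j, p j 0 ≠ 0) → (∀ j, p' j 0 ≠ 0) →
  (∀ k i, Tendsto (fun ε => ξ ε k i) l (𝓝 (p k i))) → (∀ k i, Tendsto (fun ε => ξ' ε k i) l (𝓝 (p' k i))) →
  (∀ᶠ ε in (l : Filter ℝ), scl o ε (ξ ε) = scl o' ε (ξ' ε)) → o = o' ∧ p = p'

/-- everything about one branch. -/
def A08_branch : Prop := ∀ (l : Ultrafilter ℝ), (l : Filter ℝ) ≤ 𝓝[>] 0 → ∀ (m : Fin 3 → ℕ) (T : Ten (Fin 3)) (θ : ℝ)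
  (o : Option (Fin 3)) (p : Vec (Fin 3)), ee o ≤ m → ZGood m T θ o → p ∈ ZA m T θ o →
  ∃ ξ : ℝ → Vec (Fin 3), (∀ k i, Tendsto (fun ε => ξ ε k i) l (𝓝 (p k i))) ∧
    (∀ᶠ ε in (l : Filter ℝ), scl o ε (ξ ε) ∈ Sol m (TA T θ ε) ∧ IsRe (scl o ε (ξ ε)) ∧
      ev m (TA T θ ε) (scl o ε (ξ ε)) ≠ 0 ∧ NDG (Jm m) (der m (TA T θ ε)) (scl o ε (ξ ε)) ∧
      ∀ k, scl o ε (ξ ε) k 0 ≠ 0) ∧
    ∀ x : ℝ → Vec (Fin 3), (∀ᶠ ε in (l : Filter ℝ), x ε ∈ Sol m (TA T θ ε)) →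
      (∀ k i, Tendsto (fun ε => if i = 0 then x ε k 0 / (ε : ℂ) ^ (ww o k) else x ε k i) l (𝓝 (p k i))) →
      ∀ᶠ ε in (l : Filter ℝ), x ε = scl o ε (ξ ε)

/-- `GoodF` for types with at least two nonzero legs. -/
def A09_two : Prop := ∀ (l : Ultrafilter ℝ), (l : Filter ℝ) ≤ 𝓝[>] 0 → ∀ (m : Fin 3 → ℕ) (T : Ten (Fin 3))
  (th : (Fin 3 → ℕ) → ℝ), HypA m T th → SgnFn th → (∃ i j, i ≠ j ∧ 0 < m i ∧ 0 < m j) →
  ∀ᶠ ε in (l : Filter ℝ), GoodF m (TA T (th 0) ε)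

/-- `GoodF` for types with at most one nonzero leg. -/
def A10_one : Prop := ∀ (m : Fin 3 → ℕ) (T : Ten (Fin 3)) (θ ε : ℝ), (¬ ∃ i j, i ≠ j ∧ 0 < m i ∧ 0 < m j) →
  θ ≠ 0 → ε ≠ 0 → GoodF m (TA T θ ε)

def A11_sgn : Prop := ∀ (l : Ultrafilter ℝ), (l : Filter ℝ) ≤ 𝓝[>] 0 → ∀ (m : Fin 3 → ℕ) (T : Ten (Fin 3))
  (th : (Fin 3 → ℕ) → ℝ), HypA m T th → SgnFn th → ∀ᶠ ε in (l : Filter ℝ), Sgn (th 0) m (TA T (th 0) ε)

/-- one step of the construction. -/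
def A12_step : Prop := ∀ (n : Fin 3 → ℕ) (T : Ten (Fin 3)) (th : (Fin 3 → ℕ) → ℝ), HypA n T th → SgnFn th →
  ∃ M : ℝ, ∀ m, m ≤ n → GoodF m (Function.update T 0 M) ∧ Sgn (th 0) m (Function.update T 0 M)

/-- `GoodF` and `Sgn` only depend on the tensor in the box. -/
def A13_local : Prop := ∀ (κ : Type) [Fintype κ] [DecidableEq κ] (m : κ → ℕ) (T T' : Ten κ), (∀ ι ∈ box m, T ι = T' ι) →
  (GoodF m T → GoodF m T') ∧ ∀ θ : ℝ, Sgn θ m T → Sgn θ m T'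

def A14_three : Prop := PP (Fin 3)

/-! ### (B) composition -/

def D01_der : Prop := ∀ (α β : Type) [Fintype α] [DecidableEq α] [Fintype β] [DecidableEq β]
  (N : ℕ) (m : α ⊕ β → ℕ) (A : Ten (Option α)) (C : Ten (Option β)) (ε : ℝ) (z : Vec (α ⊕ β)),
  (∀ a i, der m (cmp N A C ε) z (Sum.inl a) i =
    der (oc N fun a => m (Sum.inl a)) A (fun o => o.elim (fun j => (ε : ℂ) ^ j * vC m C z j) (fun a => z (Sum.inl a))) (some a) i) ∧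
  (∀ b i, der m (cmp N A C ε) z (Sum.inr b) i =
    der (oc N fun b => m (Sum.inr b)) C (fun o => o.elim (fun j => (ε : ℂ) ^ j * vA m A z j) (fun b => z (Sum.inr b))) (some b) i) ∧
  ev m (cmp N A C ε) z = ∑ j ∈ range (N + 1), (ε : ℂ) ^ j * vA m A z j * vC m C z j

def D02_none : Prop := ∀ (α : Type) [Fintype α] [DecidableEq α] (N : ℕ) (m : α → ℕ) (A : Ten (Option α)) (x : Vec (Option α)) (j : ℕ),
  j ≤ N → der (oc N m) A x none j = ev m (slc A j) (fun a => x (some a))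

/-- smoothness and conjugation for `GB`. -/
def D00_cd : Prop := ∀ (α β : Type) [Fintype α] [DecidableEq α] [Fintype β] [DecidableEq β]
  (N K : ℕ) (m : α ⊕ β → ℕ) (A : Ten (Option α)) (C : Ten (Option β)),
  (∀ (E : Type) [NormedAddCommGroup E] [NormedSpace ℝ E] (e : E → ℝ) (X : E → Vec (Option α ⊕ Option β)), ContDiff ℝ 1 e →
    (∀ k i, ContDiff ℝ 1 (fun p => X p k i)) → ∀ k i, ContDiff ℝ 1 (fun p => GB N K m A C (e p) (X p) k i)) ∧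
  ∀ (ε : ℝ) (x : Vec (Option α ⊕ Option β)) (k : Option α ⊕ Option β) (i : ℕ),
    GB N K m A C ε (cj x) k i = (starRingEnd ℂ) (GB N K m A C ε x k i)

/-- kernel lemma. -/
def D03_ker : Prop := ∀ (α : Type) [Fintype α] [DecidableEq α] (N : ℕ) (m : α → ℕ) (A : Ten (Option α)) (y : Vec α),
  Good (oc N m) A → ∑ a, m a ≤ N → (∀ a i, m a < i → y a i = 0) → (∀ a, ∃ i, y a i ≠ 0) →
  ∃ j, j ≤ N ∧ ev m (slc A j) y ≠ 0

/-- the limit system at a pair of solutions. -/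
def D04_zero : Prop := ∀ (α β : Type) [Fintype α] [DecidableEq α] [Fintype β] [DecidableEq β]
  (N K : ℕ) (m : α ⊕ β → ℕ) (A : Ten (Option α)) (C : Ten (Option β)) (pA : Vec (Option α)) (pC : Vec (Option β)),
  K ≤ N → Good (oc N fun a => m (Sum.inl a)) A → Good (oc N fun b => m (Sum.inr b)) C →
  pA ∈ Sol (oc K fun a => m (Sum.inl a)) A → pC ∈ Sol (oc K fun b => m (Sum.inr b)) C →
  (∀ k i, (k, i) ∈ Jm (tB K m) → GB N K m A C 0 (Sum.elim pA pC) k i = 0) ∧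
    NDG (Jm (tB K m)) (GB N K m A C 0) (Sum.elim pA pC)

/-- the extended system gives solutions. -/
def D05_sound : Prop := ∀ (α β : Type) [Fintype α] [DecidableEq α] [Fintype β] [DecidableEq β]
  (N K : ℕ) (m : α ⊕ β → ℕ) (A : Ten (Option α)) (C : Ten (Option β)) (ε : ℝ) (x : Vec (Option α ⊕ Option β)),
  K ≤ N → ε ≠ 0 → Cht (tB K m) x → (∀ k i, (k, i) ∈ Jm (tB K m) → GB N K m A C ε x k i = 0) →
  prj x ∈ Sol m (cmp N A C ε) ∧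
    (∀ j, j ≤ K → (ε : ℂ) ^ j * vC m C (prj x) j = (ε : ℂ) ^ K * x (Sum.inl none) j * vC m C (prj x) K) ∧
    (∀ j, j ≤ K → (ε : ℂ) ^ j * vA m A (prj x) j = (ε : ℂ) ^ K * x (Sum.inr none) j * vA m A (prj x) K)

/-- solutions give zeros of the extended system. -/
def D06_lift : Prop := ∀ (α β : Type) [Fintype α] [DecidableEq α] [Fintype β] [DecidableEq β]
  (N K : ℕ) (m : α ⊕ β → ℕ) (A : Ten (Option α)) (C : Ten (Option β)) (ε : ℝ) (z : Vec (α ⊕ β)),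
  K ≤ N → ε ≠ 0 → z ∈ Sol m (cmp N A C ε) → vA m A z K ≠ 0 → vC m C z K ≠ 0 →
  Cht (tB K m) (lif K m A C ε z) ∧ prj (lif K m A C ε z) = z ∧
    ∀ k i, (k, i) ∈ Jm (tB K m) → GB N K m A C ε (lif K m A C ε z) k i = 0

/-- transfer of nondegeneracy. -/
def D07_nd : Prop := ∀ (α β : Type) [Fintype α] [DecidableEq α] [Fintype β] [DecidableEq β]
  (N K : ℕ) (m : α ⊕ β → ℕ) (A : Ten (Option α)) (C : Ten (Option β)) (ε : ℝ) (z : Vec (α ⊕ β)),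
  K ≤ N → ε ≠ 0 → z ∈ Sol m (cmp N A C ε) → vA m A z K ≠ 0 → vC m C z K ≠ 0 →
  NDG (Jm (tB K m)) (GB N K m A C ε) (lif K m A C ε z) → NDG (Jm m) (der m (cmp N A C ε)) z

/-- covering. -/
def D08_cov : Prop := ∀ (α β : Type) [Fintype α] [DecidableEq α] [Fintype β] [DecidableEq β]
  (l : Ultrafilter ℝ), (l : Filter ℝ) ≤ 𝓝[>] 0 → ∀ (N : ℕ) (m : α ⊕ β → ℕ) (A : Ten (Option α)) (C : Ten (Option β))
  (z : ℝ → Vec (α ⊕ β)), ∑ a, m (Sum.inl a) ≤ N → ∑ b, m (Sum.inr b) ≤ N →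
  Good (oc N fun a => m (Sum.inl a)) A → Good (oc N fun b => m (Sum.inr b)) C →
  (∀ᶠ ε in (l : Filter ℝ), z ε ∈ Sol m (cmp N A C ε)) →
  ∃ K pA pC, K ≤ N ∧ pA ∈ Sol (oc K fun a => m (Sum.inl a)) A ∧ pC ∈ Sol (oc K fun b => m (Sum.inr b)) C ∧
    (∀ᶠ ε in (l : Filter ℝ), vA m A (z ε) K ≠ 0 ∧ vC m C (z ε) K ≠ 0) ∧
    ∀ k i, Tendsto (fun ε => lif K m A C ε (z ε) k i) l (𝓝 (Sum.elim pA pC k i))

/-- everything about one branch. -/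
def D09_branch : Prop := ∀ (α β : Type) [Fintype α] [DecidableEq α] [Fintype β] [DecidableEq β]
  (l : Ultrafilter ℝ), (l : Filter ℝ) ≤ 𝓝[>] 0 → ∀ (N K : ℕ) (m : α ⊕ β → ℕ) (A : Ten (Option α)) (C : Ten (Option β))
  (pA : Vec (Option α)) (pC : Vec (Option β)), K ≤ N →
  Good (oc N fun a => m (Sum.inl a)) A → Good (oc N fun b => m (Sum.inr b)) C →
  pA ∈ Sol (oc K fun a => m (Sum.inl a)) A → pC ∈ Sol (oc K fun b => m (Sum.inr b)) C →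
  ∃ ξ : ℝ → Vec (Option α ⊕ Option β),
    (∀ k i, Tendsto (fun ε => ξ ε k i) l (𝓝 (Sum.elim pA pC k i))) ∧
    (∀ᶠ ε in (l : Filter ℝ), Cht (tB K m) (ξ ε) ∧
      (∀ k i, (k, i) ∈ Jm (tB K m) → GB N K m A C ε (ξ ε) k i = 0) ∧
      prj (ξ ε) ∈ Sol m (cmp N A C ε) ∧ IsRe (prj (ξ ε)) ∧
      vA m A (prj (ξ ε)) K ≠ 0 ∧ vC m C (prj (ξ ε)) K ≠ 0 ∧
      ev m (cmp N A C ε) (prj (ξ ε)) ≠ 0 ∧ NDG (Jm m) (der m (cmp N A C ε)) (prj (ξ ε))) ∧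
    ∀ z : ℝ → Vec (α ⊕ β), (∀ᶠ ε in (l : Filter ℝ), z ε ∈ Sol m (cmp N A C ε)) →
      (∀ᶠ ε in (l : Filter ℝ), vA m A (z ε) K ≠ 0 ∧ vC m C (z ε) K ≠ 0) →
      (∀ k i, Tendsto (fun ε => lif K m A C ε (z ε) k i) l (𝓝 (Sum.elim pA pC k i))) →
      ∀ᶠ ε in (l : Filter ℝ), z ε = prj (ξ ε)

/-- separation. -/
def D10_sep : Prop := ∀ (α β : Type) [Fintype α] [DecidableEq α] [Fintype β] [DecidableEq β]
  (l : Ultrafilter ℝ), (l : Filter ℝ) ≤ 𝓝[>] 0 → ∀ (N K K' : ℕ) (m : α ⊕ β → ℕ) (A : Ten (Option α)) (C : Ten (Option β))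
  (pA pA' : Vec (Option α)) (pC pC' : Vec (Option β)) (ξ ξ' : ℝ → Vec (Option α ⊕ Option β)), K ≤ N → K' ≤ N →
  Good (oc N fun a => m (Sum.inl a)) A → Good (oc N fun b => m (Sum.inr b)) C →
  pA ∈ Sol (oc K fun a => m (Sum.inl a)) A → pC ∈ Sol (oc K fun b => m (Sum.inr b)) C →
  pA' ∈ Sol (oc K' fun a => m (Sum.inl a)) A → pC' ∈ Sol (oc K' fun b => m (Sum.inr b)) C →
  (∀ k i, Tendsto (fun ε => ξ ε k i) l (𝓝 (Sum.elim pA pC k i))) →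
  (∀ k i, Tendsto (fun ε => ξ' ε k i) l (𝓝 (Sum.elim pA' pC' k i))) →
  (∀ᶠ ε in (l : Filter ℝ), Cht (tB K m) (ξ ε) ∧ ∀ k i, (k, i) ∈ Jm (tB K m) → GB N K m A C ε (ξ ε) k i = 0) →
  (∀ᶠ ε in (l : Filter ℝ), Cht (tB K' m) (ξ' ε) ∧ ∀ k i, (k, i) ∈ Jm (tB K' m) → GB N K' m A C ε (ξ' ε) k i = 0) →
  (∀ᶠ ε in (l : Filter ℝ), prj (ξ ε) = prj (ξ' ε)) → K = K' ∧ pA = pA' ∧ pC = pC'

def D11_good : Prop := ∀ (α β : Type) [Fintype α] [DecidableEq α] [Fintype β] [DecidableEq β]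
  (l : Ultrafilter ℝ), (l : Filter ℝ) ≤ 𝓝[>] 0 → ∀ (N : ℕ) (m : α ⊕ β → ℕ) (A : Ten (Option α)) (C : Ten (Option β)),
  ∑ a, m (Sum.inl a) ≤ N → ∑ b, m (Sum.inr b) ≤ N →
  Good (oc N fun a => m (Sum.inl a)) A → Good (oc N fun b => m (Sum.inr b)) C →
  ∀ᶠ ε in (l : Filter ℝ), GoodAt m (cmp N A C ε)

def D12_PP : Prop := ∀ (α β : Type) [Fintype α] [DecidableEq α] [Fintype β] [DecidableEq β],
  PP (Option α) → PP (Option β) → PP (α ⊕ β)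

/-! ### (C) spherical conversion -/

/-- smoothness and conjugation for `GC`. -/
def E00_cd : Prop := ∀ (κ : Type) [Fintype κ] [DecidableEq κ] (n m : κ → ℕ) (T : Ten κ),
  (∀ (E : Type) [NormedAddCommGroup E] [NormedSpace ℝ E] (e : E → ℝ) (X : E → Vec κ), ContDiff ℝ 1 e →
    (∀ k i, ContDiff ℝ 1 (fun p => X p k i)) → ∀ k i, ContDiff ℝ 1 (fun p => GC n m T (e p) (X p) k i)) ∧
  ∀ (ε : ℝ) (x : Vec κ) (k : κ) (i : ℕ), GC n m T ε (cj x) k i = (starRingEnd ℂ) (GC n m T ε x k i)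

def E01_zero : Prop := ∀ (κ : Type) [Fintype κ] [DecidableEq κ] (n m : κ → ℕ) (T : Ten κ) (p : Vec κ),
  Good n T → m ≤ n → p ∈ Sol m T →
  (∀ k i, (k, i) ∈ Jc n m → GC n m T 0 p k i = 0) ∧ NDG (Jc n m) (GC n m T 0) p

/-- a branch of weighted singular tuples. -/
def E02_branch : Prop := ∀ (κ : Type) [Fintype κ] [DecidableEq κ] (l : Ultrafilter ℝ), (l : Filter ℝ) ≤ 𝓝[>] 0 →
  ∀ (n m : κ → ℕ) (T : Ten κ) (p : Vec κ), Good n T → m ≤ n → p ∈ Sol m T →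
  ∃ ξ : ℝ → Vec κ, (∀ k i, Tendsto (fun ε => ξ ε k i) l (𝓝 (p k i))) ∧
    (∀ᶠ ε in (l : Filter ℝ), ξ ε ∈ SC n T ε ∧ IsRe (ξ ε)) ∧
    ∀ x : ℝ → Vec κ, (∀ᶠ ε in (l : Filter ℝ), x ε ∈ SC n T ε ∧ ∀ k, x ε k (m k) ≠ 0) →
      (∀ k i, Tendsto (fun ε => x ε k i / x ε k (m k)) l (𝓝 (p k i))) →
      ∀ᶠ ε in (l : Filter ℝ), Prp (x ε) (ξ ε)

def E03_cov : Prop := ∀ (κ : Type) [Fintype κ] [DecidableEq κ] (l : Ultrafilter ℝ), (l : Filter ℝ) ≤ 𝓝[>] 0 →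
  ∀ (n : κ → ℕ) (T : Ten κ) (x : ℝ → Vec κ), Good n T → (∀ᶠ ε in (l : Filter ℝ), x ε ∈ SC n T ε) →
  ∃ m p, m ≤ n ∧ p ∈ Sol m T ∧ (∀ᶠ ε in (l : Filter ℝ), ∀ k, x ε k (m k) ≠ 0) ∧
    ∀ k i, Tendsto (fun ε => x ε k i / x ε k (m k)) l (𝓝 (p k i))

def E04_sep : Prop := ∀ (κ : Type) [Fintype κ] [DecidableEq κ] (l : Ultrafilter ℝ), (l : Filter ℝ) ≤ 𝓝[>] 0 →
  ∀ (m m' : κ → ℕ) (p p' : Vec κ) (ξ ξ' : ℝ → Vec κ), Cht m p → Cht m' p' →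
  (∀ k i, Tendsto (fun ε => ξ ε k i) l (𝓝 (p k i))) → (∀ k i, Tendsto (fun ε => ξ' ε k i) l (𝓝 (p' k i))) →
  (∀ᶠ ε in (l : Filter ℝ), Prp (ξ ε) (ξ' ε)) → m = m' ∧ p = p'

/-- spherical result: all weighted singular tuples are real and their number is `∑ W m`. -/
def E05_sph : Prop := ∀ (κ : Type) [Fintype κ] [DecidableEq κ] (n : κ → ℕ) (T : Ten κ), Good n T →
  ∃ (δ : ℝ) (N : ℕ) (r : Fin N → Vec κ), 0 < δ ∧ (N : ℤ) = ∑ m ∈ box n, W m ∧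
    (∀ b, r b ∈ SC n T δ ∧ IsRe (r b)) ∧ (∀ x ∈ SC n T δ, ∃ b, Prp x (r b)) ∧
    ∀ b b', Prp (r b) (r b') → b = b'

/-- removing the weights. -/
def E06_unw : Prop := ∀ (κ : Type) [Fintype κ] [DecidableEq κ] (n : κ → ℕ) (T : Ten κ) (ρ : ℝ) (x : Vec κ), 0 < ρ →
  ((fun k i => (ρ : ℂ) ^ i * x k i) ∈ SC n T (ρ ^ 2) ↔
    x ∈ SC n (fun ι => T ι * ρ ^ (∑ k, ι k)) 1)

/-- the frozen statement for one format from the unweighted form. -/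
def E07_frozen : Prop := ∀ (d : ℕ) (n : Fin d → ℕ) (T' : Ten (Fin d)) (N : ℕ) (r : Fin N → Vec (Fin d)),
  (N : ℤ) = ∑ m ∈ box n, W m → (∀ b, r b ∈ SC n T' 1 ∧ IsRe (r b)) → (∀ x ∈ SC n T' 1, ∃ b, Prp x (r b)) →
  (∀ b b', Prp (r b) (r b') → b = b') →
  ∃ (T : (∀ i : Fin d, Fin (n i + 1)) → ℝ) (N : ℕ)
    (r : Fin N → ∀ i : Fin d, Fin (n i + 1) → ℝ),
    (N : ℤ) = MvPolynomial.coeff (Finsupp.equivFunOnFinite.symm n)
      (∏ k : Fin d, ∑ j ∈ Finset.range (n k + 1),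
        (∑ i ∈ Finset.univ.erase k, (MvPolynomial.X i : MvPolynomial (Fin d) ℤ)) ^ j
          * (MvPolynomial.X k : MvPolynomial (Fin d) ℤ) ^ (n k - j)) ∧
    (∀ x : ∀ i : Fin d, Fin (n i + 1) → ℂ,
      ((∀ k : Fin d, x k ≠ 0) ∧
        ∀ k : Fin d, ∃ l : ℂ, ∀ j : Fin (n k + 1),
          ∑ ι : (∀ i : Fin d, Fin (n i + 1)),
            (if ι k = j then (T ι : ℂ) * ∏ i ∈ Finset.univ.erase k, x i (ι i) else 0)
            = l * x k j)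
      ↔ ∃ m : Fin N, ∀ k : Fin d, ∃ c : ℂ, c ≠ 0 ∧
          ∀ j : Fin (n k + 1), x k j = c * (r m k j : ℂ)) ∧
    (∀ m m' : Fin N,
      (∀ k : Fin d, ∃ c : ℂ, c ≠ 0 ∧
          ∀ j : Fin (n k + 1), (r m' k j : ℂ) = c * (r m k j : ℂ)) → m = m')

end Pool.Agent.H919S
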