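/-
H919S: assembly of all steps.
-/
import Pool.Agent.H919S.Stmts

set_option autoImplicit false

namespace Pool.Agent.H919S

open Finset Filter Topology

theorem PP_all (h0 : P0_base) (h1 : P1_base) (h2 : P2_base) (h3 : A14_three) (hR : PR_relabel)
    (hD : D12_PP) : ∀ d : ℕ, PP (Fin d) := by
  intro d
  induction d using Nat.strong_induction_on with
  | _ d ih =>
    match d, ih with
    | 0, _ => exact h0
    | 1, _ => exact h1
    | 2, _ => exact h2
    | 3, _ => exact h3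
    | (d + 4), ih =>
      have e1 : Fin 3 ≃ Option (Fin 2) := Fintype.equivOfCardEq (by simp)
      have e2 : Fin (d + 3) ≃ Option (Fin (d + 2)) := Fintype.equivOfCardEq (by simp)
      have e3 : Fin 2 ⊕ Fin (d + 2) ≃ Fin (d + 4) := Fintype.equivOfCardEq (by simp; omega)
      exact hR _ _ e3 (hD _ _ (hR _ _ e1 h3) (hR _ _ e2 (ih (d + 3) (by omega))))

theorem final (hPP : ∀ d : ℕ, PP (Fin d)) (hS : E05_sph) (hW : E06_unw) (hF : E07_frozen)
    (d : ℕ) (n : Fin d → ℕ) :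
    ∃ (T : (∀ i : Fin d, Fin (n i + 1)) → ℝ) (N : ℕ)
        (r : Fin N → ∀ i : Fin d, Fin (n i + 1) → ℝ),
        (N : ℤ) = MvPolynomial.coeff (Finsupp.equivFunOnFinite.symm n)
          (∏ k : Fin d, ∑ j ∈ Finset.range (n k + 1),
            (∑ i ∈ Finset.univ.erase k, (MvPolynomial.X i : MvPolynomial (Fin d) ℤ)) ^ j
              * (MvPolynomial.X k : MvPolynomial (Fin d) ℤ) ^ (n k - j)) ∧
        (∀ x : ∀ i : Fin d, Fin (n i + 1) → ℂ,
          ((∀ k : Fin d, x k ≠ 0) ∧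
            ∀ k : Fin d, ∃ l : ℂ, ∀ j : Fin (n k + 1),
              ∑ ι : (∀ i : Fin d, Fin (n i + 1)),
                (if ι k = j then (T ι : ℂ) * ∏ i ∈ Finset.univ.erase k, x i (ι i) else 0)
                = l * x k j)
          ↔ ∃ m : Fin N, ∀ k : Fin d, ∃ c : ℂ, c ≠ 0 ∧
              ∀ j : Fin (n k + 1), x k j = c * (r m k j : ℂ)) ∧
        (∀ m m' : Fin N,
          (∀ k : Fin d, ∃ c : ℂ, c ≠ 0 ∧
              ∀ j : Fin (n k + 1), (r m' k j : ℂ) = c * (r m k j : ℂ)) → m = m') := by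
  obtain ⟨T, hT⟩ := hPP d n
  obtain ⟨δ, N, r, hδ, hN, hr, hcov, hsep⟩ := hS (Fin d) n T hT
  set ρ : ℝ := Real.sqrt δ with hρ
  have hρ0 : 0 < ρ := Real.sqrt_pos.2 hδ
  have hρ2 : ρ ^ 2 = δ := Real.sq_sqrt hδ.le
  have hρc : (ρ : ℂ) ≠ 0 := by exact_mod_cast hρ0.ne'
  let r' : Fin N → Vec (Fin d) := fun b k i => ((ρ : ℂ) ^ i)⁻¹ * r b k i
  have key : ∀ b, (fun k i => (ρ : ℂ) ^ i * r' b k i) = r b := by
    intro b
    funext k i
    simp only [r']
    rw [← mul_assoc, mul_inv_cancel₀ (pow_ne_zero _ hρc), one_mul]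
  have hPrp : ∀ x y : Vec (Fin d), Prp (fun k i => (ρ : ℂ) ^ i * x k i) (fun k i => (ρ : ℂ) ^ i * y k i) ↔ Prp x y := by
    intro x y
    unfold Prp
    refine forall_congr' fun k => exists_congr fun c => and_congr_right fun _ => forall_congr' fun i => ?_
    constructor
    · intro h
      have h' : (ρ : ℂ) ^ i * x k i = c * ((ρ : ℂ) ^ i * y k i) := h
      have : (ρ : ℂ) ^ i * x k i = (ρ : ℂ) ^ i * (c * y k i) := by rw [h']; ring
      exact mul_left_cancel₀ (pow_ne_zero _ hρc) this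
    · intro h
      show (ρ : ℂ) ^ i * x k i = c * ((ρ : ℂ) ^ i * y k i)
      rw [h]; ring
  refine hF d n (fun ι => T ι * ρ ^ (∑ k, ι k)) N r' hN ?_ ?_ ?_
  · intro b
    refine ⟨?_, ?_⟩
    · rw [← hW (Fin d) n T ρ (r' b) hρ0, key, hρ2]
      exact (hr b).1
    · intro k i
      have h2 := (hr b).2 k i
      have : r' b k i = (((ρ ^ i)⁻¹ : ℝ) : ℂ) * r b k i := by
        simp [r']
      rw [this, Complex.im_ofReal_mul, h2, mul_zero]
  · intro x hx
    rw [← hW (Fin d) n T ρ x hρ0, hρ2] at hx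
    obtain ⟨b, hb⟩ := hcov _ hx
    refine ⟨b, ?_⟩
    rw [← key b, hPrp] at hb
    exact hb
  · intro b b' h
    apply hsep
    rw [← key b, ← key b', hPrp]
    exact h

end Pool.Agent.H919S
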