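import Mathlib
import Pool.Agent.H919S.Stmts

set_option autoImplicit false

namespace Pool.Agent.H919S

open Finset Filter Topology

namespace TA00

theorem scl_cj (o : Option (Fin 3)) (ε : ℝ) (x : Vec (Fin 3)) : scl o ε (cj x) = cj (scl o ε x) := by
  funext k i
  by_cases h : i = 0
  · simp only [scl, cj, if_pos h]
    rw [map_mul, map_pow, Complex.conj_ofReal]
  · simp only [scl, cj, if_neg h]

end TA00

theorem A00 (B : Basics) : A00_cd := by
  intro m T θ o
  constructor
  · intro E _ _ e X he hX k i
    have hε : ContDiff ℝ 1 (fun p => ((e p : ℝ) : ℂ)) := Complex.ofRealCLM.contDiff.comp he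
    unfold GA
    refine ContDiff.add ?_ ?_
    · split_ifs with h
      · refine ContDiff.mul (ContDiff.mul contDiff_const (hε.pow _)) ?_
        exact contDiff_prod fun l _ => hX l 0
      · exact contDiff_const
    · apply B.cd (Fin 3) E (fun p => scl o (e p) (X p))
      intro k i
      unfold scl
      split_ifs with h
      · exact (hε.pow _).mul (hX k 0)
      · exact hX k i
  · intro ε x k i
    unfold GA
    rw [TA00.scl_cj, B.cjd, map_add]
    congr 1
    split_ifs with h
    · rw [map_mul, map_mul, map_pow, map_prod, Complex.conj_ofReal, Complex.conj_ofReal]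
      rfl
    · rw [map_zero]

end Pool.Agent.H919S
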