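import Pool.Agent.H919S.Stmts

set_option autoImplicit false

namespace Pool.Agent.H919S

open Finset

theorem A01 : A01_upd := by
  intro κ _ _ m T c x k i
  unfold der
  have h1 : ∀ ι : κ → ℕ, ((Function.update T 0 c ι : ℝ) : ℂ) =
      (if ι = 0 then (c : ℂ) else 0) + ((Function.update T 0 0 ι : ℝ) : ℂ) := by
    intro ι
    by_cases h : ι = 0
    · subst h; simp
    · rw [Function.update_of_ne h, Function.update_of_ne h, if_neg h, zero_add]
  have h2 : (0 : κ → ℕ) ∈ (box m).filter (fun ι => ι k = i) ↔ i = 0 := by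
    simp only [Finset.mem_filter, box, Fintype.mem_piFinset, Finset.mem_range, Pi.zero_apply]
    constructor
    · rintro ⟨_, h⟩; exact h.symm
    · intro h; exact ⟨fun _ => Nat.succ_pos _, h.symm⟩
  simp only [h1, add_mul, Finset.sum_add_distrib]
  congr 1
  simp only [ite_mul, zero_mul, Finset.sum_ite_eq']
  simp only [h2, Pi.zero_apply]

end Pool.Agent.H919S
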