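import Pool.Agent.H919S.Stmts

set_option autoImplicit false

namespace Pool.Agent.H919S

open Finset Filter Topology

theorem TA02.sum_ww (o : Option (Fin 3)) (k : Fin 3) :
    ∑ l ∈ univ.erase k, ww o l = 2 + xp o k := by
  revert o k
  decide

theorem A02 (h1 : A01_upd) : A02_GAid := by
  intro m T θ ε o x k i hε
  unfold TA GA
  rw [h1 (Fin 3) m T (θ * (ε ^ 2)⁻¹) (scl o ε x) k i]
  congr 1
  by_cases hi : i = 0
  · rw [if_pos hi, if_pos hi]
    have h2 : ∀ l, scl o ε x l 0 = (ε : ℂ) ^ (ww o l) * x l 0 := fun l => by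
      unfold scl; rw [if_pos rfl]
    simp only [h2]
    rw [Finset.prod_mul_distrib, Finset.prod_pow_eq_pow_sum, TA02.sum_ww]
    have hε' : (ε : ℂ) ≠ 0 := by exact_mod_cast hε
    push_cast
    rw [pow_add]
    field_simp
  · rw [if_neg hi, if_neg hi]

end Pool.Agent.H919S
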