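import Pool.Agent.H919S.Stmts

/-!
H919S, task A03: three legs, the limit system of the branch `some r`.
-/

set_option autoImplicit false

namespace Pool.Agent.H919S

open Finset Filter Topology

namespace TA03

theorem erase3 : ∀ r k l : Fin 3, k ≠ r → l ≠ r → k ≠ l →
    (univ.erase k : Finset (Fin 3)) = {r, l} := by decide

theorem cases3 : ∀ r k l : Fin 3, k ≠ r → l ≠ r → k ≠ l → ∀ j, j = r ∨ j = k ∨ j = l := by decide

theorem exists3 : ∀ r : Fin 3, ∃ k l : Fin 3, k ≠ r ∧ l ≠ r ∧ k ≠ l := by decide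

theorem ee_r (r : Fin 3) : ee (some r) r = 0 := by simp [ee]

theorem ee_k {r k : Fin 3} (h : k ≠ r) : ee (some r) k = 1 := by simp [ee, h]

theorem ee_ne (r : Fin 3) : ee (some r) ≠ 0 := by
  obtain ⟨k, l, hk, -, -⟩ := exists3 r
  intro h
  have h1 := congrFun h k
  rw [ee_k hk] at h1
  simp at h1

theorem scl_r (r : Fin 3) (p : Vec (Fin 3)) (i : ℕ) : scl (some r) 0 p r i = p r i := by
  unfold scl ww
  split_ifs with h
  · simp [h]
  · rfl

theorem scl_zero {r k : Fin 3} (h : k ≠ r) (p : Vec (Fin 3)) : scl (some r) 0 p k 0 = 0 := by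
  simp [scl, ww, h]

theorem scl_succ (o : Option (Fin 3)) (p : Vec (Fin 3)) (k : Fin 3) (i : ℕ) :
    scl o 0 p k (i + 1) = p k (i + 1) := by
  simp [scl]

/-- the point of the smaller system -/
noncomputable def Phi (r : Fin 3) (p : Vec (Fin 3)) : Vec (Fin 3) :=
  drv (ee (some r)) (scl (some r) 0 p)

theorem Phi_r (r : Fin 3) (p : Vec (Fin 3)) (i : ℕ) : Phi r p r i = p r i := by
  unfold Phi drv
  rw [ee_r, zero_add, scl_r]

theorem Phi_k {r k : Fin 3} (h : k ≠ r) (p : Vec (Fin 3)) (i : ℕ) :
    Phi r p k i = p k (i + 1) := by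
  unfold Phi drv
  rw [ee_k h, add_comm, scl_succ]

theorem ins_Phi (r : Fin 3) (p : Vec (Fin 3)) :
    ins (ee (some r)) (Phi r p) = scl (some r) 0 p := by
  funext j i
  by_cases h : j = r
  · subst h
    unfold ins
    rw [ee_r, if_neg (by omega), Nat.sub_zero, Phi_r, scl_r]
  · unfold ins
    rw [ee_k h]
    rcases i with _ | i
    · rw [if_pos (by omega), scl_zero h]
    · rw [if_neg (by omega), Nat.add_sub_cancel, Phi_k h, scl_succ]

theorem sh_upd {e : Fin 3 → ℕ} (he : e ≠ 0) (T : Ten (Fin 3)) (c : ℝ) :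
    sh e (Function.update T 0 c) = sh e T := by
  funext ι
  unfold sh
  rw [Function.update_of_ne]
  intro h
  apply he
  funext k
  have h1 := congrFun h k
  simp only [Pi.add_apply, Pi.zero_apply] at h1
  simp only [Pi.zero_apply]
  omega

theorem der_shift (B : Basics) {m : Fin 3 → ℕ} (T : Ten (Fin 3)) {r : Fin 3}
    (hm : ee (some r) ≤ m) (p : Vec (Fin 3)) (j : Fin 3) (i : ℕ) (hi : ee (some r) j ≤ i) :
    der m (Function.update T 0 0) (scl (some r) 0 p) j i =
      der (m - ee (some r)) (sh (ee (some r)) T) (Phi r p) j (i - ee (some r) j) := by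
  have h := (B.shift (Fin 3) m (ee (some r)) (Function.update T 0 0) (scl (some r) 0 p) hm).1 j
    (by
      intro k _ i hi
      by_cases h : k = r
      · subst h
        rw [ee_r] at hi
        omega
      · rw [ee_k h] at hi
        have : i = 0 := by omega
        subst this
        exact scl_zero h p) i hi
  rw [h, sh_upd (ee_ne r)]
  rfl

theorem GA_r (B : Basics) {m : Fin 3 → ℕ} (T : Ten (Fin 3)) (θ : ℝ) {r : Fin 3}
    (hm : ee (some r) ≤ m) (p : Vec (Fin 3)) (i : ℕ) :
    GA m T θ (some r) 0 p r i =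
      der (m - ee (some r)) (sh (ee (some r)) T) (Phi r p) r i := by
  unfold GA
  rw [der_shift B T hm p r i (by rw [ee_r]; omega), ee_r, Nat.sub_zero]
  have h1 : (if i = 0 then (θ : ℂ) * ((0 : ℝ) : ℂ) ^ (xp (some r) r) *
      ∏ l ∈ univ.erase r, p l 0 else 0) = 0 := by
    split_ifs
    · simp [xp]
    · rfl
  rw [h1, zero_add]

theorem GA_succ (B : Basics) {m : Fin 3 → ℕ} (T : Ten (Fin 3)) (θ : ℝ) {r k : Fin 3}
    (hm : ee (some r) ≤ m) (hk : k ≠ r) (p : Vec (Fin 3)) (i : ℕ) :
    GA m T θ (some r) 0 p k (i + 1) =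
      der (m - ee (some r)) (sh (ee (some r)) T) (Phi r p) k i := by
  unfold GA
  rw [der_shift B T hm p k (i + 1) (by rw [ee_k hk]; omega), ee_k hk, Nat.add_sub_cancel,
    if_neg (by omega), zero_add]

theorem GA_zero {m : Fin 3 → ℕ} (T : Ten (Fin 3)) (θ : ℝ) {r k l : Fin 3}
    (hk : k ≠ r) (hl : l ≠ r) (hkl : k ≠ l) (p : Vec (Fin 3)) :
    GA m T θ (some r) 0 p k 0 = (θ : ℂ) * (p r 0 * p l 0) +
      der m (Function.update T 0 0) (scl (some r) 0 p) k 0 := by
  unfold GA
  rw [if_pos rfl, erase3 r k l hk hl hkl, Finset.prod_pair (Ne.symm hl)]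
  have h1 : xp (some r) k = 0 := by simp [xp, hk]
  rw [h1, pow_zero, mul_one]

theorem cht_iff {m : Fin 3 → ℕ} {r : Fin 3} (hm : ee (some r) ≤ m) (p : Vec (Fin 3)) :
    Cht m p ↔ Cht (m - ee (some r)) (Phi r p) := by
  constructor
  · rintro ⟨h1, h2⟩
    constructor
    · intro j
      by_cases h : j = r
      · subst h
        rw [Pi.sub_apply, ee_r, Nat.sub_zero, Phi_r]
        exact h1 j
      · have h3 := hm j
        rw [ee_k h] at h3
        rw [Pi.sub_apply, ee_k h, Phi_k h, Nat.sub_add_cancel h3]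
        exact h1 j
    · intro j i hi
      by_cases h : j = r
      · subst h
        rw [Pi.sub_apply, ee_r, Nat.sub_zero] at hi
        rw [Phi_r]
        exact h2 j i hi
      · rw [Pi.sub_apply, ee_k h] at hi
        rw [Phi_k h]
        exact h2 j (i + 1) (by omega)
  · rintro ⟨h1, h2⟩
    constructor
    · intro j
      have h4 := h1 j
      by_cases h : j = r
      · subst h
        rw [Pi.sub_apply, ee_r, Nat.sub_zero, Phi_r] at h4
        exact h4
      · have h3 := hm j
        rw [ee_k h] at h3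
        rw [Pi.sub_apply, ee_k h, Phi_k h, Nat.sub_add_cancel h3] at h4
        exact h4
    · intro j i hi
      by_cases h : j = r
      · subst h
        have h4 := h2 j i (by rw [Pi.sub_apply, ee_r, Nat.sub_zero]; exact hi)
        rw [Phi_r] at h4
        exact h4
      · have h3 := hm j
        rw [ee_k h] at h3
        rcases i with _ | i
        · omega
        · have h4 := h2 j i (by rw [Pi.sub_apply, ee_k h]; have h3' : 1 ≤ m j := h3; omega)
          rw [Phi_k h] at h4
          exact h4

theorem mem_ZA_iff (B : Basics) {m : Fin 3 → ℕ} (T : Ten (Fin 3)) (θ : ℝ) {r k l : Fin 3}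
    (hm : ee (some r) ≤ m) (hk : k ≠ r) (hl : l ≠ r) (hkl : k ≠ l) (p : Vec (Fin 3)) :
    p ∈ ZA m T θ (some r) ↔ Phi r p ∈ Sol (m - ee (some r)) (sh (ee (some r)) T) ∧
      (θ : ℂ) * (p r 0 * p l 0) + der m (Function.update T 0 0) (scl (some r) 0 p) k 0 = 0 ∧
      (θ : ℂ) * (p r 0 * p k 0) + der m (Function.update T 0 0) (scl (some r) 0 p) l 0 = 0 := by
  have mk : 1 ≤ m k := by have := hm k; rwa [ee_k hk] at this
  have ml : 1 ≤ m l := by have := hm l; rwa [ee_k hl] at this
  constructor
  · rintro ⟨h1, h2⟩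
    refine ⟨⟨(cht_iff hm p).1 h1, ?_⟩, ?_, ?_⟩
    · intro j i hi
      by_cases h : j = r
      · subst h
        rw [Pi.sub_apply, ee_r, Nat.sub_zero] at hi
        rw [← GA_r B T θ hm p i]
        exact h2 j i hi
      · rw [Pi.sub_apply, ee_k h] at hi
        rw [← GA_succ B T θ hm h p i]
        exact h2 j (i + 1) (by omega)
    · rw [← GA_zero T θ hk hl hkl p]
      exact h2 k 0 mk
    · rw [← GA_zero T θ hl hk hkl.symm p]
      exact h2 l 0 ml
  · rintro ⟨⟨h1, h2⟩, h3, h4⟩
    refine ⟨(cht_iff hm p).2 h1, ?_⟩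
    intro j i hi
    by_cases h : j = r
    · subst h
      rw [GA_r B T θ hm p i]
      exact h2 j i (by rw [Pi.sub_apply, ee_r, Nat.sub_zero]; exact hi)
    · rcases i with _ | i
      · rcases cases3 r k l hk hl hkl j with h5 | h5 | h5
        · exact absurd h5 h
        · subst h5
          rw [GA_zero T θ hk hl hkl p]
          exact h3
        · subst h5
          rw [GA_zero T θ hl hk hkl.symm p]
          exact h4
      · rw [GA_succ B T θ hm h p i]
        exact h2 j i (by rw [Pi.sub_apply, ee_k h]; omega)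

theorem der_im (B : Basics) {m : Fin 3 → ℕ} (T : Ten (Fin 3)) {x : Vec (Fin 3)} (hx : IsRe x)
    (k : Fin 3) (i : ℕ) : (der m T x k i).im = 0 := by
  have h := B.cjd (Fin 3) m T x k i
  have h1 : cj x = x := by
    funext k i
    exact Complex.conj_eq_iff_im.2 (hx k i)
  rw [h1] at h
  exact Complex.conj_eq_iff_im.1 h.symm

theorem ins_re {e : Fin 3 → ℕ} {P : Vec (Fin 3)} (hP : IsRe P) : IsRe (ins e P) := by
  intro k i
  unfold ins
  split_ifs
  · rfl
  · exact hP _ _

/-- the sign condition for the two missing equations -/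
theorem D_ne (B : Basics) {m : Fin 3 → ℕ} {T : Ten (Fin 3)} {th : (Fin 3 → ℕ) → ℝ} {r k l : Fin 3}
    (hH : HypA m T th) (hm : ee (some r) ≤ m) (hk : k ≠ r) (hl : l ≠ r) (hkl : k ≠ l)
    {P : Vec (Fin 3)} (hP : P ∈ Sol (m - ee (some r)) (sh (ee (some r)) T)) :
    der m (Function.update T 0 0) (ins (ee (some r)) P) k 0 ≠ 0 := by
  have mk : 1 ≤ m k := by have := hm k; rwa [ee_k hk] at this
  have ml : 1 ≤ m l := by have := hm l; rwa [ee_k hl] at this
  set e2 : Fin 3 → ℕ := Pi.single l 1 with he2
  have e2l : e2 l = 1 := by rw [he2, Pi.single_eq_same]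
  have e2n : ∀ j, j ≠ l → e2 j = 0 := fun j hj => by rw [he2, Pi.single_eq_of_ne hj]
  have e2ne : e2 ≠ 0 := by
    intro h
    have := congrFun h l
    rw [e2l] at this
    simp at this
  have e2m : e2 ≤ m := by
    intro j
    by_cases h : j = l
    · subst h; rw [e2l]; exact ml
    · rw [e2n j h]; exact Nat.zero_le _
  have hS := (hH e2 (m - e2) e2ne (by rw [add_tsub_cancel_of_le e2m])).2
  have hk2 : 0 < (m - e2) k := by
    rw [Pi.sub_apply, e2n k hkl]
    omega
  have e1 : m - e2 - Pi.single k 1 = m - ee (some r) := by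
    funext j
    rcases cases3 r k l hk hl hkl j with h | h | h
    · subst h
      rw [Pi.sub_apply, Pi.sub_apply, Pi.sub_apply, ee_r, e2n _ (Ne.symm hl),
        Pi.single_eq_of_ne (Ne.symm hk)]
      rfl
    · subst h
      rw [Pi.sub_apply, Pi.sub_apply, Pi.sub_apply, ee_k hk, e2n _ hkl, Pi.single_eq_same]
      rfl
    · subst h
      rw [Pi.sub_apply, Pi.sub_apply, Pi.sub_apply, ee_k hl, e2l,
        Pi.single_eq_of_ne (Ne.symm hkl)]
      rfl
  have e3 : sh (Pi.single k 1) (sh e2 T) = sh (ee (some r)) T := by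
    funext ι
    unfold sh
    congr 1
    funext j
    simp only [Pi.add_apply]
    rcases cases3 r k l hk hl hkl j with h | h | h
    · subst h
      rw [ee_r, e2n _ (Ne.symm hl), Pi.single_eq_of_ne (Ne.symm hk)]
      omega
    · subst h
      rw [ee_k hk, e2n _ hkl, Pi.single_eq_same]
      omega
    · subst h
      rw [ee_k hl, e2l, Pi.single_eq_of_ne (Ne.symm hkl)]
      omega
  have h1 := hS k hk2 P (by rw [e1, e3]; exact hP)
  have h2 := (B.shift (Fin 3) m e2 (Function.update T 0 0) (ins (ee (some r)) P) e2m).1 k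
    (by
      intro j hj i hi
      by_cases h : j = l
      · subst h
        rw [e2l] at hi
        unfold ins
        rw [ee_k hl, if_pos hi]
      · rw [e2n j h] at hi
        omega) 0 (by rw [e2n k hkl])
  have h3 : drv e2 (ins (ee (some r)) P) = ins (Pi.single k 1) P := by
    funext j i
    unfold drv ins
    rcases cases3 r k l hk hl hkl j with h | h | h
    · subst h
      rw [e2n _ (Ne.symm hl), ee_r, Pi.single_eq_of_ne (Ne.symm hk), zero_add]
    · subst h
      rw [e2n _ hkl, ee_k hk, Pi.single_eq_same, zero_add]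
    · subst h
      rw [e2l, ee_k hl, Pi.single_eq_of_ne (Ne.symm hkl), if_neg (by omega), if_neg (by omega),
        Nat.add_sub_cancel_left, Nat.sub_zero]
  rw [h2, sh_upd e2ne, h3, Nat.zero_sub]
  intro h4
  rw [h4] at h1
  simp at h1

/-- the point of the limit system over a point of the smaller system -/
noncomputable def Psi (r k : Fin 3) (a b : ℂ) (P : Vec (Fin 3)) : Vec (Fin 3) := fun j i =>
  if j = r then P j i else if i = 0 then (if j = k then a else b) else P j (i - 1)

theorem Phi_Psi {r k : Fin 3} (a b : ℂ) (P : Vec (Fin 3)) : Phi r (Psi r k a b P) = P := by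
  funext j i
  by_cases h : j = r
  · subst h
    rw [Phi_r]
    unfold Psi
    rw [if_pos rfl]
  · rw [Phi_k h]
    unfold Psi
    rw [if_neg h, if_neg (by omega), Nat.add_sub_cancel]

theorem Phi_add (r : Fin 3) (p y : Vec (Fin 3)) (t : ℝ) :
    Phi r (fun k i => p k i + (t : ℂ) * y k i) = fun k i => Phi r p k i + (t : ℂ) * Phi r y k i := by
  funext j i
  by_cases h : j = r
  · subst h
    rw [Phi_r, Phi_r, Phi_r]
  · rw [Phi_k h, Phi_k h, Phi_k h]

theorem mem_Jm {m : Fin 3 → ℕ} {k : Fin 3} {i : ℕ} : (k, i) ∈ Jm m ↔ i < m k := by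
  unfold Jm
  simp

/-- nondegeneracy in a coordinate -/
theorem ndg_coord {m : Fin 3 → ℕ} (T : Ten (Fin 3)) {θ : ℝ} (hθ : θ ≠ 0) {r k l : Fin 3}
    (hk : k ≠ r) (hl : l ≠ r) (hkl : k ≠ l) {p y : Vec (Fin 3)} (hp : p r 0 ≠ 0)
    (hyr : y r 0 = 0) (hsc : ∀ t : ℝ, scl (some r) 0 (fun k i => p k i + (t : ℂ) * y k i) =
      scl (some r) 0 p)
    (hd : HasDerivAt (fun t : ℝ => GA m T θ (some r) 0
      (fun k i => p k i + (t : ℂ) * y k i) k 0) 0 0) : y l 0 = 0 := by
  have h1 : (fun t : ℝ => GA m T θ (some r) 0 (fun k i => p k i + (t : ℂ) * y k i) k 0) =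
      fun t : ℝ => (θ * p r 0 * p l 0 + der m (Function.update T 0 0) (scl (some r) 0 p) k 0) +
        (t : ℂ) * (θ * p r 0 * y l 0) := by
    funext t
    rw [GA_zero T θ hk hl hkl, hsc t, hyr]
    ring
  rw [h1] at hd
  have h2 : HasDerivAt (fun t : ℝ => (θ * p r 0 * p l 0 +
      der m (Function.update T 0 0) (scl (some r) 0 p) k 0) +
        (t : ℂ) * (θ * p r 0 * y l 0)) (1 * (θ * p r 0 * y l 0)) 0 := by
    apply HasDerivAt.const_add
    apply HasDerivAt.mul_const
    exact Complex.ofRealCLM.hasDerivAt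
  have h3 := hd.unique h2
  rw [one_mul] at h3
  have h4 : (θ : ℂ) * p r 0 ≠ 0 := mul_ne_zero (by exact_mod_cast hθ) hp
  rcases mul_eq_zero.mp h3.symm with h5 | h5
  · exact absurd h5 h4
  · exact h5

end TA03

open TA03 in
theorem A03 (B : Basics) (_h1 : A01_upd) : A03_Zsome := by
  intro m T th r hH hth hm
  obtain ⟨k, l, hk, hl, hkl⟩ := exists3 r
  have mk : 1 ≤ m k := by have := hm k; rwa [ee_k hk] at this
  have ml : 1 ≤ m l := by have := hm l; rwa [ee_k hl] at this
  have hθ : th 0 ≠ 0 := by
    rcases hth.1 0 with h | h <;> rw [h] <;> norm_num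
  have hθC : ((th 0 : ℝ) : ℂ) ≠ 0 := by exact_mod_cast hθ
  obtain ⟨⟨hS, hfin, hcard⟩, hF⟩ := (hH (ee (some r)) (m - ee (some r)) (ee_ne r)
    (by rw [add_tsub_cancel_of_le hm])).1
  -- the two equations
  have hsol : ∀ p ∈ ZA m T (th 0) (some r), Phi r p ∈ Sol (m - ee (some r)) (sh (ee (some r)) T) :=
    fun p hp => ((mem_ZA_iff B T (th 0) hm hk hl hkl p).1 hp).1
  have hpr : ∀ p ∈ ZA m T (th 0) (some r), p r 0 ≠ 0 := by
    intro p hp
    have h := hF _ (hsol p hp) r
    rwa [Phi_r] at h
  have hpl : ∀ p ∈ ZA m T (th 0) (some r), p l 0 =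
      -(der m (Function.update T 0 0) (ins (ee (some r)) (Phi r p)) k 0) /
        (th 0 * Phi r p r 0) := by
    intro p hp
    have h := ((mem_ZA_iff B T (th 0) hm hk hl hkl p).1 hp).2.1
    have h2 := hpr p hp
    rw [eq_div_iff (by rw [Phi_r]; exact mul_ne_zero hθC h2), ins_Phi, Phi_r]
    linear_combination h
  have hpk : ∀ p ∈ ZA m T (th 0) (some r), p k 0 =
      -(der m (Function.update T 0 0) (ins (ee (some r)) (Phi r p)) l 0) /
        (th 0 * Phi r p r 0) := by
    intro p hp
    have h := ((mem_ZA_iff B T (th 0) hm hk hl hkl p).1 hp).2.2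
    have h2 := hpr p hp
    rw [eq_div_iff (by rw [Phi_r]; exact mul_ne_zero hθC h2), ins_Phi, Phi_r]
    linear_combination h
  have hinj : Set.InjOn (Phi r) (ZA m T (th 0) (some r)) := by
    intro p hp p' hp' h
    funext j i
    have hr : ∀ i, p r i = p' r i := fun i => by
      rw [← Phi_r r p i, h, Phi_r]
    rcases cases3 r k l hk hl hkl j with h5 | h5 | h5
    · subst h5; exact hr i
    · subst h5
      rcases i with _ | i
      · rw [hpk p hp, hpk p' hp', h]
      · rw [← Phi_k hk p i, h, Phi_k hk]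
    · subst h5
      rcases i with _ | i
      · rw [hpl p hp, hpl p' hp', h]
      · rw [← Phi_k hl p i, h, Phi_k hl]
  have himg : Phi r '' (ZA m T (th 0) (some r)) = Sol (m - ee (some r)) (sh (ee (some r)) T) := by
    apply Set.Subset.antisymm
    · rintro _ ⟨p, hp, rfl⟩
      exact hsol p hp
    · intro P hP
      have hP0 : P r 0 ≠ 0 := hF P hP r
      set a : ℂ := -(der m (Function.update T 0 0) (ins (ee (some r)) P) l 0) /
        (th 0 * P r 0) with ha
      set b : ℂ := -(der m (Function.update T 0 0) (ins (ee (some r)) P) k 0) /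
        (th 0 * P r 0) with hb
      refine ⟨Psi r k a b P, ?_, Phi_Psi a b P⟩
      rw [mem_ZA_iff B T (th 0) hm hk hl hkl, Phi_Psi, ← ins_Phi, Phi_Psi]
      have q1 : Psi r k a b P r 0 = P r 0 := by unfold Psi; rw [if_pos rfl]
      have q2 : Psi r k a b P k 0 = a := by unfold Psi; rw [if_neg hk, if_pos rfl, if_pos rfl]
      have q3 : Psi r k a b P l 0 = b := by
        unfold Psi; rw [if_neg hl, if_pos rfl, if_neg hkl.symm]
      rw [q1, q2, q3]
      have hne : (th 0 : ℂ) * P r 0 ≠ 0 := mul_ne_zero hθC hP0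
      refine ⟨hP, ?_, ?_⟩
      · rw [← mul_assoc, hb, mul_div_cancel₀ _ hne]
        ring
      · rw [← mul_assoc, ha, mul_div_cancel₀ _ hne]
        ring
  refine ⟨?_, ?_, ?_⟩
  · apply Set.Finite.of_finite_image _ hinj
    rw [himg]; exact hfin
  · rw [← hinj.ncard_image, himg, hcard]
    simp [mult]
  · intro p hp
    have hP := hsol p hp
    obtain ⟨hre, hev, hnd⟩ := hS _ hP
    have hins : IsRe (ins (ee (some r)) (Phi r p)) := ins_re hre
    have hDk := der_im B (m := m) (Function.update T 0 0) hins k 0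
    have hDl := der_im B (m := m) (Function.update T 0 0) hins l 0
    have hDk0 := D_ne B hH hm hk hl hkl hP
    have hDl0 := D_ne B hH hm hl hk hkl.symm hP
    have hquot : ∀ z w : ℂ, z.im = 0 → w.im = 0 → (-z / w).im = 0 := by
      intro z w hz hw
      rw [Complex.div_im]
      simp [hz, hw]
    have hden : ((th 0 : ℂ) * Phi r p r 0).im = 0 := by
      rw [Complex.mul_im]
      simp [hre r 0]
    have hdne : ((th 0 : ℂ) * Phi r p r 0) ≠ 0 := mul_ne_zero hθC (hF _ hP r)
    refine ⟨?_, ?_, ?_, ?_⟩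
    · -- real
      intro j i
      rcases cases3 r k l hk hl hkl j with h5 | h5 | h5
      · subst h5
        rw [← Phi_r j p i]; exact hre _ _
      · subst h5
        rcases i with _ | i
        · rw [hpk p hp]
          exact hquot _ _ hDl hden
        · rw [← Phi_k hk p i]; exact hre _ _
      · subst h5
        rcases i with _ | i
        · rw [hpl p hp]
          exact hquot _ _ hDk hden
        · rw [← Phi_k hl p i]; exact hre _ _
    · -- nonzero
      intro j
      rcases cases3 r k l hk hl hkl j with h5 | h5 | h5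
      · subst h5; exact hpr p hp
      · subst h5
        rw [hpk p hp]
        exact div_ne_zero (neg_ne_zero.mpr hDl0) hdne
      · subst h5
        rw [hpl p hp]
        exact div_ne_zero (neg_ne_zero.mpr hDk0) hdne
    · -- nondegenerate
      intro y hy hd
      have hY : ∀ j i, Phi r y j i = 0 := by
        apply hnd (Phi r y)
        · intro j i hji
          rw [mem_Jm, not_lt] at hji
          by_cases h : j = r
          · subst h
            rw [Pi.sub_apply, ee_r, Nat.sub_zero] at hji
            rw [Phi_r]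
            exact hy j i (by rw [mem_Jm]; omega)
          · rw [Pi.sub_apply, ee_k h] at hji
            rw [Phi_k h]
            exact hy j (i + 1) (by rw [mem_Jm]; omega)
        · intro j i hji
          rw [mem_Jm] at hji
          by_cases h : j = r
          · subst h
            rw [Pi.sub_apply, ee_r, Nat.sub_zero] at hji
            have h1 := hd j i (by rw [mem_Jm]; exact hji)
            refine h1.congr_of_eventuallyEq (Filter.Eventually.of_forall fun t => ?_)
            show _ = GA m T (th 0) (some j) 0 (fun k i => p k i + (t : ℂ) * y k i) j i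
            rw [GA_r B T (th 0) hm, Phi_add]
          · rw [Pi.sub_apply, ee_k h] at hji
            have h1 := hd j (i + 1) (by rw [mem_Jm]; omega)
            refine h1.congr_of_eventuallyEq (Filter.Eventually.of_forall fun t => ?_)
            show _ = GA m T (th 0) (some r) 0 (fun k i => p k i + (t : ℂ) * y k i) j (i + 1)
            rw [GA_succ B T (th 0) hm h, Phi_add]
      have hyr : ∀ i, y r i = 0 := fun i => by rw [← Phi_r r y i]; exact hY r i
      have hys : ∀ j, j ≠ r → ∀ i, y j (i + 1) = 0 := fun j hj i => by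
        rw [← Phi_k hj y i]; exact hY j i
      have hsc : ∀ t : ℝ, scl (some r) 0 (fun k i => p k i + (t : ℂ) * y k i) =
          scl (some r) 0 p := by
        intro t
        rw [← ins_Phi, ← ins_Phi, Phi_add]
        congr 1
        funext j i
        rw [hY j i, mul_zero, add_zero]
      have hyl0 : y l 0 = 0 := ndg_coord (m := m) T hθ hk hl hkl (hpr p hp) (hyr 0) hsc
        (hd k 0 (by rw [mem_Jm]; omega))
      have hyk0 : y k 0 = 0 := ndg_coord (m := m) T hθ hl hk hkl.symm (hpr p hp) (hyr 0) hsc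
        (hd l 0 (by rw [mem_Jm]; omega))
      intro j i
      rcases cases3 r k l hk hl hkl j with h5 | h5 | h5
      · subst h5; exact hyr i
      · subst h5
        rcases i with _ | i
        · exact hyk0
        · exact hys _ hk i
      · subst h5
        rcases i with _ | i
        · exact hyl0
        · exact hys _ hl i
    · -- the value
      refine ⟨k, mk, ?_⟩
      rw [der_shift B T hm p k (m k) (by rw [ee_k hk]; exact mk), ee_k hk]
      have h1 := B.euler (Fin 3) (m - ee (some r)) (sh (ee (some r)) T) (Phi r p) k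
      rw [Finset.sum_range_succ, Finset.sum_eq_zero, zero_add, hP.1.1 k, one_mul] at h1
      · rw [Pi.sub_apply, ee_k hk] at h1
        rw [← h1]
        exact hev
      · intro i hi
        rw [Finset.mem_range] at hi
        rw [hP.2 k i hi, mul_zero]

end Pool.Agent.H919S
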