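/-
H919S, task A04: three legs, the limit system of the branch `none`.
-/
import Pool.Agent.H919S.Stmts

set_option autoImplicit false

namespace Pool.Agent.H919S.TA04

open Finset Filter Topology Pool.Agent.H919S

lemma ee_none (j : Fin 3) : ee none j = 1 := rfl

lemma ee_self (j : Fin 3) : ee (some j) j = 0 := by simp [ee]

lemma ee_ne {j k : Fin 3} (h : k ≠ j) : ee (some j) k = 1 := by simp [ee, h]

lemma sh_upd (e : Fin 3 → ℕ) (he : e ≠ 0) (T : Ten (Fin 3)) :
    sh e (Function.update T 0 0) = sh e T := by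
  funext ι
  simp only [sh]
  rw [Function.update_of_ne]
  intro h
  apply he
  funext k
  have := congrFun h k
  simp only [Pi.add_apply, Pi.zero_apply] at this
  simp only [Pi.zero_apply]
  omega

lemma ee_none_ne : ee none ≠ 0 := by
  intro h
  have := congrFun h 0
  simp [ee] at this

lemma ee_some_ne (j : Fin 3) : ee (some j) ≠ 0 := by
  intro h
  have h1 : (j + 1 : Fin 3) ≠ j := by
    revert j; decide
  have := congrFun h (j + 1)
  rw [ee_ne h1] at this
  simp at this

lemma scl_eq (p : Vec (Fin 3)) : scl none 0 p = ins (ee none) (drv (ee none) p) := by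
  funext k i
  simp only [scl, ins, drv]
  by_cases hi : i = 0
  · subst hi
    simp [ww, ee_none]
  · rw [if_neg hi, if_neg (by rw [ee_none]; omega), ee_none]
    congr 1
    omega

lemma drv_scl (p : Vec (Fin 3)) : drv (ee none) (scl none 0 p) = drv (ee none) p := by
  funext k i
  simp only [scl, drv]
  rw [if_neg (by rw [ee_none]; omega)]

/-- the numbers `τ_j`. -/
noncomputable def tau (m : Fin 3 → ℕ) (T : Ten (Fin 3)) (P : Vec (Fin 3)) (j : Fin 3) : ℂ :=
  der m (Function.update T 0 0) (ins (ee none) P) j 0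

lemma der_pos (B : Basics) (m : Fin 3 → ℕ) (T : Ten (Fin 3)) (hm : ee none ≤ m)
    (p : Vec (Fin 3)) (k : Fin 3) (i : ℕ) (hi : 1 ≤ i) :
    der m (Function.update T 0 0) (scl none 0 p) k i =
      der (m - ee none) (sh (ee none) T) (drv (ee none) p) k (i - 1) := by
  have h := (B.shift (Fin 3) m (ee none) (Function.update T 0 0) (scl none 0 p) hm).1 k
    (by
      intro k' _ i' hi'
      rw [ee_none] at hi'
      have : i' = 0 := by omega
      subst this
      simp [scl, ww]) i (by rw [ee_none]; exact hi)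
  rw [h, drv_scl, sh_upd _ ee_none_ne, ee_none]

lemma GA_pos (B : Basics) (m : Fin 3 → ℕ) (T : Ten (Fin 3)) (θ : ℝ) (hm : ee none ≤ m)
    (p : Vec (Fin 3)) (k : Fin 3) (i : ℕ) (hi : 1 ≤ i) :
    GA m T θ none 0 p k i =
      der (m - ee none) (sh (ee none) T) (drv (ee none) p) k (i - 1) := by
  simp only [GA]
  rw [if_neg (by omega), zero_add, der_pos B m T hm p k i hi]

lemma GA_zero (m : Fin 3 → ℕ) (T : Ten (Fin 3)) (θ : ℝ) (p : Vec (Fin 3)) (k : Fin 3) :
    GA m T θ none 0 p k 0 =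
      (θ : ℂ) * ∏ l ∈ univ.erase k, p l 0 + tau m T (drv (ee none) p) k := by
  simp only [GA, tau, scl_eq]
  simp [xp]

lemma cht_iff (m : Fin 3 → ℕ) (hm : ee none ≤ m) (p : Vec (Fin 3)) :
    Cht m p ↔ Cht (m - ee none) (drv (ee none) p) := by
  have hm' : ∀ k, 1 ≤ m k := fun k => hm k
  constructor
  · rintro ⟨h1, h2⟩
    refine ⟨fun k => ?_, fun k i hi => ?_⟩
    · simp only [drv, ee_none, Pi.sub_apply]
      have := hm' k
      rw [show 1 + (m k - 1) = m k by omega]
      exact h1 k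
    · simp only [drv, ee_none]
      simp only [Pi.sub_apply, ee_none] at hi
      exact h2 k _ (by omega)
  · rintro ⟨h1, h2⟩
    refine ⟨fun k => ?_, fun k i hi => ?_⟩
    · have h := h1 k
      simp only [drv, ee_none, Pi.sub_apply] at h
      have := hm' k
      rwa [show 1 + (m k - 1) = m k by omega] at h
    · have h := h2 k (i - 1) (by simp only [Pi.sub_apply, ee_none]; have := hm' k; omega)
      simp only [drv, ee_none] at h
      rwa [show 1 + (i - 1) = i by omega] at h

lemma mem_ZA (B : Basics) (m : Fin 3 → ℕ) (T : Ten (Fin 3)) (θ : ℝ) (hm : ee none ≤ m)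
    (p : Vec (Fin 3)) :
    p ∈ ZA m T θ none ↔ drv (ee none) p ∈ Sol (m - ee none) (sh (ee none) T) ∧
      ∀ k, (θ : ℂ) * ∏ l ∈ univ.erase k, p l 0 + tau m T (drv (ee none) p) k = 0 := by
  have hm' : ∀ k, 1 ≤ m k := fun k => hm k
  constructor
  · rintro ⟨h1, h2⟩
    refine ⟨⟨(cht_iff m hm p).1 h1, fun k i hi => ?_⟩, fun k => ?_⟩
    · simp only [Pi.sub_apply, ee_none] at hi
      have h := h2 k (i + 1) (by omega)
      rw [GA_pos B m T θ hm p k (i + 1) (by omega)] at h
      simpa using h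
    · have h := h2 k 0 (hm' k)
      rwa [GA_zero] at h
  · rintro ⟨⟨h1, h2⟩, h3⟩
    refine ⟨(cht_iff m hm p).2 h1, fun k i hi => ?_⟩
    by_cases h0 : i = 0
    · subst h0
      rw [GA_zero]
      exact h3 k
    · rw [GA_pos B m T θ hm p k i (by omega)]
      exact h2 k (i - 1) (by simp only [Pi.sub_apply, ee_none]; omega)

lemma tau_real (B : Basics) (m : Fin 3 → ℕ) (T : Ten (Fin 3)) (P : Vec (Fin 3)) (hP : IsRe P)
    (j : Fin 3) : (tau m T P j).im = 0 := by
  have h := B.cjd (Fin 3) m (Function.update T 0 0) (ins (ee none) P) j 0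
  have h2 : cj (ins (ee none) P) = ins (ee none) P := by
    funext k i
    simp only [cj, ins]
    split_ifs
    · simp
    · exact Complex.conj_eq_iff_im.2 (hP k _)
  rw [h2] at h
  exact Complex.conj_eq_iff_im.1 h.symm

lemma tau_shift (B : Basics) (m : Fin 3 → ℕ) (T : Ten (Fin 3)) (hm : ee none ≤ m)
    (P : Vec (Fin 3)) (j : Fin 3) :
    tau m T P j = der (m - ee (some j)) (sh (ee (some j)) T) (ins (Pi.single j 1) P) j 0 := by
  have hle : ee (some j) ≤ m := by
    intro k
    by_cases hk : k = j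
    · subst hk; rw [ee_self]; exact Nat.zero_le _
    · rw [ee_ne hk]; exact hm k
  have h := (B.shift (Fin 3) m (ee (some j)) (Function.update T 0 0) (ins (ee none) P) hle).1 j
    (by
      intro k hk i hi
      rw [ee_ne hk] at hi
      have : i = 0 := by omega
      subst this
      simp [ins, ee_none]) 0 (by rw [ee_self])
  rw [tau, h, sh_upd _ (ee_some_ne j), ee_self]
  congr 1
  funext k i
  simp only [drv, ins]
  by_cases hk : k = j
  · subst hk
    by_cases hi : i = 0
    · subst hi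
      rw [if_pos (by rw [ee_none, ee_self]; omega), if_pos (by rw [Pi.single_eq_same]; omega)]
    · rw [if_neg (by rw [ee_none, ee_self]; omega), if_neg (by rw [Pi.single_eq_same]; omega),
        ee_none, ee_self, Pi.single_eq_same]
      congr 1
      omega
  · rw [if_neg (by rw [ee_none, ee_ne hk]; omega), if_neg (by rw [Pi.single_eq_of_ne hk]; omega),
      ee_none, ee_ne hk, Pi.single_eq_of_ne hk]
    congr 1
    omega

lemma er0 : (univ : Finset (Fin 3)).erase 0 = {1, 2} := by decide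
lemma er1 : (univ : Finset (Fin 3)).erase 1 = {0, 2} := by decide
lemma er2 : (univ : Finset (Fin 3)).erase 2 = {0, 1} := by decide

lemma pr0 {M : Type} [CommMonoid M] (f : Fin 3 → M) :
    ∏ l ∈ (univ : Finset (Fin 3)).erase 0, f l = f 1 * f 2 := by
  rw [er0, Finset.prod_pair (by decide)]
lemma pr1 {M : Type} [CommMonoid M] (f : Fin 3 → M) :
    ∏ l ∈ (univ : Finset (Fin 3)).erase 1, f l = f 0 * f 2 := by
  rw [er1, Finset.prod_pair (by decide)]
lemma pr2 {M : Type} [CommMonoid M] (f : Fin 3 → M) :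
    ∏ l ∈ (univ : Finset (Fin 3)).erase 2, f l = f 0 * f 1 := by
  rw [er2, Finset.prod_pair (by decide)]

lemma sgn_j (B : Basics) (m : Fin 3 → ℕ) (T : Ten (Fin 3)) (th : (Fin 3 → ℕ) → ℝ)
    (hA : HypA m T th) (hm : ee none ≤ m) (P : Vec (Fin 3))
    (hP : P ∈ Sol (m - ee none) (sh (ee none) T)) (j : Fin 3) :
    0 < th (ee (some j)) * (tau m T P j).re * ∏ l ∈ univ.erase j, (P l 0).re := by
  have hle : ee (some j) ≤ m := by
    intro k
    by_cases hk : k = j
    · subst hk; rw [ee_self]; exact Nat.zero_le _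
    · rw [ee_ne hk]; exact hm k
  have h := (hA (ee (some j)) (m - ee (some j)) (ee_some_ne j)
    (by
      intro k
      simp only [Pi.add_apply, Pi.sub_apply]
      have h9 : ee (some j) k ≤ m k := hle k
      omega)).2 j
    (by
      simp only [Pi.sub_apply, ee_self]
      have : 1 ≤ m j := hm j
      omega) P
    (by
      have e1 : m - ee (some j) - Pi.single j 1 = m - ee none := by
        funext k
        simp only [Pi.sub_apply, ee_none]
        by_cases hk : k = j
        · subst hk; rw [ee_self, Pi.single_eq_same]; omega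
        · rw [ee_ne hk, Pi.single_eq_of_ne hk]; omega
      have e2 : sh (Pi.single j 1) (sh (ee (some j)) T) = sh (ee none) T := by
        funext ι
        simp only [sh]
        congr 1
        funext k
        simp only [Pi.add_apply, ee_none]
        by_cases hk : k = j
        · subst hk; rw [ee_self, Pi.single_eq_same]; omega
        · rw [ee_ne hk, Pi.single_eq_of_ne hk]; omega
      rw [e1, e2]
      exact hP)
  rw [tau_shift B m T hm P j]
  exact h

lemma good0 (m : Fin 3 → ℕ) (T : Ten (Fin 3)) (th : (Fin 3 → ℕ) → ℝ)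
    (hA : HypA m T th) (hm : ee none ≤ m) : GoodF (m - ee none) (sh (ee none) T) :=
  (hA (ee none) (m - ee none) ee_none_ne
    (by
      intro k
      simp only [Pi.add_apply, Pi.sub_apply]
      have h9 : ee none k ≤ m k := hm k
      omega)).1

lemma key (B : Basics) (m : Fin 3 → ℕ) (T : Ten (Fin 3)) (th : (Fin 3 → ℕ) → ℝ)
    (hA : HypA m T th) (hS : SgnFn th) (hm : ee none ≤ m) (P : Vec (Fin 3))
    (hP : P ∈ Sol (m - ee none) (sh (ee none) T)) :
    ∃ t : Fin 3 → ℝ, (∀ j, tau m T P j = (t j : ℂ)) ∧ th 0 * (t 0 * t 1 * t 2) < 0 := by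
  have hg := good0 m T th hA hm
  have hre := (hg.1.1 P hP).1
  refine ⟨fun j => (tau m T P j).re, fun j => ?_, ?_⟩
  · apply Complex.ext
    · simp
    · simp [tau_real B m T P hre j]
  · have h0 := sgn_j B m T th hA hm P hP 0
    have h1 := sgn_j B m T th hA hm P hP 1
    have h2 := sgn_j B m T th hA hm P hP 2
    rw [pr0] at h0
    rw [pr1] at h1
    rw [pr2] at h2
    set a := (tau m T P 0).re
    set b := (tau m T P 1).re
    set c := (tau m T P 2).re
    set x := (P 0 0).re
    set y := (P 1 0).re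
    set z := (P 2 0).re
    have h := mul_pos (mul_pos h0 h1) h2
    have hmul := hS.2
    have e : th (ee (some 0)) * a * (y * z) * (th (ee (some 1)) * b * (x * z)) *
        (th (ee (some 2)) * c * (x * y)) =
        (th (ee (some 0)) * th (ee (some 1)) * th (ee (some 2))) * (a * b * c) * (x * y * z) ^ 2 := by
      ring
    rw [e] at h
    have hsq : 0 ≤ (x * y * z) ^ 2 := sq_nonneg _
    have h3 : 0 < (th (ee (some 0)) * th (ee (some 1)) * th (ee (some 2))) * (a * b * c) := by
      by_contra hcon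
      push Not at hcon
      exact absurd h (not_lt.2 (mul_nonpos_of_nonpos_of_nonneg hcon hsq))
    have h4 : th (ee (some 0)) * th (ee (some 1)) * th (ee (some 2)) = - th 0 := by
      rcases hS.1 0 with h5 | h5 <;> rw [h5] at hmul ⊢ <;> linarith
    rw [h4] at h3
    show th 0 * (a * b * c) < 0
    linarith

lemma th_sq (th : (Fin 3 → ℕ) → ℝ) (hS : SgnFn th) : ((th 0 : ℝ) : ℂ) * ((th 0 : ℝ) : ℂ) = 1 := by
  rcases hS.1 0 with h | h <;> rw [h] <;> norm_num

lemma th_sqR (th : (Fin 3 → ℕ) → ℝ) (hS : SgnFn th) : th 0 * th 0 = 1 := by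
  rcases hS.1 0 with h | h <;> rw [h] <;> norm_num

/-- first coordinate of the solution over `P`. -/
noncomputable def aa (m : Fin 3 → ℕ) (T : Ten (Fin 3)) (θ : ℝ) (P : Vec (Fin 3)) (b : Bool) : ℝ :=
  (if b then 1 else -1) *
    Real.sqrt (-(θ * ((tau m T P 1).re * (tau m T P 2).re)) / (tau m T P 0).re)

/-- the solution over `P`. -/
noncomputable def FF (m : Fin 3 → ℕ) (T : Ten (Fin 3)) (θ : ℝ) (Pb : Vec (Fin 3) × Bool) :
    Vec (Fin 3) := fun k i =>
  if i = 0 then
    (![((aa m T θ Pb.1 Pb.2 : ℝ) : ℂ),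
      ((-(θ * (tau m T Pb.1 2).re) / aa m T θ Pb.1 Pb.2 : ℝ) : ℂ),
      ((-(θ * (tau m T Pb.1 1).re) / aa m T θ Pb.1 Pb.2 : ℝ) : ℂ)] : Fin 3 → ℂ) k
  else Pb.1 k (i - 1)

lemma drv_FF (m : Fin 3 → ℕ) (T : Ten (Fin 3)) (θ : ℝ) (Pb : Vec (Fin 3) × Bool) :
    drv (ee none) (FF m T θ Pb) = Pb.1 := by
  funext k i
  simp only [drv, FF]
  rw [if_neg (by rw [ee_none]; omega), ee_none, show 1 + i - 1 = i by omega]

lemma FF00 (m : Fin 3 → ℕ) (T : Ten (Fin 3)) (θ : ℝ) (Pb : Vec (Fin 3) × Bool) :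
    FF m T θ Pb 0 0 = ((aa m T θ Pb.1 Pb.2 : ℝ) : ℂ) := by simp [FF]
lemma FF10 (m : Fin 3 → ℕ) (T : Ten (Fin 3)) (θ : ℝ) (Pb : Vec (Fin 3) × Bool) :
    FF m T θ Pb 1 0 = ((-(θ * (tau m T Pb.1 2).re) / aa m T θ Pb.1 Pb.2 : ℝ) : ℂ) := by simp [FF]
lemma FF20 (m : Fin 3 → ℕ) (T : Ten (Fin 3)) (θ : ℝ) (Pb : Vec (Fin 3) × Bool) :
    FF m T θ Pb 2 0 = ((-(θ * (tau m T Pb.1 1).re) / aa m T θ Pb.1 Pb.2 : ℝ) : ℂ) := by simp [FF]

lemma aa_sq {m : Fin 3 → ℕ} {T : Ten (Fin 3)} {θ : ℝ} {P : Vec (Fin 3)} (b : Bool)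
    (h : 0 < -(θ * ((tau m T P 1).re * (tau m T P 2).re)) / (tau m T P 0).re) :
    aa m T θ P b * aa m T θ P b =
      -(θ * ((tau m T P 1).re * (tau m T P 2).re)) / (tau m T P 0).re := by
  have hs := Real.mul_self_sqrt h.le
  unfold aa
  cases b
  · simp only [Bool.false_eq_true, if_false]
    calc _ = Real.sqrt (-(θ * ((tau m T P 1).re * (tau m T P 2).re)) / (tau m T P 0).re) *
          Real.sqrt (-(θ * ((tau m T P 1).re * (tau m T P 2).re)) / (tau m T P 0).re) := by ring
      _ = _ := hs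
  · simp only [if_true]
    calc _ = Real.sqrt (-(θ * ((tau m T P 1).re * (tau m T P 2).re)) / (tau m T P 0).re) *
          Real.sqrt (-(θ * ((tau m T P 1).re * (tau m T P 2).re)) / (tau m T P 0).re) := by ring
      _ = _ := hs

lemma pos_arg {θ a b c : ℝ} (_ : θ * θ = 1) (h : θ * (a * b * c) < 0) :
    0 < -(θ * (b * c)) / a := by
  have ha : a ≠ 0 := by
    rintro rfl
    simp at h
  have : -(θ * (b * c)) / a = -(θ * (a * b * c)) / (a * a) := by
    field_simp
  rw [this]
  apply div_pos (by linarith)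
  exact mul_self_pos.2 ha

lemma forall3 {p : Fin 3 → Prop} (h0 : p 0) (h1 : p 1) (h2 : p 2) : ∀ k, p k := by
  intro k
  fin_cases k
  · exact h0
  · exact h1
  · exact h2

lemma FF_mem (B : Basics) (m : Fin 3 → ℕ) (T : Ten (Fin 3)) (th : (Fin 3 → ℕ) → ℝ)
    (hA : HypA m T th) (hS : SgnFn th) (hm : ee none ≤ m) (P : Vec (Fin 3))
    (hP : P ∈ Sol (m - ee none) (sh (ee none) T)) (b : Bool) :
    FF m T (th 0) (P, b) ∈ ZA m T (th 0) none ∧ (∀ j, FF m T (th 0) (P, b) j 0 ≠ 0) ∧
      (aa m T (th 0) P b ≠ 0) := by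
  obtain ⟨t, ht, hneg⟩ := key B m T th hA hS hm P hP
  have hsq := th_sqR th hS
  have hre : ∀ j, (tau m T P j).re = t j := fun j => by rw [ht j]; simp
  have hpos : 0 < -(th 0 * ((tau m T P 1).re * (tau m T P 2).re)) / (tau m T P 0).re := by
    rw [hre, hre, hre]
    exact pos_arg hsq hneg
  have haa := aa_sq b hpos
  rw [hre, hre, hre] at haa
  have ha0 : aa m T (th 0) P b ≠ 0 := by
    intro h0
    rw [h0] at haa
    rw [hre, hre, hre] at hpos
    linarith
  have h0 : th 0 ≠ 0 := by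
    intro h; rw [h] at hneg; simp at hneg
  have ht0 : t 0 ≠ 0 := by
    intro h; rw [h] at hneg; simp at hneg
  have ht1 : t 1 ≠ 0 := by
    intro h; rw [h] at hneg; simp at hneg
  have ht2 : t 2 ≠ 0 := by
    intro h; rw [h] at hneg; simp at hneg
  refine ⟨?_, ?_, ha0⟩
  · rw [mem_ZA B m T (th 0) hm, drv_FF]
    refine ⟨hP, ?_⟩
    apply forall3
    · rw [pr0, FF10, FF20, ht 0]
      simp only [hre]
      rw [← Complex.ofReal_mul, ← Complex.ofReal_mul, ← Complex.ofReal_add]
      rw [show th 0 * (-(th 0 * t 2) / aa m T (th 0) P b * (-(th 0 * t 1) / aa m T (th 0) P b)) + t 0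
        = 0 from ?_]
      · simp
      have e : -(th 0 * t 2) / aa m T (th 0) P b * (-(th 0 * t 1) / aa m T (th 0) P b) =
          (th 0 * th 0) * (t 1 * t 2) / (aa m T (th 0) P b * aa m T (th 0) P b) := by
        field_simp
      rw [e, haa, hsq]
      field_simp
      ring
    · rw [pr1, FF00, FF20, ht 1]
      simp only [Complex.ofReal_re]
      rw [← Complex.ofReal_mul, ← Complex.ofReal_mul, ← Complex.ofReal_add]
      rw [show th 0 * (aa m T (th 0) P b * (-(th 0 * t 1) / aa m T (th 0) P b)) + t 1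
        = 0 from ?_]
      · simp
      rw [mul_div_cancel₀ _ ha0]
      linear_combination (-(t 1)) * hsq
    · rw [pr2, FF00, FF10, ht 2]
      simp only [Complex.ofReal_re]
      rw [← Complex.ofReal_mul, ← Complex.ofReal_mul, ← Complex.ofReal_add]
      rw [show th 0 * (aa m T (th 0) P b * (-(th 0 * t 2) / aa m T (th 0) P b)) + t 2
        = 0 from ?_]
      · simp
      rw [mul_div_cancel₀ _ ha0]
      linear_combination (-(t 2)) * hsq
  · apply forall3
    · rw [FF00]
      exact_mod_cast ha0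
    · rw [FF10]
      simp only [hre]
      have : -(th 0 * t 2) / aa m T (th 0) P b ≠ 0 :=
        div_ne_zero (neg_ne_zero.2 (mul_ne_zero h0 ht2)) ha0
      exact_mod_cast this
    · rw [FF20]
      simp only [hre]
      have : -(th 0 * t 1) / aa m T (th 0) P b ≠ 0 :=
        div_ne_zero (neg_ne_zero.2 (mul_ne_zero h0 ht1)) ha0
      exact_mod_cast this

lemma FF_re (B : Basics) (m : Fin 3 → ℕ) (T : Ten (Fin 3)) (θ : ℝ) (P : Vec (Fin 3))
    (hP : IsRe P) (b : Bool) : IsRe (FF m T θ (P, b)) := by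
  intro k i
  by_cases hi : i = 0
  · subst hi
    revert k
    apply forall3
    · rw [FF00]; exact Complex.ofReal_im _
    · rw [FF10]; exact Complex.ofReal_im _
    · rw [FF20]; exact Complex.ofReal_im _
  · simp only [FF]
    rw [if_neg hi]
    exact hP k _

lemma FF_surj (B : Basics) (m : Fin 3 → ℕ) (T : Ten (Fin 3)) (th : (Fin 3 → ℕ) → ℝ)
    (hA : HypA m T th) (hS : SgnFn th) (hm : ee none ≤ m) (p : Vec (Fin 3))
    (hp : p ∈ ZA m T (th 0) none) : ∃ b, FF m T (th 0) (drv (ee none) p, b) = p := by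
  obtain ⟨hP, heq⟩ := (mem_ZA B m T (th 0) hm p).1 hp
  obtain ⟨t, ht, hneg⟩ := key B m T th hA hS hm _ hP
  have hsq := th_sqR th hS
  have hsqC := th_sq th hS
  have hre : ∀ j, (tau m T (drv (ee none) p) j).re = t j := fun j => by rw [ht j]; simp
  have hpos : 0 < -(th 0 * ((tau m T (drv (ee none) p) 1).re * (tau m T (drv (ee none) p) 2).re)) /
      (tau m T (drv (ee none) p) 0).re := by
    rw [hre, hre, hre]
    exact pos_arg hsq hneg
  have h0 : th 0 ≠ 0 := by
    intro h; rw [h] at hneg; simp at hneg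
  have ht0 : t 0 ≠ 0 := by
    intro h; rw [h] at hneg; simp at hneg
  have ht1 : t 1 ≠ 0 := by
    intro h; rw [h] at hneg; simp at hneg
  have ht2 : t 2 ≠ 0 := by
    intro h; rw [h] at hneg; simp at hneg
  have e0 := heq 0
  have e1 := heq 1
  have e2 := heq 2
  rw [pr0, ht 0] at e0
  rw [pr1, ht 1] at e1
  rw [pr2, ht 2] at e2
  have f0 : p 1 0 * p 2 0 = -((th 0 : ℂ) * t 0) := by
    linear_combination (th 0 : ℂ) * e0 - (p 1 0 * p 2 0) * hsqC
  have f1 : p 0 0 * p 2 0 = -((th 0 : ℂ) * t 1) := by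
    linear_combination (th 0 : ℂ) * e1 - (p 0 0 * p 2 0) * hsqC
  have f2 : p 0 0 * p 1 0 = -((th 0 : ℂ) * t 2) := by
    linear_combination (th 0 : ℂ) * e2 - (p 0 0 * p 1 0) * hsqC
  have ht0C : (t 0 : ℂ) ≠ 0 := by exact_mod_cast ht0
  have h0C : (th 0 : ℂ) ≠ 0 := by exact_mod_cast h0
  have hsqp : p 0 0 * p 0 0 = ((-(th 0 * (t 1 * t 2)) / t 0 : ℝ) : ℂ) := by
    push_cast
    rw [eq_div_iff ht0C]
    have h3 : p 0 0 * p 0 0 * (p 1 0 * p 2 0) = (th 0 : ℂ) * th 0 * (t 1 * t 2) := by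
      linear_combination (p 0 0 * p 1 0) * f1 + (-((th 0 : ℂ) * t 1)) * f2
    rw [f0] at h3
    linear_combination (-(th 0 : ℂ)) * h3 - (p 0 0 * p 0 0 * t 0 + (th 0 : ℂ) * (t 1 * t 2)) * hsqC
  have haT := aa_sq true hpos
  have haF := aa_sq false hpos
  rw [hre, hre, hre] at haT haF
  have hor : p 0 0 = ((aa m T (th 0) (drv (ee none) p) true : ℝ) : ℂ) ∨
      p 0 0 = ((aa m T (th 0) (drv (ee none) p) false : ℝ) : ℂ) := by
    have hf : aa m T (th 0) (drv (ee none) p) false = - aa m T (th 0) (drv (ee none) p) true := by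
      simp [aa]
    rw [hf, Complex.ofReal_neg]
    apply mul_self_eq_mul_self_iff.1
    rw [hsqp, ← haT, Complex.ofReal_mul]
  have hb : ∃ b, p 0 0 = ((aa m T (th 0) (drv (ee none) p) b : ℝ) : ℂ) := by
    rcases hor with h | h
    · exact ⟨true, h⟩
    · exact ⟨false, h⟩
  obtain ⟨b, hb⟩ := hb
  refine ⟨b, ?_⟩
  have hp0 : p 0 0 ≠ 0 := by
    intro h
    rw [h, zero_mul] at f2
    have ht2C : (t 2 : ℂ) ≠ 0 := by exact_mod_cast ht2
    exact (neg_ne_zero.2 (mul_ne_zero h0C ht2C)) f2.symm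
  funext k i
  by_cases hi : i = 0
  · subst hi
    revert k
    apply forall3
    · rw [FF00]; exact hb.symm
    · rw [FF10]
      simp only [hre]
      push_cast
      rw [← hb, div_eq_iff hp0]
      linear_combination -f2
    · rw [FF20]
      simp only [hre]
      push_cast
      rw [← hb, div_eq_iff hp0]
      linear_combination -f1
  · simp only [FF, drv]
    rw [if_neg hi, ee_none]
    congr 1
    omega

lemma FF_inj (B : Basics) (m : Fin 3 → ℕ) (T : Ten (Fin 3)) (th : (Fin 3 → ℕ) → ℝ)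
    (hA : HypA m T th) (hS : SgnFn th) (hm : ee none ≤ m) :
    Set.InjOn (FF m T (th 0))
      (Sol (m - ee none) (sh (ee none) T) ×ˢ (Set.univ : Set Bool)) := by
  rintro ⟨P, b⟩ ⟨hP, -⟩ ⟨P', b'⟩ ⟨hP', -⟩ h
  have h1 : P = P' := by
    have := congrArg (drv (ee none)) h
    rwa [drv_FF, drv_FF] at this
  subst h1
  have h2 : aa m T (th 0) P b = aa m T (th 0) P b' := by
    have := congrFun (congrFun h 0) 0
    rw [FF00, FF00] at this
    exact_mod_cast this
  have h3 := (FF_mem B m T th hA hS hm P hP true).2.2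
  have hf : aa m T (th 0) P false = - aa m T (th 0) P true := by
    simp [aa]
  congr 1
  cases b <;> cases b'
  · rfl
  · rw [hf] at h2
    exact absurd (by linarith) h3
  · rw [hf] at h2
    exact absurd (by linarith) h3
  · rfl

lemma ZA_eq (B : Basics) (m : Fin 3 → ℕ) (T : Ten (Fin 3)) (th : (Fin 3 → ℕ) → ℝ)
    (hA : HypA m T th) (hS : SgnFn th) (hm : ee none ≤ m) :
    ZA m T (th 0) none = FF m T (th 0) ''
      (Sol (m - ee none) (sh (ee none) T) ×ˢ (Set.univ : Set Bool)) := by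
  apply Set.Subset.antisymm
  · intro p hp
    obtain ⟨b, hb⟩ := FF_surj B m T th hA hS hm p hp
    exact ⟨(drv (ee none) p, b), ⟨((mem_ZA B m T (th 0) hm p).1 hp).1, Set.mem_univ _⟩, hb⟩
  · rintro _ ⟨⟨P, b⟩, ⟨hP, -⟩, rfl⟩
    exact (FF_mem B m T th hA hS hm P hP b).1

lemma mem_Jm {m : Fin 3 → ℕ} {k : Fin 3} {i : ℕ} : (k, i) ∈ Jm m ↔ i < m k := by
  simp only [Jm, Finset.mem_biUnion, Finset.mem_univ, true_and, Finset.mem_image, Finset.mem_range,
    Prod.mk.injEq]
  constructor
  · rintro ⟨k', i', hi', rfl, rfl⟩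
    exact hi'
  · intro h
    exact ⟨k, i, h, rfl, rfl⟩

lemma ndg (B : Basics) (m : Fin 3 → ℕ) (T : Ten (Fin 3)) (θ : ℝ) (hθ : (θ : ℂ) ≠ 0)
    (hm : ee none ≤ m)
    (p : Vec (Fin 3)) (hp0 : ∀ j, p j 0 ≠ 0)
    (hN : NDG (Jm (m - ee none)) (der (m - ee none) (sh (ee none) T)) (drv (ee none) p)) :
    NDG (Jm m) (GA m T θ none 0) p := by
  have hm' : ∀ k, 1 ≤ m k := fun k => hm k
  intro y hy hd
  have hY : ∀ k i, drv (ee none) y k i = 0 := by
    apply hN
    · intro k i hki
      rw [mem_Jm] at hki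
      simp only [Pi.sub_apply, ee_none] at hki
      apply hy
      rw [mem_Jm, ee_none]
      have := hm' k
      omega
    · intro k i hki
      rw [mem_Jm] at hki
      simp only [Pi.sub_apply, ee_none] at hki
      have h := hd k (i + 1) (by rw [mem_Jm]; omega)
      have e : (fun t : ℝ => GA m T θ none 0 (fun k i => p k i + (t : ℂ) * y k i) k (i + 1)) =
          fun t : ℝ => der (m - ee none) (sh (ee none) T)
            (fun k i => drv (ee none) p k i + (t : ℂ) * drv (ee none) y k i) k i := by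
        funext t
        rw [GA_pos B m T θ hm _ k (i + 1) (by omega)]
        rfl
      rw [e] at h
      exact h
  have hy1 : ∀ k i, i ≠ 0 → y k i = 0 := by
    intro k i hi
    have h := hY k (i - 1)
    simp only [drv] at h
    rw [ee_none] at h
    rwa [show 1 + (i - 1) = i by omega] at h
  have hc : ∀ t : ℝ, drv (ee none) (fun k i => p k i + (t : ℂ) * y k i) = drv (ee none) p := by
    intro t
    funext k i
    simp only [drv]
    rw [hy1 k (ee none k + i) (by rw [ee_none]; omega)]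
    simp
  have main : ∀ k l r : Fin 3, (∀ f : Fin 3 → ℂ, ∏ l ∈ (univ : Finset (Fin 3)).erase k, f l = f l * f r) →
      y l 0 * p r 0 + p l 0 * y r 0 = 0 := by
    intro k l r hprod
    have h := hd k 0 (by rw [mem_Jm]; exact hm' k)
    have e : (fun t : ℝ => GA m T θ none 0 (fun k i => p k i + (t : ℂ) * y k i) k 0) =
        fun t : ℝ => (θ : ℂ) * ((p l 0 + (t : ℂ) * y l 0) * (p r 0 + (t : ℂ) * y r 0)) +
          tau m T (drv (ee none) p) k := by
      funext t
      rw [GA_zero, hc t, hprod]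
    rw [e] at h
    have ht : HasDerivAt (fun t : ℝ => (t : ℂ)) 1 0 := Complex.ofRealCLM.hasDerivAt
    have h1 : HasDerivAt (fun t : ℝ => p l 0 + (t : ℂ) * y l 0) (1 * y l 0) 0 :=
      (ht.mul_const (y l 0)).const_add (p l 0)
    have h2 : HasDerivAt (fun t : ℝ => p r 0 + (t : ℂ) * y r 0) (1 * y r 0) 0 :=
      (ht.mul_const (y r 0)).const_add (p r 0)
    have h3 := ((h1.mul h2).const_mul (θ : ℂ)).add_const (tau m T (drv (ee none) p) k)
    have h4 := h.unique h3
    simp only [Complex.ofReal_zero, zero_mul, add_zero, one_mul] at h4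
    have h5 := (mul_eq_zero.1 h4.symm).resolve_left hθ
    exact h5
  have m0 := main 0 1 2 (fun f => pr0 f)
  have m1 := main 1 0 2 (fun f => pr1 f)
  have m2 := main 2 0 1 (fun f => pr2 f)
  have hy0 : y 0 0 = 0 := by
    have h : y 0 0 * (p 1 0 * p 2 0) = 0 := by
      linear_combination (1/2) * (p 1 0) * m1 + (1/2) * (p 2 0) * m2 - (1/2) * (p 0 0) * m0
    exact (mul_eq_zero.1 h).resolve_right (mul_ne_zero (hp0 1) (hp0 2))
  have hy10 : y 1 0 = 0 := by
    rw [hy0, zero_mul, zero_add] at m2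
    exact (mul_eq_zero.1 m2).resolve_left (hp0 0)
  have hy20 : y 2 0 = 0 := by
    rw [hy0, zero_mul, zero_add] at m1
    exact (mul_eq_zero.1 m1).resolve_left (hp0 0)
  intro k i
  by_cases hi : i = 0
  · subst hi
    revert k
    exact forall3 hy0 hy10 hy20
  · exact hy1 k i hi

lemma value (B : Basics) (m : Fin 3 → ℕ) (T : Ten (Fin 3)) (hm : ee none ≤ m)
    (p : Vec (Fin 3)) (hP : drv (ee none) p ∈ Sol (m - ee none) (sh (ee none) T))
    (hev : ev (m - ee none) (sh (ee none) T) (drv (ee none) p) ≠ 0) :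
    der m (Function.update T 0 0) (scl none 0 p) 0 (m 0) ≠ 0 := by
  have hm' : ∀ k, 1 ≤ m k := fun k => hm k
  rw [der_pos B m T hm p 0 (m 0) (hm' 0)]
  have h := B.euler (Fin 3) (m - ee none) (sh (ee none) T) (drv (ee none) p) 0
  rw [Finset.sum_range_succ, Finset.sum_eq_zero, zero_add, hP.1.1 0, one_mul] at h
  · rw [h] at hev
    exact hev
  · intro i hi
    rw [hP.2 0 i (Finset.mem_range.1 hi), mul_zero]

end Pool.Agent.H919S.TA04

namespace Pool.Agent.H919S

open TA04 in
theorem A04 (B : Basics) (h1 : A01_upd) : A04_Znone := by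
  intro m T th hA hS hm
  have hg := good0 m T th hA hm
  refine ⟨?_, ?_, ?_⟩
  · rw [ZA_eq B m T th hA hS hm]
    exact (hg.1.2.1.prod Set.finite_univ).image _
  · rw [ZA_eq B m T th hA hS hm, Set.InjOn.ncard_image (FF_inj B m T th hA hS hm),
      Set.ncard_prod, Set.ncard_univ, Nat.card_eq_fintype_card, Fintype.card_bool]
    push_cast
    rw [hg.1.2.2]
    simp only [mult, Option.elim]
    ring
  · intro p hp
    obtain ⟨hP, heq⟩ := (mem_ZA B m T (th 0) hm p).1 hp
    obtain ⟨b, hb⟩ := FF_surj B m T th hA hS hm p hp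
    obtain ⟨g1, g2, g3⟩ := hg.1.1 _ hP
    have hne := (FF_mem B m T th hA hS hm _ hP b).2.1
    have hre := FF_re B m T (th 0) _ g1 b
    rw [hb] at hne hre
    have hθ : ((th 0 : ℝ) : ℂ) ≠ 0 := by
      rcases hS.1 0 with h | h <;> rw [h] <;> norm_num
    refine ⟨hre, hne, ndg B m T (th 0) hθ hm p hne g3, 0, ?_, ?_⟩
    · exact hm 0
    · exact value B m T hm p hP g2

end Pool.Agent.H919S
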