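/-
H919S A05: covering, first part: the limit point (helper903).
-/
import Pool.Agent.H919S.Stmts

set_option autoImplicit false

namespace Pool.Agent.H919S

open Finset Filter Topology

namespace TA05

theorem ee_ne_zero (o : Option (Fin 3)) : ee o ≠ 0 := by
  intro h
  rcases o with _ | r
  · have := congrFun h 0
    simp [ee] at this
  · have h1 : ∃ j : Fin 3, j ≠ r := by
      fin_cases r
      · exact ⟨1, by decide⟩
      · exact ⟨0, by decide⟩
      · exact ⟨0, by decide⟩
    obtain ⟨j, hj⟩ := h1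
    have := congrFun h j
    simp [ee, hj] at this

theorem sh_update (e : Fin 3 → ℕ) (he : e ≠ 0) (T : Ten (Fin 3)) :
    sh e (Function.update T 0 0) = sh e T := by
  funext ι
  unfold sh
  rw [Function.update_of_ne]
  intro h
  apply he
  funext j
  have := congrFun h j
  simp only [Pi.add_apply, Pi.zero_apply] at this ⊢
  omega

end TA05

open TA05 in
theorem A05 (B : Basics) (h1 : A01_upd) : A05_cov0 := by
  intro l hl m T th x hH hS hm hx
  have hθ : th 0 ≠ 0 := by
    rcases hS.1 0 with h | h <;> rw [h] <;> norm_num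
  have hl0 : Tendsto (fun ε : ℝ => ε) l (𝓝[>] 0) := hl
  have hε : ∀ᶠ ε in (l : Filter ℝ), ε ≠ 0 := by
    have : ∀ᶠ ε in 𝓝[>] (0 : ℝ), ε ≠ 0 := by
      filter_upwards [self_mem_nhdsWithin] with ε h
      exact ne_of_gt h
    exact hl this
  obtain ⟨m2, z, hm2, hz, hne, hlim⟩ := B.lim (Fin 3) l m x
    (by filter_upwards [hx] with ε h using h.1.2)
    (by
      filter_upwards [hx] with ε h
      intro k
      exact ⟨m k, by rw [h.1.1 k]; exact one_ne_zero⟩)
  obtain ⟨u, hu⟩ : ∃ u : ℝ → Vec (Fin 3), u = fun ε k i => x ε k i / x ε k (m2 k) := ⟨_, rfl⟩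
  have hul : ∀ k i, Tendsto (fun ε => u ε k i) l (𝓝 (z k i)) := by
    intro k i
    rw [hu]
    exact hlim k i
  obtain ⟨T0, hT0⟩ : ∃ T0 : Ten (Fin 3), T0 = Function.update T 0 0 := ⟨_, rfl⟩
  have hd := (B.tend (Fin 3) ℝ (l : Filter ℝ) u z hul m T0).1
  -- the equations
  have heq : ∀ᶠ ε in (l : Filter ℝ), ∀ k i, i < m k →
      (if i = 0 then ((th 0 * (ε ^ 2)⁻¹ : ℝ) : ℂ) * ∏ l ∈ univ.erase k, u ε l 0 else 0) +
        der m T0 (u ε) k i = 0 := by
    filter_upwards [hx] with ε h
    intro k i hi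
    rw [hT0, ← h1 (Fin 3) m T (th 0 * (ε ^ 2)⁻¹) (u ε) k i]
    have h2 := (B.hom (Fin 3) m (TA T (th 0) ε) (fun k => (x ε k (m2 k))⁻¹) (x ε)).1 k i
    have h3 : (fun (l : Fin 3) (i : ℕ) => (fun k => (x ε k (m2 k))⁻¹) l * x ε l i) = u ε := by
      rw [hu]
      funext k i
      show (x ε k (m2 k))⁻¹ * x ε k i = x ε k i / x ε k (m2 k)
      rw [div_eq_inv_mul]
    rw [h3, h.2 k i hi, mul_zero] at h2
    exact h2
  -- equations with `i ≥ 1`
  have hz1 : ∀ k i, i ≠ 0 → i < m k → der m T0 z k i = 0 := by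
    intro k i hi0 hi
    refine tendsto_nhds_unique (hd k i) (tendsto_const_nhds.congr' ?_)
    filter_upwards [heq] with ε h
    have := h k i hi
    rw [if_neg hi0, zero_add] at this
    exact this.symm
  -- product of the other two
  have hprod : ∀ k, 0 < m k → ∏ l ∈ univ.erase k, z l 0 = 0 := by
    intro k hk
    have hA : Tendsto (fun ε => ∏ l ∈ univ.erase k, u ε l 0) l (𝓝 (∏ l ∈ univ.erase k, z l 0)) :=
      tendsto_finsetProd _ fun l _ => hul l 0
    have hB : Tendsto (fun ε : ℝ => -(((th 0)⁻¹ * ε ^ 2 : ℝ) : ℂ) * der m T0 (u ε) k 0) l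
        (𝓝 (-(((th 0)⁻¹ * 0 ^ 2 : ℝ) : ℂ) * der m T0 z k 0)) := by
      refine Tendsto.mul (Tendsto.neg ?_) (hd k 0)
      refine (Complex.continuous_ofReal.tendsto _).comp ?_
      exact Tendsto.const_mul _ ((hl0.mono_right nhdsWithin_le_nhds).pow 2)
    have h0 : -(((th 0)⁻¹ * 0 ^ 2 : ℝ) : ℂ) * der m T0 z k 0 = 0 := by simp
    rw [h0] at hB
    refine tendsto_nhds_unique hA (hB.congr' ?_)
    filter_upwards [heq, hε] with ε h hε
    have := h k 0 hk
    rw [if_pos rfl] at this
    have h3 : der m T0 (u ε) k 0 = -(((th 0 * (ε ^ 2)⁻¹ : ℝ) : ℂ) * ∏ l ∈ univ.erase k, u ε l 0) := by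
      linear_combination this
    rw [h3]
    have h4 : (((th 0)⁻¹ * ε ^ 2 : ℝ) : ℂ) * ((th 0 * (ε ^ 2)⁻¹ : ℝ) : ℂ) = 1 := by
      rw [← Complex.ofReal_mul]
      have : (th 0)⁻¹ * ε ^ 2 * (th 0 * (ε ^ 2)⁻¹) = 1 := by
        field_simp
      rw [this, Complex.ofReal_one]
    linear_combination (∏ l ∈ univ.erase k, u ε l 0) * h4
  -- comparison of two equations
  have hcmp : ∀ r k, 0 < m r → 0 < m k → z r 0 * der m T0 z r 0 = z k 0 * der m T0 z k 0 := by
    intro r k hr hk
    refine tendsto_nhds_unique ((hul r 0).mul (hd r 0)) (((hul k 0).mul (hd k 0)).congr' ?_)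
    filter_upwards [heq] with ε h
    have h3 := h r 0 hr
    have h4 := h k 0 hk
    rw [if_pos rfl] at h3 h4
    have h5 : ∀ j, u ε j 0 * ∏ l ∈ univ.erase j, u ε l 0 = ∏ l, u ε l 0 := fun j =>
      Finset.mul_prod_erase _ (fun l => u ε l 0) (mem_univ j)
    linear_combination (u ε k 0) * h4 - (u ε r 0) * h3 - ((th 0 * (ε ^ 2)⁻¹ : ℝ) : ℂ) * (h5 k) +
      ((th 0 * (ε ^ 2)⁻¹ : ℝ) : ℂ) * (h5 r)
  -- zeros
  have hZm : ∀ j, z j 0 = 0 → 0 < m2 j := by
    intro j hj
    by_contra h
    have h2 : m2 j = 0 := by omega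
    have h3 := hz.1 j
    rw [h2, hj] at h3
    exact zero_ne_one h3
  have hZex : ∀ k, 0 < m k → ∃ j, j ≠ k ∧ z j 0 = 0 := by
    intro k hk
    obtain ⟨j, hj, hj2⟩ := Finset.prod_eq_zero_iff.1 (hprod k hk)
    exact ⟨j, (Finset.mem_erase.1 hj).1, hj2⟩
  obtain ⟨i0, _, _, hi0, _⟩ := hm
  obtain ⟨a, _, ha⟩ := hZex i0 hi0
  have ham : 0 < m a := (hZm a ha).trans_le (hm2 a)
  obtain ⟨b, hba, hb⟩ := hZex a ham
  have hbm : 0 < m b := (hZm b hb).trans_le (hm2 b)
  have hzj : ∀ j, 0 < m j → z j 0 * der m T0 z j 0 = 0 := by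
    intro j hj
    rw [hcmp j a hj ham, ha, zero_mul]
  -- the branch type
  obtain ⟨o, ho1, ho2⟩ : ∃ o : Option (Fin 3), (∀ k i, i < ee o k → z k i = 0) ∧
      ∀ k, ee o k = 0 → z k 0 ≠ 0 := by
    by_cases hall : ∀ j, z j 0 = 0
    · refine ⟨none, fun k i hi => ?_, fun k hk => ?_⟩
      · have : i = 0 := by
          simp [ee] at hi
          exact hi
        rw [this]
        exact hall k
      · simp [ee] at hk
    · push Not at hall
      obtain ⟨r, hr⟩ := hall
      refine ⟨some r, fun k i hi => ?_, fun k hk => ?_⟩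
      · have hkr : k ≠ r := by
          intro h
          simp [ee, h] at hi
        have hi' : i = 0 := by
          simp [ee, hkr] at hi
          exact hi
        rw [hi']
        have har : a ≠ r := fun h => hr (h ▸ ha)
        have hbr : b ≠ r := fun h => hr (h ▸ hb)
        have hdec : ∀ k r a b : Fin 3, b ≠ a → k ≠ r → a ≠ r → b ≠ r → k = a ∨ k = b := by
          decide
        have : k = a ∨ k = b := hdec k r a b hba hkr har hbr
        rcases this with h | h <;> rw [h] <;> assumption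
      · have hkr : k = r := by
          by_contra h
          simp [ee, h] at hk
        rw [hkr]
        exact hr
  have hem2 : ee o ≤ m2 := by
    intro k
    show ee o k ≤ m2 k
    by_cases h0 : ee o k = 0
    · omega
    · have h2 : z k 0 = 0 := ho1 k 0 (by omega)
      have h3 := hZm k h2
      have h4 : ee o k ≤ 1 := by
        rcases o with _ | r
        · simp [ee]
        · simp only [ee, Option.elim]
          split_ifs <;> omega
      omega
  have hem : ee o ≤ m := hem2.trans hm2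
  have hder : ∀ j i, ee o j ≤ i → i < m j → der m T0 z j i = 0 := by
    intro j i hji hi
    by_cases hi0 : i = 0
    · rw [hi0] at hji hi ⊢
      have h2 := hzj j hi
      rcases mul_eq_zero.1 h2 with h3 | h3
      · exact absurd h3 (ho2 j (by omega))
      · exact h3
    · exact hz1 j i hi0 hi
  have hsh := (B.shift (Fin 3) m (ee o) T0 z hem).1
  have hder' : ∀ j i, i < (m - ee o) j → der (m - ee o) (sh (ee o) T) (drv (ee o) z) j i = 0 := by
    intro j i hi
    have hi2 : i + ee o j < m j := by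
      simp only [Pi.sub_apply] at hi
      omega
    have h2 := hsh j (fun k _ i hi => ho1 k i hi) (i + ee o j) (by omega)
    rw [hder j (i + ee o j) (by omega) hi2, Nat.add_sub_cancel, hT0, sh_update _ (ee_ne_zero o)] at h2
    exact h2.symm
  have hcht : Cht (m2 - ee o) (drv (ee o) z) := by
    refine ⟨fun k => ?_, fun k i hi => ?_⟩
    · have := hem2 k
      show z k (ee o k + (m2 k - ee o k)) = 1
      rw [Nat.add_sub_cancel' this]
      exact hz.1 k
    · refine hz.2 k _ ?_
      simp only [Pi.sub_apply] at hi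
      omega
  obtain ⟨hme, hP⟩ := B.noinf (Fin 3) (m - ee o) (sh (ee o) T) (by
    intro m' hm' p hp
    have h2 := (hH (ee o) m' (ee_ne_zero o) (by
      intro k
      have := hm' k
      have := hem k
      simp only [Pi.sub_apply, Pi.add_apply] at *
      omega)).1
    exact (h2.1.1 p hp).2.1) (m2 - ee o) (drv (ee o) z) (by
      intro k
      have h5 : m2 k ≤ m k := hm2 k
      show m2 k - ee o k ≤ m k - ee o k
      omega) hcht hder'
  have hmm : m2 = m := by
    funext k
    have h2 : m2 k - ee o k = m k - ee o k := congrFun hme k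
    have h3 : ee o k ≤ m k := hem k
    have h4 : ee o k ≤ m2 k := hem2 k
    omega
  refine ⟨o, hem, drv (ee o) z, hP, fun k i => ?_⟩
  have hins : ins (ee o) (drv (ee o) z) k i = z k i := by
    unfold ins drv
    split_ifs with h
    · exact (ho1 k i h).symm
    · congr 1
      omega
  rw [hins]
  refine (hlim k i).congr' ?_
  filter_upwards [hx] with ε h
  rw [hmm, h.1.1 k, div_one]

end Pool.Agent.H919S
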