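/-
H919S: A06, three legs: covering, the rescaled limit.
-/
import Pool.Agent.H919S.Stmts

set_option autoImplicit false

namespace Pool.Agent.H919S

open Finset Filter Topology

namespace TA06

lemma prod_erase3 (f : Fin 3 → ℂ) {j k r : Fin 3} (h1 : j ≠ k) (h2 : j ≠ r) (h3 : k ≠ r) :
    ∏ l ∈ univ.erase j, f l = f k * f r := by
  have h : (univ : Finset (Fin 3)).erase j = {k, r} := by
    revert h1 h2 h3
    revert j k r
    decide
  rw [h, prod_pair h3]

lemma third (k r : Fin 3) (h : k ≠ r) : ∃ j : Fin 3, j ≠ k ∧ j ≠ r := by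
  revert h
  revert k r
  decide

lemma succ_ne (r : Fin 3) : r + 1 ≠ r := by
  revert r
  decide

lemma ww_zero {o : Option (Fin 3)} {m : Fin 3 → ℕ} (ho : ee o ≤ m) {k : Fin 3} (hk : m k = 0) :
    ww o k = 0 := by
  have h := ho k
  rw [hk] at h
  cases o with
  | none => exact absurd h (by simp [ee])
  | some r =>
    by_cases hkr : k = r
    · simp [ww, hkr]
    · simp [ee, hkr] at h

/-- the equation `(k,0)`. -/
lemma eqn (h1 : A01_upd) {m : Fin 3 → ℕ} {T : Ten (Fin 3)} {θ ε : ℝ} {x : Vec (Fin 3)}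
    (hθ : θ ≠ 0) (hε : ε ≠ 0) (hx : x ∈ Sol m (TA T θ ε)) {k : Fin 3} (hk : 0 < m k) :
    (∏ l ∈ univ.erase k, x l 0) / (ε : ℂ) ^ 2 =
      -(θ : ℂ)⁻¹ * der m (Function.update T 0 0) x k 0 := by
  have h := hx.2 k 0 hk
  unfold TA at h
  rw [h1, if_pos rfl] at h
  push_cast at h
  have hθ' : (θ : ℂ) ≠ 0 := by exact_mod_cast hθ
  have hε' : (ε : ℂ) ≠ 0 := by exact_mod_cast hε
  have h' : der m (Function.update T 0 0) x k 0
      = -((θ : ℂ) * ((ε : ℂ) ^ 2)⁻¹ * ∏ l ∈ univ.erase k, x l 0) := by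
    linear_combination h
  rw [h']
  field_simp

lemma tendsto_eps (l : Ultrafilter ℝ) (hl : (l : Filter ℝ) ≤ 𝓝[>] 0) :
    Tendsto (fun ε : ℝ => (ε : ℂ)) l (𝓝 ((0 : ℝ) : ℂ)) :=
  (Complex.continuous_ofReal.tendsto 0).mono_left (hl.trans nhdsWithin_le_nhds)

lemma eps_ne (l : Ultrafilter ℝ) (hl : (l : Filter ℝ) ≤ 𝓝[>] 0) :
    ∀ᶠ ε in (l : Filter ℝ), ε ≠ 0 := by
  have h : ∀ᶠ ε in (𝓝[>] (0 : ℝ)), ε ≠ 0 := by
    filter_upwards [self_mem_nhdsWithin] with ε hε
    exact ne_of_gt hε
  exact hl h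

/-- convergence of the rescaled first coordinates suffices. -/
lemma of_conv (B : Basics) (h2 : A02_GAid) (l : Ultrafilter ℝ) (hl : (l : Filter ℝ) ≤ 𝓝[>] 0)
    (m : Fin 3 → ℕ) (T : Ten (Fin 3)) (θ : ℝ) (x : ℝ → Vec (Fin 3)) (o : Option (Fin 3))
    (z : Vec (Fin 3)) (hx : ∀ᶠ ε in (l : Filter ℝ), x ε ∈ Sol m (TA T θ ε)) (ho : ee o ≤ m)
    (hz : ∀ k i, Tendsto (fun ε => x ε k i) l (𝓝 (z k i))) (a : Fin 3 → ℂ)
    (ha : ∀ k, Tendsto (fun ε => x ε k 0 / (ε : ℂ) ^ (ww o k)) l (𝓝 (a k))) :
    ∃ p ∈ ZA m T θ o, ∀ k i,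
      Tendsto (fun ε => if i = 0 then x ε k 0 / (ε : ℂ) ^ (ww o k) else x ε k i) l
        (𝓝 (p k i)) := by
  have h0 := tendsto_eps l hl
  have hε := eps_ne l hl
  let ξ : ℝ → Vec (Fin 3) := fun ε k i => if i = 0 then x ε k 0 / (ε : ℂ) ^ (ww o k) else x ε k i
  let p : Vec (Fin 3) := fun k i => if i = 0 then a k else z k i
  have hξ : ∀ k i, Tendsto (fun ε => ξ ε k i) l (𝓝 (p k i)) := by
    intro k i
    by_cases h : i = 0
    · simp only [ξ, p, h, if_true]
      exact ha k
    · simp only [ξ, p, h, if_false]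
      exact hz k i
  have hscl : ∀ᶠ ε in (l : Filter ℝ), scl o ε (ξ ε) = x ε := by
    filter_upwards [hε] with ε h
    funext k i
    have h3 : (ε : ℂ) ^ (ww o k) ≠ 0 := pow_ne_zero _ (by exact_mod_cast h)
    by_cases hi : i = 0
    · subst hi
      simp only [scl, ξ, if_true]
      exact mul_div_cancel₀ _ h3
    · simp only [scl, ξ, hi, if_false]
  have hsc : ∀ k i, Tendsto (fun ε => scl o ε (ξ ε) k i) l (𝓝 (scl o 0 p k i)) := by
    intro k i
    by_cases hi : i = 0
    · simp only [scl, hi, if_true]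
      exact (h0.pow _).mul (hξ k 0)
    · simp only [scl, hi, if_false]
      exact hξ k i
  refine ⟨p, ⟨⟨?_, ?_⟩, ?_⟩, hξ⟩
  · intro k
    have e1 : ∀ᶠ ε in (l : Filter ℝ), 1 = ξ ε k (m k) := by
      filter_upwards [hx] with ε h
      have h3 := h.1.1 k
      by_cases hm : m k = 0
      · have h4 := ww_zero ho hm
        rw [hm] at h3 ⊢
        simp only [ξ, if_true, h4, pow_zero, div_one]
        exact h3.symm
      · simp only [ξ, hm, if_false]
        exact h3.symm
    exact tendsto_nhds_unique (hξ k (m k)) (tendsto_const_nhds.congr' e1)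
  · intro k i hi
    have e1 : ∀ᶠ ε in (l : Filter ℝ), 0 = ξ ε k i := by
      filter_upwards [hx] with ε h
      have h3 := h.1.2 k i hi
      have hi' : i ≠ 0 := by omega
      simp only [ξ, hi', if_false]
      exact h3.symm
    exact tendsto_nhds_unique (hξ k i) (tendsto_const_nhds.congr' e1)
  · intro k i hi
    have e1 : ∀ᶠ ε in (l : Filter ℝ), 0 = GA m T θ o ε (ξ ε) k i := by
      filter_upwards [hx, hε, hscl] with ε h h3 h4
      rw [← h2 m T θ ε o (ξ ε) k i h3, h4]
      exact (h.2 k i hi).symm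
    have e2 : Tendsto (fun ε => GA m T θ o ε (ξ ε) k i) l (𝓝 (GA m T θ o 0 p k i)) := by
      unfold GA
      apply Tendsto.add
      · by_cases h3 : i = 0
        · simp only [h3, if_true]
          exact (tendsto_const_nhds.mul (h0.pow _)).mul
            (tendsto_finsetProd _ (fun l _ => hξ l 0))
        · simp only [h3, if_false]
          exact tendsto_const_nhds
      · exact (B.tend (Fin 3) ℝ l (fun ε => scl o ε (ξ ε)) (scl o 0 p) hsc m
          (Function.update T 0 0)).1 k i
    exact tendsto_nhds_unique e2 (tendsto_const_nhds.congr' e1)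

/-- bounded functions converge along an ultrafilter. -/
lemma ultra_conv (l : Ultrafilter ℝ) (X : ℝ → ℂ) (L : ℂ)
    (h : Tendsto (fun ε => X ε ^ 2) l (𝓝 L)) : ∃ c : ℂ, Tendsto X l (𝓝 c) ∧ c ^ 2 = L := by
  have hb : ∀ᶠ ε in (l : Filter ℝ), X ε ∈ Metric.closedBall (0 : ℂ) (‖L‖ + 1) := by
    have h1 : Tendsto (fun ε => ‖X ε ^ 2‖) l (𝓝 ‖L‖) := h.norm
    filter_upwards [h1.eventually_lt_const (by linarith : ‖L‖ < ‖L‖ + 1)] with ε h2
    rw [mem_closedBall_zero_iff]
    rw [norm_pow] at h2
    by_contra h3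
    rw [not_le] at h3
    have h4 : 0 ≤ ‖L‖ := norm_nonneg _
    nlinarith
  have hc := (isCompact_closedBall (0 : ℂ) (‖L‖ + 1)).ultrafilter_le_nhds (l.map X) (by
    rw [le_principal_iff]
    exact hb)
  obtain ⟨c, _, hc2⟩ := hc
  have hc3 : Tendsto X l (𝓝 c) := hc2
  exact ⟨c, hc3, tendsto_nhds_unique (hc3.pow 2) h⟩

lemma ee_none_ne : ee none ≠ 0 := by
  intro h
  have := congrFun h 0
  simp [ee] at this

lemma ee_some_ne (r : Fin 3) : ee (some r) ≠ 0 := by
  intro h
  have h1 := congrFun h (r + 1)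
  simp [ee, succ_ne r] at h1

lemma add_sub (e m : Fin 3 → ℕ) (h : e ≤ m) : e + (m - e) ≤ m := by
  intro k
  have h1 : e k ≤ m k := h k
  change e k + (m k - e k) ≤ m k
  omega

/-- the value `τ j` does not vanish. -/
lemma tau_ne (B : Basics) {m : Fin 3 → ℕ} {T : Ten (Fin 3)} {th : (Fin 3 → ℕ) → ℝ}
    (hA : HypA m T th) (ho : ee none ≤ m) {P : Vec (Fin 3)}
    (hP : P ∈ Sol (m - ee none) (sh (ee none) T)) (j : Fin 3) :
    der m (Function.update T 0 0) (ins (ee none) P) j 0 ≠ 0 := by
  have hle : ee (some j) ≤ m := by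
    intro k
    have h := ho k
    have h2 : ee none k = 1 := rfl
    rw [h2] at h
    by_cases hk : k = j
    · simp [ee, hk]
    · simp only [ee, Option.elim_some, hk, if_false]
      exact h
  have hej : ee (some j) j = 0 := by simp [ee]
  have hS := (hA (ee (some j)) (m - ee (some j)) (ee_some_ne j) (add_sub _ _ hle)).2
  have hmj : 0 < (m - ee (some j)) j := by
    have h : ee none j ≤ m j := ho j
    have h2 : ee none j = 1 := rfl
    change 0 < m j - ee (some j) j
    rw [hej]
    omega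
  have e1 : m - ee (some j) - Pi.single j 1 = m - ee none := by
    funext k
    by_cases hk : k = j
    · subst hk
      simp [ee]
    · simp [ee, hk]
  have e2 : sh (Pi.single j 1) (sh (ee (some j)) T) = sh (ee none) T := by
    funext ι
    unfold sh
    congr 1
    funext k
    by_cases hk : k = j
    · subst hk
      simp [ee]
    · simp [ee, hk]
  have hS2 := hS j hmj P (by rw [e1, e2]; exact hP)
  have hne : der (m - ee (some j)) (sh (ee (some j)) T) (ins (Pi.single j 1) P) j 0 ≠ 0 := by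
    intro h
    rw [h] at hS2
    simp at hS2
  have e3 : der m (Function.update T 0 0) (ins (ee none) P) j 0
      = der (m - ee (some j)) (sh (ee (some j)) (Function.update T 0 0))
        (drv (ee (some j)) (ins (ee none) P)) j 0 := by
    have := (B.shift (Fin 3) m (ee (some j)) (Function.update T 0 0) (ins (ee none) P) hle).1 j
      (by
        intro k hk i hi
        have h2 : ee (some j) k = 1 := by simp [ee, hk]
        have h3 : ee none k = 1 := rfl
        rw [h2] at hi
        unfold ins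
        rw [if_pos (by rw [h3]; exact hi)]) 0 (by rw [hej])
    rw [this, Nat.zero_sub]
  have e4 : der (m - ee (some j)) (sh (ee (some j)) (Function.update T 0 0))
        (drv (ee (some j)) (ins (ee none) P)) j 0
      = der (m - ee (some j)) (sh (ee (some j)) T) (ins (Pi.single j 1) P) j 0 := by
    apply B.congr (Fin 3)
    · intro ι _ _
      unfold sh
      apply Function.update_of_ne
      intro h
      have h1 := congrFun h (j + 1)
      simp [ee, succ_ne j] at h1
    · intro k hk i _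
      have h2 : ee (some j) k = 1 := by simp [ee, hk]
      have h3 : ee none k = 1 := rfl
      have h4 : (Pi.single j 1 : Fin 3 → ℕ) k = 0 := by simp [hk]
      unfold drv ins
      rw [h2, h3, h4, if_neg (by omega), if_neg (by omega)]
      congr 1
      omega
  rw [e3, e4]
  exact hne

end TA06

open TA06 in
theorem A06 (B : Basics) (h1 : A01_upd) (h2 : A02_GAid) : A06_cov1 := by
  intro l hl m T th x o P hA hth hx ho hP hlim
  have hθ : th 0 ≠ 0 := by
    rcases hth.1 0 with h | h <;> rw [h] <;> norm_num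
  have hθ' : (th 0 : ℂ) ≠ 0 := by exact_mod_cast hθ
  have hε := eps_ne l hl
  -- the limits of the products
  have hD : ∀ k, 0 < m k → Tendsto (fun ε => (∏ j ∈ univ.erase k, x ε j 0) / (ε : ℂ) ^ 2) l
      (𝓝 (-(th 0 : ℂ)⁻¹ * der m (Function.update T 0 0) (ins (ee o) P) k 0)) := by
    intro k hk
    have e1 : Tendsto (fun ε => -(th 0 : ℂ)⁻¹ * der m (Function.update T 0 0) (x ε) k 0) l
        (𝓝 (-(th 0 : ℂ)⁻¹ * der m (Function.update T 0 0) (ins (ee o) P) k 0)) :=
      ((B.tend (Fin 3) ℝ l x (ins (ee o) P) hlim m (Function.update T 0 0)).1 k 0).const_mul _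
    refine e1.congr' ?_
    filter_upwards [hx, hε] with ε h3 h4
    exact (eqn h1 hθ h4 h3 hk).symm
  cases o with
  | some r =>
    have hee : ∀ k, k ≠ r → ee (some r) k = 1 := by
      intro k hk
      simp [ee, hk]
    have her : ee (some r) r = 0 := by simp [ee]
    have hPr : P r 0 ≠ 0 :=
      (hA (ee (some r)) (m - ee (some r)) (ee_some_ne r) (add_sub _ _ ho)).1.2 P hP r
    have hins : ins (ee (some r)) P r 0 = P r 0 := by
      unfold ins
      rw [her]
      rfl
    have hr : Tendsto (fun ε => x ε r 0) l (𝓝 (P r 0)) := by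
      rw [← hins]
      exact hlim r 0
    have hk : ∀ k : Fin 3, ∃ a : ℂ,
        Tendsto (fun ε => x ε k 0 / (ε : ℂ) ^ (ww (some r) k)) l (𝓝 a) := by
      intro k
      by_cases hkr : k = r
      · subst hkr
        refine ⟨P k 0, ?_⟩
        have h3 : ww (some k) k = 0 := by simp [ww]
        rw [h3]
        simpa using hr
      · have h3 : ww (some r) k = 2 := by simp [ww, hkr]
        obtain ⟨j, hjk, hjr⟩ := third k r hkr
        have hmj : 0 < m j := by
          have h4 : ee (some r) j ≤ m j := ho j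
          rw [hee j hjr] at h4
          exact h4
        have h5 := (hD j hmj).div hr hPr
        refine ⟨_, h5.congr' ?_⟩
        filter_upwards [hr.eventually_ne hPr] with ε h6
        simp only [Pi.div_apply]
        rw [prod_erase3 (fun i => x ε i 0) hjk hjr hkr, h3]
        field_simp
    choose a ha using hk
    exact of_conv B h2 l hl m T (th 0) x (some r) _ hx ho hlim a ha
  | none =>
    have hm : ∀ k, 0 < m k := by
      intro k
      have h3 : ee none k ≤ m k := ho k
      exact h3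
    let X : Fin 3 → ℝ → ℂ := fun k ε => x ε k 0 / (ε : ℂ)
    let b : Fin 3 → ℂ := fun k =>
      -(th 0 : ℂ)⁻¹ * der m (Function.update T 0 0) (ins (ee none) P) k 0
    have hb : ∀ k, b k ≠ 0 := by
      intro k
      exact mul_ne_zero (neg_ne_zero.2 (inv_ne_zero hθ')) (tau_ne B hA ho hP k)
    have hX : ∀ j k r : Fin 3, j ≠ k → j ≠ r → k ≠ r →
        Tendsto (fun ε => X k ε * X r ε) l (𝓝 (b j)) := by
      intro j k r e1 e2 e3
      refine (hD j (hm j)).congr' ?_
      filter_upwards [hε] with ε h3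
      have h3' : (ε : ℂ) ≠ 0 := by exact_mod_cast h3
      rw [prod_erase3 (fun i => x ε i 0) e1 e2 e3]
      simp only [X]
      field_simp
    have h01 := hX 2 0 1 (by decide) (by decide) (by decide)
    have h02 := hX 1 0 2 (by decide) (by decide) (by decide)
    have h12 := hX 0 1 2 (by decide) (by decide) (by decide)
    have hsq : Tendsto (fun ε => X 0 ε ^ 2) l (𝓝 (b 2 * b 1 / b 0)) := by
      refine ((h01.mul h02).div h12 (hb 0)).congr' ?_
      filter_upwards [h12.eventually_ne (hb 0)] with ε h3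
      have h4 := left_ne_zero_of_mul h3
      have h5 := right_ne_zero_of_mul h3
      simp only [Pi.div_apply]
      field_simp
    obtain ⟨c, hc1, hc2⟩ := ultra_conv l (X 0) _ hsq
    have hc0 : c ≠ 0 := by
      intro h
      rw [h] at hc2
      have : b 2 * b 1 / b 0 ≠ 0 := div_ne_zero (mul_ne_zero (hb 2) (hb 1)) (hb 0)
      apply this
      rw [← hc2]
      ring
    have hX1 : Tendsto (X 1) l (𝓝 (b 2 / c)) := by
      refine (h01.div hc1 hc0).congr' ?_
      filter_upwards [hc1.eventually_ne hc0] with ε h3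
      simp only [Pi.div_apply]
      field_simp
    have hX2 : Tendsto (X 2) l (𝓝 (b 1 / c)) := by
      refine (h02.div hc1 hc0).congr' ?_
      filter_upwards [hc1.eventually_ne hc0] with ε h3
      simp only [Pi.div_apply]
      field_simp
    have hk : ∀ k : Fin 3, ∃ a : ℂ, Tendsto (X k) l (𝓝 a) := by
      intro k
      fin_cases k
      · exact ⟨_, hc1⟩
      · exact ⟨_, hX1⟩
      · exact ⟨_, hX2⟩
    choose a ha using hk
    refine of_conv B h2 l hl m T (th 0) x none _ hx ho hlim a (fun k => ?_)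
    have h4 : ww none k = 1 := rfl
    rw [h4]
    simp only [pow_one]
    exact ha k

end Pool.Agent.H919S
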