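import Pool.Agent.H919S.Stmts

set_option autoImplicit false

namespace Pool.Agent.H919S

open Finset Filter Topology

namespace TA07

theorem ww_inj : ∀ o o' : Option (Fin 3), (∀ k, ww o k = ww o' k) → o = o' := by
  unfold ww
  decide

theorem ne_zero_ev {l : Ultrafilter ℝ} (hl : (l : Filter ℝ) ≤ 𝓝[>] 0) :
    ∀ᶠ ε in (l : Filter ℝ), ε ≠ 0 := by
  have h : ∀ᶠ ε in 𝓝[>] (0 : ℝ), ε ≠ 0 := by
    filter_upwards [self_mem_nhdsWithin] with ε hε
    exact ne_of_gt hε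
  exact hl h

theorem tend_zero {l : Ultrafilter ℝ} (hl : (l : Filter ℝ) ≤ 𝓝[>] 0) :
    Tendsto (fun ε : ℝ => (ε : ℂ)) l (𝓝 0) := by
  have h1 : Tendsto (fun ε : ℝ => ε) (l : Filter ℝ) (𝓝 0) :=
    hl.trans nhdsWithin_le_nhds
  have h2 : Tendsto (fun x : ℝ => (x : ℂ)) (𝓝 0) (𝓝 ((0 : ℝ) : ℂ)) :=
    Complex.continuous_ofReal.tendsto 0
  rw [Complex.ofReal_zero] at h2
  exact h2.comp h1

theorem key {l : Ultrafilter ℝ} (hl : (l : Filter ℝ) ≤ 𝓝[>] 0) {o o' : Option (Fin 3)}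
    {p p' : Vec (Fin 3)} {ξ ξ' : ℝ → Vec (Fin 3)} (hp : ∀ j, p j 0 ≠ 0)
    (h1 : ∀ k i, Tendsto (fun ε => ξ ε k i) l (𝓝 (p k i)))
    (h2 : ∀ k i, Tendsto (fun ε => ξ' ε k i) l (𝓝 (p' k i)))
    (h : ∀ᶠ ε in (l : Filter ℝ), scl o ε (ξ ε) = scl o' ε (ξ' ε)) (k : Fin 3) :
    ¬ ww o k < ww o' k := by
  intro hlt
  apply hp k
  obtain ⟨c, hc⟩ := Nat.exists_eq_add_of_lt hlt
  have h3 : ∀ᶠ ε in (l : Filter ℝ), ξ ε k 0 = (ε : ℂ) ^ (c + 1) * ξ' ε k 0 := by
    filter_upwards [h, ne_zero_ev hl] with ε hε hne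
    have := congrFun (congrFun hε k) 0
    simp only [scl, if_true] at this
    rw [hc, add_assoc, pow_add, mul_assoc] at this
    have hne' : (ε : ℂ) ^ (ww o k) ≠ 0 := pow_ne_zero _ (by exact_mod_cast hne)
    exact mul_left_cancel₀ hne' this
  have h4 : Tendsto (fun ε : ℝ => (ε : ℂ) ^ (c + 1) * ξ' ε k 0) l (𝓝 0) := by
    have := ((tend_zero hl).pow (c + 1)).mul (h2 k 0)
    simpa using this
  have h5 : Tendsto (fun ε : ℝ => ξ ε k 0) l (𝓝 0) :=
    h4.congr' (h3.mono fun ε hε => hε.symm)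
  exact tendsto_nhds_unique (h1 k 0) h5

end TA07

open TA07 in
theorem A07 : A07_sep := by
  intro l hl o o' p p' ξ ξ' hp hp' h1 h2 h
  have ho : o = o' := by
    apply ww_inj
    intro k
    have a1 := key hl hp h1 h2 h k
    have a2 := key hl hp' h2 h1 (h.mono fun ε hε => hε.symm) k
    omega
  subst ho
  refine ⟨rfl, ?_⟩
  funext k i
  have h3 : ∀ᶠ ε in (l : Filter ℝ), ξ ε k i = ξ' ε k i := by
    filter_upwards [h, ne_zero_ev hl] with ε hε hne
    have := congrFun (congrFun hε k) i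
    by_cases hi : i = 0
    · subst hi
      simp only [scl, if_true] at this
      have hne' : (ε : ℂ) ^ (ww o k) ≠ 0 := pow_ne_zero _ (by exact_mod_cast hne)
      exact mul_left_cancel₀ hne' this
    · simp only [scl, if_neg hi] at this
      exact this
  exact tendsto_nhds_unique (h1 k i) ((h2 k i).congr' (h3.mono fun ε hε => hε.symm))

end Pool.Agent.H919S
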