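/-
H919S: A08, one branch (assembly with the implicit function theorem).
-/
import Pool.Agent.H919S.Stmts

set_option autoImplicit false

namespace Pool.Agent.H919S

open Finset Filter Topology

namespace TA08

theorem mem_Jm {κ : Type} [Fintype κ] [DecidableEq κ] (m : κ → ℕ) (k : κ) (i : ℕ) :
    (k, i) ∈ Jm m ↔ i < m k := by
  simp [Jm]

/-- the inverse rescaling. -/
noncomputable def usc (o : Option (Fin 3)) (ε : ℝ) (x : Vec (Fin 3)) : Vec (Fin 3) := fun k i =>
  if i = 0 then x k 0 / (ε : ℂ) ^ (ww o k) else x k i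

theorem scl_usc (o : Option (Fin 3)) (ε : ℝ) (hε : ε ≠ 0) (x : Vec (Fin 3)) :
    scl o ε (usc o ε x) = x := by
  funext k i
  have hε' : (ε : ℂ) ^ (ww o k) ≠ 0 := pow_ne_zero _ (by exact_mod_cast hε)
  by_cases hi : i = 0
  · subst hi
    simp only [scl, usc, if_true]
    field_simp
  · simp only [scl, usc, if_neg hi]

theorem ww_zero {m : Fin 3 → ℕ} {o : Option (Fin 3)} (h : ee o ≤ m) {k : Fin 3} (hk : m k = 0) :
    ww o k = 0 := by
  have h1 := h k
  rw [hk] at h1
  cases o with
  | none => simp [ee] at h1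
  | some r =>
    by_cases hr : k = r
    · simp [ww, hr]
    · simp [ee, hr] at h1

theorem cht_scl {m : Fin 3 → ℕ} {o : Option (Fin 3)} (h : ee o ≤ m) (ε : ℝ) {x : Vec (Fin 3)}
    (hx : Cht m x) : Cht m (scl o ε x) := by
  refine ⟨fun k => ?_, fun k i hi => ?_⟩
  · by_cases hk : m k = 0
    · have h1 := hx.1 k
      rw [hk] at h1
      rw [hk]
      simp only [scl, if_true]
      rw [ww_zero h hk, pow_zero, one_mul, h1]
    · simp only [scl, if_neg hk]
      exact hx.1 k
  · have h0 : i ≠ 0 := by omega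
    simp only [scl, if_neg h0]
    exact hx.2 k i hi

theorem isRe_scl {o : Option (Fin 3)} (ε : ℝ) {x : Vec (Fin 3)}
    (hx : IsRe x) : IsRe (scl o ε x) := by
  intro k i
  by_cases hi : i = 0
  · subst hi
    simp only [scl, if_true]
    have h1 : x k 0 = ((x k 0).re : ℂ) := by
      apply Complex.ext
      · simp
      · simpa using hx k 0
    rw [h1, ← Complex.ofReal_pow, ← Complex.ofReal_mul]
    exact Complex.ofReal_im _
  · simp only [scl, if_neg hi]
    exact hx k i

end TA08

open TA08 in
theorem A08 (B : Basics) (h00 : A00_cd) (h1 : A01_upd) (h2 : A02_GAid) : A08_branch := by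
  intro l hl m T θ o p hem ZG hp
  obtain ⟨hre, hnz, hnd, k0, hk0, hder⟩ := ZG.2.2 p hp
  have hpc : Cht m p := hp.1
  -- positivity
  have hpos : ∀ᶠ ε in (l : Filter ℝ), (0 : ℝ) < ε :=
    hl self_mem_nhdsWithin
  have hto0 : Tendsto (fun ε : ℝ => (ε : ℂ)) l (𝓝 0) := by
    have hA : Tendsto (fun ε : ℝ => ε) (l : Filter ℝ) (𝓝 0) := by
      exact hl.trans nhdsWithin_le_nhds
    have hB : Tendsto (fun ε : ℝ => (ε : ℂ)) (l : Filter ℝ) (𝓝 ((0 : ℝ) : ℂ)) :=
      (Complex.continuous_ofReal.tendsto 0).comp hA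
    simpa using hB
  obtain ⟨ξ, hξ1, hξ2, hξ3, hξ4, hξ5, hξ6⟩ := B.iftV (Fin 3) l hl (Jm m)
    (fun ε x k i => GA m T θ o ε x k i) p
    (by
      intro k i _
      refine (h00 m T θ o).1 (ℝ × (Jm m → ℂ)) (fun q => q.1) (fun q => extJ (Jm m) p q.2)
        contDiff_fst ?_ k i
      intro k' i'
      by_cases h : (k', i') ∈ Jm m
      · have : (fun q : ℝ × (Jm m → ℂ) => extJ (Jm m) p q.2 k' i')
            = fun q : ℝ × (Jm m → ℂ) => q.2 ⟨(k', i'), h⟩ := by
          funext q
          simp only [extJ, dif_pos h]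
        rw [this]
        exact (contDiff_apply ℝ ℂ (⟨(k', i'), h⟩ : Jm m)).comp contDiff_snd
      · have : (fun q : ℝ × (Jm m → ℂ) => extJ (Jm m) p q.2 k' i')
            = fun _ : ℝ × (Jm m → ℂ) => p k' i' := by
          funext q
          simp only [extJ, dif_neg h]
        rw [this]
        exact contDiff_const)
    (by
      intro ε x k i _
      exact (h00 m T θ o).2 ε x k i)
    hre
    (by
      intro k i hki
      exact hp.2 k i ((mem_Jm m k i).1 hki))
    hnd
  have hξc : ∀ ε, Cht m (ξ ε) := by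
    intro ε
    refine ⟨fun k => ?_, fun k i hi => ?_⟩
    · rw [hξ1 ε k (m k) (by rw [mem_Jm]; omega)]
      exact hpc.1 k
    · rw [hξ1 ε k i (by rw [mem_Jm]; omega)]
      exact hpc.2 k i hi
  -- convergence of the rescaled vectors
  have hscl : ∀ k i, Tendsto (fun ε => scl o ε (ξ ε) k i) l (𝓝 (scl o 0 p k i)) := by
    intro k i
    by_cases hi : i = 0
    · subst hi
      simp only [scl, if_true]
      have := (hto0.pow (ww o k)).mul (hξ2 k 0)
      simpa using this
    · simp only [scl, if_neg hi]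
      exact hξ2 k i
  have hev : ∀ᶠ ε in (l : Filter ℝ),
      der m (Function.update T 0 0) (scl o ε (ξ ε)) k0 (m k0) ≠ 0 :=
    ((B.tend (Fin 3) ℝ l (fun ε => scl o ε (ξ ε)) (scl o 0 p) hscl m
      (Function.update T 0 0)).1 k0 (m k0)).eventually_ne hder
  have hfirst : ∀ᶠ ε in (l : Filter ℝ), ∀ k, ξ ε k 0 ≠ 0 := by
    rw [eventually_all]
    intro k
    exact (hξ2 k 0).eventually_ne (hnz k)
  refine ⟨ξ, hξ2, ?_, ?_⟩
  · filter_upwards [hpos, hξ3, hξ4, hξ5, hev, hfirst] with ε he h3 h4 h5 h6 h7
    have hε : ε ≠ 0 := he.ne'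
    have hsol : scl o ε (ξ ε) ∈ Sol m (TA T θ ε) := by
      refine ⟨cht_scl hem ε (hξc ε), fun k i hi => ?_⟩
      rw [h2 m T θ ε o (ξ ε) k i hε]
      exact h3 k i ((mem_Jm m k i).2 hi)
    refine ⟨hsol, isRe_scl ε h5, ?_, ?_, ?_⟩
    · rw [B.euler (Fin 3) m (TA T θ ε) (scl o ε (ξ ε)) k0, Finset.sum_range_succ,
        Finset.sum_eq_zero (fun i hi => by
          rw [hsol.2 k0 i (Finset.mem_range.1 hi), mul_zero]), zero_add, hsol.1.1 k0, one_mul]
      unfold TA
      rw [h1 (Fin 3) m T (θ * (ε ^ 2)⁻¹) (scl o ε (ξ ε)) k0 (m k0), if_neg (by omega), zero_add]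
      exact h6
    · intro y hy hd
      have hε' : ∀ k, (ε : ℂ) ^ (ww o k) ≠ 0 := fun k => pow_ne_zero _ (by exact_mod_cast hε)
      have key : ∀ (t : ℝ), scl o ε (fun k i => ξ ε k i + (t : ℂ) * usc o ε y k i)
          = fun k i => scl o ε (ξ ε) k i + (t : ℂ) * y k i := by
        intro t
        funext k i
        by_cases hi : i = 0
        · subst hi
          simp only [scl, usc, if_true]
          field_simp [hε' k]
        · simp only [scl, usc, if_neg hi]
      have hz := h4 (usc o ε y) ?_ ?_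
      · have : y = scl o ε (usc o ε y) := (scl_usc o ε hε y).symm
        intro k i
        rw [this]
        have hz' : usc o ε y = fun _ _ => 0 := by
          funext k i
          exact hz k i
        rw [hz']
        by_cases hi : i = 0
        · simp [scl, hi]
        · simp [scl, hi]
      · intro k i hki
        by_cases hi : i = 0
        · subst hi
          simp only [usc, if_true]
          rw [hy k 0 hki, zero_div]
        · simp only [usc, if_neg hi]
          exact hy k i hki
      · intro k i hki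
        have h8 := hd k i hki
        have h9 : (fun t : ℝ => GA m T θ o ε (fun k i => ξ ε k i + (t : ℂ) * usc o ε y k i) k i)
            = fun t : ℝ => der m (TA T θ ε) (fun k i => scl o ε (ξ ε) k i + (t : ℂ) * y k i) k i := by
          funext t
          rw [← h2 m T θ ε o _ k i hε, key t]
        show HasDerivAt (fun t : ℝ => GA m T θ o ε (fun k i => ξ ε k i + (t : ℂ) * usc o ε y k i) k i)
          0 0
        rw [h9]
        exact h8
    · intro k
      simp only [scl, if_true]
      exact mul_ne_zero (pow_ne_zero _ (by exact_mod_cast hε)) (h7 k)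
  · intro x hx hlim
    have hη := hξ6 (fun ε => usc o ε (x ε)) ?_ ?_ ?_
    · filter_upwards [hη, hpos] with ε h3 he
      rw [← h3, scl_usc o ε he.ne']
    · filter_upwards [hx, hpos] with ε h3 he
      intro k i hki
      rw [mem_Jm] at hki
      by_cases hi : i = 0
      · subst hi
        have hk : m k = 0 := by omega
        simp only [usc, if_true]
        rw [ww_zero hem hk, pow_zero, div_one]
        have h4 := h3.1.1 k
        have h5 := hpc.1 k
        rw [hk] at h4 h5
        rw [h4, h5]
      · simp only [usc, if_neg hi]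
        rcases Nat.lt_or_ge (m k) i with h6 | h6
        · rw [h3.1.2 k i h6, hpc.2 k i h6]
        · have h7 : i = m k := by omega
          rw [h7, h3.1.1 k, hpc.1 k]
    · intro k i
      exact hlim k i
    · filter_upwards [hx, hpos] with ε h3 he
      intro k i hki
      show GA m T θ o ε (usc o ε (x ε)) k i = 0
      rw [← h2 m T θ ε o _ k i he.ne', scl_usc o ε he.ne']
      exact h3.2 k i ((mem_Jm m k i).1 hki)

end Pool.Agent.H919S
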