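import Pool.Agent.H919S.Stmts

/-!
# H919S, task A09: `GoodF` for types with two nonzero legs
-/

set_option autoImplicit false

namespace Pool.Agent.H919S

open Finset Filter Topology

namespace TA09

/-- admissible branch types -/
abbrev Bt (m : Fin 3 → ℕ) : Type := {o : Option (Fin 3) // ∀ k, ee o k ≤ m k}

/-- branches -/
abbrev Br (m : Fin 3 → ℕ) (T : Ten (Fin 3)) (θ : ℝ) : Type := Σ o : Bt m, ↥(ZA m T θ o.1)

theorem zgood (h3 : A03_Zsome) (h4 : A04_Znone) {m : Fin 3 → ℕ} {T : Ten (Fin 3)}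
    {th : (Fin 3 → ℕ) → ℝ} (hA : HypA m T th) (hS : SgnFn th) (o : Option (Fin 3))
    (ho : ∀ k, ee o k ≤ m k) : ZGood m T (th 0) o := by
  cases o with
  | none => exact h4 m T th hA hS ho
  | some r => exact h3 m T th r hA hS ho

theorem card_Br (hC2 : C2_three) {m : Fin 3 → ℕ} {T : Ten (Fin 3)} {θ : ℝ}
    (hZ : ∀ o : Option (Fin 3), (∀ k, ee o k ≤ m k) → ZGood m T θ o) (hm : m ≠ 0) :
    ((Nat.card (Br m T θ) : ℕ) : ℤ) = W m := by
  classical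
  have : ∀ o : Bt m, Finite ↥(ZA m T θ o.1) := fun o => (hZ o.1 o.2).1.to_subtype
  rw [Nat.card_sigma, hC2 m hm, Nat.cast_sum]
  have h1 : ∀ o : Bt m, ((Nat.card ↥(ZA m T θ o.1) : ℕ) : ℤ) = mult o.1 * W (m - ee o.1) := by
    intro o
    rw [Nat.card_coe_set_eq]
    exact (hZ o.1 o.2).2.1
  rw [Finset.sum_congr rfl fun o _ => h1 o, ← Finset.sum_filter]
  exact (Finset.sum_subtype (Finset.univ.filter fun o : Option (Fin 3) => ∀ k, ee o k ≤ m k)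
    (by simp) (fun o => mult o * W (m - ee o))).symm

end TA09

open TA09 in
theorem A09 (B : Basics) (hC2 : C2_three) (h3 : A03_Zsome) (h4 : A04_Znone) (h5 : A05_cov0)
    (h6 : A06_cov1) (h7 : A07_sep) (h8 : A08_branch) : A09_two := by
  classical
  intro l hl m T th hA hS h2
  have hZ : ∀ o : Option (Fin 3), (∀ k, ee o k ≤ m k) → ZGood m T (th 0) o :=
    fun o ho => zgood h3 h4 hA hS o ho
  have : ∀ o : Bt m, Finite ↥(ZA m T (th 0) o.1) := fun o => (hZ o.1 o.2).1.to_subtype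
  have hm : m ≠ 0 := by
    obtain ⟨i, j, -, hi, -⟩ := h2
    intro h0
    rw [h0] at hi
    exact absurd hi (by simp)
  choose ξ hξ1 hξ2 hξ3 using fun b : Br m T (th 0) =>
    h8 l hl m T (th 0) b.1.1 b.2.1 b.1.2 (hZ b.1.1 b.1.2) b.2.2
  have hcount := B.count l (Vec (Fin 3)) (Br m T (th 0)) Eq
    (fun ε => Sol m (TA T (th 0) ε)) (fun b ε => scl b.1.1 ε (ξ b ε))
    (fun b => (hξ2 b).mono fun ε h => h.1)
    (fun x hx => by
      obtain ⟨o, ho, P, hP, hlim⟩ := h5 l hl m T th x hA hS h2 hx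
      obtain ⟨p, hp, hlim2⟩ := h6 l hl m T th x o P hA hS hx ho hP hlim
      exact ⟨⟨⟨o, ho⟩, ⟨p, hp⟩⟩, hξ3 ⟨⟨o, ho⟩, ⟨p, hp⟩⟩ x hx hlim2⟩)
    (fun b b' hbb => by
      obtain ⟨⟨o, ho⟩, ⟨p, hp⟩⟩ := b
      obtain ⟨⟨o', ho'⟩, ⟨p', hp'⟩⟩ := b'
      obtain ⟨e1, e2⟩ := h7 l hl o o' p p' _ _ (((hZ o ho).2.2 p hp).2.1)
        (((hZ o' ho').2.2 p' hp').2.1) (hξ1 _) (hξ1 _) hbb
      subst e1
      subst e2
      rfl)
  have hall : ∀ᶠ ε in (l : Filter ℝ), ∀ b : Br m T (th 0),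
      scl b.1.1 ε (ξ b ε) ∈ Sol m (TA T (th 0) ε) ∧ IsRe (scl b.1.1 ε (ξ b ε)) ∧
      ev m (TA T (th 0) ε) (scl b.1.1 ε (ξ b ε)) ≠ 0 ∧
      NDG (Jm m) (der m (TA T (th 0) ε)) (scl b.1.1 ε (ξ b ε)) ∧
      ∀ k, scl b.1.1 ε (ξ b ε) k 0 ≠ 0 := eventually_all.mpr hξ2
  filter_upwards [hcount, hall] with ε hc ha
  obtain ⟨c1, c2, c3⟩ := hc
  have hrange : Sol m (TA T (th 0) ε) = Set.range (fun b : Br m T (th 0) => scl b.1.1 ε (ξ b ε)) := by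
    ext y
    constructor
    · intro hy
      obtain ⟨b, hb⟩ := c2 y hy
      exact ⟨b, hb.symm⟩
    · rintro ⟨b, rfl⟩
      exact c1 b
  have hinj : Function.Injective (fun b : Br m T (th 0) => scl b.1.1 ε (ξ b ε)) :=
    fun b b' h => c3 b b' h
  refine ⟨⟨fun x hx => ?_, ?_, ?_⟩, fun x hx k => ?_⟩
  · obtain ⟨b, rfl⟩ := c2 x hx
    exact ⟨(ha b).2.1, (ha b).2.2.1, (ha b).2.2.2.1⟩
  · rw [hrange]
    exact Set.finite_range _
  · rw [hrange, ← Set.image_univ, Set.ncard_image_of_injective _ hinj, Set.ncard_univ]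
    exact card_Br hC2 hZ hm
  · obtain ⟨b, rfl⟩ := c2 x hx
    exact (ha b).2.2.2.2 k

end Pool.Agent.H919S
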