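import Pool.Agent.H919S.Stmts

set_option autoImplicit false

namespace Pool.Agent.H919S

open Finset Filter Topology

namespace TA10

theorem TA_zero (T : Ten (Fin 3)) (θ ε : ℝ) : TA T θ ε 0 = θ * (ε ^ 2)⁻¹ := by
  simp [TA]

theorem TA_ne (T : Ten (Fin 3)) {θ ε : ℝ} (hθ : θ ≠ 0) (hε : ε ≠ 0) :
    ((TA T θ ε 0 : ℝ) : ℂ) ≠ 0 := by
  rw [TA_zero]
  exact_mod_cast mul_ne_zero hθ (inv_ne_zero (pow_ne_zero 2 hε))

theorem box_zero : box (0 : Fin 3 → ℕ) = {0} := by
  ext ι
  simp only [box, Fintype.mem_piFinset, mem_range, Pi.zero_apply, zero_add, Nat.lt_one_iff,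
    mem_singleton]
  exact ⟨fun h => funext h, fun h k => by rw [h]; rfl⟩

/-- the only solution of type zero -/
noncomputable def x0 : Vec (Fin 3) := fun _ i => if i = 0 then 1 else 0

theorem sol_zero (T : Ten (Fin 3)) : Sol 0 T = {x0} := by
  ext x
  constructor
  · rintro ⟨⟨h1, h2⟩, _⟩
    rw [Set.mem_singleton_iff]
    funext k i
    by_cases hi : i = 0
    · have := h1 k
      simp only [Pi.zero_apply] at this
      simp [x0, hi, this]
    · have := h2 k i (by simpa using Nat.pos_of_ne_zero hi)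
      simp [x0, hi, this]
  · rintro rfl
    refine ⟨⟨fun k => by simp [x0], fun k i hi => ?_⟩, fun k i hi => ?_⟩
    · have : i ≠ 0 := by simp only [Pi.zero_apply] at hi; omega
      simp [x0, this]
    · simp at hi

theorem W_zero : W (0 : Fin 3 → ℕ) = 1 := by
  have h : (Finsupp.equivFunOnFinite.symm (0 : Fin 3 → ℕ)) = 0 := by
    ext i; simp
  simp [W, h]

theorem good_zero (T : Ten (Fin 3)) {θ ε : ℝ} (hθ : θ ≠ 0) (hε : ε ≠ 0) :
    GoodF (0 : Fin 3 → ℕ) (TA T θ ε) := by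
  refine ⟨⟨?_, ?_, ?_⟩, ?_⟩
  · intro x hx
    rw [sol_zero, Set.mem_singleton_iff] at hx
    subst hx
    refine ⟨fun k i => ?_, ?_, ?_⟩
    · by_cases hi : i = 0 <;> simp [x0, hi]
    · rw [ev, box_zero, sum_singleton]
      have : ∏ k : Fin 3, x0 k ((0 : Fin 3 → ℕ) k) = 1 := by
        refine Finset.prod_eq_one fun k _ => by simp [x0]
      rw [this, mul_one]
      exact TA_ne T hθ hε
    · intro y hy _ k i
      refine hy k i ?_
      simp [Jm]
  · rw [sol_zero]; exact Set.finite_singleton _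
  · rw [sol_zero, Set.ncard_singleton, W_zero]; rfl
  · intro x hx k
    rw [sol_zero, Set.mem_singleton_iff] at hx
    subst hx
    simp [x0]

theorem sol_one (T : Ten (Fin 3)) {θ ε : ℝ} (hθ : θ ≠ 0) (hε : ε ≠ 0) (m : Fin 3 → ℕ) (k : Fin 3)
    (hk : 0 < m k) (hm : ∀ j, j ≠ k → m j = 0) : Sol m (TA T θ ε) = ∅ := by
  rw [Set.eq_empty_iff_forall_notMem]
  rintro x ⟨⟨h1, _⟩, h3⟩
  have h4 := h3 k 0 hk
  have hbox : (box m).filter (fun ι => ι k = 0) = {0} := by
    ext ι
    simp only [box, mem_filter, Fintype.mem_piFinset, mem_range, mem_singleton]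
    constructor
    · rintro ⟨h, h'⟩
      funext j
      by_cases hj : j = k
      · rw [hj, h']; rfl
      · have := h j
        rw [hm j hj] at this
        simpa using this
    · rintro rfl
      exact ⟨fun j => by simp, rfl⟩
  rw [der, hbox, sum_singleton] at h4
  have h5 : ∏ l ∈ univ.erase k, x l ((0 : Fin 3 → ℕ) l) = 1 := by
    refine Finset.prod_eq_one fun l hl => ?_
    have h6 := h1 l
    rw [hm l (ne_of_mem_erase hl)] at h6
    exact h6
  rw [h5, mul_one] at h4
  exact TA_ne T hθ hε h4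

theorem W_one (m : Fin 3 → ℕ) (k : Fin 3) (hk : 0 < m k) (hm : ∀ j, j ≠ k → m j = 0) :
    W m = 0 := by
  classical
  rw [W]
  have hp : (∏ j, (∑ i ∈ univ.erase j, (MvPolynomial.X i : MvPolynomial (Fin 3) ℤ)) ^ (m j)) =
      (∑ i ∈ univ.erase k, (MvPolynomial.X i : MvPolynomial (Fin 3) ℤ)) ^ (m k) := by
    refine Finset.prod_eq_single k (fun j _ hj => ?_) (fun h => absurd (mem_univ k) h)
    rw [hm j hj, pow_zero]
  rw [hp]
  by_contra hne
  have h1 : k ∈ ((∑ i ∈ univ.erase k, (MvPolynomial.X i : MvPolynomial (Fin 3) ℤ)) ^ (m k)).vars := by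
    rw [MvPolynomial.mem_vars_iff_mem_support]
    refine ⟨_, MvPolynomial.mem_support_iff.2 hne, ?_⟩
    rw [Finsupp.mem_support_iff]
    simpa using hk.ne'
  have h2 := MvPolynomial.vars_pow _ _ h1
  have h3 := MvPolynomial.vars_sum_subset _ _ h2
  rw [mem_biUnion] at h3
  obtain ⟨i, hi, hi'⟩ := h3
  rw [MvPolynomial.vars_X, mem_singleton] at hi'
  exact (ne_of_mem_erase hi) hi'.symm

end TA10

open TA10 in
theorem A10 (_B : Basics) (_h1 : A01_upd) : A10_one := by
  intro m T θ ε hm hθ hε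
  by_cases h0 : m = 0
  · rw [h0]; exact good_zero T hθ hε
  · obtain ⟨k, hk⟩ : ∃ k, m k ≠ 0 := by
      by_contra hc
      push Not at hc
      exact h0 (funext hc)
    have hk' : 0 < m k := Nat.pos_of_ne_zero hk
    have hj : ∀ j, j ≠ k → m j = 0 := by
      intro j hj
      by_contra h
      exact hm ⟨j, k, hj, Nat.pos_of_ne_zero h, hk'⟩
    have hs := sol_one T hθ hε m k hk' hj
    refine ⟨⟨?_, ?_, ?_⟩, ?_⟩
    · rw [hs]; simp
    · rw [hs]; exact Set.finite_empty
    · rw [hs, Set.ncard_empty, W_one m k hk' hj]; rfl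
    · rw [hs]; simp

end Pool.Agent.H919S
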