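import Pool.Agent.H919S.Stmts

set_option autoImplicit false

namespace Pool.Agent.H919S

open Finset Filter Topology

namespace TA11

theorem sh_TA (T : Ten (Fin 3)) (θ ε : ℝ) (k : Fin 3) :
    sh (Pi.single k 1) (TA T θ ε) = sh (Pi.single k 1) T := by
  funext ι
  unfold sh TA
  rw [Function.update_of_ne]
  intro h
  have := congrFun h k
  simp at this

theorem ev_pos (P D θ : ℝ) (hP : P ≠ 0) (hθ : θ * θ = 1) :
    ∀ᶠ ε : ℝ in 𝓝[>] 0, 0 < θ * (θ * (ε ^ 2)⁻¹ * P + D) * P := by
  have hc : Tendsto (fun ε : ℝ => P ^ 2 + θ * D * P * ε ^ 2) (𝓝[>] 0) (𝓝 (P ^ 2 + θ * D * P * 0 ^ 2)) := by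
    apply Tendsto.mono_left _ nhdsWithin_le_nhds
    apply Continuous.tendsto
    continuity
  have hpos : 0 < P ^ 2 + θ * D * P * 0 ^ 2 := by
    have := sq_pos_of_ne_zero hP
    nlinarith
  filter_upwards [hc.eventually_const_lt hpos, self_mem_nhdsWithin] with ε h1 h2
  have h3 : 0 < ε := h2
  have h4 : θ * (θ * (ε ^ 2)⁻¹ * P + D) * P = (P ^ 2 + θ * D * P * ε ^ 2) * (ε ^ 2)⁻¹ := by
    have : ε ^ 2 ≠ 0 := by positivity
    field_simp
    linear_combination P * hθ
  rw [h4]
  positivity

end TA11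

theorem A11 (_B : Basics) (h1 : A01_upd) : A11_sgn := by
  intro l hl m T th hH hS
  have hθ : th 0 * th 0 = 1 := by
    rcases hS.1 0 with h | h <;> rw [h] <;> norm_num
  unfold Sgn
  rw [eventually_all]
  intro k
  by_cases hk : 0 < m k
  swap
  · exact Eventually.of_forall (fun ε h => absurd h hk)
  have he : (Pi.single k 1 : Fin 3 → ℕ) ≠ 0 := by
    intro h
    have := congrFun h k
    simp at this
  have hle : (Pi.single k 1 : Fin 3 → ℕ) + (m - Pi.single k 1) ≤ m := by
    intro j
    by_cases hj : j = k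
    · subst hj
      simp only [Pi.add_apply, Pi.sub_apply, Pi.single_eq_same]
      omega
    · simp only [Pi.add_apply, Pi.sub_apply, Pi.single_eq_of_ne hj]
      omega
  obtain ⟨⟨⟨hre, hfin, -⟩, hne⟩, -⟩ := hH (Pi.single k 1) (m - Pi.single k 1) he hle
  have hmain : ∀ p ∈ Sol (m - Pi.single k 1) (sh (Pi.single k 1) T), ∀ᶠ ε in (l : Filter ℝ),
      0 < th 0 * (der m (TA T (th 0) ε) (ins (Pi.single k 1) p) k 0).re *
        ∏ l ∈ univ.erase k, (p l 0).re := by
    intro p hp
    have hIsRe := (hre p hp).1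
    have hP : (∏ l ∈ univ.erase k, (p l 0).re) ≠ 0 := by
      rw [Finset.prod_ne_zero_iff]
      intro j _ h0
      apply hne p hp j
      apply Complex.ext
      · simpa using h0
      · simpa using hIsRe j 0
    have hev := hl (TA11.ev_pos (∏ l ∈ univ.erase k, (p l 0).re)
      (der m (Function.update T 0 0) (ins (Pi.single k 1) p) k 0).re (th 0) hP hθ)
    filter_upwards [hev] with ε hε
    have hprod : ∏ l ∈ univ.erase k, ins (Pi.single k 1) p l 0
        = ((∏ l ∈ univ.erase k, (p l 0).re : ℝ) : ℂ) := by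
      rw [Complex.ofReal_prod]
      apply Finset.prod_congr rfl
      intro j hj
      have hjk : j ≠ k := (Finset.mem_erase.mp hj).1
      unfold ins
      rw [Pi.single_eq_of_ne hjk]
      simp only [lt_irrefl, if_false, Nat.sub_zero]
      apply Complex.ext
      · simp
      · simpa using hIsRe j 0
    have hder : (der m (TA T (th 0) ε) (ins (Pi.single k 1) p) k 0).re
        = th 0 * (ε ^ 2)⁻¹ * (∏ l ∈ univ.erase k, (p l 0).re) +
          (der m (Function.update T 0 0) (ins (Pi.single k 1) p) k 0).re := by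
      unfold TA
      rw [h1, if_pos rfl, hprod, Complex.add_re, ← Complex.ofReal_mul, Complex.ofReal_re]
    rw [hder]
    exact hε
  have hall := (Filter.eventually_all_finite hfin).mpr hmain
  filter_upwards [hall] with ε hε _ p hp
  rw [TA11.sh_TA] at hp
  exact hε p hp

end Pool.Agent.H919S
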