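import Pool.Agent.H919S.Stmts

set_option autoImplicit false

namespace Pool.Agent.H919S

open Finset Filter Topology

theorem A12 (h9 : A09_two) (h10 : A10_one) (h11 : A11_sgn) : A12_step := by
  intro n T th hyp hs
  have hl : ((Ultrafilter.of (𝓝[>] (0:ℝ)) : Ultrafilter ℝ) : Filter ℝ) ≤ 𝓝[>] 0 :=
    Ultrafilter.of_le _
  set l : Ultrafilter ℝ := Ultrafilter.of (𝓝[>] (0:ℝ)) with hldef
  have hpos : ∀ᶠ ε in (l : Filter ℝ), (0:ℝ) < ε := hl self_mem_nhdsWithin
  have hth : th 0 ≠ 0 := by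
    rcases hs.1 0 with h | h <;> rw [h] <;> norm_num
  have key : ∀ m ∈ Set.Iic n, ∀ᶠ ε in (l : Filter ℝ),
      GoodF m (TA T (th 0) ε) ∧ Sgn (th 0) m (TA T (th 0) ε) := by
    intro m hm
    have hm' : m ≤ n := hm
    have hypm : HypA m T th := by
      intro e m' he hem
      exact hyp e m' he (hem.trans hm')
    refine Filter.Eventually.and ?_ (h11 l hl m T th hypm hs)
    by_cases hc : ∃ i j, i ≠ j ∧ 0 < m i ∧ 0 < m j
    · exact h9 l hl m T th hypm hs hc
    · filter_upwards [hpos] with ε hε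
      exact h10 m T (th 0) ε hc hth hε.ne'
  have hfin : (Set.Iic n).Finite := Set.finite_Iic n
  obtain ⟨ε, hε⟩ := ((Filter.eventually_all_finite hfin).2 key).exists
  exact ⟨th 0 * (ε ^ 2)⁻¹, fun m hm => hε m hm⟩

end Pool.Agent.H919S
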