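import Pool.Agent.H919S.Stmts

set_option autoImplicit false

namespace Pool.Agent.H919S

open Finset

namespace TA13

theorem der_congr {κ : Type} [Fintype κ] [DecidableEq κ] {m : κ → ℕ} {T T' : Ten κ}
    (h : ∀ ι ∈ box m, T ι = T' ι) : der m T = der m T' := by
  funext x k i
  unfold der
  refine Finset.sum_congr rfl fun ι hι => ?_
  rw [h ι (Finset.mem_filter.1 hι).1]

theorem ev_congr {κ : Type} [Fintype κ] [DecidableEq κ] {m : κ → ℕ} {T T' : Ten κ}
    (h : ∀ ι ∈ box m, T ι = T' ι) : ev m T = ev m T' := by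
  funext x
  unfold ev
  refine Finset.sum_congr rfl fun ι hι => ?_
  rw [h ι hι]

theorem Sol_congr {κ : Type} [Fintype κ] [DecidableEq κ] {m : κ → ℕ} {T T' : Ten κ}
    (h : ∀ ι ∈ box m, T ι = T' ι) : Sol m T = Sol m T' := by
  unfold Sol
  rw [der_congr h]

theorem GoodF_congr {κ : Type} [Fintype κ] [DecidableEq κ] {m : κ → ℕ} {T T' : Ten κ}
    (h : ∀ ι ∈ box m, T ι = T' ι) : GoodF m T ↔ GoodF m T' := by
  unfold GoodF GoodAt
  rw [Sol_congr h, der_congr h, ev_congr h]

end TA13

theorem A13 : A13_local := by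
  intro κ _ _ m T T' h
  refine ⟨(TA13.GoodF_congr h).1, ?_⟩
  intro θ hS k hk p hp
  have h1 : ∀ ι ∈ box (m - Pi.single k 1),
      sh (Pi.single k 1) T ι = sh (Pi.single k 1) T' ι := by
    intro ι hι
    unfold sh
    apply h
    simp only [box, Fintype.mem_piFinset, Finset.mem_range, Pi.sub_apply, Pi.add_apply] at hι ⊢
    intro j
    have := hι j
    by_cases hj : j = k
    · subst hj
      simp only [Pi.single_eq_same] at this ⊢
      omega
    · simp only [Pi.single_eq_of_ne hj] at this ⊢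
      omega
  rw [← TA13.Sol_congr h1] at hp
  rw [← TA13.der_congr h]
  exact hS k hk p hp

end Pool.Agent.H919S
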