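import Pool.Agent.H919S.Stmts

set_option autoImplicit false

namespace Pool.Agent.H919S

open Finset Filter Topology

namespace TA14

/-- the sign of a position -/
noncomputable def s0 (a : Fin 3 → ℕ) : ℝ := (-1) ^ (a 0 * a 1)

theorem sgnfn (a : Fin 3 → ℕ) : SgnFn (fun e => s0 (a + e)) := by
  refine ⟨fun e => ?_, ?_⟩
  · exact neg_one_pow_eq_or ℝ _
  · simp only [s0, ee, Pi.add_apply, Pi.zero_apply, Option.elim]
    rw [← pow_add, ← pow_add, ← pow_add]
    apply Odd.neg_one_pow
    refine ⟨2 * (a 0 * a 1) + a 0 + a 1, ?_⟩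
    simp
    ring

theorem sh_sh (a e : Fin 3 → ℕ) (T : Ten (Fin 3)) : sh e (sh a T) = sh (a + e) T := by
  funext ι
  simp only [sh, add_assoc]

def Lev (n : Fin 3 → ℕ) (s : ℕ) (T : Ten (Fin 3)) : Prop :=
  ∀ a, a ≤ n → ∑ k, n k < ∑ k, a k + s → ∀ m, a + m ≤ n →
    GoodF m (sh a T) ∧ Sgn (s0 a) m (sh a T)

theorem sum_pos' {e : Fin 3 → ℕ} (he : e ≠ 0) : 0 < ∑ k, e k := by
  by_contra hc
  apply he
  have : ∑ k, e k = 0 := by omega
  rw [Finset.sum_eq_zero_iff] at this
  funext k
  exact this k (Finset.mem_univ _)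

theorem step (h12 : A12_step) (h13 : A13_local) (n : Fin 3 → ℕ) (s : ℕ)
    (ih : ∃ T, Lev n s T) : ∃ T, Lev n (s + 1) T := by
  classical
  obtain ⟨T, hT⟩ := ih
  have hM : ∀ a : Fin 3 → ℕ, ∃ M : ℝ, a ≤ n → ∑ k, n k = ∑ k, a k + s → ∀ m, a + m ≤ n →
      GoodF m (Function.update (sh a T) 0 M) ∧ Sgn (s0 a) m (Function.update (sh a T) 0 M) := by
    intro a
    by_cases ha : a ≤ n ∧ ∑ k, n k = ∑ k, a k + s
    · obtain ⟨ha, hs⟩ := ha
      have hyp : HypA (n - a) (sh a T) (fun e => s0 (a + e)) := by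
        intro e m he hem
        rw [sh_sh]
        have hle : a + e + m ≤ n := by
          intro k
          have h1 : e k + m k ≤ n k - a k := hem k
          have h2 : a k ≤ n k := ha k
          show a k + e k + m k ≤ n k
          omega
        refine hT (a + e) ?_ ?_ m hle
        · intro k
          have h1 := hle k
          simp only [Pi.add_apply] at h1 ⊢
          omega
        · have h3 := sum_pos' he
          simp only [Pi.add_apply, Finset.sum_add_distrib]
          omega
      obtain ⟨M, hM⟩ := h12 (n - a) (sh a T) _ hyp (sgnfn a)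
      refine ⟨M, fun _ _ m hm => ?_⟩
      have h4 : m ≤ n - a := by
        intro k
        have h1 := hm k
        simp only [Pi.add_apply, Pi.sub_apply] at h1 ⊢
        omega
      have h5 := hM m h4
      rw [add_zero] at h5
      exact h5
    · exact ⟨0, fun h1 h2 => absurd ⟨h1, h2⟩ ha⟩
  choose M hM using hM
  refine ⟨fun a => if a ≤ n ∧ ∑ k, n k = ∑ k, a k + s then M a else T a, ?_⟩
  intro b hb hlev m hm
  by_cases hc : ∑ k, n k < ∑ k, b k + s
  · -- old level
    have hagree : ∀ ι ∈ box m, sh b T ι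
        = sh b (fun a => if a ≤ n ∧ ∑ k, n k = ∑ k, a k + s then M a else T a) ι := by
      intro ι _
      simp only [sh]
      rw [if_neg]
      rintro ⟨-, h2⟩
      simp only [Pi.add_apply, Finset.sum_add_distrib] at h2
      omega
    have h6 := h13 (Fin 3) m _ _ hagree
    have h7 := hT b hb hc m hm
    exact ⟨h6.1 h7.1, h6.2 _ h7.2⟩
  · have hs : ∑ k, n k = ∑ k, b k + s := by omega
    have hagree : ∀ ι ∈ box m, Function.update (sh b T) 0 (M b) ι
        = sh b (fun a => if a ≤ n ∧ ∑ k, n k = ∑ k, a k + s then M a else T a) ι := by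
      intro ι _
      by_cases hι : ι = 0
      · subst hι
        rw [Function.update_self]
        simp only [sh, add_zero]
        rw [if_pos ⟨hb, hs⟩]
      · rw [Function.update_of_ne hι]
        simp only [sh]
        rw [if_neg]
        rintro ⟨-, h2⟩
        have h3 := sum_pos' hι
        simp only [Pi.add_apply, Finset.sum_add_distrib] at h2
        omega
    have h6 := h13 (Fin 3) m _ _ hagree
    have h7 := hM b hb hs m hm
    exact ⟨h6.1 h7.1, h6.2 _ h7.2⟩

theorem all (h12 : A12_step) (h13 : A13_local) (n : Fin 3 → ℕ) (s : ℕ) : ∃ T, Lev n s T := by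
  induction s with
  | zero =>
    refine ⟨fun _ => 0, ?_⟩
    intro a ha hlt
    exfalso
    have : ∑ k, a k ≤ ∑ k, n k := Finset.sum_le_sum fun k _ => ha k
    omega
  | succ s ih => exact step h12 h13 n s ih

end TA14

open TA14 in
theorem A14 (h12 : A12_step) (h13 : A13_local) : A14_three := by
  intro n
  obtain ⟨T, hT⟩ := all h12 h13 n (∑ k, n k + 1)
  refine ⟨T, fun m hm => ?_⟩
  have h := (hT 0 (fun k => Nat.zero_le _) (by simp) m (by rw [zero_add]; exact hm)).1.1
  have e : sh 0 T = T := by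
    funext ι
    simp only [sh, zero_add]
  rw [e] at h
  exact h

end Pool.Agent.H919S
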