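import Pool.Agent.H919S.Stmts

set_option autoImplicit false

namespace Pool.Agent.H919S

open Finset Filter Topology

theorem B02 : B02_euler := by
  intro κ _ _ m T x k
  unfold ev der
  have hmap : ∀ ι ∈ box m, ι k ∈ range (m k + 1) := by
    intro ι hι
    unfold box at hι
    rw [Fintype.mem_piFinset] at hι
    exact hι k
  rw [← Finset.sum_fiberwise_of_maps_to hmap]
  refine Finset.sum_congr rfl fun i _ => ?_
  rw [Finset.mul_sum]
  refine Finset.sum_congr rfl fun ι hι => ?_
  rw [Finset.mem_filter] at hι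
  have h1 : ∏ l, x l (ι l) = x k (ι k) * ∏ l ∈ univ.erase k, x l (ι l) :=
    (Finset.mul_prod_erase univ (fun l => x l (ι l)) (mem_univ k)).symm
  rw [h1, hι.2]
  ring

end Pool.Agent.H919S
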