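import Pool.Agent.H919S.Stmts

set_option autoImplicit false

namespace Pool.Agent.H919S

open Finset Filter Topology

theorem B03 : B03_tend := by
  intro κ _ _ ι l X z h m T
  refine ⟨fun k i => ?_, ?_⟩
  · unfold der
    exact tendsto_finsetSum _ fun ι' _ =>
      (tendsto_finsetProd _ fun l' _ => h l' (ι' l')).const_mul _
  · unfold ev
    exact tendsto_finsetSum _ fun ι' _ =>
      (tendsto_finsetProd _ fun l' _ => h l' (ι' l')).const_mul _

end Pool.Agent.H919S
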