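import Pool.Agent.H919S.Stmts

set_option autoImplicit false

namespace Pool.Agent.H919S

open Finset Filter Topology

theorem B04 : B04_cd := by
  intro κ _ _ E _ _ X hX m T k i
  unfold der
  refine ContDiff.sum fun ι _ => ?_
  refine ContDiff.mul contDiff_const ?_
  exact contDiff_prod fun l _ => hX l (ι l)

end Pool.Agent.H919S
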