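import Pool.Agent.H919S.Stmts

set_option autoImplicit false

namespace Pool.Agent.H919S

open Finset Filter Topology

theorem B05 : B05_hom := by
  intro κ _ _ m T c x
  refine ⟨fun k i => ?_, ?_⟩
  · unfold der
    rw [Finset.mul_sum]
    refine Finset.sum_congr rfl fun ι _ => ?_
    rw [Finset.prod_mul_distrib]
    ring
  · unfold ev
    rw [Finset.mul_sum]
    refine Finset.sum_congr rfl fun ι _ => ?_
    rw [Finset.prod_mul_distrib]
    ring

end Pool.Agent.H919S
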