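import Pool.Agent.H919S.Stmts

set_option autoImplicit false

namespace Pool.Agent.H919S

open Finset Filter Topology

theorem B06 : B06_cj := by
  intro κ _ _ m T x k i
  unfold der cj
  rw [map_sum]
  refine Finset.sum_congr rfl fun ι _ => ?_
  rw [map_mul, map_prod, Complex.conj_ofReal]

end Pool.Agent.H919S
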