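import Pool.Agent.H919S.Stmts

set_option autoImplicit false

namespace Pool.Agent.H919S

open Finset Filter Topology

theorem B07 : B07_congr := by
  intro κ _ _ m T T' x x' k i hT hx
  unfold der
  refine Finset.sum_congr rfl fun ι hι => ?_
  rw [Finset.mem_filter] at hι
  rw [hT ι hι.1 hι.2]
  congr 1
  refine Finset.prod_congr rfl fun l hl => ?_
  refine hx l (Finset.ne_of_mem_erase hl) _ ?_
  have h1 := hι.1
  rw [box, Fintype.mem_piFinset] at h1
  exact Nat.lt_succ_iff.1 (Finset.mem_range.1 (h1 l))

end Pool.Agent.H919S
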