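import Pool.Agent.H919S.Stmts

set_option autoImplicit false

namespace Pool.Agent.H919S

open Finset Filter Topology

namespace TB08

variable {κ : Type} [Fintype κ] [DecidableEq κ]

theorem mem_box {m ι : κ → ℕ} : ι ∈ box m ↔ ι ≤ m := by
  rw [box, Fintype.mem_piFinset, Pi.le_def]
  exact forall_congr' fun l => by rw [Finset.mem_range, Nat.lt_succ_iff]

omit [Fintype κ] [DecidableEq κ] in
theorem add_inj (e : κ → ℕ) : Function.Injective fun ι : κ → ℕ => e + ι := fun _ _ h =>
  add_left_cancel h

end TB08

open TB08 in
theorem B08 : B08_shift := by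
  intro κ _ _ m e T x he
  constructor
  · intro j hx i hi
    unfold der
    have h1 : ∑ ι ∈ (box (m - e)).filter (fun ι => ι j = i - e j),
        ((sh e T ι : ℝ) : ℂ) * ∏ l ∈ univ.erase j, drv e x l (ι l) =
        ∑ ι ∈ ((box (m - e)).filter (fun ι => ι j = i - e j)).image (fun ι => e + ι),
          (T ι : ℂ) * ∏ l ∈ univ.erase j, x l (ι l) := by
      rw [Finset.sum_image fun a _ b _ h => add_inj e h]
      rfl
    rw [h1]
    symm
    apply Finset.sum_subset
    · intro ι hι
      obtain ⟨ι', hι', rfl⟩ := Finset.mem_image.1 hι
      rw [Finset.mem_filter, mem_box] at hι' ⊢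
      refine ⟨fun l => ?_, ?_⟩
      · have := hι'.1 l
        have := he l
        simp only [Pi.sub_apply, Pi.add_apply] at *
        omega
      · rw [Pi.add_apply, hι'.2]
        omega
    · intro ι hι hι'
      rw [Finset.mem_filter, mem_box] at hι
      obtain ⟨k, hk⟩ : ∃ k, ι k < e k := by
        by_contra hcon
        push Not at hcon
        apply hι'
        refine Finset.mem_image.2 ⟨ι - e, ?_, ?_⟩
        · rw [Finset.mem_filter, mem_box]
          refine ⟨fun l => ?_, ?_⟩
          · have := hι.1 l
            have := he l
            simp only [Pi.sub_apply] at *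
            omega
          · rw [Pi.sub_apply, hι.2]
        · funext l
          have := hcon l
          simp only [Pi.sub_apply, Pi.add_apply]
          omega
      have hkj : k ≠ j := by
        rintro rfl
        rw [hι.2] at hk
        omega
      rw [Finset.prod_eq_zero (Finset.mem_erase.2 ⟨hkj, Finset.mem_univ k⟩) (hx k hkj _ hk),
        mul_zero]
  · intro hx
    unfold ev
    have h1 : ∑ ι ∈ box (m - e), ((sh e T ι : ℝ) : ℂ) * ∏ l, drv e x l (ι l) =
        ∑ ι ∈ (box (m - e)).image (fun ι => e + ι), (T ι : ℂ) * ∏ l, x l (ι l) := by
      rw [Finset.sum_image fun a _ b _ h => add_inj e h]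
      rfl
    rw [h1]
    symm
    apply Finset.sum_subset
    · intro ι hι
      obtain ⟨ι', hι', rfl⟩ := Finset.mem_image.1 hι
      rw [mem_box] at hι' ⊢
      intro l
      have := hι' l
      have := he l
      simp only [Pi.sub_apply, Pi.add_apply] at *
      omega
    · intro ι hι hι'
      rw [mem_box] at hι
      obtain ⟨k, hk⟩ : ∃ k, ι k < e k := by
        by_contra hcon
        push Not at hcon
        apply hι'
        refine Finset.mem_image.2 ⟨ι - e, ?_, ?_⟩
        · rw [mem_box]
          intro l
          have := hι l
          have := he l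
          simp only [Pi.sub_apply] at *
          omega
        · funext l
          have := hcon l
          simp only [Pi.sub_apply, Pi.add_apply]
          omega
      rw [Finset.prod_eq_zero (Finset.mem_univ k) (hx k _ hk), mul_zero]

end Pool.Agent.H919S
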