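import Pool.Agent.H919S.Stmts

set_option autoImplicit false

namespace Pool.Agent.H919S

open Finset Filter Topology

namespace TB09

variable {κ : Type} [Fintype κ] [DecidableEq κ]

theorem hd (Z : ℝ → Vec κ) (Y : Vec κ) (h : ∀ k i, HasDerivAt (fun t : ℝ => Z t k i) (Y k i) 0)
    (m : κ → ℕ) (T : Ten κ) (k : κ) (i : ℕ) :
    HasDerivAt (fun t : ℝ => der m T (Z t) k i)
      (∑ ι ∈ (box m).filter (fun ι => ι k = i), (T ι : ℂ) *
        ∑ l0 ∈ univ.erase k, (∏ l ∈ (univ.erase k).erase l0, Z 0 l (ι l)) • Y l0 (ι l0)) 0 := by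
  unfold der
  refine HasDerivAt.fun_sum fun ι _ => ?_
  refine HasDerivAt.const_mul _ ?_
  exact HasDerivAt.fun_finsetProd fun l _ => h l (ι l)

end TB09

open TB09 in
theorem B09 : B09_chain := by
  intro κ _ _ X Y hX m T k i D
  have h1 := hd X Y hX m T k i
  have hZ : ∀ k i, HasDerivAt (fun t : ℝ => X 0 k i + (t : ℂ) * Y k i) (Y k i) 0 := by
    intro k i
    have h2 : HasDerivAt (fun t : ℝ => (t : ℂ)) 1 0 := Complex.ofRealCLM.hasDerivAt
    have h3 := (h2.mul_const (Y k i)).const_add (X 0 k i)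
    rwa [one_mul] at h3
  have h4 := hd (fun t k i => X 0 k i + (t : ℂ) * Y k i) Y hZ m T k i
  have h5 : (fun k i => X 0 k i + ((0 : ℝ) : ℂ) * Y k i) = X 0 := by
    funext k i
    rw [Complex.ofReal_zero, zero_mul, add_zero]
  simp only [Complex.ofReal_zero, zero_mul, add_zero] at h4
  constructor
  · intro h
    rw [h.unique h1]
    exact h4
  · intro h
    rw [h.unique h4]
    exact h1

end Pool.Agent.H919S
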