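import Pool.Agent.H919S.Stmts

set_option autoImplicit false

namespace Pool.Agent.H919S

open Finset Filter Topology

theorem B10 (h1 : B01_supp) (h2 : B02_euler) : B10_noinf := by
  intro κ _ _ m T hT m' z hm hz hd
  have hder : ∀ k i, i ≤ m' k → der m T z k i = der m' T z k i :=
    h1 κ m' m T z hm hz.2
  have hS : z ∈ Sol m' T := by
    refine ⟨hz, fun k i hi => ?_⟩
    rw [← hder k i hi.le]
    exact hd k i (lt_of_lt_of_le hi (hm k))
  have hmm : m' = m := by
    by_contra hne
    have hk : ∃ k, m' k < m k := by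
      by_contra hcon
      push Not at hcon
      exact hne (le_antisymm hm hcon)
    obtain ⟨k, hk⟩ := hk
    refine hT m' hm z hS ?_
    rw [h2 κ m' T z k]
    refine Finset.sum_eq_zero fun i hi => ?_
    have hi' : i ≤ m' k := Nat.lt_succ_iff.1 (Finset.mem_range.1 hi)
    rw [← hder k i hi', hd k i (lt_of_le_of_lt hi' hk), mul_zero]
  subst hmm
  exact ⟨rfl, hS⟩

end Pool.Agent.H919S
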