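import Pool.Agent.H919S.Stmts

set_option autoImplicit false

namespace Pool.Agent.H919S

open Finset Filter Topology

namespace TB11

theorem leg (l : Ultrafilter ℝ) (N : ℕ) (u : ℝ → ℕ → ℂ)
    (h0 : ∀ᶠ ε in (l : Filter ℝ), ∀ i, N < i → u ε i = 0)
    (h1 : ∀ᶠ ε in (l : Filter ℝ), ∃ i, u ε i ≠ 0) :
    ∃ (m : ℕ) (z : ℕ → ℂ), m ≤ N ∧ z m = 1 ∧ (∀ i, m < i → z i = 0) ∧
      (∀ᶠ ε in (l : Filter ℝ), u ε m ≠ 0) ∧
      ∀ i, Tendsto (fun ε => u ε i / u ε m) l (𝓝 (z i)) := by
  have hA : ∀ᶠ ε in (l : Filter ℝ), ∃ j ∈ (↑(range (N + 1)) : Set ℕ), u ε j ≠ 0 ∧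
      ∀ i, ‖u ε i‖ ≤ ‖u ε j‖ := by
    filter_upwards [h0, h1] with ε e0 e1
    obtain ⟨i1, hi1⟩ := e1
    obtain ⟨j, hj, hmax⟩ := Finset.exists_max_image (range (N + 1)) (fun i => ‖u ε i‖)
      ⟨0, by simp⟩
    have hall : ∀ i, ‖u ε i‖ ≤ ‖u ε j‖ := by
      intro i
      by_cases hi : i < N + 1
      · exact hmax i (mem_range.2 hi)
      · rw [e0 i (by omega)]
        simp
    refine ⟨j, hj, ?_, hall⟩
    intro hz
    have := hall i1
    rw [hz, norm_zero] at this
    exact hi1 (norm_le_zero_iff.1 this)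
  obtain ⟨j, hjN, hj⟩ := (Ultrafilter.eventually_exists_mem_iff (Finset.finite_toSet _)).1 hA
  have hjN' : j ≤ N := by
    have := Finset.mem_range.1 (Finset.mem_coe.1 hjN); omega
  have hB : ∀ i, ∃ w : ℂ, Tendsto (fun ε => u ε i / u ε j) l (𝓝 w) := by
    intro i
    have hc : IsCompact (Metric.closedBall (0 : ℂ) 1) := isCompact_closedBall _ _
    have hle : ((l.map fun ε => u ε i / u ε j : Ultrafilter ℂ) : Filter ℂ)
        ≤ 𝓟 (Metric.closedBall (0 : ℂ) 1) := by
      rw [le_principal_iff, Ultrafilter.coe_map, Filter.mem_map]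
      filter_upwards [hj] with ε hε
      simp only [Set.mem_preimage, Metric.mem_closedBall, dist_zero_right, norm_div]
      exact div_le_one_of_le₀ (hε.2 i) (norm_nonneg _)
    obtain ⟨w, _, hw⟩ := hc.ultrafilter_le_nhds _ hle
    exact ⟨w, hw⟩
  choose w hw using hB
  have hwj : w j = 1 := by
    have : Tendsto (fun ε => u ε j / u ε j) l (𝓝 1) := by
      refine Tendsto.congr' ?_ tendsto_const_nhds
      filter_upwards [hj] with ε hε
      exact (div_self hε.1).symm
    exact tendsto_nhds_unique (hw j) this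
  have hwN : ∀ i, N < i → w i = 0 := by
    intro i hi
    have : Tendsto (fun ε => u ε i / u ε j) l (𝓝 0) := by
      refine Tendsto.congr' ?_ tendsto_const_nhds
      filter_upwards [h0] with ε hε
      rw [hε i hi, zero_div]
    exact tendsto_nhds_unique (hw i) this
  classical
  have hne : ((range (N + 1)).filter fun i => w i ≠ 0).Nonempty :=
    ⟨j, by simp only [mem_filter, mem_range]; exact ⟨by omega, by rw [hwj]; exact one_ne_zero⟩⟩
  obtain ⟨m, hm, hmm⟩ := Finset.exists_max_image _ (fun i : ℕ => i) hne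
  rw [mem_filter, mem_range] at hm
  have hwm : ∀ i, m < i → w i = 0 := by
    intro i hi
    by_contra hc
    by_cases hiN : i < N + 1
    · have := hmm i (by rw [mem_filter, mem_range]; exact ⟨hiN, hc⟩)
      omega
    · exact hc (hwN i (by omega))
  have hum : ∀ᶠ ε in (l : Filter ℝ), u ε m ≠ 0 := by
    have := (hw m).eventually_ne hm.2
    filter_upwards [this] with ε hε hz
    rw [hz, zero_div] at hε
    exact hε rfl
  refine ⟨m, fun i => w i / w m, by omega, div_self hm.2, fun i hi => by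
    simp [hwm i hi], hum, fun i => ?_⟩
  have := (hw i).div (hw m) hm.2
  refine Tendsto.congr' ?_ this
  filter_upwards [hj, hum] with ε hε hε2
  have h3 := hε.1
  show u ε i / u ε j / (u ε m / u ε j) = u ε i / u ε m
  field_simp

end TB11

theorem B11 : B11_lim := by
  intro κ _ _ l n x h0 h1
  have h : ∀ k, ∃ (m : ℕ) (z : ℕ → ℂ), m ≤ n k ∧ z m = 1 ∧ (∀ i, m < i → z i = 0) ∧
      (∀ᶠ ε in (l : Filter ℝ), x ε k m ≠ 0) ∧
      ∀ i, Tendsto (fun ε => x ε k i / x ε k m) l (𝓝 (z i)) := fun k =>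
    TB11.leg l (n k) (fun ε => x ε k) (h0.mono fun ε hε => hε k) (h1.mono fun ε hε => hε k)
  choose m z hm hz1 hz0 hx hT using h
  exact ⟨m, z, hm, ⟨hz1, hz0⟩, eventually_all.2 hx, hT⟩

end Pool.Agent.H919S
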