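import Pool.Agent.H919S.Stmts

/-! Task B12: implicit function theorem along an ultrafilter. -/

set_option autoImplicit false

open Filter Topology

namespace Pool.Agent.H919S

namespace TB12

variable {E : Type} [NormedAddCommGroup E] [NormedSpace ℝ E]

lemma deriv_line (F : ℝ × E → E) (hF : ContDiff ℝ 1 F) (e : ℝ) (x y : E) :
    HasDerivAt (fun t : ℝ => F (e, x + t • y)) (fderiv ℝ F (e, x) (0, y)) 0 := by
  have h1 : HasFDerivAt F (fderiv ℝ F (e, x)) (e, x) :=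
    (hF.differentiable (by simp) (e, x)).hasFDerivAt
  have h2 : HasDerivAt (fun t : ℝ => ((e, x + t • y) : ℝ × E)) ((0 : ℝ), y) 0 := by
    refine HasDerivAt.prodMk (hasDerivAt_const _ _) ?_
    have h3 : HasDerivAt (fun t : ℝ => t • y) ((1 : ℝ) • y) 0 := (hasDerivAt_id (0 : ℝ)).smul_const y
    simpa using h3.const_add x
  have h4 : HasFDerivAt F (fderiv ℝ F (e, x)) ((fun t : ℝ => ((e, x + t • y) : ℝ × E)) 0) := by
    simpa using h1
  exact h4.comp_hasDerivAt (0 : ℝ) h2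

end TB12

open TB12

theorem B12 : B12_ift := by
  intro l hl E _ _ _ F p hF hF0 hnd
  have hcomplete : CompleteSpace E := FiniteDimensional.complete ℝ E
  have hl0 : (l : Filter ℝ) ≤ 𝓝 0 := hl.trans nhdsWithin_le_nhds
  set Φ : ℝ × E → ℝ × E := fun q => (q.1, F q) with hΦ
  set DΦ : ℝ × E → (ℝ × E →L[ℝ] ℝ × E) :=
    fun q => (ContinuousLinearMap.fst ℝ ℝ E).prod (fderiv ℝ F q) with hDΦ
  have hinj : Function.Injective (DΦ (0, p)) := by
    rw [injective_iff_map_eq_zero]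
    rintro ⟨a, y⟩ h
    simp only [hDΦ, ContinuousLinearMap.prod_apply, ContinuousLinearMap.coe_fst',
      Prod.mk_eq_zero] at h
    obtain ⟨rfl, h2⟩ := h
    have h3 := deriv_line F hF 0 p y
    rw [h2] at h3
    rw [hnd y h3]
    rfl
  obtain ⟨A, hA⟩ : ∃ A : (ℝ × E) ≃L[ℝ] (ℝ × E), (A : ℝ × E →L[ℝ] ℝ × E) = DΦ (0, p) := by
    refine ⟨(LinearEquiv.ofInjectiveEndo (DΦ (0, p) : ℝ × E →ₗ[ℝ] ℝ × E) hinj).toContinuousLinearEquiv, ?_⟩
    ext x <;> simp
  have hstrict : HasStrictFDerivAt Φ (A : ℝ × E →L[ℝ] ℝ × E) (0, p) := by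
    rw [hA]
    exact hasStrictFDerivAt_fst.prodMk (hF.contDiffAt.hasStrictFDerivAt (by simp))
  have hΦ0 : Φ (0, p) = (0, 0) := by simp [hΦ, hF0]
  set ψ := hstrict.localInverse Φ A (0, p) with hψ
  have ht : Tendsto ψ (𝓝 (0, 0)) (𝓝 (0, p)) := by
    have := hstrict.localInverse_tendsto
    rwa [hΦ0] at this
  have hin : Tendsto (fun e : ℝ => ((e, (0 : E)) : ℝ × E)) l (𝓝 (0, 0)) := by
    have : Tendsto (fun e : ℝ => ((e, (0 : E)) : ℝ × E)) (𝓝 0) (𝓝 (0, 0)) := by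
      have h : Continuous (fun e : ℝ => ((e, (0 : E)) : ℝ × E)) := by fun_prop
      simpa using h.tendsto 0
    exact this.mono_left hl0
  have htl : Tendsto (fun e : ℝ => ψ (e, 0)) l (𝓝 (0, p)) := ht.comp hin
  have hright : ∀ᶠ e in (l : Filter ℝ), Φ (ψ (e, 0)) = (e, 0) := by
    have := hstrict.eventually_right_inverse
    rw [hΦ0] at this
    exact hin.eventually this
  refine ⟨fun e => (ψ (e, 0)).2, ?_, ?_, ?_, ?_⟩
  · exact (continuous_snd.tendsto _).comp htl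
  · filter_upwards [hright] with e he
    simp only [hΦ, Prod.mk.injEq] at he
    obtain ⟨h1, h2⟩ := he
    have h3 : ψ (e, 0) = (e, (ψ (e, 0)).2) := Prod.ext h1 rfl
    rw [← h3]
    exact h2
  · have hcont : Continuous DΦ := by
      have h1 : Continuous (fderiv ℝ F) := hF.continuous_fderiv (by simp)
      have h2 : DΦ = fun q => ((ContinuousLinearMap.inl ℝ ℝ E).comp (ContinuousLinearMap.fst ℝ ℝ E) +
          (ContinuousLinearMap.inr ℝ ℝ E).comp (fderiv ℝ F q)) := by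
        funext q
        ext x <;> simp [hDΦ]
      rw [h2]
      fun_prop
    have hopen : Set.range ((↑) : ((ℝ × E) ≃L[ℝ] (ℝ × E)) → (ℝ × E →L[ℝ] ℝ × E)) ∈
        𝓝 (DΦ (0, p)) := by
      rw [← hA]
      exact A.nhds
    have hev : ∀ᶠ e in (l : Filter ℝ), DΦ (ψ (e, 0)) ∈
        Set.range ((↑) : ((ℝ × E) ≃L[ℝ] (ℝ × E)) → (ℝ × E →L[ℝ] ℝ × E)) :=
      ((hcont.tendsto (0, p)).comp htl).eventually hopen
    filter_upwards [hright, hev] with e he he2 y hy
    simp only [hΦ, Prod.mk.injEq] at he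
    obtain ⟨h1, h2⟩ := he
    have h3 : ψ (e, 0) = (e, (ψ (e, 0)).2) := Prod.ext h1 rfl
    obtain ⟨B, hB⟩ := he2
    have h4 := (deriv_line F hF e (ψ (e, 0)).2 y).unique hy
    rw [← h3] at h4
    have h5 : B ((0 : ℝ), y) = 0 := by
      have : (B : ℝ × E →L[ℝ] ℝ × E) ((0 : ℝ), y) = 0 := by
        rw [hB]
        simp [hDΦ, h4]
      exact this
    have h6 : ((0 : ℝ), y) = 0 := by
      simpa using h5
    exact (Prod.mk_eq_zero.1 h6).2
  · intro η hη hF
    have h1 : Tendsto (fun e : ℝ => ((e, η e) : ℝ × E)) l (𝓝 (0, p)) := by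
      rw [nhds_prod_eq]
      exact (tendsto_id.mono_right hl0).prodMk hη
    have h2 : ∀ᶠ e in (l : Filter ℝ), ψ (Φ (e, η e)) = (e, η e) :=
      h1.eventually hstrict.eventually_left_inverse
    filter_upwards [h2, hF] with e he he2
    have h3 : Φ (e, η e) = (e, 0) := by simp [hΦ, he2]
    rw [h3] at he
    rw [he]

end Pool.Agent.H919S
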