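import Pool.Agent.H919S.Stmts

/-!
H919S, task B13 (helper793): vector version of the implicit function theorem with reality.
-/

set_option autoImplicit false

namespace Pool.Agent.H919S

open Finset Filter Topology

namespace TB13

variable {κ : Type} [Fintype κ] [DecidableEq κ]

theorem ext_mem {J : Finset (κ × ℕ)} {c : Vec κ} {x : J → ℂ} {k : κ} {i : ℕ} (h : (k, i) ∈ J) :
    extJ J c x k i = x ⟨(k, i), h⟩ := by
  unfold extJ
  rw [dif_pos h]

theorem ext_not {J : Finset (κ × ℕ)} {c : Vec κ} {x : J → ℂ} {k : κ} {i : ℕ} (h : (k, i) ∉ J) :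
    extJ J c x k i = c k i := by
  unfold extJ
  rw [dif_neg h]

theorem ext_of_inCh {J : Finset (κ × ℕ)} {c x : Vec κ} (h : InCh J c x) :
    extJ J c (fun j => x j.1.1 j.1.2) = x := by
  funext k i
  by_cases hk : (k, i) ∈ J
  · rw [ext_mem hk]
  · rw [ext_not hk, h k i hk]

theorem ext_line {J : Finset (κ × ℕ)} {c x Y : Vec κ} {ξ : J → ℂ} (hx : x = extJ J c ξ)
    (hY : ∀ k i, (k, i) ∉ J → Y k i = 0) (t : ℝ) :
    extJ J c (ξ + t • (fun j => Y j.1.1 j.1.2)) = fun k i => x k i + (t : ℂ) * Y k i := by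
  funext k i
  by_cases hk : (k, i) ∈ J
  · rw [ext_mem hk, hx, ext_mem hk]
    simp only [Pi.add_apply, Pi.smul_apply, Complex.real_smul]
  · rw [ext_not hk, hx, ext_not hk, hY k i hk, mul_zero, add_zero]

theorem ext_cj {J : Finset (κ × ℕ)} {c : Vec κ} (hc : IsRe c) (ξ : J → ℂ) :
    extJ J c (fun j => (starRingEnd ℂ) (ξ j)) = cj (extJ J c ξ) := by
  funext k i
  unfold cj
  by_cases hk : (k, i) ∈ J
  · rw [ext_mem hk, ext_mem hk]
  · rw [ext_not hk, ext_not hk]
    exact (Complex.conj_eq_iff_im.2 (hc k i)).symm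

end TB13

open TB13 in
theorem B13 (h12 : B12_ift) : B13_iftV := by
  intro κ _ _ l hl J G p hcd hcj hre h0 hnd
  let F : ℝ × (J → ℂ) → (J → ℂ) := fun q j => G q.1 (extJ J p q.2) j.1.1 j.1.2
  let p0 : J → ℂ := fun j => p j.1.1 j.1.2
  have hp0 : extJ J p p0 = p := ext_of_inCh (fun k i _ => rfl)
  have hF : ContDiff ℝ 1 F := contDiff_pi.2 fun j => hcd j.1.1 j.1.2 j.2
  have hF0 : F (0, p0) = 0 := by
    funext j
    show G 0 (extJ J p p0) j.1.1 j.1.2 = 0
    rw [hp0]
    exact h0 _ _ j.2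
  -- nondegeneracy in both forms
  have key : ∀ (ε : ℝ) (ξ : J → ℂ) (Y : Vec κ), (∀ k i, (k, i) ∉ J → Y k i = 0) →
      (HasDerivAt (fun t : ℝ => F (ε, ξ + t • (fun j : J => Y j.1.1 j.1.2))) 0 0 ↔
        ∀ k i, (k, i) ∈ J → HasDerivAt
          (fun t : ℝ => G ε (fun k i => extJ J p ξ k i + (t : ℂ) * Y k i) k i) 0 0) := by
    intro ε ξ Y hY
    rw [hasDerivAt_pi]
    have e : ∀ t : ℝ, extJ J p (ξ + t • (fun j : J => Y j.1.1 j.1.2)) =
        fun k i => extJ J p ξ k i + (t : ℂ) * Y k i := fun t => ext_line rfl hY t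
    constructor
    · intro h k i hk
      have h1 := h ⟨(k, i), hk⟩
      have h2 : (fun t : ℝ => F (ε, ξ + t • (fun j : J => Y j.1.1 j.1.2)) ⟨(k, i), hk⟩) =
          fun t : ℝ => G ε (fun k i => extJ J p ξ k i + (t : ℂ) * Y k i) k i := by
        funext t
        show G ε (extJ J p (ξ + t • (fun j : J => Y j.1.1 j.1.2))) k i = _
        rw [e t]
      rw [h2] at h1
      exact h1
    · intro h j
      have h1 := h j.1.1 j.1.2 j.2
      have h2 : (fun t : ℝ => F (ε, ξ + t • (fun j : J => Y j.1.1 j.1.2)) j) =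
          fun t : ℝ => G ε (fun k i => extJ J p ξ k i + (t : ℂ) * Y k i) j.1.1 j.1.2 := by
        funext t
        show G ε (extJ J p (ξ + t • (fun j : J => Y j.1.1 j.1.2))) j.1.1 j.1.2 = _
        rw [e t]
      rw [h2]
      exact h1
  have hndE : ∀ y : J → ℂ, HasDerivAt (fun t : ℝ => F (0, p0 + t • y)) 0 0 → y = 0 := by
    intro y hy
    let Y : Vec κ := extJ J (fun _ _ => 0) y
    have hY : ∀ k i, (k, i) ∉ J → Y k i = 0 := fun k i hk => ext_not hk
    have hyY : y = fun j : J => Y j.1.1 j.1.2 := by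
      funext j
      exact (ext_mem j.2).symm
    rw [hyY, key 0 p0 Y hY] at hy
    have h1 := hnd Y hY (by
      intro k i hk
      have h2 := hy k i hk
      rw [hp0] at h2
      exact h2)
    rw [hyY]
    funext j
    exact h1 _ _
  obtain ⟨ξ, hξ1, hξ2, hξ3, hξ4⟩ := h12 l hl (J → ℂ) F p0 hF hF0 hndE
  have hξ1' := tendsto_pi_nhds.1 hξ1
  refine ⟨fun ε => extJ J p (ξ ε), ?_, ?_, ?_, ?_, ?_, ?_⟩
  · intro ε k i hk
    exact ext_not hk
  · intro k i
    by_cases hk : (k, i) ∈ J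
    · have h1 : (fun ε => extJ J p (ξ ε) k i) = fun ε => ξ ε ⟨(k, i), hk⟩ :=
        funext fun ε => ext_mem hk
      rw [h1]
      exact hξ1' ⟨(k, i), hk⟩
    · have h1 : (fun ε => extJ J p (ξ ε) k i) = fun _ => p k i :=
        funext fun ε => ext_not hk
      rw [h1]
      exact tendsto_const_nhds
  · filter_upwards [hξ2] with ε hε k i hk
    exact congrFun hε ⟨(k, i), hk⟩
  · filter_upwards [hξ3] with ε hε
    intro Y hY hd
    have h1 := hε (fun j : J => Y j.1.1 j.1.2) ((key ε (ξ ε) Y hY).2 hd)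
    intro k i
    by_cases hk : (k, i) ∈ J
    · exact congrFun h1 ⟨(k, i), hk⟩
    · exact hY k i hk
  · have h1 : Tendsto (fun ε => (fun j : J => (starRingEnd ℂ) (ξ ε j))) l (𝓝 p0) := by
      rw [tendsto_pi_nhds]
      intro j
      have h2 := (Complex.continuous_conj.tendsto (p0 j)).comp (hξ1' j)
      have h3 : (starRingEnd ℂ) (p0 j) = p0 j := Complex.conj_eq_iff_im.2 (hre _ _)
      rw [h3] at h2
      exact h2
    have h4 : ∀ᶠ ε in (l : Filter ℝ), F (ε, fun j : J => (starRingEnd ℂ) (ξ ε j)) = 0 := by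
      filter_upwards [hξ2] with ε hε
      funext j
      show G ε (extJ J p (fun j : J => (starRingEnd ℂ) (ξ ε j))) j.1.1 j.1.2 = 0
      rw [ext_cj hre, hcj ε _ _ _ j.2]
      have h5 : G ε (extJ J p (ξ ε)) j.1.1 j.1.2 = 0 := congrFun hε j
      rw [h5, map_zero]
    filter_upwards [hξ4 _ h1 h4] with ε hε k i
    by_cases hk : (k, i) ∈ J
    · show (extJ J p (ξ ε) k i).im = 0
      rw [ext_mem hk]
      exact Complex.conj_eq_iff_im.1 (congrFun hε ⟨(k, i), hk⟩)
    · show (extJ J p (ξ ε) k i).im = 0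
      rw [ext_not hk]
      exact hre k i
  · intro η hη1 hη2 hη3
    have h1 : Tendsto (fun ε => (fun j : J => η ε j.1.1 j.1.2)) l (𝓝 p0) := by
      rw [tendsto_pi_nhds]
      intro j
      exact hη2 _ _
    have h2 : ∀ᶠ ε in (l : Filter ℝ), F (ε, fun j : J => η ε j.1.1 j.1.2) = 0 := by
      filter_upwards [hη1, hη3] with ε h3 h4
      funext j
      show G ε (extJ J p (fun j : J => η ε j.1.1 j.1.2)) j.1.1 j.1.2 = 0
      rw [ext_of_inCh h3]
      exact h4 _ _ j.2
    filter_upwards [hξ4 _ h1 h2, hη1] with ε h3 h4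
    rw [← ext_of_inCh h4, h3]

end Pool.Agent.H919S
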