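import Pool.Agent.H919S.Stmts

set_option autoImplicit false

namespace Pool.Agent.H919S

open Finset Filter Topology

theorem B14 : B14_count := by
  classical
  intro l Y B _ R S s h1 h2 h3
  have e1 : ∀ᶠ ε in (l : Filter ℝ), ∀ b, s b ε ∈ S ε := Filter.eventually_all.2 h1
  have e3 : ∀ᶠ ε in (l : Filter ℝ), ∀ b b', R (s b ε) (s b' ε) → b = b' := by
    rw [Filter.eventually_all]
    intro b
    rw [Filter.eventually_all]
    intro b'
    by_cases hbb : b = b'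
    · exact Filter.Eventually.of_forall fun _ _ => hbb
    · have h4 : ¬ ∀ᶠ ε in (l : Filter ℝ), R (s b ε) (s b' ε) := fun h => hbb (h3 b b' h)
      exact (Ultrafilter.eventually_not.2 h4).mono fun ε hε hR => absurd hR hε
  have e2 : ∀ᶠ ε in (l : Filter ℝ), ∀ y ∈ S ε, ∃ b, R y (s b ε) := by
    by_contra hcon
    have hcon' := Ultrafilter.eventually_not.2 hcon
    have hex : ∀ᶠ ε in (l : Filter ℝ), ∃ y, y ∈ S ε ∧ ∀ b, ¬ R y (s b ε) := by
      filter_upwards [hcon'] with ε hε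
      push Not at hε
      exact hε
    obtain ⟨ε0, y0, -⟩ := hex.exists
    obtain ⟨x, hx⟩ : ∃ x : ℝ → Y, ∀ ε, (∃ y, y ∈ S ε ∧ ∀ b, ¬ R y (s b ε)) →
        x ε ∈ S ε ∧ ∀ b, ¬ R (x ε) (s b ε) := by
      refine ⟨fun ε => if h : ∃ y, y ∈ S ε ∧ ∀ b, ¬ R y (s b ε) then h.choose else y0, ?_⟩
      intro ε h
      simp only [dif_pos h]
      exact h.choose_spec
    obtain ⟨b, hb⟩ := h2 x (hex.mono fun ε hε => (hx ε hε).1)
    obtain ⟨ε1, h5, h6⟩ := (hb.and hex).exists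
    exact (hx ε1 h6).2 b h5
  filter_upwards [e1, e2, e3] with ε g1 g2 g3 using ⟨g1, g2, g3⟩

end Pool.Agent.H919S
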