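import Pool.Agent.H919S.Stmts

set_option autoImplicit false

/-! Task B15: chain rule for a smooth function in the coordinates `J`. -/

namespace Pool.Agent.H919S

open Finset Filter Topology

theorem B15 : B15_chainG := by
  intro κ _ _ J g X Y hg hX hY D
  let h : (J → ℂ) → ℂ := fun ξ => g (extJ J (X 0) ξ)
  let u : ℝ → (J → ℂ) := fun t j => X t j.1.1 j.1.2
  let v : J → ℂ := fun j => Y j.1.1 j.1.2
  let w : ℝ → (J → ℂ) := fun t j => X 0 j.1.1 j.1.2 + (t : ℂ) * Y j.1.1 j.1.2
  have hd : DifferentiableAt ℝ h (u 0) := (hg.differentiable (by norm_num)) (u 0)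
  have hu : HasDerivAt u v 0 := hasDerivAt_pi.2 fun j => hY _ _
  have h1 : HasDerivAt (h ∘ u) (fderiv ℝ h (u 0) v) 0 := hd.hasFDerivAt.comp_hasDerivAt 0 hu
  have e1 : (fun t => g (X t)) =ᶠ[𝓝 0] h ∘ u := by
    filter_upwards [hX] with t ht
    have e : X t = extJ J (X 0) (u t) := by
      funext k i
      unfold extJ
      by_cases hk : (k, i) ∈ J
      · rw [dif_pos hk]
      · rw [dif_neg hk]
        exact ht k i hk
    exact congrArg g e
  have h2 : HasDerivAt (fun t => g (X t)) (fderiv ℝ h (u 0) v) 0 := h1.congr_of_eventuallyEq e1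
  have hY0 : ∀ k i, (k, i) ∉ J → Y k i = 0 := by
    intro k i hk
    have h3 : (fun t => X t k i) =ᶠ[𝓝 0] fun _ => X 0 k i := by
      filter_upwards [hX] with t ht using ht k i hk
    exact (hY k i).unique ((hasDerivAt_const (0 : ℝ) (X 0 k i)).congr_of_eventuallyEq h3)
  have hw : HasDerivAt w v 0 := hasDerivAt_pi.2 fun j => by
    have h3 : HasDerivAt (fun t : ℝ => (t : ℂ)) 1 0 := Complex.ofRealCLM.hasDerivAt
    have h4 := (h3.mul_const (Y j.1.1 j.1.2)).const_add (X 0 j.1.1 j.1.2)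
    rw [one_mul] at h4
    exact h4
  have hw0 : w 0 = u 0 := by
    funext j
    change X 0 j.1.1 j.1.2 + ((0 : ℝ) : ℂ) * Y j.1.1 j.1.2 = X 0 j.1.1 j.1.2
    rw [Complex.ofReal_zero, zero_mul, add_zero]
  have h5 : HasDerivAt (h ∘ w) (fderiv ℝ h (u 0) v) 0 := by
    have h6 := hd.hasFDerivAt
    rw [← hw0] at h6 ⊢
    exact h6.comp_hasDerivAt 0 hw
  have e2 : (fun t : ℝ => g (fun k i => X 0 k i + (t : ℂ) * Y k i)) = h ∘ w := by
    funext t
    have e : (fun k i => X 0 k i + (t : ℂ) * Y k i) = extJ J (X 0) (w t) := by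
      funext k i
      unfold extJ
      by_cases hk : (k, i) ∈ J
      · rw [dif_pos hk]
      · rw [dif_neg hk, hY0 k i hk, mul_zero, add_zero]
    exact congrArg g e
  rw [e2]
  constructor
  · intro hD
    rw [hD.unique h2]
    exact h5
  · intro hD
    rw [hD.unique h5]
    exact h2

end Pool.Agent.H919S
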