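import Pool.Agent.H919S.Stmts

set_option autoImplicit false

open Finset

namespace Pool.Agent.H919S

theorem TC1.mono {d : ℕ} (e : Fin d → ℕ) :
    (∏ k, (MvPolynomial.X k : MvPolynomial (Fin d) ℤ) ^ e k) =
      MvPolynomial.monomial (Finsupp.equivFunOnFinite.symm e) 1 := by
  rw [MvPolynomial.monomial_eq, MvPolynomial.C_1, one_mul, Finsupp.prod_fintype]
  · rfl
  · intro i
    exact pow_zero _

theorem C1 : C1_total := by
  intro d n
  rw [Finset.prod_univ_sum, MvPolynomial.coeff_sum]
  refine Finset.sum_congr rfl fun m hm => ?_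
  have hm' : ∀ k, m k ≤ n k := by
    intro k
    have := Fintype.mem_piFinset.1 hm k
    rw [Finset.mem_range] at this
    omega
  rw [Finset.prod_mul_distrib, TC1.mono fun k => n k - m k]
  have hn : (Finsupp.equivFunOnFinite.symm n : Fin d →₀ ℕ) = Finsupp.equivFunOnFinite.symm m +
      Finsupp.equivFunOnFinite.symm (fun k => n k - m k) := by
    ext k
    show n k = m k + (n k - m k)
    have := hm' k
    omega
  rw [hn, MvPolynomial.coeff_mul_monomial, mul_one]
  rfl

end Pool.Agent.H919S
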