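import Pool.Agent.H919S.Stmts

set_option autoImplicit false

open Finset

namespace Pool.Agent.H919S

namespace TC2

/-- coefficient of `x ^ a y ^ b z ^ c` -/
noncomputable def cf (m : Fin 3 → ℕ) (p : MvPolynomial (Fin 3) ℤ) : ℤ :=
  MvPolynomial.coeff (Finsupp.equivFunOnFinite.symm m) p

/-- the product of the powers -/
noncomputable def G (m : Fin 3 → ℕ) : MvPolynomial (Fin 3) ℤ :=
  (MvPolynomial.X 1 + MvPolynomial.X 2) ^ m 0 * (MvPolynomial.X 0 + MvPolynomial.X 2) ^ m 1 *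
    (MvPolynomial.X 0 + MvPolynomial.X 1) ^ m 2

theorem W_eq (m : Fin 3 → ℕ) : W m = cf m (G m) := by
  unfold W cf G
  congr 1
  rw [Fin.prod_univ_three]
  have h0 : (univ : Finset (Fin 3)).erase 0 = {1, 2} := by decide
  have h1 : (univ : Finset (Fin 3)).erase 1 = {0, 2} := by decide
  have h2 : (univ : Finset (Fin 3)).erase 2 = {0, 1} := by decide
  rw [h0, h1, h2, Finset.sum_pair (by decide), Finset.sum_pair (by decide),
    Finset.sum_pair (by decide)]

/-- a monomial -/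
noncomputable def mo (e : Fin 3 → ℕ) : MvPolynomial (Fin 3) ℤ :=
  MvPolynomial.X 0 ^ e 0 * MvPolynomial.X 1 ^ e 1 * MvPolynomial.X 2 ^ e 2

theorem mo_eq (e : Fin 3 → ℕ) : mo e =
    MvPolynomial.monomial (Finsupp.equivFunOnFinite.symm e) 1 := by
  rw [MvPolynomial.monomial_eq, MvPolynomial.C_1, one_mul, Finsupp.prod_fintype,
    Fin.prod_univ_three]
  · rfl
  · intro i
    exact pow_zero _

theorem cf_mo (m e : Fin 3 → ℕ) (h : ∀ k, e k ≤ m k) (p : MvPolynomial (Fin 3) ℤ) :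
    cf m (p * mo e) = cf (m - e) p := by
  unfold cf
  have hn : (Finsupp.equivFunOnFinite.symm m : Fin 3 →₀ ℕ) = Finsupp.equivFunOnFinite.symm (m - e) +
      Finsupp.equivFunOnFinite.symm e := by
    ext k
    show m k = (m k - e k) + e k
    have := h k
    omega
  rw [hn, mo_eq, MvPolynomial.coeff_mul_monomial, mul_one]

theorem cf_add (m : Fin 3 → ℕ) (p q : MvPolynomial (Fin 3) ℤ) :
    cf m (p + q) = cf m p + cf m q := MvPolynomial.coeff_add _ _ _

theorem cf_two (m : Fin 3 → ℕ) (p : MvPolynomial (Fin 3) ℤ) : cf m (2 * p) = 2 * cf m p := by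
  rw [two_mul, cf_add, two_mul]

theorem cf_X (m : Fin 3 → ℕ) (i : Fin 3) (h : m i = 0) (p : MvPolynomial (Fin 3) ℤ) :
    cf m (MvPolynomial.X i * p) = 0 := by
  unfold cf
  rw [MvPolynomial.coeff_X_mul', if_neg]
  rw [Finsupp.mem_support_iff]
  simpa using h

theorem W_one (m : Fin 3 → ℕ) (h : ∀ k, 1 ≤ m k) : W m = 2 * W (m - ee none) +
    (W (m - ee (some 0)) + W (m - ee (some 1)) + W (m - ee (some 2))) := by
  rw [W_eq, W_eq, W_eq, W_eq, W_eq, ← cf_mo m (ee none) (fun k => h k),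
    ← cf_mo m (ee (some 0)), ← cf_mo m (ee (some 1)), ← cf_mo m (ee (some 2)),
    ← cf_two, ← cf_add, ← cf_add, ← cf_add]
  · congr 1
    have a0 := h 0
    have a1 := h 1
    have a2 := h 2
    unfold G mo
    simp only [ee, Option.elim, Pi.sub_apply]
    obtain ⟨a, ha⟩ : ∃ a, m 0 = a + 1 := ⟨m 0 - 1, by omega⟩
    obtain ⟨b, hb⟩ : ∃ a, m 1 = a + 1 := ⟨m 1 - 1, by omega⟩
    obtain ⟨c, hc⟩ : ∃ a, m 2 = a + 1 := ⟨m 2 - 1, by omega⟩
    rw [ha, hb, hc]
    simp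
    ring
  · intro k
    have := h k
    unfold ee
    simp only [Option.elim]
    split_ifs <;> omega
  · intro k
    have := h k
    unfold ee
    simp only [Option.elim]
    split_ifs <;> omega
  · intro k
    have := h k
    unfold ee
    simp only [Option.elim]
    split_ifs <;> omega

theorem W_001 (m : Fin 3 → ℕ) (h0 : m 0 = 0) (h1 : m 1 = 0) (h2 : 0 < m 2) : W m = 0 := by
  obtain ⟨c, hc⟩ : ∃ a, m 2 = a + 1 := ⟨m 2 - 1, by omega⟩
  have hG : G m = MvPolynomial.X 0 * (MvPolynomial.X 0 + MvPolynomial.X 1) ^ c +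
      MvPolynomial.X 1 * (MvPolynomial.X 0 + MvPolynomial.X 1) ^ c := by
    unfold G
    rw [h0, h1, hc]
    ring
  rw [W_eq, hG, cf_add, cf_X m 0 h0, cf_X m 1 h1, add_zero]

theorem W_010 (m : Fin 3 → ℕ) (h0 : m 0 = 0) (h1 : 0 < m 1) (h2 : m 2 = 0) : W m = 0 := by
  obtain ⟨c, hc⟩ : ∃ a, m 1 = a + 1 := ⟨m 1 - 1, by omega⟩
  have hG : G m = MvPolynomial.X 0 * (MvPolynomial.X 0 + MvPolynomial.X 2) ^ c +
      MvPolynomial.X 2 * (MvPolynomial.X 0 + MvPolynomial.X 2) ^ c := by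
    unfold G
    rw [h0, h2, hc]
    ring
  rw [W_eq, hG, cf_add, cf_X m 0 h0, cf_X m 2 h2, add_zero]

theorem W_100 (m : Fin 3 → ℕ) (h0 : 0 < m 0) (h1 : m 1 = 0) (h2 : m 2 = 0) : W m = 0 := by
  obtain ⟨c, hc⟩ : ∃ a, m 0 = a + 1 := ⟨m 0 - 1, by omega⟩
  have hG : G m = MvPolynomial.X 1 * (MvPolynomial.X 1 + MvPolynomial.X 2) ^ c +
      MvPolynomial.X 2 * (MvPolynomial.X 1 + MvPolynomial.X 2) ^ c := by
    unfold G
    rw [h1, h2, hc]
    ring
  rw [W_eq, hG, cf_add, cf_X m 1 h1, cf_X m 2 h2, add_zero]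

theorem ee_le (m : Fin 3 → ℕ) (r : Fin 3) (h : ∀ k, k ≠ r → 0 < m k) :
    ∀ k, ee (some r) k ≤ m k := by
  intro k
  unfold ee
  simp only [Option.elim]
  split_ifs with hk
  · exact Nat.zero_le _
  · exact h k hk

theorem W_011 (m : Fin 3 → ℕ) (h0 : m 0 = 0) (h1 : 0 < m 1) (h2 : 0 < m 2) :
    W m = W (m - ee (some 0)) := by
  obtain ⟨b, hb⟩ : ∃ a, m 1 = a + 1 := ⟨m 1 - 1, by omega⟩
  obtain ⟨c, hc⟩ : ∃ a, m 2 = a + 1 := ⟨m 2 - 1, by omega⟩
  have hG : G m = G (m - ee (some 0)) * mo (ee (some 0)) +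
      MvPolynomial.X 0 * ((MvPolynomial.X 0 + MvPolynomial.X 2) ^ b *
        (MvPolynomial.X 0 + MvPolynomial.X 1) ^ c *
        (MvPolynomial.X 0 + MvPolynomial.X 1 + MvPolynomial.X 2)) := by
    unfold G mo
    simp only [ee, Option.elim, Pi.sub_apply]
    rw [h0, hb, hc]
    simp
    ring
  rw [W_eq, W_eq (m - ee (some 0)), hG, cf_add, cf_X m 0 h0, add_zero, cf_mo]
  apply ee_le
  intro k hk
  fin_cases k
  · exact absurd rfl hk
  · exact h1
  · exact h2

theorem W_101 (m : Fin 3 → ℕ) (h0 : 0 < m 0) (h1 : m 1 = 0) (h2 : 0 < m 2) :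
    W m = W (m - ee (some 1)) := by
  obtain ⟨b, hb⟩ : ∃ a, m 0 = a + 1 := ⟨m 0 - 1, by omega⟩
  obtain ⟨c, hc⟩ : ∃ a, m 2 = a + 1 := ⟨m 2 - 1, by omega⟩
  have hG : G m = G (m - ee (some 1)) * mo (ee (some 1)) +
      MvPolynomial.X 1 * ((MvPolynomial.X 1 + MvPolynomial.X 2) ^ b *
        (MvPolynomial.X 0 + MvPolynomial.X 1) ^ c *
        (MvPolynomial.X 0 + MvPolynomial.X 1 + MvPolynomial.X 2)) := by
    unfold G mo
    simp only [ee, Option.elim, Pi.sub_apply]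
    rw [h1, hb, hc]
    simp
    ring
  rw [W_eq, W_eq (m - ee (some 1)), hG, cf_add, cf_X m 1 h1, add_zero, cf_mo]
  apply ee_le
  intro k hk
  fin_cases k
  · exact h0
  · exact absurd rfl hk
  · exact h2

theorem W_110 (m : Fin 3 → ℕ) (h0 : 0 < m 0) (h1 : 0 < m 1) (h2 : m 2 = 0) :
    W m = W (m - ee (some 2)) := by
  obtain ⟨b, hb⟩ : ∃ a, m 0 = a + 1 := ⟨m 0 - 1, by omega⟩
  obtain ⟨c, hc⟩ : ∃ a, m 1 = a + 1 := ⟨m 1 - 1, by omega⟩
  have hG : G m = G (m - ee (some 2)) * mo (ee (some 2)) +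
      MvPolynomial.X 2 * ((MvPolynomial.X 1 + MvPolynomial.X 2) ^ b *
        (MvPolynomial.X 0 + MvPolynomial.X 2) ^ c *
        (MvPolynomial.X 0 + MvPolynomial.X 1 + MvPolynomial.X 2)) := by
    unfold G mo
    simp only [ee, Option.elim, Pi.sub_apply]
    rw [h2, hb, hc]
    simp
    ring
  rw [W_eq, W_eq (m - ee (some 2)), hG, cf_add, cf_X m 2 h2, add_zero, cf_mo]
  apply ee_le
  intro k hk
  fin_cases k
  · exact h0
  · exact h1
  · exact absurd rfl hk

end TC2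

open TC2

theorem C2 : C2_three := by
  intro m hm
  rw [Fintype.sum_option, Fin.sum_univ_three]
  have hcond : ∀ o, (∀ k, ee o k ≤ m k) ↔ ee o 0 ≤ m 0 ∧ ee o 1 ≤ m 1 ∧ ee o 2 ≤ m 2 := by
    intro o
    constructor
    · intro h; exact ⟨h 0, h 1, h 2⟩
    · rintro ⟨h0, h1, h2⟩ k
      fin_cases k
      · exact h0
      · exact h1
      · exact h2
  simp only [hcond]
  have en : ee none = fun _ => 1 := rfl
  rcases Nat.eq_zero_or_pos (m 0) with h0 | h0 <;> rcases Nat.eq_zero_or_pos (m 1) with h1 | h1 <;>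
    rcases Nat.eq_zero_or_pos (m 2) with h2 | h2
  · exfalso
    apply hm
    funext k
    fin_cases k
    · exact h0
    · exact h1
    · exact h2
  · -- (0, 0, c)
    rw [if_neg, if_neg, if_neg, if_neg, W_001 m h0 h1 h2]
    · simp
    all_goals simp [ee]; try omega
  · rw [if_neg, if_neg, if_neg, if_neg, W_010 m h0 h1 h2]
    · simp
    all_goals simp [ee]; try omega
  · rw [if_neg, if_pos, if_neg, if_neg, W_011 m h0 h1 h2]
    · simp [mult]
    all_goals simp [ee]; try omega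
  · rw [if_neg, if_neg, if_neg, if_neg, W_100 m h0 h1 h2]
    · simp
    all_goals simp [ee]; try omega
  · rw [if_neg, if_neg, if_pos, if_neg, W_101 m h0 h1 h2]
    · simp [mult]
    all_goals simp [ee]; try omega
  · rw [if_neg, if_neg, if_neg, if_pos, W_110 m h0 h1 h2]
    · simp [mult]
    all_goals simp [ee]; try omega
  · have h : ∀ k, 1 ≤ m k := by
      intro k
      fin_cases k
      · exact h0
      · exact h1
      · exact h2
    rw [W_one m h, if_pos, if_pos, if_pos, if_pos]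
    · simp only [mult, Option.elim, one_mul]
    all_goals simp [ee]; omega

end Pool.Agent.H919S
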