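import Pool.Agent.H919S.Stmts

set_option autoImplicit false

namespace Pool.Agent.H919S.TC3

open Finset Filter Topology

/-- coefficient of a product of renamed polynomials. -/
theorem coeff_rename_mul {α β : Type} (p : MvPolynomial α ℤ) (q : MvPolynomial β ℤ)
    (u : α →₀ ℕ) (v : β →₀ ℕ) :
    MvPolynomial.coeff (u.sumElim v)
      (MvPolynomial.rename Sum.inl p * MvPolynomial.rename Sum.inr q) =
    MvPolynomial.coeff u p * MvPolynomial.coeff v q := by
  classical
  induction p using MvPolynomial.induction_on' with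
  | monomial u' a =>
    induction q using MvPolynomial.induction_on' with
    | monomial v' b =>
      rw [MvPolynomial.rename_monomial, MvPolynomial.rename_monomial, MvPolynomial.monomial_mul,
        ← Finsupp.sumElim_eq_add, MvPolynomial.coeff_monomial, MvPolynomial.coeff_monomial,
        MvPolynomial.coeff_monomial]
      by_cases h1 : u' = u
      · by_cases h2 : v' = v
        · subst h1 h2; simp
        · rw [if_neg, if_neg h2, mul_zero]
          intro h
          apply h2
          ext b
          have := DFunLike.congr_fun h (Sum.inr b)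
          simpa [Finsupp.sumElim_inr] using this
      · rw [if_neg, if_neg h1, zero_mul]
        intro h
        apply h1
        ext b
        have := DFunLike.congr_fun h (Sum.inl b)
        simpa [Finsupp.sumElim_inl] using this
    | add q1 q2 h1 h2 =>
      rw [map_add, mul_add, MvPolynomial.coeff_add, h1, h2, MvPolynomial.coeff_add, mul_add]
  | add p1 p2 h1 h2 =>
    rw [map_add, add_mul, MvPolynomial.coeff_add, h1, h2, MvPolynomial.coeff_add, add_mul]

section one

variable {α : Type} [Fintype α] [DecidableEq α]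

/-- the polynomial `∏ (t + σ - X_a)^{m a}` over the legs. -/
noncomputable def Pm (m : α → ℕ) : Polynomial (MvPolynomial α ℤ) :=
  ∏ a, (Polynomial.C (∑ i ∈ univ.erase a, (MvPolynomial.X i : MvPolynomial α ℤ)) + Polynomial.X) ^ (m a)

theorem Pm_natDegree (m : α → ℕ) : (Pm m).natDegree ≤ ∑ a, m a := by
  unfold Pm
  refine (Polynomial.natDegree_prod_le _ _).trans ?_
  refine Finset.sum_le_sum fun a _ => ?_
  refine (Polynomial.natDegree_pow_le).trans ?_
  have : (Polynomial.C (∑ i ∈ univ.erase a, (MvPolynomial.X i : MvPolynomial α ℤ)) + Polynomial.X).natDegree ≤ 1 := by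
    rw [add_comm]; exact (Polynomial.natDegree_X_add_C _).le
  calc m a * _ ≤ m a * 1 := Nat.mul_le_mul_left _ this
    _ = m a := mul_one _

/-- the same with legs `Option α`. -/
noncomputable def Fm (m : α → ℕ) (k : ℕ) : MvPolynomial (Option α) ℤ :=
  (∑ a, MvPolynomial.X (some a)) ^ k *
    ∏ a, ((∑ i ∈ univ.erase a, MvPolynomial.X (some i)) + MvPolynomial.X none) ^ (m a)

theorem Fm_equiv (m : α → ℕ) (k : ℕ) :
    MvPolynomial.optionEquivLeft ℤ α (Fm m k) =
      Polynomial.C ((∑ a, (MvPolynomial.X a : MvPolynomial α ℤ)) ^ k) * Pm m := by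
  unfold Fm Pm
  rw [map_mul, map_pow, map_sum, map_prod]
  simp only [map_pow, map_add, map_sum, MvPolynomial.optionEquivLeft_X_some,
    MvPolynomial.optionEquivLeft_X_none]

theorem Fm_coeff (m : α → ℕ) (k j : ℕ) (u : α → ℕ) :
    MvPolynomial.coeff (Finsupp.equivFunOnFinite.symm (oc j u)) (Fm m k) =
      MvPolynomial.coeff (Finsupp.equivFunOnFinite.symm u)
        ((∑ a, (MvPolynomial.X a : MvPolynomial α ℤ)) ^ k * (Pm m).coeff j) := by
  rw [← MvPolynomial.optionEquivLeft_coeff_some_coeff_none, Fm_equiv, Polynomial.coeff_C_mul]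
  have h1 : (Finsupp.equivFunOnFinite.symm (oc j u)).some = Finsupp.equivFunOnFinite.symm u := by
    ext a
    simp [oc]
  rw [h1]
  congr 1

theorem Fm_hom (m : α → ℕ) (k : ℕ) : (Fm m k).IsHomogeneous (k + ∑ a, m a) := by
  unfold Fm
  apply MvPolynomial.IsHomogeneous.mul
  · have : (∑ a, (MvPolynomial.X (some a) : MvPolynomial (Option α) ℤ)).IsHomogeneous 1 :=
      MvPolynomial.IsHomogeneous.sum _ _ _ fun a _ => MvPolynomial.isHomogeneous_X _ _
    simpa using this.pow k
  · apply MvPolynomial.IsHomogeneous.prod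
    intro a _
    have : ((∑ i ∈ univ.erase a, (MvPolynomial.X (some i) : MvPolynomial (Option α) ℤ)) + MvPolynomial.X none).IsHomogeneous 1 :=
      (MvPolynomial.IsHomogeneous.sum _ _ _ fun a _ => MvPolynomial.isHomogeneous_X _ _).add
        (MvPolynomial.isHomogeneous_X _ _)
    simpa using this.pow (m a)

theorem Fm_zero (m : α → ℕ) (k j : ℕ) (h : j ≠ k) :
    MvPolynomial.coeff (Finsupp.equivFunOnFinite.symm (oc j m)) (Fm m k) = 0 := by
  apply (Fm_hom m k).coeff_eq_zero
  rw [Finsupp.degree_eq_sum, Fintype.sum_option]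
  simp only [Finsupp.equivFunOnFinite_symm_apply_apply, oc, Option.elim]
  omega

theorem W_oc (m : α → ℕ) (K : ℕ) :
    W (oc K m) = MvPolynomial.coeff (Finsupp.equivFunOnFinite.symm (oc K m)) (Fm m K) := by
  unfold W Fm
  congr 1
  rw [Fintype.prod_option]
  congr 1
  · simp only [oc, Option.elim]
    congr 1
    rw [← Finset.sum_image (s := univ) (g := fun a : α => (some a : Option α))
      (f := fun i => (MvPolynomial.X i : MvPolynomial (Option α) ℤ)) (by
        intro a _ b _ h; exact Option.some_injective _ h)]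
    apply Finset.sum_congr _ fun _ _ => rfl
    ext o
    cases o <;> simp
  · apply Finset.prod_congr rfl
    intro a _
    simp only [oc, Option.elim]
    congr 1
    rw [← Finset.sum_image (s := univ.erase a) (g := fun a : α => (some a : Option α))
      (f := fun i => (MvPolynomial.X i : MvPolynomial (Option α) ℤ)) (by
        intro a _ b _ h; exact Option.some_injective _ h),
      ← Finset.sum_singleton (fun i => (MvPolynomial.X i : MvPolynomial (Option α) ℤ)) none,
      ← Finset.sum_union (by
        rw [Finset.disjoint_singleton_right]; simp)]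
    apply Finset.sum_congr _ fun _ _ => rfl
    ext o
    cases o <;> simp

end one

theorem expand {α γ : Type} [Fintype α] [DecidableEq α] (m : α → ℕ) (N : ℕ) (h : ∑ a, m a ≤ N)
    (e : α → γ) (s : MvPolynomial γ ℤ) :
    ∏ a, ((∑ i ∈ univ.erase a, (MvPolynomial.X (e i) : MvPolynomial γ ℤ)) + s) ^ (m a) =
      ∑ j ∈ range (N + 1), MvPolynomial.rename e ((Pm m).coeff j) * s ^ j := by
  have h1 := Polynomial.eval₂_eq_sum_range' (MvPolynomial.rename e : MvPolynomial α ℤ →ₐ[ℤ] MvPolynomial γ ℤ).toRingHom
    (p := Pm m) (n := N + 1) (by have := Pm_natDegree m; omega) s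
  have h2 : Polynomial.eval₂ (MvPolynomial.rename e : MvPolynomial α ℤ →ₐ[ℤ] MvPolynomial γ ℤ).toRingHom s (Pm m) =
      ∏ a, ((∑ i ∈ univ.erase a, (MvPolynomial.X (e i) : MvPolynomial γ ℤ)) + s) ^ (m a) := by
    unfold Pm
    rw [Polynomial.eval₂_finsetProd]
    apply Finset.prod_congr rfl
    intro a _
    rw [Polynomial.eval₂_pow, Polynomial.eval₂_add, Polynomial.eval₂_C, Polynomial.eval₂_X]
    simp
  rw [← h2, h1]
  rfl

theorem C3 : C3_comp := by
  intro α β _ _ _ _ m N hα hβ
  set mα : α → ℕ := fun a => m (Sum.inl a) with hmα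
  set mβ : β → ℕ := fun b => m (Sum.inr b) with hmβ
  have e0 : Finsupp.equivFunOnFinite.symm m =
      (Finsupp.equivFunOnFinite.symm mα).sumElim (Finsupp.equivFunOnFinite.symm mβ) := by
    ext x
    cases x <;> simp [Finsupp.sumElim_apply, hmα, hmβ]
  -- product over the left legs
  have hL : ∏ a : α, (∑ i ∈ univ.erase (Sum.inl a : α ⊕ β), (MvPolynomial.X i : MvPolynomial (α ⊕ β) ℤ)) ^ (m (Sum.inl a)) =
      ∑ j ∈ range (N + 1), MvPolynomial.rename Sum.inl ((Pm mα).coeff j) *
        (MvPolynomial.rename Sum.inr (∑ b : β, (MvPolynomial.X b : MvPolynomial β ℤ))) ^ j := by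
    rw [← expand mα N hα Sum.inl]
    apply Finset.prod_congr rfl
    intro a _
    congr 1
    rw [map_sum]
    simp only [MvPolynomial.rename_X]
    have : (univ.erase (Sum.inl a : α ⊕ β)) = (univ.erase a).disjSum univ := by
      ext x
      cases x <;> simp
    rw [this, Finset.sum_disjSum]
  have hR : ∏ b : β, (∑ i ∈ univ.erase (Sum.inr b : α ⊕ β), (MvPolynomial.X i : MvPolynomial (α ⊕ β) ℤ)) ^ (m (Sum.inr b)) =
      ∑ j ∈ range (N + 1), MvPolynomial.rename Sum.inr ((Pm mβ).coeff j) *
        (MvPolynomial.rename Sum.inl (∑ b : α, (MvPolynomial.X b : MvPolynomial α ℤ))) ^ j := by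
    rw [← expand mβ N hβ Sum.inr]
    apply Finset.prod_congr rfl
    intro b _
    congr 1
    rw [map_sum]
    simp only [MvPolynomial.rename_X]
    have : (univ.erase (Sum.inr b : α ⊕ β)) = (univ : Finset α).disjSum (univ.erase b) := by
      ext x
      cases x <;> simp
    rw [this, Finset.sum_disjSum, add_comm]
  unfold W
  rw [Fintype.prod_sum_type, hL, hR, Finset.sum_mul_sum, MvPolynomial.coeff_sum]
  apply Finset.sum_congr rfl
  intro j hj
  rw [MvPolynomial.coeff_sum, Finset.sum_eq_single j]
  · have := W_oc mα j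
    have h2 := W_oc mβ j
    unfold W at this h2
    rw [this, h2, Fm_coeff, Fm_coeff, e0, ← coeff_rename_mul]
    congr 1
    simp only [map_mul, map_pow]
    ring
  · intro k _ hk
    have : (MvPolynomial.rename Sum.inl ((Pm mα).coeff j) *
        (MvPolynomial.rename Sum.inr (∑ b : β, (MvPolynomial.X b : MvPolynomial β ℤ))) ^ j *
      (MvPolynomial.rename Sum.inr ((Pm mβ).coeff k) *
        (MvPolynomial.rename Sum.inl (∑ b : α, (MvPolynomial.X b : MvPolynomial α ℤ))) ^ k) : MvPolynomial (α ⊕ β) ℤ) =
      MvPolynomial.rename Sum.inl ((∑ b : α, (MvPolynomial.X b : MvPolynomial α ℤ)) ^ k * (Pm mα).coeff j) *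
      MvPolynomial.rename Sum.inr ((∑ b : β, (MvPolynomial.X b : MvPolynomial β ℤ)) ^ j * (Pm mβ).coeff k) := by
      simp only [map_mul, map_pow]
      ring
    rw [this, e0, coeff_rename_mul, ← Fm_coeff, Fm_zero mα k j (Ne.symm hk), zero_mul]
  · intro h; exact absurd hj h

end Pool.Agent.H919S.TC3

namespace Pool.Agent.H919S

theorem C3 : C3_comp := TC3.C3

end Pool.Agent.H919S
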