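import Pool.Agent.H919S.Stmts

set_option autoImplicit false

namespace Pool.Agent.H919S

open Finset Filter Topology

namespace TD00

theorem half_cd (B : Basics) {α : Type} [Fintype α] [DecidableEq α] (N K : ℕ) (mα : α → ℕ)
    (A : Ten (Option α)) (E : Type) [NormedAddCommGroup E] [NormedSpace ℝ E] (e : E → ℝ)
    (X : E → Vec (Option α)) (c v : E → ℕ → ℂ) (he : ContDiff ℝ 1 e)
    (hX : ∀ k i, ContDiff ℝ 1 (fun p => X p k i)) (hc : ∀ j, ContDiff ℝ 1 (fun p => c p j))
    (hv : ∀ j, ContDiff ℝ 1 (fun p => v p j)) (k : Option α) (i : ℕ) :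
    ContDiff ℝ 1 (fun p => half N K mα A (e p) (X p) (c p) (v p) k i) := by
  have h2 : ContDiff ℝ 1 (fun p => (e p : ℂ)) := Complex.ofRealCLM.contDiff.comp he
  rcases k with _ | a
  · have h1 : ∀ k i, ContDiff ℝ 1 (fun p => der (oc N mα) A (X p) k i) :=
      B.cd (Option α) E X hX (oc N mα) A
    exact (h1 none i).sub (((h2.pow _).mul (hv i)).mul (h1 none K))
  · refine B.cd (Option α) E (fun p => Function.update (X p) none
      (fun j => if j ≤ K then X p none j * c p K else (e p : ℂ) ^ (j - K) * c p j)) ?_
      (oc N mα) A (some a) i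
    intro k j
    rcases k with _ | b
    · simp only [Function.update_self]
      split_ifs
      · exact (hX none j).mul (hc K)
      · exact (h2.pow _).mul (hc j)
    · have h3 : ∀ p, Function.update (X p) none
          (fun j => if j ≤ K then X p none j * c p K else (e p : ℂ) ^ (j - K) * c p j)
          (some b) j = X p (some b) j := fun p => by
        rw [Function.update_of_ne (by simp)]
      simp only [h3]
      exact hX (some b) j

theorem half_cj (B : Basics) {α : Type} [Fintype α] [DecidableEq α] (N K : ℕ) (mα : α → ℕ)
    (A : Ten (Option α)) (ε : ℝ) (x : Vec (Option α)) (c v : ℕ → ℂ) (k : Option α) (i : ℕ) :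
    half N K mα A ε (cj x) (fun j => (starRingEnd ℂ) (c j)) (fun j => (starRingEnd ℂ) (v j)) k i =
      (starRingEnd ℂ) (half N K mα A ε x c v k i) := by
  have h1 : ∀ (x : Vec (Option α)) k i, der (oc N mα) A (cj x) k i =
      (starRingEnd ℂ) (der (oc N mα) A x k i) := B.cjd (Option α) (oc N mα) A
  rcases k with _ | a
  · simp only [half]
    rw [h1, h1, map_sub, map_mul, map_mul, map_pow, Complex.conj_ofReal]
  · simp only [half]
    rw [← h1]
    congr 1
    funext k j
    rcases k with _ | b
    · simp only [Function.update_self, cj]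
      split_ifs
      · rw [map_mul]
      · rw [map_mul, map_pow, Complex.conj_ofReal]
    · rw [Function.update_of_ne (by simp)]
      simp only [cj]
      rw [Function.update_of_ne (by simp)]

end TD00

theorem D00 (B : Basics) : D00_cd := by
  intro α β _ _ _ _ N K m A C
  refine ⟨?_, fun ε x k i => ?_⟩
  · intro E _ _ e X he hX k i
    have hl : ∀ k i, ContDiff ℝ 1 (fun p => lft (X p) k i) := fun k i => hX (Sum.inl k) i
    have hr : ∀ k i, ContDiff ℝ 1 (fun p => rgt (X p) k i) := fun k i => hX (Sum.inr k) i
    rcases k with k | k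
    · exact TD00.half_cd B N K _ A E e (fun p => lft (X p))
        (fun p j => der (oc N fun b => m (Sum.inr b)) C (rgt (X p)) none j)
        (fun p => rgt (X p) none) he hl
        (fun j => B.cd (Option β) E _ hr _ C none j) (fun j => hr none j) k i
    · exact TD00.half_cd B N K _ C E e (fun p => rgt (X p))
        (fun p j => der (oc N fun a => m (Sum.inl a)) A (lft (X p)) none j)
        (fun p => lft (X p) none) he hr
        (fun j => B.cd (Option α) E _ hl _ A none j) (fun j => hl none j) k i
  · rcases k with k | k
    · simp only [GB]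
      rw [← TD00.half_cj B]
      have h1 : (fun j => (starRingEnd ℂ) (der (oc N fun b => m (Sum.inr b)) C (rgt x) none j)) =
          fun j => der (oc N fun b => m (Sum.inr b)) C (rgt (cj x)) none j :=
        funext fun j => (B.cjd (Option β) _ C (rgt x) none j).symm
      rw [h1]
      rfl
    · simp only [GB]
      rw [← TD00.half_cj B]
      have h1 : (fun j => (starRingEnd ℂ) (der (oc N fun a => m (Sum.inl a)) A (lft x) none j)) =
          fun j => der (oc N fun a => m (Sum.inl a)) A (lft (cj x)) none j :=
        funext fun j => (B.cjd (Option α) _ A (lft x) none j).symm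
      rw [h1]
      rfl

end Pool.Agent.H919S
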