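import Pool.Agent.H919S.Stmts

set_option autoImplicit false

namespace Pool.Agent.H919S

open Finset

namespace TD02

theorem prod_erase_none {α : Type} [Fintype α] [DecidableEq α] (f : Option α → ℂ) :
    ∏ l ∈ univ.erase none, f l = ∏ a, f (some a) := by
  have h : (univ.erase none : Finset (Option α)) = univ.map Function.Embedding.some := by
    ext o
    cases o <;> simp
  rw [h, Finset.prod_map]
  rfl

end TD02

theorem D02 : D02_none := by
  intro α _ _ N m A x j hj
  unfold der ev
  refine Finset.sum_nbij' (fun ι a => ι (some a)) (fun ι => oc j ι) ?_ ?_ ?_ ?_ ?_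
  · intro ι hι
    simp only [Finset.mem_filter, box, Fintype.mem_piFinset, Finset.mem_range] at hι ⊢
    intro a
    exact hι.1 (some a)
  · intro ι hι
    simp only [Finset.mem_filter, box, Fintype.mem_piFinset, Finset.mem_range] at hι ⊢
    refine ⟨?_, rfl⟩
    intro o
    cases o with
    | none => exact Nat.lt_succ_of_le hj
    | some a => exact hι a
  · intro ι hι
    simp only [Finset.mem_filter] at hι
    funext o
    cases o with
    | none => exact hι.2.symm
    | some a => rfl
  · intro ι _
    rfl
  · intro ι hι
    simp only [Finset.mem_filter] at hι
    have h1 : oc j (fun a => ι (some a)) = ι := by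
      funext o
      cases o with
      | none => exact hι.2.symm
      | some a => rfl
    rw [TD02.prod_erase_none]
    unfold slc
    rw [h1]

end Pool.Agent.H919S
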