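import Pool.Agent.H919S.Stmts

set_option autoImplicit false

namespace Pool.Agent.H919S

open Finset Filter Topology

namespace TD03

/-- top nonzero index -/
theorem top {f : ℕ → ℂ} {n : ℕ} (h0 : ∀ i, n < i → f i = 0) (h1 : ∃ i, f i ≠ 0) :
    ∃ t, t ≤ n ∧ f t ≠ 0 ∧ ∀ i, t < i → f i = 0 := by
  classical
  have hle : ∀ i, f i ≠ 0 → i ≤ n := fun i hi => by
    by_contra hc
    push Not at hc
    exact hi (h0 i hc)
  obtain ⟨i0, hi0⟩ := h1
  refine ⟨Nat.findGreatest (fun i => f i ≠ 0) n, Nat.findGreatest_le n, ?_, ?_⟩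
  · exact Nat.findGreatest_spec (P := fun i => f i ≠ 0) (hle i0 hi0) hi0
  · intro i hi
    by_contra hne
    exact absurd (Nat.le_findGreatest (P := fun i => f i ≠ 0) (hle i hne) hne) (not_le.2 hi)

theorem der_none {α : Type} [Fintype α] [DecidableEq α] (n : Option α → ℕ) (A : Ten (Option α))
    (v : ℕ → ℂ) (w : Vec α) (a : α) (i : ℕ) :
    der n A (fun o => o.elim v w) (some a) i =
      ∑ ι ∈ (box n).filter (fun ι => ι (some a) = i), v (ι none) * ((A ι : ℂ) *
        ∏ l ∈ (univ.erase (some a)).erase none,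
          (fun o : Option α => o.elim (fun _ : ℕ => (0 : ℂ)) w) l (ι l)) := by
  unfold der
  refine Finset.sum_congr rfl fun ι _ => ?_
  rw [← Finset.mul_prod_erase (univ.erase (some a)) _ (a := none) (by simp)]
  have h1 : ∏ l ∈ (univ.erase (some a)).erase none, (fun o : Option α => o.elim v w) l (ι l) =
      ∏ l ∈ (univ.erase (some a)).erase none,
        (fun o : Option α => o.elim (fun _ : ℕ => (0 : ℂ)) w) l (ι l) := by
    refine Finset.prod_congr rfl fun l hl => ?_
    cases l with
    | none => simp at hl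
    | some b => rfl
  rw [h1]
  simp only [Option.elim_none]
  ring

theorem ker {α : Type} [Fintype α] [DecidableEq α] (N : ℕ) (m : α → ℕ) (A : Ten (Option α))
    (w : Vec α) (hN : ∑ a, m a ≤ N) :
    ∃ v : ℕ → ℂ, (∀ j, N < j → v j = 0) ∧ (∃ j, v j ≠ 0) ∧
      ∀ a i, i < m a → der (oc N m) A (fun o => o.elim v w) (some a) i = 0 := by
  classical
  let E : (Fin (N + 1) → ℂ) → ℕ → ℂ := fun v j => if h : j < N + 1 then v ⟨j, h⟩ else 0
  have hEa : ∀ v v' j, E (v + v') j = E v j + E v' j := by
    intro v v' j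
    by_cases h : j < N + 1
    · simp only [E, dif_pos h, Pi.add_apply]
    · simp only [E, dif_neg h, add_zero]
  have hEs : ∀ (c : ℂ) v j, E (c • v) j = c * E v j := by
    intro c v j
    by_cases h : j < N + 1
    · simp only [E, dif_pos h, Pi.smul_apply, smul_eq_mul]
    · simp only [E, dif_neg h, mul_zero]
  let Φ : (Fin (N + 1) → ℂ) →ₗ[ℂ] ((Σ a : α, Fin (m a)) → ℂ) :=
    { toFun := fun v p => der (oc N m) A (fun o => o.elim (E v) w) (some p.1) p.2
      map_add' := by
        intro v v'
        funext p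
        simp only [Pi.add_apply, der_none, hEa]
        rw [← Finset.sum_add_distrib]
        exact Finset.sum_congr rfl fun _ _ => by ring
      map_smul' := by
        intro c v
        funext p
        simp only [Pi.smul_apply, smul_eq_mul, der_none, hEs, RingHom.id_apply]
        rw [Finset.mul_sum]
        exact Finset.sum_congr rfl fun _ _ => by ring }
  have h1 : Module.finrank ℂ ((Σ a : α, Fin (m a)) → ℂ) < Module.finrank ℂ (Fin (N + 1) → ℂ) := by
    rw [Module.finrank_fintype_fun_eq_card, Module.finrank_fintype_fun_eq_card, Fintype.card_sigma,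
      Fintype.card_fin]
    simp only [Fintype.card_fin]
    omega
  obtain ⟨v, hv, hv0⟩ := (Submodule.ne_bot_iff _).1 (LinearMap.ker_ne_bot_of_finrank_lt (f := Φ) h1)
  refine ⟨E v, ?_, ?_, ?_⟩
  · intro j hj
    have : ¬ j < N + 1 := by omega
    simp only [E, dif_neg this]
  · by_contra hc
    push Not at hc
    apply hv0
    funext j
    have := hc j.1
    simp only [E, dif_pos j.2] at this
    exact this
  · intro a i hi
    have h2 : Φ v = 0 := hv
    exact congrFun h2 ⟨a, ⟨i, hi⟩⟩

end TD03

theorem D03 (B : Basics) (h2 : D02_none) : D03_ker := by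
  classical
  intro α _ _ N m A y hG hN hy0 hy1
  by_contra hcon
  push Not at hcon
  have ht : ∀ a, ∃ t, t ≤ m a ∧ y a t ≠ 0 ∧ ∀ i, t < i → y a i = 0 := fun a =>
    TD03.top (hy0 a) (hy1 a)
  choose m2 hm2 hm2y hm2t using ht
  obtain ⟨w, hw⟩ : ∃ w : Vec α, w = fun a i => (y a (m2 a))⁻¹ * y a i := ⟨_, rfl⟩
  have hev : ∀ j, j ≤ N → ev m (slc A j) w = 0 := by
    intro j hj
    rw [hw, (B.hom α m (slc A j) (fun a => (y a (m2 a))⁻¹) y).2, hcon j hj, mul_zero]
  obtain ⟨v, hv0, hvne, hvker⟩ := TD03.ker N m A w hN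
  obtain ⟨K, hKN, hKv, hKt⟩ := TD03.top hv0 hvne
  obtain ⟨z, hz⟩ : ∃ z : Vec (Option α), z = fun o i =>
      (o.elim (v K)⁻¹ (fun _ => 1)) * (fun o : Option α => o.elim v w) o i := ⟨_, rfl⟩
  have hzn : ∀ i, z none i = (v K)⁻¹ * v i := fun i => by rw [hz]; rfl
  have hzs : ∀ a i, z (some a) i = w a i := fun a i => by
    rw [hz]
    simp
  have hcht : Cht (oc K m2) z := by
    constructor
    · intro k
      cases k with
      | none =>
        rw [hzn]
        exact inv_mul_cancel₀ hKv
      | some a =>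
        rw [hzs, hw]
        exact inv_mul_cancel₀ (hm2y a)
    · intro k i hi
      cases k with
      | none =>
        rw [hzn, hKt i hi, mul_zero]
      | some a =>
        rw [hzs, hw]
        simp only
        rw [hm2t a i hi, mul_zero]
  have hnone : ∀ j, j ≤ N → der (oc N m) A z none j = 0 := by
    intro j hj
    rw [h2 α N m A z j hj]
    have : (fun a => z (some a)) = w := by
      funext a i
      exact hzs a i
    rw [this]
    exact hev j hj
  have hle : oc K m2 ≤ oc N m := by
    intro k
    cases k with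
    | none => exact hKN
    | some a => exact hm2 a
  have hder : ∀ k i, i < (oc N m) k → der (oc N m) A z k i = 0 := by
    intro k i hi
    cases k with
    | none => exact hnone i (le_of_lt hi)
    | some a =>
      have := (B.hom (Option α) (oc N m) A (fun o => o.elim (v K)⁻¹ (fun _ => 1))
        (fun o : Option α => o.elim v w)).1 (some a) i
      rw [hz, this, hvker a i hi, mul_zero]
  obtain ⟨_, hsol⟩ := B.noinf (Option α) (oc N m) A (fun m' hm' p hp => ((hG m' hm').1 p hp).2.1)
    (oc K m2) z hle hcht hder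
  have hne := ((hG (oc N m) le_rfl).1 z hsol).2.1
  apply hne
  rw [B.euler (Option α) (oc N m) A z none]
  refine Finset.sum_eq_zero fun i hi => ?_
  rw [hnone i (Nat.lt_succ_iff.1 (Finset.mem_range.1 hi)), mul_zero]

end Pool.Agent.H919S
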