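/-
H919S, task D04: the limit system at a pair of solutions.
-/
import Pool.Agent.H919S.Stmts

set_option autoImplicit false

namespace Pool.Agent.H919S

open Finset Filter Topology

namespace TD04

variable {α : Type} [Fintype α] [DecidableEq α]

lemma oc_le {K N : ℕ} (h : K ≤ N) (m : α → ℕ) : oc K m ≤ oc N m := by
  intro o
  cases o with
  | none => exact h
  | some a => exact le_refl _

lemma mem_Jm {κ : Type} [Fintype κ] [DecidableEq κ] (m : κ → ℕ) (k : κ) (i : ℕ) :
    (k, i) ∈ Jm m ↔ i < m k := by
  simp [Jm]

lemma derK_ne (B : Basics) {N K : ℕ} (hK : K ≤ N) (m : α → ℕ) (A : Ten (Option α))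
    (hA : Good (oc N m) A) (p : Vec (Option α)) (hp : p ∈ Sol (oc K m) A) :
    der (oc N m) A p none K ≠ 0 := by
  have hg := hA (oc K m) (oc_le hK m)
  have hev := (hg.1 p hp).2.1
  have he := B.euler (Option α) (oc K m) A p none
  have h0 : der (oc N m) A p none K = der (oc K m) A p none K :=
    B.supp _ _ _ A p (oc_le hK m) hp.1.2 none K le_rfl
  rw [h0]
  intro h
  apply hev
  rw [he]
  apply Finset.sum_eq_zero
  intro i hi
  by_cases hiK : i = K
  · subst hiK; rw [h]; simp
  · have hi' : i < oc K m none := by
      have := Finset.mem_range.1 hi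
      change i < K + 1 at this
      change i < K
      omega
    rw [hp.2 none i hi']; simp

lemma half_none (N K : ℕ) (m : α → ℕ) (A : Ten (Option α)) (x : Vec (Option α)) (c v : ℕ → ℂ)
    (i : ℕ) (hi : i < K) : half N K m A 0 x c v none i = der (oc N m) A x none i := by
  have : K - i ≠ 0 := by omega
  simp [half, zero_pow this]

lemma half_some (B : Basics) (N K : ℕ) (m : α → ℕ) (A : Ten (Option α)) (x : Vec (Option α))
    (c v : ℕ → ℂ) (a : α) (i : ℕ) (hx : ∀ j, K < j → x none j = 0) :
    half N K m A 0 x c v (some a) i = c K * der (oc N m) A x (some a) i := by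
  have h1 : Function.update x none
      (fun j => if j ≤ K then x none j * c K else ((0 : ℝ) : ℂ) ^ (j - K) * c j)
      = fun l i => (if l = none then c K else 1) * x l i := by
    funext l j
    rcases l with _ | b
    · simp only [Function.update_self, if_true]
      split_ifs with h
      · ring
      · have h' : j - K ≠ 0 := by omega
        rw [hx j (not_le.mp h), Complex.ofReal_zero, zero_pow h']; simp
    · simp
  show der (oc N m) A (Function.update x none
      (fun j => if j ≤ K then x none j * c K else ((0 : ℝ) : ℂ) ^ (j - K) * c j)) (some a) i = _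
  rw [h1, (B.hom _ _ _ _ _).1]
  congr 1
  rw [Finset.prod_eq_single (none : Option α)]
  · simp
  · intro b _ hb; simp [hb]
  · intro h; simp at h

/-- the zero part, one side. -/
lemma half_zero (B : Basics) {N K : ℕ} (hK : K ≤ N) (m : α → ℕ) (A : Ten (Option α))
    (p : Vec (Option α)) (hp : p ∈ Sol (oc K m) A) (c v : ℕ → ℂ) (k : Option α) (i : ℕ)
    (hi : i < oc K m k) : half N K m A 0 p c v k i = 0 := by
  have h0 : der (oc N m) A p k i = der (oc K m) A p k i :=
    B.supp _ _ _ A p (oc_le hK m) hp.1.2 k i hi.le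
  rcases k with _ | a
  · rw [half_none N K m A p c v i hi, h0, hp.2 none i hi]
  · rw [half_some B N K m A p c v a i (fun j hj => hp.1.2 none j hj), h0, hp.2 (some a) i hi, mul_zero]

lemma smooth_line (B : Basics) {κ : Type} [Fintype κ] [DecidableEq κ] (m : κ → ℕ) (A : Ten κ)
    (p y : Vec κ) (k : κ) (i : ℕ) :
    Differentiable ℝ (fun t : ℝ => der m A (fun k i => p k i + (t : ℂ) * y k i) k i) := by
  refine (B.cd κ ℝ (fun t : ℝ => fun k i => p k i + (t : ℂ) * y k i) ?_ m A k i).differentiable
    (by norm_num)
  intro k i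
  exact contDiff_const.add (Complex.ofRealCLM.contDiff.mul contDiff_const)

/-- the nondegeneracy part, one side. -/
lemma half_ndg (B : Basics) {N K : ℕ} (hK : K ≤ N) (m : α → ℕ) (A : Ten (Option α))
    (hA : Good (oc N m) A) (p : Vec (Option α)) (hp : p ∈ Sol (oc K m) A) (c v : ℝ → ℕ → ℂ)
    (hc : DifferentiableAt ℝ (fun t => c t K) 0) (hc0 : c 0 K ≠ 0) (y : Vec (Option α))
    (hy : ∀ k i, (k, i) ∉ Jm (oc K m) → y k i = 0)
    (hd : ∀ k i, (k, i) ∈ Jm (oc K m) → HasDerivAt (fun t : ℝ =>
      half N K m A 0 (fun k i => p k i + (t : ℂ) * y k i) (c t) (v t) k i) 0 0) :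
    ∀ k i, y k i = 0 := by
  have hg := hA (oc K m) (oc_le hK m)
  refine (hg.1 p hp).2.2 y hy ?_
  have hsupp : ∀ (t : ℝ) k i, oc K m k < i → p k i + (t : ℂ) * y k i = 0 := by
    intro t k i hi
    rw [hp.1.2 k i hi, hy k i (by rw [mem_Jm]; omega)]; simp
  have h0 : ∀ (t : ℝ) k i, i ≤ oc K m k →
      der (oc N m) A (fun k i => p k i + (t : ℂ) * y k i) k i
        = der (oc K m) A (fun k i => p k i + (t : ℂ) * y k i) k i := by
    intro t k i hi
    exact B.supp _ _ _ A _ (oc_le hK m) (hsupp t) k i hi
  intro k i hki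
  have hi := (mem_Jm _ _ _).1 hki
  have hdk := hd k i hki
  rcases k with _ | a
  · have e : (fun t : ℝ => half N K m A 0 (fun k i => p k i + (t : ℂ) * y k i) (c t) (v t) none i)
        = fun t : ℝ => der (oc K m) A (fun k i => p k i + (t : ℂ) * y k i) none i := by
      funext t
      rw [half_none N K m A _ _ _ i hi, h0 t none i hi.le]
    rw [e] at hdk
    exact hdk
  · have e : (fun t : ℝ => half N K m A 0 (fun k i => p k i + (t : ℂ) * y k i) (c t) (v t) (some a) i)
        = fun t : ℝ => c t K * der (oc K m) A (fun k i => p k i + (t : ℂ) * y k i) (some a) i := by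
      funext t
      rw [half_some B N K m A _ _ _ a i (fun j hj => hsupp t none j hj), h0 t (some a) i hi.le]
    rw [e] at hdk
    have hgd : DifferentiableAt ℝ
        (fun t : ℝ => der (oc K m) A (fun k i => p k i + (t : ℂ) * y k i) (some a) i) 0 :=
      (smooth_line B (oc K m) A p y (some a) i) 0
    have hprod := hc.hasDerivAt.mul hgd.hasDerivAt
    have huniq := hprod.unique hdk
    have hg0 : der (oc K m) A (fun k i => p k i + ((0 : ℝ) : ℂ) * y k i) (some a) i = 0 := by
      have : (fun k i => p k i + ((0 : ℝ) : ℂ) * y k i) = p := by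
        funext k i; simp
      rw [this]
      exact hp.2 (some a) i hi
    rw [hg0, mul_zero, zero_add] at huniq
    have hz := (mul_eq_zero.1 huniq).resolve_left hc0
    have := hgd.hasDerivAt
    rw [hz] at this
    exact this

end TD04

theorem D04 (B : Basics) (_h2 : D02_none) : D04_zero := by
  intro α β _ _ _ _ N K m A C pA pC hK hA hC hpA hpC
  constructor
  · intro k i hki
    have hi := (TD04.mem_Jm _ _ _).1 hki
    rcases k with k | k
    · exact TD04.half_zero B hK (fun a => m (Sum.inl a)) A pA hpA _ _ k i hi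
    · exact TD04.half_zero B hK (fun b => m (Sum.inr b)) C pC hpC _ _ k i hi
  · intro y hy hd
    have hyA : ∀ k i, y (Sum.inl k) i = 0 := by
      refine TD04.half_ndg B hK (fun a => m (Sum.inl a)) A hA pA hpA
        (fun t j => der (oc N fun b => m (Sum.inr b)) C
          (fun k i => pC k i + (t : ℂ) * y (Sum.inr k) i) none j)
        (fun t => fun i => pC none i + (t : ℂ) * y (Sum.inr none) i)
        ((TD04.smooth_line B _ C pC (fun k => y (Sum.inr k)) none K) 0) ?_
        (fun k => y (Sum.inl k)) ?_ ?_
      · have h := TD04.derK_ne B hK (fun b => m (Sum.inr b)) C hC pC hpC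
        have e : (fun k i => pC k i + ((0 : ℝ) : ℂ) * y (Sum.inr k) i) = pC := by
          funext k i; simp
        show der (oc N fun b => m (Sum.inr b)) C
          (fun k i => pC k i + ((0 : ℝ) : ℂ) * y (Sum.inr k) i) none K ≠ 0
        rw [e]; exact h
      · intro k i hki
        apply hy
        rw [TD04.mem_Jm] at hki ⊢
        exact hki
      · intro k i hki
        have := hd (Sum.inl k) i (by rw [TD04.mem_Jm] at hki ⊢; exact hki)
        exact this
    have hyC : ∀ k i, y (Sum.inr k) i = 0 := by
      refine TD04.half_ndg B hK (fun b => m (Sum.inr b)) C hC pC hpC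
        (fun t j => der (oc N fun a => m (Sum.inl a)) A
          (fun k i => pA k i + (t : ℂ) * y (Sum.inl k) i) none j)
        (fun t => fun i => pA none i + (t : ℂ) * y (Sum.inl none) i)
        ((TD04.smooth_line B _ A pA (fun k => y (Sum.inl k)) none K) 0) ?_
        (fun k => y (Sum.inr k)) ?_ ?_
      · have h := TD04.derK_ne B hK (fun a => m (Sum.inl a)) A hA pA hpA
        have e : (fun k i => pA k i + ((0 : ℝ) : ℂ) * y (Sum.inl k) i) = pA := by
          funext k i; simp
        show der (oc N fun a => m (Sum.inl a)) A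
          (fun k i => pA k i + ((0 : ℝ) : ℂ) * y (Sum.inl k) i) none K ≠ 0
        rw [e]; exact h
      · intro k i hki
        apply hy
        rw [TD04.mem_Jm] at hki ⊢
        exact hki
      · intro k i hki
        have := hd (Sum.inr k) i (by rw [TD04.mem_Jm] at hki ⊢; exact hki)
        exact this
    intro k i
    rcases k with k | k
    · exact hyA k i
    · exact hyC k i

end Pool.Agent.H919S
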