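import Pool.Agent.H919S.Stmts

set_option autoImplicit false

namespace Pool.Agent.H919S

namespace TD05

open Finset

theorem side (B : Basics) {α : Type} [Fintype α] [DecidableEq α] (N K : ℕ) (mα : α → ℕ)
    (A : Ten (Option α)) (ε : ℝ) (X : Vec (Option α)) (c U : ℕ → ℂ)
    (hU : ∀ j, j ≤ N → U j = (ε : ℂ) ^ K *
      (if j ≤ K then X none j * c K else (ε : ℂ) ^ (j - K) * c j)) (a : α) (i : ℕ) :
    der (oc N mα) A (fun o => o.elim U (fun a => X (some a))) (some a) i =
      (ε : ℂ) ^ K * der (oc N mα) A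
        (Function.update X none (fun j => if j ≤ K then X none j * c K else
          (ε : ℂ) ^ (j - K) * c j)) (some a) i := by
  set Y : Vec (Option α) := Function.update X none (fun j => if j ≤ K then X none j * c K else
          (ε : ℂ) ^ (j - K) * c j) with hY
  have h1 := (B.hom (Option α) (oc N mα) A (fun l => if l = none then (ε : ℂ) ^ K else 1) Y).1
    (some a) i
  have hprod : ∏ l ∈ univ.erase (some a), (if l = (none : Option α) then (ε : ℂ) ^ K else 1) =
      (ε : ℂ) ^ K := by
    rw [Finset.prod_ite_eq' (univ.erase (some a)) none (fun _ => (ε : ℂ) ^ K)]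
    rw [if_pos]
    simp
  rw [hprod] at h1
  rw [← h1]
  apply B.congr (Option α) (oc N mα) A A
  · intro ι _ _; rfl
  · intro l hl j hj
    rcases l with _ | b
    · have hjN : j ≤ N := hj
      rw [if_pos rfl, hY, Function.update_self]
      exact hU j hjN
    · rw [if_neg (by simp), one_mul, hY, Function.update_of_ne (by simp)]
      rfl

theorem eqs (B : Basics) (h2 : D02_none) {α : Type} [Fintype α] [DecidableEq α] (N K : ℕ)
    (mα : α → ℕ) (A : Ten (Option α)) (ε : ℝ) (X : Vec (Option α)) (v : ℕ → ℂ) (hKN : K ≤ N)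
    (hvK : v K = 1)
    (h : ∀ j, j < K → der (oc N mα) A X none j -
      (ε : ℂ) ^ (K - j) * v j * der (oc N mα) A X none K = 0) (j : ℕ) (hj : j ≤ K) :
    (ε : ℂ) ^ j * ev mα (slc A j) (fun a => X (some a)) =
      (ε : ℂ) ^ K * v j * ev mα (slc A K) (fun a => X (some a)) := by
  rw [← h2 α N mα A X j (hj.trans hKN), ← h2 α N mα A X K hKN]
  rcases Nat.lt_or_ge j K with hlt | hge
  · have e := sub_eq_zero.1 (h j hlt)
    rw [e]
    have : (ε : ℂ) ^ K = (ε : ℂ) ^ j * (ε : ℂ) ^ (K - j) := by
      rw [← pow_add]; congr 1; omega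
    rw [this]; ring
  · have : j = K := le_antisymm hj hge
    subst this
    rw [hvK, mul_one]

end TD05

open Finset in
theorem D05 (B : Basics) (h1 : D01_der) (h2 : D02_none) : D05_sound := by
  intro α β _ _ _ _ N K m A C ε x hKN hε hCht hG
  have hJ : ∀ (k : Option α ⊕ Option β) (i : ℕ), i < tB K m k → (k, i) ∈ Jm (tB K m) := by
    intro k i hi
    unfold Jm
    rw [Finset.mem_biUnion]
    refine ⟨k, Finset.mem_univ _, ?_⟩
    rw [Finset.mem_image]
    exact ⟨i, Finset.mem_range.2 hi, rfl⟩
  have hvA : lft x none K = 1 := hCht.1 (Sum.inl none)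
  have hvC : rgt x none K = 1 := hCht.1 (Sum.inr none)
  have hC : ∀ j, j ≤ K → (ε : ℂ) ^ j * vC m C (prj x) j =
      (ε : ℂ) ^ K * x (Sum.inl none) j * vC m C (prj x) K := by
    intro j hj
    refine TD05.eqs B h2 N K (fun b => m (Sum.inr b)) C ε (rgt x) (lft x none) hKN hvA ?_ j hj
    intro j hj
    exact hG (Sum.inr none) j (hJ _ _ hj)
  have hA : ∀ j, j ≤ K → (ε : ℂ) ^ j * vA m A (prj x) j =
      (ε : ℂ) ^ K * x (Sum.inr none) j * vA m A (prj x) K := by
    intro j hj
    refine TD05.eqs B h2 N K (fun a => m (Sum.inl a)) A ε (lft x) (rgt x none) hKN hvC ?_ j hj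
    intro j hj
    exact hG (Sum.inl none) j (hJ _ _ hj)
  have hεj : ∀ j, ¬ j ≤ K → (ε : ℂ) ^ j = (ε : ℂ) ^ K * (ε : ℂ) ^ (j - K) := by
    intro j hj
    rw [← pow_add]; congr 1; omega
  refine ⟨⟨⟨?_, ?_⟩, ?_⟩, hC, hA⟩
  · rintro (a | b)
    · exact hCht.1 (Sum.inl (some a))
    · exact hCht.1 (Sum.inr (some b))
  · rintro (a | b) i hi
    · exact hCht.2 (Sum.inl (some a)) i hi
    · exact hCht.2 (Sum.inr (some b)) i hi
  · rintro (a | b) i hi
    · rw [(h1 α β N m A C ε (prj x)).1 a i]
      have e := TD05.side B N K (fun a => m (Sum.inl a)) A ε (lft x)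
        (fun j => der (oc N fun b => m (Sum.inr b)) C (rgt x) none j)
        (fun j => (ε : ℂ) ^ j * vC m C (prj x) j) ?_ a i
      · have g := hG (Sum.inl (some a)) i (hJ _ _ hi)
        have e' : der (oc N fun a => m (Sum.inl a)) A
            (fun o => o.elim (fun j => (ε : ℂ) ^ j * vC m C (prj x) j)
              (fun a => prj x (Sum.inl a))) (some a) i =
            (ε : ℂ) ^ K * GB N K m A C ε x (Sum.inl (some a)) i := e
        rw [e', g, mul_zero]
      · intro j hj
        have hc : ∀ j, j ≤ N → der (oc N fun b => m (Sum.inr b)) C (rgt x) none j =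
            vC m C (prj x) j := fun j hj => h2 β N (fun b => m (Sum.inr b)) C (rgt x) j hj
        rw [hc j hj, hc K hKN]
        split_ifs with hjK
        · rw [hC j hjK, mul_assoc]; rfl
        · rw [hεj j hjK, mul_assoc]
    · rw [(h1 α β N m A C ε (prj x)).2.1 b i]
      have e := TD05.side B N K (fun b => m (Sum.inr b)) C ε (rgt x)
        (fun j => der (oc N fun a => m (Sum.inl a)) A (lft x) none j)
        (fun j => (ε : ℂ) ^ j * vA m A (prj x) j) ?_ b i
      · have g := hG (Sum.inr (some b)) i (hJ _ _ hi)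
        have e' : der (oc N fun b => m (Sum.inr b)) C
            (fun o => o.elim (fun j => (ε : ℂ) ^ j * vA m A (prj x) j)
              (fun b => prj x (Sum.inr b))) (some b) i =
            (ε : ℂ) ^ K * GB N K m A C ε x (Sum.inr (some b)) i := e
        rw [e', g, mul_zero]
      · intro j hj
        have hc : ∀ j, j ≤ N → der (oc N fun a => m (Sum.inl a)) A (lft x) none j =
            vA m A (prj x) j := fun j hj => h2 α N (fun a => m (Sum.inl a)) A (lft x) j hj
        rw [hc j hj, hc K hKN]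
        split_ifs with hjK
        · rw [hA j hjK, mul_assoc]; rfl
        · rw [hεj j hjK, mul_assoc]

end Pool.Agent.H919S
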