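/-
H919S D06: solutions give zeros of the extended system.
-/
import Pool.Agent.H919S.Stmts

set_option autoImplicit false

namespace Pool.Agent.H919S.TD06

open Finset Filter Topology

/-- the pure algebra of one half of the extended system. -/
theorem half_zero (B : Basics) (h2 : D02_none) {α : Type} [Fintype α] [DecidableEq α]
    (N K : ℕ) (mα : α → ℕ) (A : Ten (Option α)) (ε : ℝ) (y : Vec α)
    (V W' : ℕ → ℂ) (c v : ℕ → ℂ) (x : Vec (Option α)) (hKN : K ≤ N) (hε : ε ≠ 0)
    (hW : W' K ≠ 0) (hV : V K ≠ 0)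
    (hVdef : ∀ j, V j = ev mα (slc A j) y)
    (hc : ∀ j, j ≤ N → c j = W' j)
    (hv : ∀ j, j ≤ K → v j = (ε : ℂ) ^ j * V j / ((ε : ℂ) ^ K * V K))
    (hx0 : ∀ j, j ≤ K → x none j = (ε : ℂ) ^ j * W' j / ((ε : ℂ) ^ K * W' K))
    (hxs : ∀ a, x (some a) = y a)
    (hder : ∀ a i, i < mα a →
      der (oc N mα) A (fun o => o.elim (fun j => (ε : ℂ) ^ j * W' j) (fun a => y a)) (some a) i = 0)
    (k : Option α) (i : ℕ) (hi : i < oc K mα k) :
    half N K mα A ε x c v k i = 0 := by
  have hε' : (ε : ℂ) ≠ 0 := by exact_mod_cast hε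
  have hεK : (ε : ℂ) ^ K ≠ 0 := pow_ne_zero _ hε'
  have hy : (fun a => x (some a)) = y := by
    funext a; exact hxs a
  rcases k with _ | a
  · -- extra leg
    have hiK : i < K := hi
    have e1 : der (oc N mα) A x none i = V i := by
      rw [h2 α N mα A x i (by omega), hy, hVdef]
    have e2 : der (oc N mα) A x none K = V K := by
      rw [h2 α N mα A x K hKN, hy, hVdef]
    show der (oc N mα) A x none i - (ε : ℂ) ^ (K - i) * v i * der (oc N mα) A x none K = 0
    rw [e1, e2, hv i (by omega)]
    have hs : (ε : ℂ) ^ K = (ε : ℂ) ^ (K - i) * (ε : ℂ) ^ i := by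
      rw [← pow_add]; congr 1; omega
    have h3 : (ε : ℂ) ^ (K - i) ≠ 0 := pow_ne_zero _ hε'
    have h4 : (ε : ℂ) ^ i ≠ 0 := pow_ne_zero _ hε'
    rw [hs]
    field_simp
    ring
  · -- ordinary leg
    have hia : i < mα a := hi
    show der (oc N mα) A
      (Function.update x none (fun j => if j ≤ K then x none j * c K else (ε : ℂ) ^ (j - K) * c j))
      (some a) i = 0
    have hcon := B.congr (Option α) (oc N mα) A A
      (Function.update x none (fun j => if j ≤ K then x none j * c K else (ε : ℂ) ^ (j - K) * c j))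
      (fun o i => (fun o : Option α => o.elim ((ε : ℂ) ^ K)⁻¹ (fun _ => 1)) o *
        (fun o : Option α => o.elim (fun j => (ε : ℂ) ^ j * W' j) (fun a => y a)) o i)
      (some a) i (fun _ _ _ => rfl) ?_
    · rw [hcon]
      have hh := (B.hom (Option α) (oc N mα) A (fun o : Option α => o.elim ((ε : ℂ) ^ K)⁻¹ (fun _ => 1))
        (fun o : Option α => o.elim (fun j => (ε : ℂ) ^ j * W' j) (fun a => y a))).1 (some a) i
      rw [hh, hder a i hia, mul_zero]
    · intro l hl j hj
      rcases l with _ | b
      · have hjN : j ≤ N := hj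
        simp only [Function.update_self, Option.elim_none]
        by_cases hjK : j ≤ K
        · rw [if_pos hjK, hx0 j hjK, hc K hKN]
          field_simp
        · rw [if_neg hjK, hc j hjN]
          have hs : (ε : ℂ) ^ j = (ε : ℂ) ^ (j - K) * (ε : ℂ) ^ K := by
            rw [← pow_add]; congr 1; omega
          rw [hs]
          field_simp
      · have hne : (some b : Option α) ≠ none := by simp
        rw [Function.update_of_ne hne]
        simp only [Option.elim_some, one_mul]
        rw [hxs b]

end Pool.Agent.H919S.TD06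

namespace Pool.Agent.H919S

open Finset Filter Topology

theorem D06 (B : Basics) (h1 : D01_der) (h2 : D02_none) : D06_lift := by
  intro α β _ _ _ _ N K m A C ε z hKN hε hz hA hC
  have hε' : (ε : ℂ) ≠ 0 := by exact_mod_cast hε
  have hεK : (ε : ℂ) ^ K ≠ 0 := pow_ne_zero _ hε'
  obtain ⟨⟨hz1, hz2⟩, hz3⟩ := hz
  obtain ⟨hd1, hd2, -⟩ := h1 α β N m A C ε z
  have hprj : prj (lif K m A C ε z) = z := by
    funext k
    rcases k with a | b
    · rfl
    · rfl
  refine ⟨⟨?_, ?_⟩, hprj, ?_⟩
  · intro k
    rcases k with k | k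
    · rcases k with _ | a
      · show (if K ≤ K then (ε : ℂ) ^ K * vC m C z K / ((ε : ℂ) ^ K * vC m C z K) else 0) = 1
        rw [if_pos le_rfl]
        exact div_self (mul_ne_zero hεK hC)
      · exact hz1 (Sum.inl a)
    · rcases k with _ | b
      · show (if K ≤ K then (ε : ℂ) ^ K * vA m A z K / ((ε : ℂ) ^ K * vA m A z K) else 0) = 1
        rw [if_pos le_rfl]
        exact div_self (mul_ne_zero hεK hA)
      · exact hz1 (Sum.inr b)
  · intro k i hi
    rcases k with k | k
    · rcases k with _ | a
      · have hi' : K < i := hi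
        show (if i ≤ K then (ε : ℂ) ^ i * vC m C z i / ((ε : ℂ) ^ K * vC m C z K) else 0) = 0
        rw [if_neg (by omega)]
      · exact hz2 (Sum.inl a) i hi
    · rcases k with _ | b
      · have hi' : K < i := hi
        show (if i ≤ K then (ε : ℂ) ^ i * vA m A z i / ((ε : ℂ) ^ K * vA m A z K) else 0) = 0
        rw [if_neg (by omega)]
      · exact hz2 (Sum.inr b) i hi
  · intro k i hki
    have hlt : i < tB K m k := by
      unfold Jm at hki
      simp only [mem_biUnion, mem_univ, true_and, mem_image, mem_range, Prod.mk.injEq] at hki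
      obtain ⟨k', i', h, rfl, rfl⟩ := hki
      exact h
    rcases k with k | k
    · refine TD06.half_zero B h2 N K (fun a => m (Sum.inl a)) A ε (lft z) (vA m A z) (vC m C z) _ _ _
        hKN hε hC hA (fun j => rfl) ?_ ?_ ?_ (fun a => rfl) ?_ k i hlt
      · intro j hj
        rw [h2 β N _ C _ j hj]
        rfl
      · intro j hj
        show (if j ≤ K then (ε : ℂ) ^ j * vA m A z j / ((ε : ℂ) ^ K * vA m A z K) else 0) = _
        rw [if_pos hj]
      · intro j hj
        show (if j ≤ K then (ε : ℂ) ^ j * vC m C z j / ((ε : ℂ) ^ K * vC m C z K) else 0) = _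
        rw [if_pos hj]
      · intro a i hi
        have h := hd1 a i
        rw [hz3 (Sum.inl a) i hi] at h
        exact h.symm
    · refine TD06.half_zero B h2 N K (fun b => m (Sum.inr b)) C ε (rgt z) (vC m C z) (vA m A z) _ _ _
        hKN hε hA hC (fun j => rfl) ?_ ?_ ?_ (fun a => rfl) ?_ k i hlt
      · intro j hj
        rw [h2 α N _ A _ j hj]
        rfl
      · intro j hj
        show (if j ≤ K then (ε : ℂ) ^ j * vC m C z j / ((ε : ℂ) ^ K * vC m C z K) else 0) = _
        rw [if_pos hj]
      · intro j hj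
        show (if j ≤ K then (ε : ℂ) ^ j * vA m A z j / ((ε : ℂ) ^ K * vA m A z K) else 0) = _
        rw [if_pos hj]
      · intro b i hi
        have h := hd2 b i
        rw [hz3 (Sum.inr b) i hi] at h
        exact h.symm

end Pool.Agent.H919S
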