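import Pool.Agent.H919S.Stmts

set_option autoImplicit false

namespace Pool.Agent.H919S

open Finset Filter Topology

namespace TD07

theorem mem_Jm {κ : Type} [Fintype κ] [DecidableEq κ] (m : κ → ℕ) (k : κ) (i : ℕ) :
    (k, i) ∈ Jm m ↔ i < m k := by
  simp only [Jm, Finset.mem_biUnion, Finset.mem_univ, true_and, Finset.mem_image, Finset.mem_range,
    Prod.mk.injEq]
  constructor
  · rintro ⟨k', i', h, rfl, rfl⟩
    exact h
  · intro h
    exact ⟨k, i, h, rfl, rfl⟩

theorem half_some {α : Type} [Fintype α] [DecidableEq α] (B : Basics) (N K : ℕ) (mα : α → ℕ)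
    (A : Ten (Option α)) (ε : ℝ) (hε : ε ≠ 0) (x : Vec (Option α)) (c v V : ℕ → ℂ) (z' : Vec α)
    (hx : ∀ a, x (some a) = z' a) (hKN : K ≤ N) (hVK : V K ≠ 0)
    (hn : ∀ j, j ≤ K → x none j = (ε : ℂ) ^ j * V j / ((ε : ℂ) ^ K * V K))
    (hc : ∀ j, j ≤ N → c j = V j) (a : α) (i : ℕ) :
    half N K mα A ε x c v (some a) i = ((ε : ℂ) ^ K)⁻¹ *
      der (oc N mα) A (fun o => o.elim (fun j => (ε : ℂ) ^ j * V j) (fun a => z' a)) (some a) i := by
  have hε' : (ε : ℂ) ≠ 0 := by exact_mod_cast hε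
  have hεK : (ε : ℂ) ^ K ≠ 0 := pow_ne_zero _ hε'
  have h := (B.hom (Option α) (oc N mα) A (fun o => o.elim ((ε : ℂ) ^ K)⁻¹ (fun _ => 1))
    (fun o => o.elim (fun j => (ε : ℂ) ^ j * V j) (fun a => z' a))).1 (some a) i
  have hp : (∏ l ∈ univ.erase (some a), (fun o : Option α => o.elim ((ε : ℂ) ^ K)⁻¹ (fun _ => 1)) l) =
      ((ε : ℂ) ^ K)⁻¹ := by
    rw [Finset.prod_eq_single none]
    · rfl
    · intro b _ hb
      cases b with
      | none => exact absurd rfl hb
      | some b => rfl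
    · intro h
      exact absurd (Finset.mem_erase.2 ⟨by simp, Finset.mem_univ _⟩) h
  rw [hp] at h
  rw [← h]
  unfold half
  refine B.congr (Option α) (oc N mα) A A _ _ (some a) i (fun _ _ _ => rfl) ?_
  intro l hl j hj
  cases l with
  | none =>
    have hj' : j ≤ N := hj
    rw [Function.update_self]
    show (if j ≤ K then x none j * c K else (ε : ℂ) ^ (j - K) * c j) =
      ((ε : ℂ) ^ K)⁻¹ * ((ε : ℂ) ^ j * V j)
    split_ifs with hjK
    · rw [hn j hjK, hc K hKN]
      field_simp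
    · rw [hc j hj']
      have h1 : (ε : ℂ) ^ j = (ε : ℂ) ^ K * (ε : ℂ) ^ (j - K) := by
        rw [← pow_add]
        congr 1
        omega
      rw [h1]
      field_simp
  | some b =>
    rw [Function.update_of_ne (by simp)]
    show x (some b) j = 1 * z' b j
    rw [hx, one_mul]

theorem half_none {α : Type} [Fintype α] [DecidableEq α] (h2 : D02_none) (N K : ℕ) (mα : α → ℕ)
    (A : Ten (Option α)) (ε : ℝ) (hε : ε ≠ 0) (x : Vec (Option α)) (c v : ℕ → ℂ) (z' : Vec α)
    (hx : ∀ a, x (some a) = z' a) (hKN : K ≤ N) (hUK : ev mα (slc A K) z' ≠ 0)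
    (hv : ∀ j, j ≤ K → v j = (ε : ℂ) ^ j * ev mα (slc A j) z' / ((ε : ℂ) ^ K * ev mα (slc A K) z'))
    (i : ℕ) (hi : i ≤ K) :
    half N K mα A ε x c v none i = 0 := by
  have hε' : (ε : ℂ) ≠ 0 := by exact_mod_cast hε
  have hεK : (ε : ℂ) ^ K ≠ 0 := pow_ne_zero _ hε'
  have hz : (fun a => x (some a)) = z' := funext hx
  show der (oc N mα) A x none i - (ε : ℂ) ^ (K - i) * v i * der (oc N mα) A x none K = 0
  rw [h2 α N mα A x i (hi.trans hKN), h2 α N mα A x K hKN, hz, hv i hi]
  have h1 : (ε : ℂ) ^ K = (ε : ℂ) ^ (K - i) * (ε : ℂ) ^ i := by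
    rw [← pow_add]
    congr 1
    omega
  have h3 : (ε : ℂ) ^ (K - i) * ((ε : ℂ) ^ i * ev mα (slc A i) z' /
      ((ε : ℂ) ^ K * ev mα (slc A K) z')) * ev mα (slc A K) z' = ev mα (slc A i) z' := by
    field_simp
    rw [h1]
    ring
  rw [h3, sub_self]

section main

variable {α β : Type} [Fintype α] [DecidableEq α] [Fintype β] [DecidableEq β]

theorem GB_inl_some (B : Basics) (h1 : D01_der) (h2 : D02_none) (N K : ℕ) (m : α ⊕ β → ℕ)
    (A : Ten (Option α)) (C : Ten (Option β)) (ε : ℝ) (hε : ε ≠ 0) (hKN : K ≤ N) (z : Vec (α ⊕ β))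
    (hC : vC m C z K ≠ 0) (a : α) (i : ℕ) :
    GB N K m A C ε (lif K m A C ε z) (Sum.inl (some a)) i =
      ((ε : ℂ) ^ K)⁻¹ * der m (cmp N A C ε) z (Sum.inl a) i := by
  rw [(h1 α β N m A C ε z).1 a i]
  refine half_some B N K (fun a => m (Sum.inl a)) A ε hε (lft (lif K m A C ε z))
    (fun j => der (oc N fun b => m (Sum.inr b)) C (rgt (lif K m A C ε z)) none j)
    (rgt (lif K m A C ε z) none) (fun j => vC m C z j) (fun a => z (Sum.inl a)) (fun _ => rfl) hKN hC ?_ ?_ a i
  · intro j hj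
    show (if j ≤ K then (ε : ℂ) ^ j * vC m C z j / ((ε : ℂ) ^ K * vC m C z K) else 0) = _
    rw [if_pos hj]
  · intro j hj
    exact h2 β N (fun b => m (Sum.inr b)) C (rgt (lif K m A C ε z)) j hj

theorem GB_inr_some (B : Basics) (h1 : D01_der) (h2 : D02_none) (N K : ℕ) (m : α ⊕ β → ℕ)
    (A : Ten (Option α)) (C : Ten (Option β)) (ε : ℝ) (hε : ε ≠ 0) (hKN : K ≤ N) (z : Vec (α ⊕ β))
    (hA : vA m A z K ≠ 0) (b : β) (i : ℕ) :
    GB N K m A C ε (lif K m A C ε z) (Sum.inr (some b)) i =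
      ((ε : ℂ) ^ K)⁻¹ * der m (cmp N A C ε) z (Sum.inr b) i := by
  rw [(h1 α β N m A C ε z).2.1 b i]
  refine half_some B N K (fun b => m (Sum.inr b)) C ε hε (rgt (lif K m A C ε z))
    (fun j => der (oc N fun a => m (Sum.inl a)) A (lft (lif K m A C ε z)) none j)
    (lft (lif K m A C ε z) none) (fun j => vA m A z j) (fun b => z (Sum.inr b)) (fun _ => rfl) hKN hA ?_ ?_ b i
  · intro j hj
    show (if j ≤ K then (ε : ℂ) ^ j * vA m A z j / ((ε : ℂ) ^ K * vA m A z K) else 0) = _
    rw [if_pos hj]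
  · intro j hj
    exact h2 α N (fun a => m (Sum.inl a)) A (lft (lif K m A C ε z)) j hj

theorem GB_inl_none (h2 : D02_none) (N K : ℕ) (m : α ⊕ β → ℕ)
    (A : Ten (Option α)) (C : Ten (Option β)) (ε : ℝ) (hε : ε ≠ 0) (hKN : K ≤ N) (z : Vec (α ⊕ β))
    (hA : vA m A z K ≠ 0) (i : ℕ) (hi : i ≤ K) :
    GB N K m A C ε (lif K m A C ε z) (Sum.inl none) i = 0 := by
  refine half_none h2 N K (fun a => m (Sum.inl a)) A ε hε (lft (lif K m A C ε z))
    (fun j => der (oc N fun b => m (Sum.inr b)) C (rgt (lif K m A C ε z)) none j)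
    (rgt (lif K m A C ε z) none) (lft z) (fun _ => rfl) hKN hA ?_ i hi
  intro j hj
  show (if j ≤ K then (ε : ℂ) ^ j * vA m A z j / ((ε : ℂ) ^ K * vA m A z K) else 0) = _
  rw [if_pos hj]
  rfl

theorem GB_inr_none (h2 : D02_none) (N K : ℕ) (m : α ⊕ β → ℕ)
    (A : Ten (Option α)) (C : Ten (Option β)) (ε : ℝ) (hε : ε ≠ 0) (hKN : K ≤ N) (z : Vec (α ⊕ β))
    (hC : vC m C z K ≠ 0) (i : ℕ) (hi : i ≤ K) :
    GB N K m A C ε (lif K m A C ε z) (Sum.inr none) i = 0 := by
  refine half_none h2 N K (fun b => m (Sum.inr b)) C ε hε (rgt (lif K m A C ε z))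
    (fun j => der (oc N fun a => m (Sum.inl a)) A (lft (lif K m A C ε z)) none j)
    (lft (lif K m A C ε z) none) (rgt z) (fun _ => rfl) hKN hC ?_ i hi
  intro j hj
  show (if j ≤ K then (ε : ℂ) ^ j * vC m C z j / ((ε : ℂ) ^ K * vC m C z K) else 0) = _
  rw [if_pos hj]
  rfl

/-- values of slices depend smoothly on a parameter -/
theorem ev_diff (B : Basics) (h2 : D02_none) (N : ℕ) (mα : α → ℕ) (A : Ten (Option α))
    (x : ℝ → Vec α) (hx : ∀ k i, ContDiff ℝ 1 (fun t => x t k i)) (j : ℕ) (hj : j ≤ N) :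
    ContDiff ℝ 1 (fun t => ev mα (slc A j) (x t)) := by
  have h := B.cd (Option α) ℝ (fun t => fun o => o.elim (fun _ => 0) (fun a => x t a)) (by
    intro k i
    cases k with
    | none => exact contDiff_const
    | some a => exact hx a i) (oc N mα) A none j
  have h3 : (fun t => der (oc N mα) A ((fun t => fun o : Option α => o.elim (fun _ => (0 : ℂ))
      (fun a => x t a)) t) none j) = fun t => ev mα (slc A j) (x t) := by
    funext t
    rw [h2 α N mα A _ j hj]
    rfl
  rw [h3] at h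
  exact h

end main

end TD07

open TD07 in
theorem D07 (B : Basics) (h00 : D00_cd) (h1 : D01_der) (h2 : D02_none) : D07_nd := by
  intro α β _ _ _ _ N K m A C ε z hKN hε hz hA hC hND y hy hyd
  have hε' : (ε : ℂ) ≠ 0 := by exact_mod_cast hε
  have hεK : (ε : ℂ) ^ K ≠ 0 := pow_ne_zero _ hε'
  -- the line and its lift
  obtain ⟨zt, hzt⟩ : ∃ zt : ℝ → Vec (α ⊕ β), zt = fun (t : ℝ) k i => z k i + (t : ℂ) * y k i := ⟨_, rfl⟩
  have hzt' : ∀ t k i, zt t k i = z k i + (t : ℂ) * y k i := fun t k i => by rw [hzt]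
  have hzt0 : zt 0 = z := by
    funext k i
    rw [hzt']
    simp
  have hztcd : ∀ k i, ContDiff ℝ 1 (fun t => zt t k i) := by
    intro k i
    have h3 : (fun t => zt t k i) = fun t : ℝ => z k i + (t : ℂ) * y k i := by
      funext t; rw [hzt']
    rw [h3]
    exact contDiff_const.add ((Complex.ofRealCLM.contDiff).mul contDiff_const)
  have hvA : ∀ j, j ≤ N → ContDiff ℝ 1 (fun t => vA m A (zt t) j) := fun j hj =>
    ev_diff B h2 N (fun a => m (Sum.inl a)) A (fun t => lft (zt t)) (fun k i => hztcd _ _) j hj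
  have hvC : ∀ j, j ≤ N → ContDiff ℝ 1 (fun t => vC m C (zt t) j) := fun j hj =>
    ev_diff B h2 N (fun b => m (Sum.inr b)) C (fun t => rgt (zt t)) (fun k i => hztcd _ _) j hj
  have hnA : ∀ᶠ t in 𝓝 (0 : ℝ), vA m A (zt t) K ≠ 0 := by
    have hc := (hvA K hKN).continuous.continuousAt (x := (0 : ℝ))
    exact hc.eventually_ne (by rw [hzt0]; exact hA)
  have hnC : ∀ᶠ t in 𝓝 (0 : ℝ), vC m C (zt t) K ≠ 0 := by
    have hc := (hvC K hKN).continuous.continuousAt (x := (0 : ℝ))
    exact hc.eventually_ne (by rw [hzt0]; exact hC)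
  obtain ⟨X, hX⟩ : ∃ X : ℝ → Vec (Option α ⊕ Option β), X = fun t => lif K m A C ε (zt t) :=
    ⟨_, rfl⟩
  have hX0 : X 0 = lif K m A C ε z := by rw [hX]; show lif K m A C ε (zt 0) = _; rw [hzt0]
  have hXa : ∀ t a i, X t (Sum.inl (some a)) i = zt t (Sum.inl a) i := fun t a i => by rw [hX]; rfl
  have hXb : ∀ t b i, X t (Sum.inr (some b)) i = zt t (Sum.inr b) i := fun t b i => by rw [hX]; rfl
  have hXan : ∀ t j, X t (Sum.inl none) j =
      if j ≤ K then (ε : ℂ) ^ j * vC m C (zt t) j / ((ε : ℂ) ^ K * vC m C (zt t) K) else 0 :=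
    fun t j => by rw [hX]; rfl
  have hXbn : ∀ t j, X t (Sum.inr none) j =
      if j ≤ K then (ε : ℂ) ^ j * vA m A (zt t) j / ((ε : ℂ) ^ K * vA m A (zt t) K) else 0 :=
    fun t j => by rw [hX]; rfl
  -- differentiability
  have hXd : ∀ k i, DifferentiableAt ℝ (fun t => X t k i) 0 := by
    intro k i
    rcases k with (_ | a) | (_ | b)
    · by_cases hi : i ≤ K
      · have h3 : (fun t => X t (Sum.inl none) i) =
            fun t => (ε : ℂ) ^ i * vC m C (zt t) i / ((ε : ℂ) ^ K * vC m C (zt t) K) := by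
          funext t; rw [hXan, if_pos hi]
        rw [h3]
        refine DifferentiableAt.div ?_ ?_ ?_
        · exact ((hvC i (hi.trans hKN)).differentiable one_ne_zero 0).const_mul _
        · exact ((hvC K hKN).differentiable one_ne_zero 0).const_mul _
        · rw [hzt0]; exact mul_ne_zero hεK hC
      · have h3 : (fun t => X t (Sum.inl none) i) = fun _ => 0 := by
          funext t; rw [hXan, if_neg hi]
        rw [h3]
        exact differentiableAt_const _
    · have h3 : (fun t => X t (Sum.inl (some a)) i) = fun t => zt t (Sum.inl a) i := by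
        funext t; rw [hXa]
      rw [h3]
      exact (hztcd _ _).differentiable one_ne_zero 0
    · by_cases hi : i ≤ K
      · have h3 : (fun t => X t (Sum.inr none) i) =
            fun t => (ε : ℂ) ^ i * vA m A (zt t) i / ((ε : ℂ) ^ K * vA m A (zt t) K) := by
          funext t; rw [hXbn, if_pos hi]
        rw [h3]
        refine DifferentiableAt.div ?_ ?_ ?_
        · exact ((hvA i (hi.trans hKN)).differentiable one_ne_zero 0).const_mul _
        · exact ((hvA K hKN).differentiable one_ne_zero 0).const_mul _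
        · rw [hzt0]; exact mul_ne_zero hεK hA
      · have h3 : (fun t => X t (Sum.inr none) i) = fun _ => 0 := by
          funext t; rw [hXbn, if_neg hi]
        rw [h3]
        exact differentiableAt_const _
    · have h3 : (fun t => X t (Sum.inr (some b)) i) = fun t => zt t (Sum.inr b) i := by
        funext t; rw [hXb]
      rw [h3]
      exact (hztcd _ _).differentiable one_ne_zero 0
  obtain ⟨Y, hY⟩ : ∃ Y : Vec (Option α ⊕ Option β), Y = fun k i => deriv (fun t => X t k i) 0 :=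
    ⟨_, rfl⟩
  have hYd : ∀ k i, HasDerivAt (fun t => X t k i) (Y k i) 0 := by
    intro k i
    rw [hY]
    exact (hXd k i).hasDerivAt
  have hzd : ∀ k i, HasDerivAt (fun t => zt t k i) (y k i) 0 := by
    intro k i
    have h3 : (fun t => zt t k i) = fun t : ℝ => z k i + (t : ℂ) * y k i := by
      funext t; rw [hzt']
    rw [h3]
    have h4 : HasDerivAt (fun t : ℝ => (t : ℂ)) 1 0 := Complex.ofRealCLM.hasDerivAt
    have h5 := (h4.mul_const (y k i)).const_add (z k i)
    rw [one_mul] at h5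
    exact h5
  have hYa : ∀ a i, Y (Sum.inl (some a)) i = y (Sum.inl a) i := by
    intro a i
    have h3 : (fun t => X t (Sum.inl (some a)) i) = fun t => zt t (Sum.inl a) i := by
      funext t; rw [hXa]
    have h4 := hYd (Sum.inl (some a)) i
    rw [h3] at h4
    exact h4.unique (hzd _ _)
  have hYb : ∀ b i, Y (Sum.inr (some b)) i = y (Sum.inr b) i := by
    intro b i
    have h3 : (fun t => X t (Sum.inr (some b)) i) = fun t => zt t (Sum.inr b) i := by
      funext t; rw [hXb]
    have h4 := hYd (Sum.inr (some b)) i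
    rw [h3] at h4
    exact h4.unique (hzd _ _)
  -- the chart
  have hch : ∀ᶠ t in 𝓝 (0 : ℝ), InCh (Jm (tB K m)) (X 0) (X t) := by
    filter_upwards [hnA, hnC] with t htA htC k i hki
    rw [mem_Jm, not_lt] at hki
    rcases k with (_ | a) | (_ | b)
    · have hki' : K ≤ i := hki
      rw [hXan, hXan, hzt0]
      rcases hki'.eq_or_lt with rfl | hlt
      · rw [if_pos le_rfl, if_pos le_rfl, div_self (mul_ne_zero hεK htC),
          div_self (mul_ne_zero hεK hC)]
      · rw [if_neg (by omega), if_neg (by omega)]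
    · have hki' : m (Sum.inl a) ≤ i := hki
      rw [hXa, hXa, hzt0, hzt', hy _ _ (by rw [mem_Jm]; omega), mul_zero, add_zero]
    · have hki' : K ≤ i := hki
      rw [hXbn, hXbn, hzt0]
      rcases hki'.eq_or_lt with rfl | hlt
      · rw [if_pos le_rfl, if_pos le_rfl, div_self (mul_ne_zero hεK htA),
          div_self (mul_ne_zero hεK hA)]
      · rw [if_neg (by omega), if_neg (by omega)]
    · have hki' : m (Sum.inr b) ≤ i := hki
      rw [hXb, hXb, hzt0, hzt', hy _ _ (by rw [mem_Jm]; omega), mul_zero, add_zero]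
  have hYs : ∀ k i, (k, i) ∉ Jm (tB K m) → Y k i = 0 := by
    intro k i hki
    have h3 : (fun t => X t k i) =ᶠ[𝓝 0] fun _ => X 0 k i := by
      filter_upwards [hch] with t ht
      exact ht k i hki
    have h4 := (hYd k i).congr_of_eventuallyEq h3.symm
    exact h4.unique (hasDerivAt_const _ _)
  -- the derivatives of the system along the lift
  have hG : ∀ k i, (k, i) ∈ Jm (tB K m) →
      HasDerivAt (fun t => GB N K m A C ε (X t) k i) 0 0 := by
    intro k i hki
    rw [mem_Jm] at hki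
    rcases k with (_ | a) | (_ | b)
    · have hki' : i < K := hki
      have h3 : (fun t => GB N K m A C ε (X t) (Sum.inl none) i) =ᶠ[𝓝 0] fun _ => (0 : ℂ) := by
        filter_upwards [hnA] with t htA
        rw [hX]
        exact GB_inl_none h2 N K m A C ε hε hKN (zt t) htA i hki'.le
      exact (hasDerivAt_const _ _).congr_of_eventuallyEq h3
    · have hki' : i < m (Sum.inl a) := hki
      have h3 : (fun t => GB N K m A C ε (X t) (Sum.inl (some a)) i) =ᶠ[𝓝 0]
          fun t => ((ε : ℂ) ^ K)⁻¹ * der m (cmp N A C ε) (zt t) (Sum.inl a) i := by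
        filter_upwards [hnC] with t htC
        rw [hX]
        exact GB_inl_some B h1 h2 N K m A C ε hε hKN (zt t) htC a i
      have h4 := (hyd (Sum.inl a) i (by rw [mem_Jm]; exact hki')).const_mul (((ε : ℂ) ^ K)⁻¹)
      rw [mul_zero] at h4
      rw [hzt] at h3
      exact h4.congr_of_eventuallyEq h3
    · have hki' : i < K := hki
      have h3 : (fun t => GB N K m A C ε (X t) (Sum.inr none) i) =ᶠ[𝓝 0] fun _ => (0 : ℂ) := by
        filter_upwards [hnC] with t htC
        rw [hX]
        exact GB_inr_none h2 N K m A C ε hε hKN (zt t) htC i hki'.le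
      exact (hasDerivAt_const _ _).congr_of_eventuallyEq h3
    · have hki' : i < m (Sum.inr b) := hki
      have h3 : (fun t => GB N K m A C ε (X t) (Sum.inr (some b)) i) =ᶠ[𝓝 0]
          fun t => ((ε : ℂ) ^ K)⁻¹ * der m (cmp N A C ε) (zt t) (Sum.inr b) i := by
        filter_upwards [hnA] with t htA
        rw [hX]
        exact GB_inr_some B h1 h2 N K m A C ε hε hKN (zt t) htA b i
      have h4 := (hyd (Sum.inr b) i (by rw [mem_Jm]; exact hki')).const_mul (((ε : ℂ) ^ K)⁻¹)
      rw [mul_zero] at h4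
      rw [hzt] at h3
      exact h4.congr_of_eventuallyEq h3
  have hYline : ∀ k i, (k, i) ∈ Jm (tB K m) →
      HasDerivAt (fun t : ℝ => GB N K m A C ε
        (fun k i => lif K m A C ε z k i + (t : ℂ) * Y k i) k i) 0 0 := by
    intro k i hki
    have hcd : ContDiff ℝ 1 (fun ξ : Jm (tB K m) → ℂ =>
        GB N K m A C ε (extJ (Jm (tB K m)) (X 0) ξ) k i) := by
      refine (h00 α β N K m A C).1 (Jm (tB K m) → ℂ) (fun _ => ε)
        (fun ξ => extJ (Jm (tB K m)) (X 0) ξ) contDiff_const ?_ k i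
      intro k i
      by_cases hk : (k, i) ∈ Jm (tB K m)
      · have h3 : (fun p : Jm (tB K m) → ℂ => extJ (Jm (tB K m)) (X 0) p k i) =
            fun p => p ⟨(k, i), hk⟩ := by
          funext p
          unfold extJ
          rw [dif_pos hk]
        rw [h3]
        exact contDiff_apply ℝ ℂ _
      · have h3 : (fun p : Jm (tB K m) → ℂ => extJ (Jm (tB K m)) (X 0) p k i) =
            fun _ => X 0 k i := by
          funext p
          unfold extJ
          rw [dif_neg hk]
        rw [h3]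
        exact contDiff_const
    have h3 := (B.chainG (Option α ⊕ Option β) (Jm (tB K m)) (fun x => GB N K m A C ε x k i) X Y hcd
      hch hYd 0).1 (hG k i hki)
    rw [hX0] at h3
    exact h3
  have hY0 := hND Y hYs hYline
  intro k i
  rcases k with a | b
  · rw [← hYa, hY0]
  · rw [← hYb, hY0]

end Pool.Agent.H919S
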