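/-
H919S, task D08: covering in the composition step.
-/
import Pool.Agent.H919S.Stmts

set_option autoImplicit false

namespace Pool.Agent.H919S

open Finset Filter Topology

namespace TD08

section half

variable {α : Type} [Fintype α] [DecidableEq α]

/-- extended vector. -/
noncomputable def XX (N : ℕ) (w : ℕ → ℂ) (y : Vec α) (ε : ℝ) : Vec (Option α) := fun o =>
  o.elim (fun j => if j ≤ N then (ε : ℂ) ^ j * w j else 0) y

theorem oc_none (N : ℕ) (m : α → ℕ) : oc N m none = N := rfl
theorem oc_some (N : ℕ) (m : α → ℕ) (a : α) : oc N m (some a) = m a := rfl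

theorem half_lim (B : Basics) (l : Ultrafilter ℝ) (hl : (l : Filter ℝ) ≤ 𝓝[>] 0) (N : ℕ) (m : α → ℕ)
    (A : Ten (Option α)) (y : ℝ → Vec α) (w : ℝ → ℕ → ℂ)
    (hy : ∀ᶠ ε in (l : Filter ℝ), Cht m (y ε))
    (hw : ∀ᶠ ε in (l : Filter ℝ), ∃ j, j ≤ N ∧ w ε j ≠ 0)
    (hd : ∀ᶠ ε : ℝ in (l : Filter ℝ), ∀ a i, i < m a →
      der (oc N m) A (fun o => o.elim (fun j => (ε : ℂ) ^ j * w ε j) (y ε)) (some a) i = 0) :
    ∃ (M : Option α → ℕ) (z : Vec (Option α)), M ≤ oc N m ∧ Cht M z ∧
      (∀ᶠ ε in (l : Filter ℝ), w ε (M none) ≠ 0) ∧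
      (∀ᶠ ε in (l : Filter ℝ), ∀ a, y ε a (M (some a)) ≠ 0) ∧
      (∀ j, j ≤ N → Tendsto (fun ε : ℝ => (ε : ℂ) ^ j * w ε j / ((ε : ℂ) ^ (M none) * w ε (M none))) l
        (𝓝 (z none j))) ∧
      (∀ a i, Tendsto (fun ε : ℝ => y ε a i / y ε a (M (some a))) l (𝓝 (z (some a) i))) ∧
      ∀ a i, i < m a → der (oc N m) A z (some a) i = 0 := by
  have hpos : ∀ᶠ ε in (l : Filter ℝ), (0 : ℝ) < ε := hl self_mem_nhdsWithin
  obtain ⟨M, z, hM, hz, hne, hlim⟩ := B.lim (Option α) l (oc N m) (fun ε => XX N (w ε) (y ε) ε)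
    (by
      filter_upwards [hy] with ε h k i hi
      rcases k with _ | a
      · have hi' : N < i := hi
        simp [XX, not_le.mpr hi']
      · exact h.2 a i hi)
    (by
      filter_upwards [hy, hw, hpos] with ε h h2 h3 k
      rcases k with _ | a
      · obtain ⟨j, hj, hj2⟩ := h2
        refine ⟨j, ?_⟩
        have : (ε : ℂ) ^ j ≠ 0 := pow_ne_zero _ (by exact_mod_cast h3.ne')
        simp [XX, hj, hj2]
        exact fun h => absurd h h3.ne'
      · refine ⟨m a, ?_⟩
        have := h.1 a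
        simp [XX, this])
  have hMn : M none ≤ N := hM none
  refine ⟨M, z, hM, hz, ?_, ?_, ?_, ?_, ?_⟩
  · filter_upwards [hne] with ε h
    have h1 := h none
    intro h2
    apply h1
    simp [XX, hMn, h2]
  · filter_upwards [hne] with ε h a
    exact h (some a)
  · intro j hj
    have := hlim none j
    refine this.congr fun ε => ?_
    simp only [XX, Option.elim, hj, hMn, if_true]
  · intro a i
    exact hlim (some a) i
  · intro a i hi
    have h1 := (B.tend (Option α) ℝ (l : Filter ℝ)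
      (fun ε k i => (XX N (w ε) (y ε) ε k (M k))⁻¹ * XX N (w ε) (y ε) ε k i) z
      (fun k i => (hlim k i).congr fun ε => by rw [div_eq_inv_mul]) (oc N m) A).1 (some a) i
    have h2 : ∀ᶠ ε in (l : Filter ℝ), der (oc N m) A
        (fun k i => (XX N (w ε) (y ε) ε k (M k))⁻¹ * XX N (w ε) (y ε) ε k i) (some a) i = 0 := by
      filter_upwards [hd] with ε h
      rw [(B.hom (Option α) (oc N m) A (fun k => (XX N (w ε) (y ε) ε k (M k))⁻¹)
        (XX N (w ε) (y ε) ε)).1 (some a) i]
      have h3 : der (oc N m) A (XX N (w ε) (y ε) ε) (some a) i =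
          der (oc N m) A (fun o => o.elim (fun j => (ε : ℂ) ^ j * w ε j) (y ε)) (some a) i := by
        refine B.congr (Option α) (oc N m) A A _ _ (some a) i (fun _ _ _ => rfl) ?_
        intro k hk j hj
        rcases k with _ | b
        · have hj' : j ≤ N := hj
          simp [XX, hj']
        · rfl
      rw [h3, h a i hi, mul_zero]
    have h4 : Tendsto (fun _ : ℝ => (0 : ℂ)) l (𝓝 (der (oc N m) A z (some a) i)) :=
      h1.congr' (by filter_upwards [h2] with ε h; exact h)
    exact (tendsto_nhds_unique h4 tendsto_const_nhds)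

/-- cross information: slices vanish at the limit. -/
theorem half_cross (B : Basics) (h2 : D02_none) (l : Ultrafilter ℝ) (hl : (l : Filter ℝ) ≤ 𝓝[>] 0) (N K : ℕ)
    (m : α → ℕ) (C : Ten (Option α)) (y : ℝ → Vec α) (z : Vec (Option α)) (M : Option α → ℕ) (t : ℕ → ℂ)
    (hK : K ≤ N)
    (hw : ∀ᶠ ε in (l : Filter ℝ), ev m (slc C K) (y ε) ≠ 0)
    (ht : ∀ j, j ≤ N → Tendsto (fun ε : ℝ => (ε : ℂ) ^ j * ev m (slc C j) (y ε) /
      ((ε : ℂ) ^ K * ev m (slc C K) (y ε))) l (𝓝 (t j)))
    (hyl : ∀ a i, Tendsto (fun ε : ℝ => y ε a i / y ε a (M (some a))) l (𝓝 (z (some a) i))) :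
    ∀ j, j < K → der (oc N m) C z none j = 0 := by
  intro j hj
  have hpos : ∀ᶠ ε in (l : Filter ℝ), (0 : ℝ) < ε := hl self_mem_nhdsWithin
  have h0 : Tendsto (fun ε : ℝ => (ε : ℂ)) l (𝓝 0) := by
    have h : Tendsto (fun ε : ℝ => ε) (l : Filter ℝ) (𝓝 0) := hl.trans nhdsWithin_le_nhds
    have := (Complex.continuous_ofReal.tendsto 0).comp h
    rw [Complex.ofReal_zero] at this
    exact this
  rw [h2 α N m C z j (hj.le.trans hK)]
  have hev : ∀ i, Tendsto (fun ε : ℝ => ev m (slc C i) (fun a q => (y ε a (M (some a)))⁻¹ * y ε a q)) l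
      (𝓝 (ev m (slc C i) (fun a => z (some a)))) := fun i =>
    (B.tend α ℝ (l : Filter ℝ) (fun ε a q => (y ε a (M (some a)))⁻¹ * y ε a q) (fun a => z (some a))
      (fun a q => (hyl a q).congr fun ε => by rw [div_eq_inv_mul]) m (slc C i)).2
  have hz : Tendsto (fun ε : ℝ => (ε : ℂ) ^ (K - j) *
      ((ε : ℂ) ^ j * ev m (slc C j) (y ε) / ((ε : ℂ) ^ K * ev m (slc C K) (y ε))) *
      ev m (slc C K) (fun a q => (y ε a (M (some a)))⁻¹ * y ε a q)) l
      (𝓝 (0 * t j * ev m (slc C K) (fun a => z (some a)))) := by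
    refine ((Tendsto.mul ?_ (ht j (hj.le.trans hK))).mul (hev K))
    have := h0.pow (K - j)
    rwa [zero_pow (by omega)] at this
  rw [zero_mul, zero_mul] at hz
  refine tendsto_nhds_unique ((hev j).congr' ?_) hz
  filter_upwards [hw, hpos] with ε h3 h4
  rw [(B.hom α m (slc C j) (fun a => (y ε a (M (some a)))⁻¹) (y ε)).2,
    (B.hom α m (slc C K) (fun a => (y ε a (M (some a)))⁻¹) (y ε)).2]
  have h5 : (ε : ℂ) ≠ 0 := by exact_mod_cast h4.ne'
  have h6 : (ε : ℂ) ^ (K - j) * (ε : ℂ) ^ j = (ε : ℂ) ^ K := by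
    rw [← pow_add]; congr 1; omega
  have h7 : (ε : ℂ) ^ K ≠ 0 := pow_ne_zero _ h5
  have h8 : (ε : ℂ) ^ (K - j) * ((ε : ℂ) ^ j * ev m (slc C j) (y ε) / ((ε : ℂ) ^ K * ev m (slc C K) (y ε)))
      = ev m (slc C j) (y ε) / ev m (slc C K) (y ε) := by
    rw [← mul_div_assoc, ← mul_assoc, h6, mul_div_mul_left _ _ h7]
  rw [h8, div_mul_eq_mul_div, eq_div_iff h3]
  ring

/-- rigidity. -/
theorem half_rigid (B : Basics) (N K : ℕ) (m : α → ℕ) (A : Ten (Option α)) (hG : Good (oc N m) A)
    (M : Option α → ℕ) (z : Vec (Option α)) (hM : M ≤ oc N m) (hz : Cht M z)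
    (hd : ∀ a i, i < m a → der (oc N m) A z (some a) i = 0)
    (hn : ∀ j, j < K → der (oc N m) A z none j = 0) (hMK : M none ≤ K) :
    M = oc (M none) m ∧ z ∈ Sol (oc (M none) m) A ∧ K ≤ M none := by
  have hMn : M none ≤ N := hM none
  have hle : oc (M none) m ≤ oc N m := by
    intro k
    rcases k with _ | a
    · exact hMn
    · exact le_refl _
  have hle2 : M ≤ oc (M none) m := by
    intro k
    rcases k with _ | a
    · exact le_refl _
    · exact hM (some a)
  have hsupp : ∀ k i, oc (M none) m k < i → z k i = 0 := fun k i hi => hz.2 k i ((hle2 k).trans_lt hi)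
  have hS := B.supp (Option α) (oc (M none) m) (oc N m) A z hle hsupp
  have heq : ∀ k i, i < oc (M none) m k → der (oc (M none) m) A z k i = 0 := by
    intro k i hi
    rw [← hS k i hi.le]
    rcases k with _ | a
    · exact hn i (lt_of_lt_of_le hi hMK)
    · exact hd a i hi
  obtain ⟨h1, h2⟩ := B.noinf (Option α) (oc (M none) m) A
    (fun m' hm' p hp => ((hG m' (hm'.trans hle)).1 p hp).2.1) M z hle2 hz heq
  refine ⟨h1, h2, ?_⟩
  by_contra hlt
  push Not at hlt
  have h3 : ev (oc (M none) m) A z ≠ 0 := ((hG _ hle).1 z h2).2.1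
  apply h3
  rw [B.euler (Option α) (oc (M none) m) A z none]
  refine Finset.sum_eq_zero fun i hi => ?_
  have hi' : i ≤ M none := by
    have := Finset.mem_range.mp hi
    have h : oc (M none) m none = M none := rfl
    omega
  rw [← hS none i hi', hn i (by omega), mul_zero]

end half

end TD08

open TD08 in
theorem D08 (B : Basics) (h1 : D01_der) (h2 : D02_none) (h3 : D03_ker) : D08_cov := by
  intro α β _ _ _ _ l hl N m A C z hNa hNb hGA hGC hz
  have hpos : ∀ᶠ ε in (l : Filter ℝ), (0 : ℝ) < ε := hl self_mem_nhdsWithin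
  obtain ⟨M1, zA, hM1, hzA, hw1, hy1, ht1, hl1, hd1⟩ := half_lim B l hl N (fun a => m (Sum.inl a)) A
    (fun ε => lft (z ε)) (fun ε => vC m C (z ε))
    (by
      filter_upwards [hz] with ε h
      exact ⟨fun a => h.1.1 (Sum.inl a), fun a i hi => h.1.2 (Sum.inl a) i hi⟩)
    (by
      filter_upwards [hz] with ε h
      exact h3 β N (fun b => m (Sum.inr b)) C (rgt (z ε)) hGC hNb
        (fun b i hi => h.1.2 (Sum.inr b) i hi)
        (fun b => ⟨m (Sum.inr b), by
          have := h.1.1 (Sum.inr b)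
          simp only [rgt]
          rw [this]; exact one_ne_zero⟩))
    (by
      filter_upwards [hz] with ε h a i hi
      have := h.2 (Sum.inl a) i hi
      rw [(h1 α β N m A C ε (z ε)).1 a i] at this
      exact this)
  obtain ⟨M2, zC, hM2, hzC, hw2, hy2, ht2, hl2, hd2⟩ := half_lim B l hl N (fun b => m (Sum.inr b)) C
    (fun ε => rgt (z ε)) (fun ε => vA m A (z ε))
    (by
      filter_upwards [hz] with ε h
      exact ⟨fun a => h.1.1 (Sum.inr a), fun a i hi => h.1.2 (Sum.inr a) i hi⟩)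
    (by
      filter_upwards [hz] with ε h
      exact h3 α N (fun b => m (Sum.inl b)) A (lft (z ε)) hGA hNa
        (fun b i hi => h.1.2 (Sum.inl b) i hi)
        (fun b => ⟨m (Sum.inl b), by
          have := h.1.1 (Sum.inl b)
          simp only [lft]
          rw [this]; exact one_ne_zero⟩))
    (by
      filter_upwards [hz] with ε h a i hi
      have := h.2 (Sum.inr a) i hi
      rw [(h1 α β N m A C ε (z ε)).2.1 a i] at this
      exact this)
  have hK1 : M1 none ≤ N := hM1 none
  have hK2 : M2 none ≤ N := hM2 none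
  have hc2 := half_cross B h2 l hl N (M1 none) (fun b => m (Sum.inr b)) C (fun ε => rgt (z ε)) zC M2
    (fun j => zA none j) hK1 hw1 ht1 hl2
  have hc1 := half_cross B h2 l hl N (M2 none) (fun b => m (Sum.inl b)) A (fun ε => lft (z ε)) zA M1
    (fun j => zC none j) hK2 hw2 ht2 hl1
  have hKK : M1 none = M2 none := by
    rcases le_total (M1 none) (M2 none) with h | h
    · exact le_antisymm h (half_rigid B N (M2 none) _ A hGA M1 zA hM1 hzA hd1 hc1 h).2.2
    · exact le_antisymm (half_rigid B N (M1 none) _ C hGC M2 zC hM2 hzC hd2 hc2 h).2.2 h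
  obtain ⟨e1, s1, -⟩ := half_rigid B N (M2 none) _ A hGA M1 zA hM1 hzA hd1 hc1 hKK.le
  obtain ⟨e2, s2, -⟩ := half_rigid B N (M1 none) _ C hGC M2 zC hM2 hzC hd2 hc2 hKK.ge
  have f1 : ∀ a, M1 (some a) = m (Sum.inl a) := fun a => by rw [e1]; rfl
  have f2 : ∀ b, M2 (some b) = m (Sum.inr b) := fun b => by rw [e2]; rfl
  refine ⟨M1 none, zA, zC, hK1, s1, by rw [hKK]; exact s2, ?_, ?_⟩
  · filter_upwards [hw1, hw2] with ε g1 g2
    exact ⟨by rw [hKK]; exact g2, g1⟩
  · intro k i
    rcases k with k | k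
    · rcases k with _ | a
      · by_cases hi : i ≤ M1 none
        · refine (ht1 i (hi.trans hK1)).congr fun ε => ?_
          simp only [lif, Sum.elim_inl, Option.elim, hi, if_true]
        · have : (Sum.elim zA zC (Sum.inl none) i : ℂ) = 0 := hzA.2 none i (by omega)
          rw [this]
          refine (tendsto_const_nhds (x := (0 : ℂ))).congr fun ε => ?_
          simp only [lif, Sum.elim_inl, Option.elim, hi, if_false]
      · refine (hl1 a i).congr' ?_
        filter_upwards [hz] with ε h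
        have h5 := h.1.1 (Sum.inl a)
        rw [f1 a]
        simp only [lif, Sum.elim_inl, Option.elim, lft]
        rw [h5, div_one]
    · rcases k with _ | b
      · by_cases hi : i ≤ M1 none
        · refine (ht2 i (hi.trans hK1)).congr fun ε => ?_
          simp only [lif, Sum.elim_inr, Option.elim, hi, if_true, hKK]
          rw [if_pos (by omega)]
        · have : (Sum.elim zA zC (Sum.inr none) i : ℂ) = 0 := hzC.2 none i (by omega)
          rw [this]
          refine (tendsto_const_nhds (x := (0 : ℂ))).congr fun ε => ?_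
          simp only [lif, Sum.elim_inr, Option.elim, hi, if_false]
      · refine (hl2 b i).congr' ?_
        filter_upwards [hz] with ε h
        have h5 := h.1.1 (Sum.inr b)
        rw [f2 b]
        simp only [lif, Sum.elim_inr, Option.elim, rgt]
        rw [h5, div_one]

end Pool.Agent.H919S
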