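import Pool.Agent.H919S.Stmts

/-!
# D09: composition, one branch (helper204)
-/

set_option autoImplicit false

namespace Pool.Agent.H919S

open Finset Filter Topology

namespace TD09

section
variable {κ : Type} [Fintype κ] [DecidableEq κ]

theorem mem_Jm (m : κ → ℕ) (k : κ) (i : ℕ) : (k, i) ∈ Jm m ↔ i < m k := by
  unfold Jm
  simp

theorem inCh_of_cht {m : κ → ℕ} {x y : Vec κ} (hx : Cht m x) (hy : Cht m y) :
    InCh (Jm m) x y := by
  intro k i hki
  rw [mem_Jm, not_lt] at hki
  rcases hki.eq_or_lt with h | h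
  · rw [← h, hx.1, hy.1]
  · rw [hx.2 k i h, hy.2 k i h]

theorem cht_of_inCh {m : κ → ℕ} {x y : Vec κ} (hx : Cht m x) (hy : InCh (Jm m) x y) :
    Cht m y := by
  constructor
  · intro k
    rw [hy k (m k) (by rw [mem_Jm]; exact lt_irrefl _)]
    exact hx.1 k
  · intro k i hi
    rw [hy k i (by rw [mem_Jm]; omega)]
    exact hx.2 k i hi

end

section
variable {α : Type} [Fintype α] [DecidableEq α]

omit [Fintype α] [DecidableEq α] in
theorem oc_le (K N : ℕ) (hK : K ≤ N) (m : α → ℕ) : oc K m ≤ oc N m := by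
  intro o
  rcases o with _ | a
  · exact hK
  · exact le_refl _

/-- the value of the slice at a solution -/
theorem slice_ne (B : Basics) (N K : ℕ) (hK : K ≤ N) (m : α → ℕ) (A : Ten (Option α))
    (p : Vec (Option α)) (hG : Good (oc N m) A) (hp : p ∈ Sol (oc K m) A) :
    der (oc N m) A p none K ≠ 0 := by
  have h1 := (hG (oc K m) (oc_le K N hK m)).1 p hp
  have h2 := B.supp _ (oc K m) (oc N m) A p (oc_le K N hK m) hp.1.2 none K le_rfl
  rw [h2]
  have h3 := B.euler _ (oc K m) A p none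
  rw [Finset.sum_range_succ_comm, Finset.sum_eq_zero, add_zero] at h3
  · intro h4
    apply h1.2.1
    rw [h3]
    have h5 : oc K m none = K := rfl
    rw [h5, h4, mul_zero]
  · intro i hi
    rw [mem_range] at hi
    rw [hp.2 none i hi, mul_zero]

end

section
variable {α β : Type} [Fintype α] [DecidableEq α] [Fintype β] [DecidableEq β]

omit [Fintype β] [DecidableEq β] in
theorem vA_prj (h2 : D02_none) (N : ℕ) (m : α ⊕ β → ℕ) (A : Ten (Option α))
    (x : Vec (Option α ⊕ Option β)) (j : ℕ) (hj : j ≤ N) :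
    vA m A (prj x) j = der (oc N fun a => m (Sum.inl a)) A (fun o => x (Sum.inl o)) none j := by
  rw [h2 α N (fun a => m (Sum.inl a)) A (fun o => x (Sum.inl o)) j hj]
  rfl

omit [Fintype α] [DecidableEq α] in
theorem vC_prj (h2 : D02_none) (N : ℕ) (m : α ⊕ β → ℕ) (C : Ten (Option β))
    (x : Vec (Option α ⊕ Option β)) (j : ℕ) (hj : j ≤ N) :
    vC m C (prj x) j = der (oc N fun b => m (Sum.inr b)) C (fun o => x (Sum.inr o)) none j := by
  rw [h2 β N (fun b => m (Sum.inr b)) C (fun o => x (Sum.inr o)) j hj]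
  rfl

end

end TD09

open TD09

theorem D09 (B : Basics) (h00 : D00_cd) (h1 : D01_der) (h2 : D02_none) (h4 : D04_zero)
    (h5 : D05_sound) (h6 : D06_lift) (h7 : D07_nd) : D09_branch := by
  intro α β _ _ _ _ l hl N K m A C pA pC hK hA hC hpA hpC
  have hpos : ∀ᶠ ε in (l : Filter ℝ), (0 : ℝ) < ε := hl self_mem_nhdsWithin
  have hid : Tendsto (fun ε : ℝ => (ε : ℂ)) l (𝓝 0) := by
    have h : Tendsto (fun ε : ℝ => (ε : ℂ)) (𝓝 0) (𝓝 ((0 : ℝ) : ℂ)) :=
      Complex.continuous_ofReal.tendsto 0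
    rw [Complex.ofReal_zero] at h
    exact h.mono_left (hl.trans nhdsWithin_le_nhds)
  have hCp : Cht (tB K m) (Sum.elim pA pC : Vec (Option α ⊕ Option β)) := by
    constructor
    · rintro (k | k)
      · exact hpA.1.1 k
      · exact hpC.1.1 k
    · rintro (k | k) i hi
      · exact hpA.1.2 k i hi
      · exact hpC.1.2 k i hi
  have hRA := ((hA (oc K fun a => m (Sum.inl a)) (oc_le K N hK _)).1 pA hpA).1
  have hRC := ((hC (oc K fun b => m (Sum.inr b)) (oc_le K N hK _)).1 pC hpC).1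
  have hz := h4 α β N K m A C pA pC hK hA hC hpA hpC
  obtain ⟨ξ, hξ1, hξ2, hξ3, hξ4, hξ5, hξ6⟩ := B.iftV (Option α ⊕ Option β) l hl
    (Jm (tB K m)) (GB N K m A C) (Sum.elim pA pC) (by
      intro k i _
      refine (h00 α β N K m A C).1 (ℝ × (Jm (tB K m) → ℂ)) Prod.fst
        (fun q => extJ (Jm (tB K m)) (Sum.elim pA pC) q.2) contDiff_fst (fun k i => ?_) k i
      unfold extJ
      by_cases h : (k, i) ∈ Jm (tB K m)
      · simp only [h, dite_true]
        exact (contDiff_apply ℝ ℂ (⟨(k, i), h⟩ : Jm (tB K m))).comp contDiff_snd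
      · simp only [h, dite_false]
        exact contDiff_const) (fun ε x k i _ => (h00 α β N K m A C).2 ε x k i) (by
      rintro (k | k) i
      · exact hRA k i
      · exact hRC k i) hz.1 hz.2
  have hcht : ∀ ε, Cht (tB K m) (ξ ε) := fun ε => cht_of_inCh hCp (hξ1 ε)
  -- limits of the slices
  have hlA : ∀ j, j ≤ N → Tendsto (fun ε => vA m A (prj (ξ ε)) j) l
      (𝓝 (der (oc N fun a => m (Sum.inl a)) A pA none j)) := by
    intro j hj
    have h := (B.tend (Option α) ℝ l (fun ε o => ξ ε (Sum.inl o)) pA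
      (fun k i => hξ2 (Sum.inl k) i) (oc N fun a => m (Sum.inl a)) A).1 none j
    refine h.congr fun ε => ?_
    rw [vA_prj h2 N m A (ξ ε) j hj]
  have hlC : ∀ j, j ≤ N → Tendsto (fun ε => vC m C (prj (ξ ε)) j) l
      (𝓝 (der (oc N fun b => m (Sum.inr b)) C pC none j)) := by
    intro j hj
    have h := (B.tend (Option β) ℝ l (fun ε o => ξ ε (Sum.inr o)) pC
      (fun k i => hξ2 (Sum.inr k) i) (oc N fun b => m (Sum.inr b)) C).1 none j
    refine h.congr fun ε => ?_
    rw [vC_prj h2 N m C (ξ ε) j hj]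
  have hA0 := slice_ne B N K hK (fun a => m (Sum.inl a)) A pA hA hpA
  have hC0 := slice_ne B N K hK (fun b => m (Sum.inr b)) C pC hC hpC
  have hvA : ∀ᶠ ε in (l : Filter ℝ), vA m A (prj (ξ ε)) K ≠ 0 := (hlA K hK).eventually_ne hA0
  have hvC : ∀ᶠ ε in (l : Filter ℝ), vC m C (prj (ξ ε)) K ≠ 0 := (hlC K hK).eventually_ne hC0
  have hsound : ∀ᶠ ε in (l : Filter ℝ), prj (ξ ε) ∈ Sol m (cmp N A C ε) ∧
      (∀ j, j ≤ K → (ε : ℂ) ^ j * vC m C (prj (ξ ε)) j =
        (ε : ℂ) ^ K * ξ ε (Sum.inl none) j * vC m C (prj (ξ ε)) K) ∧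
      (∀ j, j ≤ K → (ε : ℂ) ^ j * vA m A (prj (ξ ε)) j =
        (ε : ℂ) ^ K * ξ ε (Sum.inr none) j * vA m A (prj (ξ ε)) K) := by
    filter_upwards [hpos, hξ3] with ε h8 h9
    exact h5 α β N K m A C ε (ξ ε) hK h8.ne' (hcht ε) h9
  -- the value
  have hev : ∀ᶠ ε in (l : Filter ℝ), ev m (cmp N A C ε) (prj (ξ ε)) ≠ 0 := by
    obtain ⟨g, hg⟩ : ∃ g : ℕ → ℝ → ℂ, g = fun (j : ℕ) (ε : ℝ) =>
        if j < K then (ε : ℂ) ^ (K - j) * ξ ε (Sum.inl none) j * ξ ε (Sum.inr none) j *
          vA m A (prj (ξ ε)) K * vC m C (prj (ξ ε)) K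
        else (ε : ℂ) ^ (j - K) * vA m A (prj (ξ ε)) j * vC m C (prj (ξ ε)) j := ⟨_, rfl⟩
    have hpow : ∀ n : ℕ, n ≠ 0 → Tendsto (fun ε : ℝ => (ε : ℂ) ^ n) l (𝓝 0) := by
      intro n hn
      have h := hid.pow n
      rwa [zero_pow hn] at h
    have hgl : ∀ j ∈ range (N + 1), Tendsto (g j) l (𝓝 (if j = K then
        der (oc N fun a => m (Sum.inl a)) A pA none K *
          der (oc N fun b => m (Sum.inr b)) C pC none K else 0)) := by
      intro j hj
      rw [mem_range] at hj
      rw [hg]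
      rcases lt_trichotomy j K with h | h | h
      · simp only [h, if_true, if_neg h.ne]
        have h8 := ((((hpow (K - j) (by omega)).mul (hξ2 (Sum.inl none) j)).mul
          (hξ2 (Sum.inr none) j)).mul (hlA K hK)).mul (hlC K hK)
        simpa using h8
      · subst h
        simp only [lt_irrefl, if_false, if_true, Nat.sub_self, pow_zero, one_mul]
        exact (hlA j hK).mul (hlC j hK)
      · have h9 : ¬ j < K := by omega
        simp only [h9, if_false, if_neg h.ne']
        have h8 := ((hpow (j - K) (by omega)).mul (hlA j (by omega))).mul (hlC j (by omega))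
        simpa using h8
    have hsum : Tendsto (fun ε => ∑ j ∈ range (N + 1), g j ε) l
        (𝓝 (der (oc N fun a => m (Sum.inl a)) A pA none K *
          der (oc N fun b => m (Sum.inr b)) C pC none K)) := by
      have h8 := tendsto_finsetSum (range (N + 1)) hgl
      rw [Finset.sum_ite_eq' (range (N + 1)) K, if_pos (by rw [mem_range]; omega)] at h8
      exact h8
    filter_upwards [hpos, hsound, hsum.eventually_ne (mul_ne_zero hA0 hC0)] with ε h8 h9 h10
    have hε : (ε : ℂ) ≠ 0 := Complex.ofReal_ne_zero.2 h8.ne'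
    rw [(h1 α β N m A C ε (prj (ξ ε))).2.2]
    have h11 : ∑ j ∈ range (N + 1), (ε : ℂ) ^ j * vA m A (prj (ξ ε)) j * vC m C (prj (ξ ε)) j =
        (ε : ℂ) ^ K * ∑ j ∈ range (N + 1), g j ε := by
      rw [Finset.mul_sum]
      refine Finset.sum_congr rfl fun j hj => ?_
      rw [hg]
      by_cases h : j < K
      · simp only [h, if_true]
        have h12 := h9.2.1 j h.le
        have h13 := h9.2.2 j h.le
        have h14 : (ε : ℂ) ^ j ≠ 0 := pow_ne_zero _ hε
        have h15 : (ε : ℂ) ^ K = (ε : ℂ) ^ (K - j) * (ε : ℂ) ^ j := by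
          rw [← pow_add]
          congr 1
          omega
        apply mul_left_cancel₀ h14
        calc (ε : ℂ) ^ j * ((ε : ℂ) ^ j * vA m A (prj (ξ ε)) j * vC m C (prj (ξ ε)) j)
            = ((ε : ℂ) ^ j * vA m A (prj (ξ ε)) j) * ((ε : ℂ) ^ j * vC m C (prj (ξ ε)) j) := by
              ring
          _ = _ := by
              rw [h12, h13]
              rw [h15]
              ring
      · simp only [h, if_false]
        have h15 : (ε : ℂ) ^ j = (ε : ℂ) ^ K * (ε : ℂ) ^ (j - K) := by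
          rw [← pow_add]
          congr 1
          omega
        rw [h15]
        ring
    rw [h11]
    exact mul_ne_zero (pow_ne_zero _ hε) h10
  refine ⟨ξ, hξ2, ?_, ?_⟩
  · filter_upwards [hpos, hξ3, hξ4, hξ5, hvA, hvC, hsound, hev] with ε e1 e2 e3 e4 e5 e6 e7 e8
    have hε : (ε : ℂ) ≠ 0 := Complex.ofReal_ne_zero.2 e1.ne'
    refine ⟨hcht ε, e2, e7.1, ?_, e5, e6, e8, ?_⟩
    · rintro (a | b) i
      · exact e4 (Sum.inl (some a)) i
      · exact e4 (Sum.inr (some b)) i
    · have hlif : lif K m A C ε (prj (ξ ε)) = ξ ε := by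
        funext k j
        rcases k with (_ | a) | (_ | b)
        · show (if j ≤ K then (ε : ℂ) ^ j * vC m C (prj (ξ ε)) j /
            ((ε : ℂ) ^ K * vC m C (prj (ξ ε)) K) else 0) = _
          by_cases hj : j ≤ K
          · rw [if_pos hj, e7.2.1 j hj]
            have h8 : (ε : ℂ) ^ K ≠ 0 := pow_ne_zero _ hε
            field_simp
          · rw [if_neg hj]
            exact ((hcht ε).2 (Sum.inl none) j (not_le.1 hj)).symm
        · rfl
        · show (if j ≤ K then (ε : ℂ) ^ j * vA m A (prj (ξ ε)) j /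
            ((ε : ℂ) ^ K * vA m A (prj (ξ ε)) K) else 0) = _
          by_cases hj : j ≤ K
          · rw [if_pos hj, e7.2.2 j hj]
            have h8 : (ε : ℂ) ^ K ≠ 0 := pow_ne_zero _ hε
            field_simp
          · rw [if_neg hj]
            exact ((hcht ε).2 (Sum.inr none) j (not_le.1 hj)).symm
        · rfl
      refine h7 α β N K m A C ε (prj (ξ ε)) hK e1.ne' e7.1 e5 e6 ?_
      rw [hlif]
      exact e3
  · intro z hz1 hz2 hz3
    have hlift : ∀ᶠ ε in (l : Filter ℝ), Cht (tB K m) (lif K m A C ε (z ε)) ∧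
        prj (lif K m A C ε (z ε)) = z ε ∧
        ∀ k i, (k, i) ∈ Jm (tB K m) → GB N K m A C ε (lif K m A C ε (z ε)) k i = 0 := by
      filter_upwards [hpos, hz1, hz2] with ε e1 e2 e3
      exact h6 α β N K m A C ε (z ε) hK e1.ne' e2 e3.1 e3.2
    have huni := hξ6 (fun ε => lif K m A C ε (z ε))
      (by
        filter_upwards [hlift] with ε e1
        exact inCh_of_cht hCp e1.1) hz3 (by
        filter_upwards [hlift] with ε e1
        exact e1.2.2)
    filter_upwards [hlift, huni] with ε e1 e2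
    have e3 : lif K m A C ε (z ε) = ξ ε := e2
    rw [← e3, e1.2.1]

end Pool.Agent.H919S
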