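/-
H919S, task D10: separation of the branches of the composed system.
-/
import Pool.Agent.H919S.Stmts

set_option autoImplicit false

namespace Pool.Agent.H919S

open Finset Filter Topology

namespace TD10

lemma oc_le {α : Type} {K N : ℕ} (h : K ≤ N) (m : α → ℕ) : oc K m ≤ oc N m := by
  intro o
  cases o with
  | none => exact h
  | some a => exact le_refl _

/-- the value of the slice `K` at the solution is nonzero. -/
lemma slc_ne {α : Type} [Fintype α] [DecidableEq α] (B : Basics) (h2 : D02_none) {N K : ℕ}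
    (hK : K ≤ N) (m : α → ℕ) (A : Ten (Option α))
    (hA : Good (oc N m) A) (p : Vec (Option α)) (hp : p ∈ Sol (oc K m) A) :
    ev m (slc A K) (fun a => p (some a)) ≠ 0 := by
  have hg := hA (oc K m) (oc_le hK m)
  have hev := (hg.1 p hp).2.1
  have he := B.euler (Option α) (oc K m) A p none
  have h0 : der (oc N m) A p none K = der (oc K m) A p none K :=
    B.supp _ _ _ A p (oc_le hK m) hp.1.2 none K le_rfl
  rw [← h2 α N m A p K hK, h0]
  intro h
  apply hev
  rw [he]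
  apply Finset.sum_eq_zero
  intro i hi
  by_cases hiK : i = K
  · subst hiK; rw [h]; simp
  · have hi' : i < oc K m none := by
      have := Finset.mem_range.1 hi
      change i < K + 1 at this
      change i < K
      omega
    rw [hp.2 none i hi']; simp

/-- The first key step: it is impossible that `K < K'` (stated for one side). -/
lemma no_lt (l : Ultrafilter ℝ) (hl : (l : Filter ℝ) ≤ 𝓝[>] 0) (K K' : ℕ) (hKK : K < K')
    (V V' : ℝ → ℂ) (u : ℝ → ℂ) (v₀ v₀' u₀ : ℂ) (hV : Tendsto V l (𝓝 v₀)) (hv₀ : v₀ ≠ 0)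
    (hV' : Tendsto V' l (𝓝 v₀')) (hu : Tendsto u l (𝓝 u₀))
    (h : ∀ᶠ ε : ℝ in (l : Filter ℝ), (ε : ℂ) ^ K * V ε = (ε : ℂ) ^ K' * u ε * V' ε) : False := by
  have hε : ∀ᶠ ε in (l : Filter ℝ), (0 : ℝ) < ε := hl self_mem_nhdsWithin
  have hε0 : Tendsto (fun ε : ℝ => (ε : ℂ)) l (𝓝 0) := by
    have h1 : Tendsto (fun ε : ℝ => ε) (l : Filter ℝ) (𝓝 (0 : ℝ)) :=
      (tendsto_id'.2 (hl.trans nhdsWithin_le_nhds))
    have := (Complex.continuous_ofReal.tendsto 0).comp h1
    simpa [Function.comp_def] using this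
  have h2 : V =ᶠ[(l : Filter ℝ)] fun ε : ℝ => (ε : ℂ) ^ (K' - K) * u ε * V' ε := by
    filter_upwards [hε, h] with ε h1 h3
    have hne : (ε : ℂ) ^ K ≠ 0 := pow_ne_zero _ (by exact_mod_cast h1.ne')
    have h4 : (ε : ℂ) ^ K' = (ε : ℂ) ^ K * (ε : ℂ) ^ (K' - K) := by
      rw [← pow_add]; congr 1; omega
    rw [h4] at h3
    apply mul_left_cancel₀ hne
    rw [h3]; ring
  have h3 : Tendsto (fun ε : ℝ => (ε : ℂ) ^ (K' - K) * u ε * V' ε) l (𝓝 (0 ^ (K' - K) * u₀ * v₀')) :=
    ((hε0.pow _).mul hu).mul hV'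
  have h4 := tendsto_nhds_unique (hV.congr' h2) h3
  have : K' - K ≠ 0 := by omega
  rw [zero_pow this] at h4
  simp at h4
  exact hv₀ h4

end TD10

theorem D10 (B : Basics) (h2 : D02_none) (h5 : D05_sound) : D10_sep := by
  intro α β _ _ _ _ l hl N K K' m A C pA pA' pC pC' ξ ξ' hK hK' hA hC hpA hpC hpA' hpC' hξ hξ' hz hz' hpr
  have hε : ∀ᶠ ε in (l : Filter ℝ), (0 : ℝ) < ε := hl self_mem_nhdsWithin
  -- limits of the slice values along a branch
  have limC : ∀ (K₀ : ℕ) (qA : Vec (Option α)) (qC : Vec (Option β)) (η : ℝ → Vec (Option α ⊕ Option β)),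
      (∀ k i, Tendsto (fun ε => η ε k i) l (𝓝 (Sum.elim qA qC k i))) → ∀ j,
      Tendsto (fun ε => vC m C (prj (η ε)) j) l
        (𝓝 (ev (fun b => m (Sum.inr b)) (slc C j) (fun b => qC (some b)))) := by
    intro K₀ qA qC η hη j
    exact (B.tend β ℝ l (fun ε => rgt (prj (η ε))) (fun b => qC (some b))
      (fun b i => hη (Sum.inr (some b)) i) (fun b => m (Sum.inr b)) (slc C j)).2
  have s1 := fun ε (h0 : (0 : ℝ) < ε) (h : Cht (tB K m) (ξ ε) ∧ ∀ k i, (k, i) ∈ Jm (tB K m) → GB N K m A C ε (ξ ε) k i = 0) =>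
    h5 α β N K m A C ε (ξ ε) hK h0.ne' h.1 h.2
  have s2 := fun ε (h0 : (0 : ℝ) < ε) (h : Cht (tB K' m) (ξ' ε) ∧ ∀ k i, (k, i) ∈ Jm (tB K' m) → GB N K' m A C ε (ξ' ε) k i = 0) =>
    h5 α β N K' m A C ε (ξ' ε) hK' h0.ne' h.1 h.2
  have hKK : K = K' := by
    rcases lt_trichotomy K K' with h | h | h
    · exfalso
      refine TD10.no_lt l hl K K' h (fun ε => vC m C (prj (ξ ε)) K) (fun ε => vC m C (prj (ξ' ε)) K')
        (fun ε => ξ' ε (Sum.inl none) K) _ _ _ (limC K pA pC ξ hξ K)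
        (TD10.slc_ne B h2 hK (fun b => m (Sum.inr b)) C hC pC hpC)
        (limC K' pA' pC' ξ' hξ' K') (hξ' (Sum.inl none) K) ?_
      filter_upwards [hε, hz', hpr] with ε h0 h1 h3
      have := (s2 ε h0 h1).2.1 K h.le
      rw [h3]; exact this
    · exact h
    · exfalso
      refine TD10.no_lt l hl K' K h (fun ε => vC m C (prj (ξ' ε)) K') (fun ε => vC m C (prj (ξ ε)) K)
        (fun ε => ξ ε (Sum.inl none) K') _ _ _ (limC K' pA' pC' ξ' hξ' K')
        (TD10.slc_ne B h2 hK' (fun b => m (Sum.inr b)) C hC pC' hpC')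
        (limC K pA pC ξ hξ K) (hξ (Sum.inl none) K') ?_
      filter_upwards [hε, hz, hpr] with ε h0 h1 h3
      have := (s1 ε h0 h1).2.1 K' h.le
      rw [← h3]; exact this
  subst hKK
  have hVC := TD10.slc_ne B h2 hK (fun b => m (Sum.inr b)) C hC pC hpC
  have hVA := TD10.slc_ne B h2 hK (fun a => m (Sum.inl a)) A hA pA hpA
  have limA : Tendsto (fun ε => vA m A (prj (ξ ε)) K) l
        (𝓝 (ev (fun a => m (Sum.inl a)) (slc A K) (fun a => pA (some a)))) :=
    (B.tend α ℝ l (fun ε => lft (prj (ξ ε))) (fun a => pA (some a))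
      (fun a i => hξ (Sum.inl (some a)) i) (fun a => m (Sum.inl a)) (slc A K)).2
  have neC : ∀ᶠ ε in (l : Filter ℝ), vC m C (prj (ξ ε)) K ≠ 0 := (limC K pA pC ξ hξ K).eventually_ne hVC
  have neA : ∀ᶠ ε in (l : Filter ℝ), vA m A (prj (ξ ε)) K ≠ 0 := limA.eventually_ne hVA
  have heq : ∀ᶠ ε in (l : Filter ℝ), ξ ε = ξ' ε := by
    filter_upwards [hε, hz, hz', hpr, neC, neA] with ε h0 h1 h1' h3 hc ha
    have r1 := s1 ε h0 h1
    have r2 := s2 ε h0 h1'
    have hne : (ε : ℂ) ^ K ≠ 0 := pow_ne_zero _ (by exact_mod_cast h0.ne')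
    funext k i
    rcases k with (_ | a) | (_ | b)
    · by_cases hi : i ≤ K
      · have e1 := r1.2.1 i hi
        have e2 := r2.2.1 i hi
        rw [← h3, e1] at e2
        have hz : ((ε : ℂ) ^ K * vC m C (prj (ξ ε)) K) * ξ ε (Sum.inl none) i
            = ((ε : ℂ) ^ K * vC m C (prj (ξ ε)) K) * ξ' ε (Sum.inl none) i := by
          linear_combination e2
        exact mul_left_cancel₀ (mul_ne_zero hne hc) hz
      · rw [h1.1.2 (Sum.inl none) i (not_le.mp hi), h1'.1.2 (Sum.inl none) i (not_le.mp hi)]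
    · exact congrFun (congrFun h3 (Sum.inl a)) i
    · by_cases hi : i ≤ K
      · have e1 := r1.2.2 i hi
        have e2 := r2.2.2 i hi
        rw [← h3, e1] at e2
        have hz : ((ε : ℂ) ^ K * vA m A (prj (ξ ε)) K) * ξ ε (Sum.inr none) i
            = ((ε : ℂ) ^ K * vA m A (prj (ξ ε)) K) * ξ' ε (Sum.inr none) i := by
          linear_combination e2
        exact mul_left_cancel₀ (mul_ne_zero hne ha) hz
      · rw [h1.1.2 (Sum.inr none) i (not_le.mp hi), h1'.1.2 (Sum.inr none) i (not_le.mp hi)]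
    · exact congrFun (congrFun h3 (Sum.inr b)) i
  refine ⟨rfl, ?_, ?_⟩
  · funext k i
    have t1 := hξ (Sum.inl k) i
    have t2 := hξ' (Sum.inl k) i
    have t3 : Tendsto (fun ε => ξ' ε (Sum.inl k) i) l (𝓝 (Sum.elim pA pC (Sum.inl k) i)) := by
      refine t1.congr' ?_
      filter_upwards [heq] with ε h
      rw [h]
    exact tendsto_nhds_unique t3 t2
  · funext k i
    have t1 := hξ (Sum.inr k) i
    have t2 := hξ' (Sum.inr k) i
    have t3 : Tendsto (fun ε => ξ' ε (Sum.inr k) i) l (𝓝 (Sum.elim pA pC (Sum.inr k) i)) := by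
      refine t1.congr' ?_
      filter_upwards [heq] with ε h
      rw [h]
    exact tendsto_nhds_unique t3 t2

end Pool.Agent.H919S
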