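import Pool.Agent.H919S.Stmts

/-! Task D11: composition, the assembly. -/

set_option autoImplicit false

namespace Pool.Agent.H919S

open Finset Filter Topology

namespace TD11

theorem oc_le {α : Type} {K N : ℕ} (hK : K ≤ N) (m : α → ℕ) : oc K m ≤ oc N m := by
  intro o
  cases o with
  | none => exact hK
  | some a => exact le_rfl

/-- the index set of the branches -/
structure Br {α β : Type} [Fintype α] [DecidableEq α] [Fintype β] [DecidableEq β] (N : ℕ)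
    (m : α ⊕ β → ℕ) (A : Ten (Option α)) (C : Ten (Option β)) : Type where
  K : ℕ
  hK : K ≤ N
  pA : Vec (Option α)
  pC : Vec (Option β)
  hA : pA ∈ Sol (oc K fun a => m (Sum.inl a)) A
  hC : pC ∈ Sol (oc K fun b => m (Sum.inr b)) C

section
variable {α β : Type} [Fintype α] [DecidableEq α] [Fintype β] [DecidableEq β] {N : ℕ}
    {m : α ⊕ β → ℕ} {A : Ten (Option α)} {C : Ten (Option β)}

def eqv : Br N m A C ≃ (Σ K : Fin (N + 1),
    (Sol (oc K.1 fun a => m (Sum.inl a)) A) × (Sol (oc K.1 fun b => m (Sum.inr b)) C)) where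
  toFun b := ⟨⟨b.K, Nat.lt_succ_iff.2 b.hK⟩, ⟨b.pA, b.hA⟩, ⟨b.pC, b.hC⟩⟩
  invFun b := ⟨b.1.1, Nat.lt_succ_iff.1 b.1.2, b.2.1.1, b.2.2.1, b.2.1.2, b.2.2.2⟩
  left_inv _ := rfl
  right_inv _ := rfl

theorem fin_Br (gA : Good (oc N fun a => m (Sum.inl a)) A)
    (gC : Good (oc N fun b => m (Sum.inr b)) C) : Finite (Br N m A C) := by
  have fA : ∀ K : Fin (N + 1), Finite (Sol (oc K.1 fun a => m (Sum.inl a)) A) :=
    fun K => (gA _ (oc_le (Nat.lt_succ_iff.1 K.2) _)).2.1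
  have fC : ∀ K : Fin (N + 1), Finite (Sol (oc K.1 fun b => m (Sum.inr b)) C) :=
    fun K => (gC _ (oc_le (Nat.lt_succ_iff.1 K.2) _)).2.1
  exact Finite.of_equiv _ eqv.symm

theorem card_Br (gA : Good (oc N fun a => m (Sum.inl a)) A)
    (gC : Good (oc N fun b => m (Sum.inr b)) C) : (Nat.card (Br N m A C) : ℤ) =
      ∑ K ∈ range (N + 1), W (oc K fun a => m (Sum.inl a)) * W (oc K fun b => m (Sum.inr b)) := by
  have gA' : ∀ K : Fin (N + 1), GoodAt (oc K.1 fun a => m (Sum.inl a)) A :=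
    fun K => gA _ (oc_le (Nat.lt_succ_iff.1 K.2) _)
  have gC' : ∀ K : Fin (N + 1), GoodAt (oc K.1 fun b => m (Sum.inr b)) C :=
    fun K => gC _ (oc_le (Nat.lt_succ_iff.1 K.2) _)
  have fA : ∀ K : Fin (N + 1), Finite (Sol (oc K.1 fun a => m (Sum.inl a)) A) :=
    fun K => (gA' K).2.1
  have fC : ∀ K : Fin (N + 1), Finite (Sol (oc K.1 fun b => m (Sum.inr b)) C) :=
    fun K => (gC' K).2.1
  rw [Nat.card_congr (eqv (N := N) (m := m) (A := A) (C := C)), Nat.card_sigma, Nat.cast_sum,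
    Finset.sum_range]
  refine Finset.sum_congr rfl fun K _ => ?_
  rw [Nat.card_prod, Nat.card_coe_set_eq, Nat.card_coe_set_eq, Nat.cast_mul, (gA' K).2.2,
    (gC' K).2.2]

theorem Br_ext {b b' : Br N m A C} (h1 : b.K = b'.K) (h2 : b.pA = b'.pA) (h3 : b.pC = b'.pC) :
    b = b' := by
  obtain ⟨K, hK, pA, pC, hA, hC⟩ := b
  obtain ⟨K', hK', pA', pC', hA', hC'⟩ := b'
  simp only at h1 h2 h3
  subst h1 h2 h3
  rfl

/-- the assembly at one value of the parameter -/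
theorem goodAt_of {κ I : Type} [Fintype κ] [DecidableEq κ] [Finite I] {m : κ → ℕ} {T : Ten κ}
    (s : I → Vec κ) (h1 : ∀ b, s b ∈ Sol m T) (h2 : ∀ y ∈ Sol m T, ∃ b, y = s b)
    (h3 : ∀ b b', s b = s b' → b = b')
    (h4 : ∀ b, IsRe (s b) ∧ ev m T (s b) ≠ 0 ∧ NDG (Jm m) (der m T) (s b))
    (h5 : (Nat.card I : ℤ) = W m) : GoodAt m T := by
  have hS : Sol m T = Set.range s := by
    ext y
    constructor
    · intro hy
      obtain ⟨b, hb⟩ := h2 y hy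
      exact ⟨b, hb.symm⟩
    · rintro ⟨b, rfl⟩
      exact h1 b
  refine ⟨?_, ?_, ?_⟩
  · intro x hx
    obtain ⟨b, rfl⟩ := h2 x hx
    exact h4 b
  · rw [hS]
    exact Set.finite_range _
  · rw [hS, ← Nat.card_coe_set_eq, Nat.card_range_of_injective (fun b b' h => h3 b b' h)]
    exact h5

end

end TD11

open TD11 in
theorem D11 (B : Basics) (hC3 : C3_comp) (h8 : D08_cov) (h9 : D09_branch) (h10 : D10_sep) :
    D11_good := by
  intro α β _ _ _ _ l hl N m A C hα hβ hA hC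
  have hfin : Finite (Br N m A C) := fin_Br hA hC
  have hcard : (Nat.card (Br N m A C) : ℤ) = W m := by
    rw [card_Br hA hC, hC3 α β m N hα hβ]
  choose ξ h1 h2 h3 using fun b : Br N m A C => h9 α β l hl N b.K m A C b.pA b.pC
    b.hK hA hC b.hA b.hC
  have k1 : ∀ b : Br N m A C, ∀ᶠ ε in (l : Filter ℝ), prj (ξ b ε) ∈ Sol m (cmp N A C ε) :=
    fun b => (h2 b).mono (fun ε h => h.2.2.1)
  have k2 : ∀ x : ℝ → Vec (α ⊕ β), (∀ᶠ ε in (l : Filter ℝ), x ε ∈ Sol m (cmp N A C ε)) →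
      ∃ b : Br N m A C, ∀ᶠ ε in (l : Filter ℝ), x ε = prj (ξ b ε) := by
    intro x hx
    obtain ⟨K, pA, pC, hK, hpA, hpC, hne, hlim⟩ := h8 α β l hl N m A C x hα hβ hA hC hx
    exact ⟨⟨K, hK, pA, pC, hpA, hpC⟩, h3 _ x hx hne hlim⟩
  have k3 : ∀ b b' : Br N m A C, (∀ᶠ ε in (l : Filter ℝ), prj (ξ b ε) = prj (ξ b' ε)) →
      b = b' := by
    intro b b' hbb
    obtain ⟨e1, e2, e3⟩ := h10 α β l hl N b.K b'.K m A C b.pA b'.pA b.pC b'.pC (ξ b) (ξ b')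
      b.hK b'.hK hA hC b.hA b.hC b'.hA b'.hC
      (h1 b) (h1 b') ((h2 b).mono fun ε h => ⟨h.1, h.2.1⟩) ((h2 b').mono fun ε h => ⟨h.1, h.2.1⟩)
      hbb
    exact Br_ext e1 e2 e3
  have k4 : ∀ᶠ ε in (l : Filter ℝ), ∀ b : Br N m A C, IsRe (prj (ξ b ε)) ∧
      ev m (cmp N A C ε) (prj (ξ b ε)) ≠ 0 ∧ NDG (Jm m) (der m (cmp N A C ε)) (prj (ξ b ε)) := by
    rw [eventually_all]
    exact fun b => (h2 b).mono fun ε h => ⟨h.2.2.2.1, h.2.2.2.2.2.2.1, h.2.2.2.2.2.2.2⟩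
  have hcount := B.count l (Vec (α ⊕ β)) (Br N m A C) (fun x y => x = y)
    (fun ε => Sol m (cmp N A C ε)) (fun b ε => prj (ξ b ε)) k1 k2 k3
  refine (hcount.and k4).mono ?_
  rintro ε ⟨⟨c1, c2, c3⟩, hp⟩
  exact goodAt_of (fun b => prj (ξ b ε)) c1 c2 c3 hp hcard

end Pool.Agent.H919S
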