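import Pool.Agent.H919S.Stmts

/-! Task D12 (helper89). -/

set_option autoImplicit false

namespace Pool.Agent.H919S

open Finset Filter Topology

namespace TD12

lemma oc_mono {α : Type} (N : ℕ) {m n : α → ℕ} (h : m ≤ n) : oc N m ≤ oc N n := by
  intro o
  cases o with
  | none => exact le_rfl
  | some a => exact h a

lemma good_mono {κ : Type} [Fintype κ] [DecidableEq κ] {m n : κ → ℕ} (h : m ≤ n) {T : Ten κ}
    (hT : Good n T) : Good m T := fun m' hm' => hT m' (hm'.trans h)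

end TD12

open TD12

theorem D12 (h11 : D11_good) : D12_PP := by
  intro α β _ _ _ _ hA hB n
  obtain ⟨A, hA⟩ := hA (oc (∑ k, n k) fun a => n (Sum.inl a))
  obtain ⟨C, hC⟩ := hB (oc (∑ k, n k) fun b => n (Sum.inr b))
  have hle : ((Ultrafilter.of (𝓝[>] (0 : ℝ)) : Ultrafilter ℝ) : Filter ℝ) ≤ 𝓝[>] 0 :=
    Ultrafilter.of_le _
  have key : ∀ m ∈ box n, ∀ᶠ ε in ((Ultrafilter.of (𝓝[>] (0 : ℝ)) : Ultrafilter ℝ) : Filter ℝ),
      GoodAt m (cmp (∑ k, n k) A C ε) := by
    intro m hm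
    have hmn : m ≤ n := by
      intro k
      have h2 : m k < n k + 1 := mem_range.1 (Fintype.mem_piFinset.1 hm k)
      exact Nat.lt_succ_iff.1 h2
    have hsum : ∑ k, n k = ∑ a, n (Sum.inl a) + ∑ b, n (Sum.inr b) := Fintype.sum_sum_type _
    apply h11 α β _ hle
    · calc ∑ a, m (Sum.inl a) ≤ ∑ a, n (Sum.inl a) := Finset.sum_le_sum fun a _ => hmn _
        _ ≤ ∑ k, n k := by rw [hsum]; exact Nat.le_add_right _ _
    · calc ∑ b, m (Sum.inr b) ≤ ∑ b, n (Sum.inr b) := Finset.sum_le_sum fun b _ => hmn _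
        _ ≤ ∑ k, n k := by rw [hsum]; exact Nat.le_add_left _ _
    · exact good_mono (oc_mono _ fun a => hmn _) hA
    · exact good_mono (oc_mono _ fun b => hmn _) hC
  have key2 := (Filter.eventually_all_finset (box n)).2 key
  obtain ⟨ε, hε⟩ := key2.exists
  refine ⟨cmp (∑ k, n k) A C ε, fun m hm => hε m ?_⟩
  apply Fintype.mem_piFinset.2
  intro k
  exact mem_range.2 (Nat.lt_succ_iff.2 (hm k))

end Pool.Agent.H919S
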