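import Pool.Agent.H919S.Stmts

set_option autoImplicit false

namespace Pool.Agent.H919S

open Finset Filter Topology

theorem E00 (B : Basics) : E00_cd := by
  intro κ _ _ n m T
  refine ⟨?_, fun ε x k i => ?_⟩
  · intro E _ _ e X he hX k i
    have h1 : ∀ k i, ContDiff ℝ 1 (fun p => der n T (X p) k i) := B.cd κ E X hX n T
    have h2 : ContDiff ℝ 1 (fun p => (e p : ℂ)) := Complex.ofRealCLM.contDiff.comp he
    unfold GC
    split_ifs
    · exact (h1 k i).sub (((h2.pow _).mul (h1 k (m k))).mul (hX k i))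
    · exact ((h1 k (m k)).mul (hX k i)).sub ((h2.pow _).mul (h1 k i))
  · unfold GC
    have h1 : ∀ k i, der n T (cj x) k i = (starRingEnd ℂ) (der n T x k i) := B.cjd κ n T x
    have h2 : ∀ k i, cj x k i = (starRingEnd ℂ) (x k i) := fun _ _ => rfl
    split_ifs
    · rw [h1, h1, h2, map_sub, map_mul, map_mul, map_pow, Complex.conj_ofReal]
    · rw [h1, h1, h2, map_sub, map_mul, map_mul, map_pow, Complex.conj_ofReal]

end Pool.Agent.H919S
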