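import Pool.Agent.H919S.Stmts

set_option autoImplicit false

namespace Pool.Agent.H919S

open Finset Filter Topology

namespace TE01

theorem mem_Jc {κ : Type} [Fintype κ] [DecidableEq κ] {n m : κ → ℕ} {k : κ} {i : ℕ} :
    (k, i) ∈ Jc n m ↔ i ≠ m k ∧ i ≤ n k := by
  unfold Jc
  rw [Finset.mem_biUnion]
  constructor
  · rintro ⟨k', _, h⟩
    rw [Finset.mem_image] at h
    obtain ⟨i', hi, h⟩ := h
    rw [Prod.mk.injEq] at h
    obtain ⟨rfl, rfl⟩ := h
    rw [Finset.mem_erase, Finset.mem_range] at hi
    exact ⟨hi.1, by omega⟩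
  · rintro ⟨h1, h2⟩
    refine ⟨k, Finset.mem_univ _, Finset.mem_image.mpr ⟨i, ?_, rfl⟩⟩
    rw [Finset.mem_erase, Finset.mem_range]
    exact ⟨h1, by omega⟩

theorem mem_Jm {κ : Type} [Fintype κ] [DecidableEq κ] {m : κ → ℕ} {k : κ} {i : ℕ} :
    (k, i) ∈ Jm m ↔ i < m k := by
  unfold Jm
  rw [Finset.mem_biUnion]
  constructor
  · rintro ⟨k', _, h⟩
    rw [Finset.mem_image] at h
    obtain ⟨i', hi, h⟩ := h
    rw [Prod.mk.injEq] at h
    obtain ⟨rfl, rfl⟩ := h
    exact Finset.mem_range.mp hi
  · intro h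
    exact ⟨k, Finset.mem_univ _, Finset.mem_image.mpr ⟨i, Finset.mem_range.mpr h, rfl⟩⟩

theorem GC_lt {κ : Type} [Fintype κ] [DecidableEq κ] {n m : κ → ℕ} {T : Ten κ} {x : Vec κ} {k : κ}
    {i : ℕ} (h : i < m k) : GC n m T 0 x k i = der n T x k i := by
  unfold GC
  rw [if_pos h, Complex.ofReal_zero, zero_pow (by omega), zero_mul, zero_mul, sub_zero]

theorem GC_gt {κ : Type} [Fintype κ] [DecidableEq κ] {n m : κ → ℕ} {T : Ten κ} {x : Vec κ} {k : κ}
    {i : ℕ} (h : m k < i) : GC n m T 0 x k i = der n T x k (m k) * x k i := by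
  unfold GC
  rw [if_neg (by omega), Complex.ofReal_zero, zero_pow (by omega), zero_mul, sub_zero]

end TE01

open TE01 in
theorem E01 (B : Basics) : E01_zero := by
  intro κ _ _ n m T p hT hmn hp
  obtain ⟨hch, hcr⟩ := hp
  obtain ⟨h1, h0⟩ := hch
  have hgood := hT m hmn
  obtain ⟨hre, hev, hndg⟩ := hgood.1 p ⟨⟨h1, h0⟩, hcr⟩
  have hder : ∀ k i, i ≤ m k → der n T p k i = der m T p k i := B.supp κ m n T p hmn h0
  have hne : ∀ k, der n T p k (m k) ≠ 0 := by
    intro k
    rw [hder k (m k) le_rfl]
    have he := B.euler κ m T p k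
    rw [Finset.sum_range_succ, h1 k, one_mul, Finset.sum_eq_zero, zero_add] at he
    · rw [← he]; exact hev
    · intro i hi
      rw [hcr k i (Finset.mem_range.mp hi), mul_zero]
  refine ⟨?_, ?_⟩
  · intro k i hi
    obtain ⟨hi1, hi2⟩ := mem_Jc.mp hi
    rcases lt_or_gt_of_ne hi1 with h | h
    · rw [GC_lt h, hder k i h.le, hcr k i h]
    · rw [GC_gt h, h0 k i h, mul_zero]
  · intro y hy hd
    have hy2 : ∀ k i, m k ≤ i → y k i = 0 := by
      intro k i hi
      by_cases hJ : (k, i) ∈ Jc n m
      · obtain ⟨hi1, hi2⟩ := mem_Jc.mp hJ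
        have hlt : m k < i := lt_of_le_of_ne hi (Ne.symm hi1)
        have hD := hd k i hJ
        have hcd := B.cd κ ℝ (fun t : ℝ => fun k i => p k i + (t : ℂ) * y k i)
          (fun k i => by
            refine contDiff_const.add (ContDiff.mul ?_ contDiff_const)
            exact Complex.ofRealCLM.contDiff) n T k (m k)
        have hdiff := (hcd.differentiable (by norm_num)) 0
        have hf := hdiff.hasDerivAt
        have hg : HasDerivAt (fun t : ℝ => (t : ℂ) * y k i) (y k i) 0 := by
          have := (Complex.ofRealCLM.hasDerivAt (x := (0 : ℝ))).mul_const (y k i)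
          simpa using this
        have hfg := hf.mul hg
        have heq : (fun t : ℝ => GC n m T 0 (fun k i => p k i + (t : ℂ) * y k i) k i) =
            (fun t : ℝ => der n T (fun k i => p k i + (t : ℂ) * y k i) k (m k)) *
              (fun t : ℝ => (t : ℂ) * y k i) := by
          funext t
          rw [GC_gt hlt, h0 k i hlt, zero_add]
          rfl
        rw [heq] at hD
        have hu := hD.unique hfg
        simp only [Complex.ofReal_zero, zero_mul, mul_zero, zero_add, add_zero] at hu
        have : (fun k i => p k i) = p := rfl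
        rcases mul_eq_zero.mp hu.symm with h | h
        · exact absurd h (hne k)
        · exact h
      · exact hy k i hJ
    have hsup : ∀ (t : ℝ) (k : κ) (i : ℕ), m k < i → p k i + (t : ℂ) * y k i = 0 := by
      intro t k i hi
      rw [h0 k i hi, hy2 k i hi.le, mul_zero, add_zero]
    refine hndg y ?_ ?_
    · intro k i hJ
      refine hy2 k i ?_
      by_contra hcon
      exact hJ (mem_Jm.mpr (by omega))
    · intro k i hJ
      have hlt := mem_Jm.mp hJ
      have hmk : m k ≤ n k := hmn k
      have hD := hd k i (mem_Jc.mpr ⟨by omega, by omega⟩)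
      have heq : (fun t : ℝ => GC n m T 0 (fun k i => p k i + (t : ℂ) * y k i) k i) =
          fun t : ℝ => der m T (fun k i => p k i + (t : ℂ) * y k i) k i := by
        funext t
        rw [GC_lt hlt]
        exact B.supp κ m n T _ hmn (hsup t) k i hlt.le
      rw [heq] at hD
      exact hD

end Pool.Agent.H919S
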