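import Pool.Agent.H919S.Stmts

set_option autoImplicit false

namespace Pool.Agent.H919S

open Finset Filter Topology

namespace TE02

theorem mem_Jc {κ : Type} [Fintype κ] [DecidableEq κ] (n m : κ → ℕ) (k : κ) (i : ℕ) :
    (k, i) ∈ Jc n m ↔ i ≠ m k ∧ i ≤ n k := by
  unfold Jc
  simp only [mem_biUnion, mem_univ, true_and, mem_image, mem_erase, mem_range, Prod.mk.injEq]
  constructor
  · rintro ⟨a, b, ⟨h1, h2⟩, rfl, rfl⟩
    exact ⟨h1, by omega⟩
  · rintro ⟨h1, h2⟩
    exact ⟨k, i, ⟨h1, by omega⟩, rfl, rfl⟩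

/-- from the weighted equation at coordinates `i` and `m k` to `GC = 0`. -/
theorem gc_zero {κ : Type} [Fintype κ] [DecidableEq κ] (n m : κ → ℕ) (T : Ten κ) (δ : ℝ) (hδ : δ ≠ 0)
    (y : Vec κ) (k : κ) (i : ℕ)
    (h : (δ : ℂ) ^ i * der n T y k i = (δ : ℂ) ^ (m k) * der n T y k (m k) * y k i) :
    GC n m T δ y k i = 0 := by
  have hd : (δ : ℂ) ≠ 0 := by exact_mod_cast hδ
  unfold GC
  split_ifs with hi
  · have e : (δ : ℂ) ^ (m k) = (δ : ℂ) ^ i * (δ : ℂ) ^ (m k - i) := by
      rw [← pow_add]; congr 1; omega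
    rw [e] at h
    have h2 : (δ : ℂ) ^ i * (der n T y k i - (δ : ℂ) ^ (m k - i) * der n T y k (m k) * y k i) = 0 := by
      linear_combination h
    rcases mul_eq_zero.1 h2 with h3 | h3
    · exact absurd h3 (pow_ne_zero _ hd)
    · exact h3
  · have e : (δ : ℂ) ^ i = (δ : ℂ) ^ (m k) * (δ : ℂ) ^ (i - m k) := by
      rw [← pow_add]; congr 1; omega
    rw [e] at h
    have h2 : (δ : ℂ) ^ (m k) * (der n T y k (m k) * y k i - (δ : ℂ) ^ (i - m k) * der n T y k i) = 0 := by
      linear_combination -h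
    rcases mul_eq_zero.1 h2 with h3 | h3
    · exact absurd h3 (pow_ne_zero _ hd)
    · exact h3

theorem gc_zero' {κ : Type} [Fintype κ] [DecidableEq κ] (n m : κ → ℕ) (T : Ten κ) (δ : ℝ)
    (y : Vec κ) (k : κ) (i : ℕ) (h : GC n m T δ y k i = 0) :
    (δ : ℂ) ^ i * der n T y k i = (δ : ℂ) ^ (m k) * der n T y k (m k) * y k i := by
  unfold GC at h
  split_ifs at h with hi
  · have e : (δ : ℂ) ^ (m k) = (δ : ℂ) ^ i * (δ : ℂ) ^ (m k - i) := by
      rw [← pow_add]; congr 1; omega
    rw [e]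
    linear_combination (δ : ℂ) ^ i * h
  · have e : (δ : ℂ) ^ i = (δ : ℂ) ^ (m k) * (δ : ℂ) ^ (i - m k) := by
      rw [← pow_add]; congr 1; omega
    rw [e]
    linear_combination -(δ : ℂ) ^ (m k) * h

end TE02

open TE02 in
theorem E02 (B : Basics) (h00 : E00_cd) (h1 : E01_zero) : E02_branch := by
  intro κ _ _ l hl n m T p hG hmn hp
  obtain ⟨hz, hnd⟩ := h1 κ n m T p hG hmn hp
  have hre : IsRe p := ((hG m hmn).1 p hp).1
  have hpos : ∀ᶠ ε in (l : Filter ℝ), (0 : ℝ) < ε := by
    have h : ∀ᶠ ε in 𝓝[>] (0 : ℝ), (0 : ℝ) < ε := self_mem_nhdsWithin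
    exact hl h
  obtain ⟨ξ, hx1, hx2, hx3, -, hx5, hx6⟩ := B.iftV κ l hl (Jc n m) (GC n m T) p
    (by
      intro k i _
      refine (h00 κ n m T).1 (ℝ × (Jc n m → ℂ)) (fun q => q.1) (fun q => extJ (Jc n m) p q.2)
        contDiff_fst ?_ k i
      intro k i
      unfold extJ
      by_cases h : (k, i) ∈ Jc n m
      · simp only [h, dif_pos]
        exact (contDiff_apply ℝ ℂ (⟨(k, i), h⟩ : Jc n m)).comp contDiff_snd
      · simp only [h, dif_neg, not_false_eq_true]
        exact contDiff_const)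
    (fun ε x k i _ => (h00 κ n m T).2 ε x k i) hre hz hnd
  have hxm : ∀ ε k, ξ ε k (m k) = 1 := by
    intro ε k
    rw [hx1 ε k (m k) (by rw [mem_Jc]; simp)]
    exact hp.1.1 k
  refine ⟨ξ, hx2, ?_, ?_⟩
  · filter_upwards [hx3, hx5] with ε h3 h5
    refine ⟨⟨?_, ?_, ?_⟩, h5⟩
    · intro k i hi
      rw [hx1 ε k i (by rw [mem_Jc]; intro h; omega)]
      exact hp.1.2 k i (lt_of_le_of_lt (hmn k) hi)
    · intro k
      exact ⟨m k, by rw [hxm]; exact one_ne_zero⟩
    · intro k
      refine ⟨(ε : ℂ) ^ (m k) * der n T (ξ ε) k (m k), ?_⟩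
      intro i hi
      by_cases him : i = m k
      · subst him
        rw [hxm, mul_one]
      · exact gc_zero' n m T ε (ξ ε) k i (h3 k i (by rw [mem_Jc]; exact ⟨him, hi⟩))
  · intro x hxe hxl
    have key := hx6 (fun ε k i => x ε k i / x ε k (m k)) (by
      filter_upwards [hxe] with ε he
      intro k i hki
      rw [mem_Jc] at hki
      show x ε k i / x ε k (m k) = p k i
      by_cases him : i = m k
      · subst him
        rw [div_self (he.2 k)]
        exact (hp.1.1 k).symm
      · have hi : n k < i := by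
          by_contra hcon
          exact hki ⟨him, by omega⟩
        rw [he.1.1 k i hi, zero_div]
        exact (hp.1.2 k i (lt_of_le_of_lt (hmn k) hi)).symm) hxl (by
      filter_upwards [hxe, hpos] with ε he hε
      intro k i hki
      rw [mem_Jc] at hki
      obtain ⟨⟨_, _, hS⟩, hne⟩ := he
      obtain ⟨lam, hlam⟩ := hS k
      apply gc_zero n m T ε (ne_of_gt hε)
      have hxeq : x ε = fun l i => (x ε l (m l)) * (x ε l i / x ε l (m l)) := by
        funext l i
        rw [mul_div_cancel₀ _ (hne l)]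
      have hh := fun j => (B.hom κ n T (fun l => x ε l (m l))
        (fun l i => x ε l i / x ε l (m l))).1 k j
      rw [← hxeq] at hh
      set P : ℂ := ∏ l ∈ univ.erase k, x ε l (m l) with hP
      have hP0 : P ≠ 0 := by
        rw [hP, Finset.prod_ne_zero_iff]
        intro a _
        exact hne a
      have e1 := hlam i hki.2
      have e2 := hlam (m k) (hmn k)
      rw [hh i] at e1
      rw [hh (m k)] at e2
      have hlam2 : lam = (ε : ℂ) ^ (m k) * (P * der n T (fun l i => x ε l i / x ε l (m l)) k (m k)) /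
          x ε k (m k) := by
        rw [e2, mul_div_cancel_right₀ _ (hne k)]
      rw [hlam2] at e1
      have hk := hne k
      have e3 : P * ((ε : ℂ) ^ i * der n T (fun l i => x ε l i / x ε l (m l)) k i) =
          P * ((ε : ℂ) ^ (m k) * der n T (fun l i => x ε l i / x ε l (m l)) k (m k) *
            (x ε k i / x ε k (m k))) := by
        linear_combination e1
      exact mul_left_cancel₀ hP0 e3)
    filter_upwards [hxe, key] with ε he hke
    intro k
    refine ⟨x ε k (m k), he.2 k, ?_⟩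
    intro i
    rw [← hke]
    show x ε k i = x ε k (m k) * (x ε k i / x ε k (m k))
    rw [mul_div_cancel₀ _ (he.2 k)]

end Pool.Agent.H919S
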