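/-
H919S task E03: spherical conversion, covering.
-/
import Pool.Agent.H919S.Stmts

set_option autoImplicit false

namespace Pool.Agent.H919S

open Finset Filter Topology

namespace TE03

/-- the normalised equation. -/
theorem norm_eq (hom : B05_hom) {κ : Type} [Fintype κ] [DecidableEq κ] (n m : κ → ℕ) (T : Ten κ)
    (ε : ℝ) (hε : ε ≠ 0) (x : Vec κ) (hx : x ∈ SC n T ε) (hm : m ≤ n) (hne : ∀ k, x k (m k) ≠ 0)
    (k : κ) (i : ℕ) (hi : i < m k) :
    der n T (fun l j => x l j / x l (m l)) k i =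
      (ε : ℂ) ^ (m k - i) * der n T (fun l j => x l j / x l (m l)) k (m k) * (x k i / x k (m k)) := by
  have hfun : (fun l j => x l j / x l (m l)) = (fun (l : κ) (j : ℕ) => (fun l => (x l (m l))⁻¹) l * x l j) := by
    funext l j
    simp [div_eq_mul_inv, mul_comm]
  obtain ⟨-, -, hlam⟩ := hx
  obtain ⟨c, hc⟩ := hlam k
  have hi' : i ≤ n k := hi.le.trans (hm k)
  have h1 := hc i hi'
  have h2 := hc (m k) (hm k)
  have hεC : (ε : ℂ) ≠ 0 := by exact_mod_cast hε
  rw [hfun]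
  rw [(hom κ n T (fun l => (x l (m l))⁻¹) x).1 k i, (hom κ n T (fun l => (x l (m l))⁻¹) x).1 k (m k)]
  have hne' := hne k
  have h3 : c = (ε : ℂ) ^ (m k) * der n T x k (m k) / x k (m k) := by
    rw [eq_div_iff hne']
    exact h2.symm
  have h4 : der n T x k i = (ε : ℂ) ^ (m k - i) * der n T x k (m k) * (x k i / x k (m k)) := by
    have hp : (ε : ℂ) ^ i ≠ 0 := pow_ne_zero _ hεC
    apply mul_left_cancel₀ hp
    rw [h1, h3]
    have hpow : (ε : ℂ) ^ (m k) = (ε : ℂ) ^ i * (ε : ℂ) ^ (m k - i) := by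
      rw [← pow_add]
      congr 1
      omega
    rw [hpow]
    field_simp
  rw [h4]
  ring

end TE03

theorem E03 (B : Basics) : E03_cov := by
  intro κ _ _ l hl n T x hG hx
  obtain ⟨m, z, hmn, hz, hne, hlim⟩ := B.lim κ l n x (hx.mono fun ε h => h.1) (hx.mono fun ε h => h.2.1)
  refine ⟨m, z, hmn, ⟨hz, ?_⟩, hne, hlim⟩
  intro k i hi
  have hsup : ∀ k i, m k < i → z k i = 0 := hz.2
  rw [← B.supp κ m n T z hmn hsup k i hi.le]
  have hder := (B.tend κ ℝ l (fun ε => fun k i => x ε k i / x ε k (m k)) z hlim n T).1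
  have hpos : ∀ᶠ ε in (l : Filter ℝ), ε ≠ 0 := by
    have : ∀ᶠ ε in 𝓝[>] (0 : ℝ), ε ≠ 0 := by
      filter_upwards [self_mem_nhdsWithin] with ε hε
      exact ne_of_gt hε
    exact hl this
  have hto : Tendsto (fun ε : ℝ => (ε : ℂ)) (l : Filter ℝ) (𝓝 0) := by
    have h0 : Tendsto (fun ε : ℝ => (ε : ℂ)) (𝓝 (0 : ℝ)) (𝓝 ((0 : ℝ) : ℂ)) :=
      Complex.continuous_ofReal.tendsto 0
    have h1 : (l : Filter ℝ) ≤ 𝓝 0 := hl.trans nhdsWithin_le_nhds
    simpa using h0.mono_left h1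
  have hpow : Tendsto (fun ε : ℝ => (ε : ℂ) ^ (m k - i)) (l : Filter ℝ) (𝓝 0) := by
    have := hto.pow (m k - i)
    have h0 : (0 : ℂ) ^ (m k - i) = 0 := zero_pow (by omega)
    rwa [h0] at this
  have hR : Tendsto (fun ε : ℝ => (ε : ℂ) ^ (m k - i) *
      der n T (fun k i => x ε k i / x ε k (m k)) k (m k) * (x ε k i / x ε k (m k))) (l : Filter ℝ)
      (𝓝 (0 * der n T z k (m k) * z k i)) :=
    (hpow.mul (hder k (m k))).mul (hlim k i)
  have hL := hder k i
  have hev : (fun ε : ℝ => der n T (fun k i => x ε k i / x ε k (m k)) k i) =ᶠ[(l : Filter ℝ)]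
      (fun ε : ℝ => (ε : ℂ) ^ (m k - i) *
      der n T (fun k i => x ε k i / x ε k (m k)) k (m k) * (x ε k i / x ε k (m k))) := by
    filter_upwards [hx, hne, hpos] with ε h1 h2 h3
    exact TE03.norm_eq B.hom n m T ε h3 (x ε) h1 hmn h2 k i hi
  have := tendsto_nhds_unique (hL.congr' hev) hR
  simpa using this

end Pool.Agent.H919S
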