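import Pool.Agent.H919S.Stmts

/-! E04 (helper541): separation. -/

set_option autoImplicit false

namespace Pool.Agent.H919S

open Finset Filter Topology

theorem E04 : E04_sep := by
  intro κ _ _ l _ m m' p p' ξ ξ' hp hp' h h' hP
  have cross : ∀ k i j, p k i * p' k j = p k j * p' k i := by
    intro k i j
    have t1 : Tendsto (fun ε => ξ ε k i * ξ' ε k j) l (𝓝 (p k i * p' k j)) :=
      (h k i).mul (h' k j)
    have t2 : Tendsto (fun ε => ξ ε k j * ξ' ε k i) l (𝓝 (p k j * p' k i)) :=
      (h k j).mul (h' k i)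
    refine tendsto_nhds_unique_of_eventuallyEq t1 t2 ?_
    filter_upwards [hP] with ε hε
    obtain ⟨c, _, hc⟩ := hε k
    rw [hc i, hc j]
    ring
  have hm : ∀ k, m k = m' k := by
    intro k
    have h1 := cross k (m k) (m' k)
    rw [hp.1 k, hp'.1 k, one_mul] at h1
    apply le_antisymm
    · by_contra hlt
      rw [hp'.2 k (m k) (by omega), mul_zero] at h1
      exact one_ne_zero h1
    · by_contra hlt
      rw [hp.2 k (m' k) (by omega), zero_mul] at h1
      exact one_ne_zero h1
  refine ⟨funext hm, ?_⟩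
  funext k i
  have h1 := cross k i (m k)
  rw [hp.1 k, one_mul] at h1
  rw [hm k, hp'.1 k, mul_one] at h1
  exact h1

end Pool.Agent.H919S
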