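import Pool.Agent.H919S.Stmts

set_option autoImplicit false

namespace Pool.Agent.H919S

open Finset Filter Topology

theorem E05 (B : Basics) (h2 : E02_branch) (h3 : E03_cov) (h4 : E04_sep) : E05_sph := by
  intro κ _ _ n T hT
  classical
  have hbox : ∀ m : κ → ℕ, m ∈ box n ↔ m ≤ n := by
    intro m
    unfold box
    rw [Fintype.mem_piFinset]
    simp only [Finset.mem_range, Nat.lt_succ_iff]
    rfl
  obtain ⟨l, hl⟩ : ∃ l : Ultrafilter ℝ, (l : Filter ℝ) ≤ 𝓝[>] (0 : ℝ) :=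
    ⟨Ultrafilter.of (𝓝[>] (0 : ℝ)), Ultrafilter.of_le _⟩
  have hfin : ∀ m : {m // m ∈ box n}, Finite (Sol m.1 T) := fun m =>
    ((hT m.1 ((hbox m.1).1 m.2)).2.1).to_subtype
  have hfinB : Finite (Σ m : {m // m ∈ box n}, Sol m.1 T) := by infer_instance
  have hbr : ∀ b : (Σ m : {m // m ∈ box n}, Sol m.1 T), ∃ ξ : ℝ → Vec κ,
      (∀ k i, Tendsto (fun ε => ξ ε k i) l (𝓝 (b.2.1 k i))) ∧
      (∀ᶠ ε in (l : Filter ℝ), ξ ε ∈ SC n T ε ∧ IsRe (ξ ε)) ∧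
      ∀ x : ℝ → Vec κ, (∀ᶠ ε in (l : Filter ℝ), x ε ∈ SC n T ε ∧ ∀ k, x ε k (b.1.1 k) ≠ 0) →
        (∀ k i, Tendsto (fun ε => x ε k i / x ε k (b.1.1 k)) l (𝓝 (b.2.1 k i))) →
        ∀ᶠ ε in (l : Filter ℝ), Prp (x ε) (ξ ε) := fun b =>
    h2 κ l hl n b.1.1 T b.2.1 hT ((hbox _).1 b.1.2) b.2.2
  choose ξ hξ1 hξ2 hξ3 using hbr
  have hcount := B.count l (Vec κ) (Σ m : {m // m ∈ box n}, Sol m.1 T) Prp (fun ε => SC n T ε) ξ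
    (fun b => (hξ2 b).mono fun ε h => h.1)
    (by
      intro x hx
      obtain ⟨m, p, hm, hp, hne, htend⟩ := h3 κ l hl n T x hT hx
      refine ⟨⟨⟨m, (hbox m).2 hm⟩, ⟨p, hp⟩⟩, ?_⟩
      exact hξ3 ⟨⟨m, (hbox m).2 hm⟩, ⟨p, hp⟩⟩ x (hx.and hne) htend)
    (by
      rintro ⟨⟨m, hm⟩, ⟨p, hp⟩⟩ ⟨⟨m', hm'⟩, ⟨p', hp'⟩⟩ hR
      obtain ⟨e1, e2⟩ := h4 κ l hl m m' p p' _ _ hp.1 hp'.1 (hξ1 ⟨⟨m, hm⟩, ⟨p, hp⟩⟩)
        (hξ1 ⟨⟨m', hm'⟩, ⟨p', hp'⟩⟩) hR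
      subst e1
      subst e2
      rfl)
  have hpos : ∀ᶠ ε in (l : Filter ℝ), 0 < ε := hl self_mem_nhdsWithin
  have hre : ∀ᶠ ε in (l : Filter ℝ), ∀ b, IsRe (ξ b ε) :=
    eventually_all.2 fun b => (hξ2 b).mono fun ε h => h.2
  obtain ⟨δ, ⟨hδ1, hδ2, hδ3⟩, hδ0, hδr⟩ := (hcount.and (hpos.and hre)).exists
  let e := Finite.equivFin (Σ m : {m // m ∈ box n}, Sol m.1 T)
  refine ⟨δ, Nat.card (Σ m : {m // m ∈ box n}, Sol m.1 T), fun j => ξ (e.symm j) δ, hδ0, ?_, ?_,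
    ?_, ?_⟩
  · rw [Nat.card_sigma]
    push_cast
    rw [← Finset.sum_coe_sort (box n) W]
    refine Finset.sum_congr rfl fun m _ => ?_
    rw [← (hT m.1 ((hbox m.1).1 m.2)).2.2]
    rfl
  · exact fun b => ⟨hδ1 _, hδr _⟩
  · intro x hx
    obtain ⟨b, hb⟩ := hδ2 x hx
    refine ⟨e b, ?_⟩
    change Prp x (ξ (e.symm (e b)) δ)
    rw [Equiv.symm_apply_apply]
    exact hb
  · intro b b' hb
    exact e.symm.injective (hδ3 _ _ hb)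

end Pool.Agent.H919S
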