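import Pool.Agent.H919S.Stmts

set_option autoImplicit false

namespace Pool.Agent.H919S

open Finset Filter Topology

namespace TE06

theorem der_scale {κ : Type} [Fintype κ] [DecidableEq κ] (n : κ → ℕ) (T : Ten κ) (ρ : ℝ)
    (x : Vec κ) (k : κ) (i : ℕ) :
    der n (fun ι => T ι * ρ ^ (∑ k, ι k)) x k i =
      (ρ : ℂ) ^ i * der n T (fun k i => (ρ : ℂ) ^ i * x k i) k i := by
  unfold der
  rw [Finset.mul_sum]
  refine Finset.sum_congr rfl fun ι hι => ?_
  have hk : ι k = i := (Finset.mem_filter.1 hι).2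
  have h1 : ∑ l, ι l = ι k + ∑ l ∈ univ.erase k, ι l :=
    (Finset.add_sum_erase _ _ (Finset.mem_univ k)).symm
  change ((T ι * ρ ^ (∑ l, ι l) : ℝ) : ℂ) * _ = _
  rw [Finset.prod_mul_distrib, Finset.prod_pow_eq_pow_sum, h1, hk]
  push_cast
  rw [pow_add]
  ring

end TE06

theorem E06 (_B : Basics) : E06_unw := by
  intro κ _ _ n T ρ x hρ
  have hρ' : (ρ : ℂ) ≠ 0 := Complex.ofReal_ne_zero.2 hρ.ne'
  have hp : ∀ i : ℕ, (ρ : ℂ) ^ i ≠ 0 := fun i => pow_ne_zero i hρ'
  unfold SC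
  simp only [Set.mem_ofPred_eq]
  constructor
  · rintro ⟨h1, h2, h3⟩
    refine ⟨?_, ?_, ?_⟩
    · intro k i hi
      have := h1 k i hi
      exact (mul_eq_zero.1 this).resolve_left (hp i)
    · intro k
      obtain ⟨i, hi⟩ := h2 k
      exact ⟨i, fun h0 => hi (by rw [h0, mul_zero])⟩
    · intro k
      obtain ⟨l, hl⟩ := h3 k
      refine ⟨l, fun i hi => ?_⟩
      have := hl i hi
      rw [TE06.der_scale]
      apply mul_left_cancel₀ (hp i)
      have e1 : (((ρ ^ 2 : ℝ) : ℂ)) ^ i = (ρ : ℂ) ^ i * (ρ : ℂ) ^ i := by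
        push_cast; rw [← pow_mul, two_mul, pow_add]
      rw [e1] at this
      push_cast
      rw [one_pow, one_mul, ← mul_assoc, this]
      ring
  · rintro ⟨h1, h2, h3⟩
    refine ⟨?_, ?_, ?_⟩
    · intro k i hi
      rw [h1 k i hi, mul_zero]
    · intro k
      obtain ⟨i, hi⟩ := h2 k
      exact ⟨i, mul_ne_zero (hp i) hi⟩
    · intro k
      obtain ⟨l, hl⟩ := h3 k
      refine ⟨l, fun i hi => ?_⟩
      have := hl i hi
      rw [TE06.der_scale] at this
      have e1 : (((ρ ^ 2 : ℝ) : ℂ)) ^ i = (ρ : ℂ) ^ i * (ρ : ℂ) ^ i := by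
        push_cast; rw [← pow_mul, two_mul, pow_add]
      rw [e1]
      push_cast at this
      rw [one_pow, one_mul] at this
      rw [mul_assoc, this]
      ring

end Pool.Agent.H919S
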