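import Pool.Agent.H919S.Stmts

set_option autoImplicit false

namespace Pool.Agent.H919S

open Finset Filter Topology

theorem P0 (_B : Basics) : P0_base := by
  intro n
  refine ⟨fun _ => 1, ?_⟩
  intro m hm
  have hbox : box m = {m} := by
    ext ι
    have : ι = m := funext fun k => k.elim0
    subst this
    simp only [box, Finset.mem_singleton, iff_true]
    exact Fintype.mem_piFinset.mpr (fun k => k.elim0)
  refine ⟨?_, Set.toFinite _, ?_⟩
  · intro x hx
    refine ⟨fun k => k.elim0, ?_, fun y _ _ k => k.elim0⟩
    unfold ev
    rw [hbox]
    simp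
  · have h1 : Sol m (fun _ => 1) = {fun k => k.elim0} := by
      ext x
      simp only [Set.mem_singleton_iff]
      constructor
      · intro _
        exact funext fun k => k.elim0
      · intro _
        exact ⟨⟨fun k => k.elim0, fun k => k.elim0⟩, fun k => k.elim0⟩
    rw [h1, Set.ncard_singleton]
    unfold W
    have h2 : (Finsupp.equivFunOnFinite.symm m : Fin 0 →₀ ℕ) = 0 := by
      ext k; exact k.elim0
    rw [h2]
    simp

end Pool.Agent.H919S
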