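import Pool.Agent.H919S.Stmts

/-! H919S task P1. -/

set_option autoImplicit false

namespace Pool.Agent.H919S

open Finset Filter Topology

namespace TP1

theorem er : (univ : Finset (Fin 1)).erase 0 = ∅ := by decide

theorem der_zero (m : Fin 1 → ℕ) (x : Vec (Fin 1)) :
    der m (fun ι => if ι 0 = 0 then 1 else 0) x 0 0 = 1 := by
  unfold der
  have h : (box m).filter (fun ι => ι 0 = 0) = {0} := by
    ext ι
    simp only [Finset.mem_filter, Finset.mem_singleton]
    constructor
    · rintro ⟨_, h⟩
      funext k
      fin_cases k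
      simpa using h
    · rintro rfl
      refine ⟨?_, rfl⟩
      unfold box
      rw [Fintype.mem_piFinset]
      intro a
      simp
  rw [h, Finset.sum_singleton, er]
  simp

theorem ev_zero (x : Vec (Fin 1)) :
    ev (0 : Fin 1 → ℕ) (fun ι => if ι 0 = 0 then 1 else 0) x = x 0 0 := by
  unfold ev
  have h : box (0 : Fin 1 → ℕ) = {0} := by
    ext ι
    unfold box
    rw [Fintype.mem_piFinset, Finset.mem_singleton]
    constructor
    · intro h
      funext k
      have := h k
      simpa using this
    · rintro rfl
      intro a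
      simp
  rw [h, Finset.sum_singleton]
  simp

theorem sol_zero (T : Ten (Fin 1)) :
    Sol (0 : Fin 1 → ℕ) T = {fun _ i => if i = 0 then 1 else 0} := by
  ext x
  constructor
  · rintro ⟨⟨h1, h2⟩, _⟩
    rw [Set.mem_singleton_iff]
    funext k i
    by_cases hi : i = 0
    · rw [hi]; simpa using h1 k
    · rw [if_neg hi]
      exact h2 k i (Nat.pos_of_ne_zero hi)
  · intro h
    rw [Set.mem_singleton_iff] at h
    rw [h]
    refine ⟨⟨fun k => by simp, fun k i hi => ?_⟩, fun k i hi => ?_⟩
    · have : i ≠ 0 := by
        have h0 : (0 : ℕ) < i := hi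
        omega
      simp [this]
    · exact absurd hi (Nat.not_lt_zero _)

end TP1

theorem P1 (_B : Basics) : P1_base := by
  intro n
  refine ⟨fun ι => if ι 0 = 0 then 1 else 0, fun m _ => ?_⟩
  rcases Nat.eq_zero_or_pos (m 0) with h0 | h0
  · have hm : m = 0 := by
      funext k
      fin_cases k
      simpa using h0
    subst hm
    refine ⟨?_, ?_, ?_⟩
    · intro x hx
      rw [TP1.sol_zero, Set.mem_singleton_iff] at hx
      refine ⟨?_, ?_, ?_⟩
      · intro k i
        rw [hx]
        by_cases hi : i = 0 <;> simp [hi]
      · rw [TP1.ev_zero, hx]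
        simp
      · intro y hy _ k i
        apply hy
        unfold Jm
        simp
    · rw [TP1.sol_zero]; exact Set.finite_singleton _
    · rw [TP1.sol_zero, Set.ncard_singleton]
      have e : (Finsupp.equivFunOnFinite.symm (0 : Fin 1 → ℕ)) = 0 := by
        ext; simp
      unfold W
      rw [e]
      simp
  · have hS : Sol m (fun ι : Fin 1 → ℕ => if ι 0 = 0 then (1 : ℝ) else 0) = ∅ := by
      rw [Set.eq_empty_iff_forall_notMem]
      rintro x ⟨_, h⟩
      have := h 0 0 h0
      rw [TP1.der_zero] at this
      exact one_ne_zero this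
    refine ⟨?_, ?_, ?_⟩
    · intro x hx
      rw [hS] at hx
      exact absurd hx (Set.notMem_empty x)
    · rw [hS]; exact Set.finite_empty
    · rw [hS, Set.ncard_empty]
      unfold W
      rw [Fin.prod_univ_one, TP1.er, Finset.sum_empty, zero_pow h0.ne']
      simp

end Pool.Agent.H919S
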