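import Pool.Agent.H919S.Stmts

set_option autoImplicit false

namespace Pool.Agent.H919S

open Finset Filter Topology

namespace TP2

/-- the diagonal tensor. -/
def D2 : Ten (Fin 2) := fun ι => if ι 0 = ι 1 then 1 else 0

theorem mem_box {m ι : Fin 2 → ℕ} : ι ∈ box m ↔ ι 0 ≤ m 0 ∧ ι 1 ≤ m 1 := by
  unfold box
  rw [Fintype.mem_piFinset, Fin.forall_fin_two]
  simp only [Finset.mem_range, Nat.lt_succ_iff]

theorem der0 (m : Fin 2 → ℕ) (x : Vec (Fin 2)) (i : ℕ) :
    der m D2 x 0 i = if i ≤ m 0 ∧ i ≤ m 1 then x 1 i else 0 := by
  unfold der
  have herase : (univ : Finset (Fin 2)).erase 0 = {1} := by decide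
  rw [herase]
  simp only [prod_singleton]
  split_ifs with h
  · rw [Finset.sum_eq_single (fun _ => i)]
    · simp [D2]
    · intro b hb hne
      rw [Finset.mem_filter, mem_box] at hb
      have hb1 : b 0 ≠ b 1 := by
        intro he
        apply hne
        funext k
        fin_cases k
        · exact hb.2
        · exact he.symm.trans hb.2
      simp [D2, hb1]
    · intro h'
      exact (h' (Finset.mem_filter.mpr ⟨mem_box.mpr h, rfl⟩)).elim
  · apply Finset.sum_eq_zero
    intro b hb
    rw [Finset.mem_filter, mem_box] at hb
    have hb1 : b 0 ≠ b 1 := by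
      intro he
      apply h
      rw [← hb.2]
      exact ⟨hb.1.1, by rw [he]; exact hb.1.2⟩
    simp [D2, hb1]

theorem der1 (m : Fin 2 → ℕ) (x : Vec (Fin 2)) (i : ℕ) :
    der m D2 x 1 i = if i ≤ m 0 ∧ i ≤ m 1 then x 0 i else 0 := by
  unfold der
  have herase : (univ : Finset (Fin 2)).erase 1 = {0} := by decide
  rw [herase]
  simp only [prod_singleton]
  split_ifs with h
  · rw [Finset.sum_eq_single (fun _ => i)]
    · simp [D2]
    · intro b hb hne
      rw [Finset.mem_filter, mem_box] at hb
      have hb1 : b 0 ≠ b 1 := by
        intro he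
        apply hne
        funext k
        fin_cases k
        · exact he.trans hb.2
        · exact hb.2
      simp [D2, hb1]
    · intro h'
      exact (h' (Finset.mem_filter.mpr ⟨mem_box.mpr h, rfl⟩)).elim
  · apply Finset.sum_eq_zero
    intro b hb
    rw [Finset.mem_filter, mem_box] at hb
    have hb1 : b 0 ≠ b 1 := by
      intro he
      apply h
      rw [← hb.2]
      exact ⟨by rw [← he]; exact hb.1.1, hb.1.2⟩
    simp [D2, hb1]

theorem W2 (m : Fin 2 → ℕ) : W m = if m 0 = m 1 then 1 else 0 := by
  unfold W
  have h0 : (univ : Finset (Fin 2)).erase 0 = {1} := by decide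
  have h1 : (univ : Finset (Fin 2)).erase 1 = {0} := by decide
  rw [Fin.prod_univ_two, h0, h1, Finset.sum_singleton, Finset.sum_singleton,
    MvPolynomial.X_pow_eq_monomial, MvPolynomial.X_pow_eq_monomial, MvPolynomial.monomial_mul,
    MvPolynomial.coeff_monomial, mul_one]
  congr 1
  rw [eq_iff_iff]
  constructor
  · intro h
    have h2 := DFunLike.congr_fun h 0
    simpa using h2.symm
  · intro h
    ext k
    fin_cases k
    · simpa using h.symm
    · simpa using h

end TP2

open TP2 in
theorem P2 (_B : Basics) : P2_base := by
  intro n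
  refine ⟨D2, ?_⟩
  intro m hm
  have hF : ∀ x ∈ Sol m D2, m 0 = m 1 := by
    intro x hx
    obtain ⟨⟨hc1, hc2⟩, hx⟩ := hx
    by_contra hne
    rcases lt_or_gt_of_ne hne with h | h
    · have h3 := hx 1 (m 0) h
      rw [der1, if_pos ⟨le_refl _, h.le⟩, hc1 0] at h3
      exact one_ne_zero h3
    · have h3 := hx 0 (m 1) h
      rw [der0, if_pos ⟨h.le, le_refl _⟩, hc1 1] at h3
      exact one_ne_zero h3
  have hS : ∀ x ∈ Sol m D2, x = fun k i => if i = m k then 1 else 0 := by
    intro x hx
    have he := hF x hx
    obtain ⟨⟨hc1, hc2⟩, hx⟩ := hx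
    funext k i
    rcases lt_trichotomy i (m k) with h | h | h
    · rw [if_neg h.ne]
      fin_cases k
      · have h3 := hx 1 i (by simpa [he] using h)
        rw [der1, if_pos] at h3
        · exact h3
        · simp at h; omega
      · have h3 := hx 0 i (by simpa [he] using h)
        rw [der0, if_pos] at h3
        · exact h3
        · simp at h; omega
    · rw [if_pos h, h]; exact hc1 k
    · rw [if_neg h.ne']; exact hc2 k i h
  have hmem : m 0 = m 1 → (fun k i => if i = m k then 1 else 0) ∈ Sol m D2 := by
    intro he
    refine ⟨⟨fun k => by simp, fun k i h => by simp [h.ne']⟩, ?_⟩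
    intro k i hi
    fin_cases k
    · change der m D2 _ 0 i = 0
      change i < m 0 at hi
      rw [der0, if_pos (by omega), if_neg (by omega)]
    · change der m D2 _ 1 i = 0
      change i < m 1 at hi
      rw [der1, if_pos (by omega), if_neg (by omega)]
  refine ⟨?_, ?_, ?_⟩
  · intro x hx
    have he := hF x hx
    have hxe := hS x hx
    refine ⟨?_, ?_, ?_⟩
    · intro k i
      rw [hxe]
      by_cases h : i = m k <;> simp [h]
    · unfold ev
      rw [Finset.sum_eq_single (fun _ => m 0)]
      · rw [hxe]
        simp [D2, he]
      · intro b hb hne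
        rw [mem_box] at hb
        by_cases hb1 : b 0 = b 1
        · have h3 : b 0 ≠ m 0 := by
            intro h4
            apply hne
            funext k
            fin_cases k
            · exact h4
            · exact hb1.symm.trans h4
          have h5 : x 0 (b 0) = 0 := by
            rw [hxe]
            exact if_neg h3
          rw [Fin.prod_univ_two, h5]
          simp
        · simp [D2, hb1]
      · intro h'
        exact (h' (mem_box.mpr ⟨le_refl _, he.le⟩)).elim
    · intro y hy hd k i
      by_cases hJ : (k, i) ∈ Jm m
      · have hik : i < m k := by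
          unfold Jm at hJ
          rw [Finset.mem_biUnion] at hJ
          obtain ⟨k', _, h3⟩ := hJ
          rw [Finset.mem_image] at h3
          obtain ⟨i', h4, h5⟩ := h3
          rw [Prod.mk.injEq] at h5
          rw [← h5.1, ← h5.2]
          exact Finset.mem_range.mp h4
        have hJ' : ∀ k', i < m k' → (k', i) ∈ Jm m := by
          intro k' h
          unfold Jm
          rw [Finset.mem_biUnion]
          exact ⟨k', Finset.mem_univ _, Finset.mem_image.mpr ⟨i, Finset.mem_range.mpr h, rfl⟩⟩
        have key : ∀ (a b : ℂ), HasDerivAt (fun t : ℝ => a + (t : ℂ) * b) 0 0 → b = 0 := by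
          intro a b h
          have h2 : HasDerivAt (fun t : ℝ => a + (t : ℂ) * b) b 0 := by
            have h3 : HasDerivAt (fun t : ℝ => (t : ℂ)) 1 0 := Complex.ofRealCLM.hasDerivAt
            have h4 := (h3.mul_const b).const_add a
            rwa [one_mul] at h4
          exact h2.unique h
        fin_cases k
        · change y 0 i = 0
          change i < m 0 at hik
          have h3 := hd 1 i (hJ' 1 (by omega))
          refine key (x 0 i) (y 0 i) ?_
          convert h3 using 2
          rw [der1, if_pos (by omega)]
        · change y 1 i = 0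
          change i < m 1 at hik
          have h3 := hd 0 i (hJ' 0 (by omega))
          refine key (x 1 i) (y 1 i) ?_
          convert h3 using 2
          rw [der0, if_pos (by omega)]
      · exact hy k i hJ
  · apply Set.Finite.subset (Set.finite_singleton (fun k i => if i = m k then (1:ℂ) else 0))
    intro x hx
    exact hS x hx
  · rw [W2]
    by_cases he : m 0 = m 1
    · rw [if_pos he]
      have : Sol m D2 = {fun k i => if i = m k then 1 else 0} := by
        ext x
        constructor
        · intro hx; exact hS x hx
        · intro hx; rw [Set.mem_singleton_iff] at hx; rw [hx]; exact hmem he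
      rw [this, Set.ncard_singleton]
      rfl
    · rw [if_neg he]
      have : Sol m D2 = ∅ := by
        ext x
        simp only [Set.mem_empty_iff_false, iff_false]
        intro hx
        exact he (hF x hx)
      rw [this, Set.ncard_empty]
      rfl

end Pool.Agent.H919S
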