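/-
H919S task PR: relabelling of legs.  helper485.
-/
import Pool.Agent.H919S.Stmts

set_option autoImplicit false

namespace Pool.Agent.H919S

namespace TPR

open Finset

variable {κ κ' : Type} [Fintype κ] [DecidableEq κ] [Fintype κ'] [DecidableEq κ']

/-- transported tensor. -/
def tr (e : κ ≃ κ') (T : Ten κ) : Ten κ' := fun ι => T (fun k => ι (e k))

/-- bijection on multi-indices. -/
def fe (X : Type) (e : κ ≃ κ') : (κ' → X) ≃ (κ → X) := Equiv.arrowCongr e.symm (Equiv.refl X)

lemma fe_apply (X : Type) (e : κ ≃ κ') (x : κ' → X) (k : κ) : fe X e x k = x (e k) := rfl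

lemma fe_symm_apply (X : Type) (e : κ ≃ κ') (x : κ → X) (k : κ') : (fe X e).symm x k = x (e.symm k) := rfl

lemma mem_box (m : κ → ℕ) (ι : κ → ℕ) : ι ∈ box m ↔ ∀ k, ι k ≤ m k := by
  unfold box
  rw [Fintype.mem_piFinset]
  exact forall_congr' fun k => by rw [mem_range, Nat.lt_succ_iff]

lemma ev_tr (e : κ ≃ κ') (m : κ' → ℕ) (T : Ten κ) (x : Vec κ') :
    ev m (tr e T) x = ev (fun k => m (e k)) T (fun k => x (e k)) := by
  unfold ev
  refine Finset.sum_bij' (fun ι _ => fe ℕ e ι) (fun ι _ => (fe ℕ e).symm ι) ?_ ?_ ?_ ?_ ?_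
  · intro ι hι
    rw [mem_box] at hι ⊢
    intro k
    exact hι (e k)
  · intro ι hι
    rw [mem_box] at hι ⊢
    intro k
    have := hι (e.symm k)
    simpa [fe_symm_apply] using this
  · intro ι _
    exact (fe ℕ e).symm_apply_apply ι
  · intro ι _
    exact (fe ℕ e).apply_symm_apply ι
  · intro ι _
    have h1 : ∏ k, x k (ι k) = ∏ k, x (e k) (fe ℕ e ι k) :=
      (Equiv.prod_comp e (fun k => x k (ι k))).symm
    rw [h1]
    rfl

lemma der_tr (e : κ ≃ κ') (m : κ' → ℕ) (T : Ten κ) (x : Vec κ') (k : κ) (i : ℕ) :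
    der m (tr e T) x (e k) i = der (fun k => m (e k)) T (fun k => x (e k)) k i := by
  unfold der
  refine Finset.sum_bij' (fun ι _ => fe ℕ e ι) (fun ι _ => (fe ℕ e).symm ι) ?_ ?_ ?_ ?_ ?_
  · intro ι hι
    rw [mem_filter, mem_box] at hι ⊢
    exact ⟨fun k => hι.1 (e k), hι.2⟩
  · intro ι hι
    rw [mem_filter, mem_box] at hι ⊢
    refine ⟨fun k => ?_, ?_⟩
    · have := hι.1 (e.symm k)
      simpa [fe_symm_apply] using this
    · rw [fe_symm_apply, e.symm_apply_apply]
      exact hι.2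
  · intro ι _
    exact (fe ℕ e).symm_apply_apply ι
  · intro ι _
    exact (fe ℕ e).apply_symm_apply ι
  · intro ι _
    have h1 : ∏ l ∈ univ.erase (e k), x l (ι l) = ∏ l ∈ univ.erase k, x (e l) (fe ℕ e ι l) := by
      refine (Finset.prod_bij' (fun l _ => e l) (fun l _ => e.symm l) ?_ ?_ ?_ ?_ ?_).symm
      · intro l hl
        rw [mem_erase] at hl ⊢
        exact ⟨fun h => hl.1 (e.injective h), mem_univ _⟩
      · intro l hl
        rw [mem_erase] at hl ⊢
        refine ⟨fun h => hl.1 ?_, mem_univ _⟩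
        rw [← h, e.apply_symm_apply]
      · intro l _; exact e.symm_apply_apply l
      · intro l _; exact e.apply_symm_apply l
      · intro l _; rfl
    rw [h1]
    rfl

lemma der_tr' (e : κ ≃ κ') (m : κ' → ℕ) (T : Ten κ) (x : Vec κ') (k : κ') (i : ℕ) :
    der m (tr e T) x k i = der (fun k => m (e k)) T (fun k => x (e k)) (e.symm k) i := by
  rw [← der_tr, e.apply_symm_apply]

lemma Cht_tr (e : κ ≃ κ') (m : κ' → ℕ) (x : Vec κ') :
    Cht m x ↔ Cht (fun k => m (e k)) (fun k => x (e k)) := by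
  unfold Cht
  constructor
  · rintro ⟨h1, h2⟩
    exact ⟨fun k => h1 (e k), fun k i h => h2 (e k) i h⟩
  · rintro ⟨h1, h2⟩
    refine ⟨fun k => ?_, fun k i h => ?_⟩
    · have := h1 (e.symm k)
      simpa using this
    · have := h2 (e.symm k) i (by simpa using h)
      simpa using this

lemma Sol_tr (e : κ ≃ κ') (m : κ' → ℕ) (T : Ten κ) (x : Vec κ') :
    x ∈ Sol m (tr e T) ↔ fe (ℕ → ℂ) e x ∈ Sol (fun k => m (e k)) T := by
  unfold Sol
  rw [Set.mem_setOf_eq, Set.mem_setOf_eq, Cht_tr e]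
  refine and_congr Iff.rfl ?_
  constructor
  · intro h k i hi
    have := h (e k) i hi
    rw [der_tr] at this
    exact this
  · intro h k i hi
    rw [der_tr']
    exact h (e.symm k) i (by simpa using hi)

lemma mem_Jm (m : κ → ℕ) (k : κ) (i : ℕ) : (k, i) ∈ Jm m ↔ i < m k := by
  unfold Jm
  simp

lemma W_tr (e : κ ≃ κ') (m : κ' → ℕ) : W m = W (fun k => m (e k)) := by
  unfold W
  have h1 : MvPolynomial.rename e
      (∏ k : κ, (∑ i ∈ univ.erase k, (MvPolynomial.X i : MvPolynomial κ ℤ)) ^ (m (e k)))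
      = ∏ k : κ', (∑ i ∈ univ.erase k, (MvPolynomial.X i : MvPolynomial κ' ℤ)) ^ (m k) := by
    rw [map_prod, ← Equiv.prod_comp e]
    refine Finset.prod_congr rfl fun k _ => ?_
    rw [map_pow, map_sum]
    congr 1
    refine Finset.sum_bij' (fun l _ => e l) (fun l _ => e.symm l) ?_ ?_ ?_ ?_ ?_
    · intro l hl
      rw [mem_erase] at hl ⊢
      exact ⟨fun h => hl.1 (e.injective h), mem_univ _⟩
    · intro l hl
      rw [mem_erase] at hl ⊢
      refine ⟨fun h => hl.1 ?_, mem_univ _⟩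
      rw [← h, e.apply_symm_apply]
    · intro l _; exact e.symm_apply_apply l
    · intro l _; exact e.apply_symm_apply l
    · intro l _; exact MvPolynomial.rename_X _ _
  have h2 : (Finsupp.equivFunOnFinite.symm m : κ' →₀ ℕ)
      = Finsupp.mapDomain e (Finsupp.equivFunOnFinite.symm fun k => m (e k)) := by
    ext k
    obtain ⟨k0, rfl⟩ := e.surjective k
    rw [Finsupp.mapDomain_apply e.injective]
    rfl
  rw [← h1, h2, MvPolynomial.coeff_rename_mapDomain _ e.injective]

lemma NDG_tr (e : κ ≃ κ') (m : κ' → ℕ) (T : Ten κ) (x : Vec κ')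
    (h : NDG (Jm fun k => m (e k)) (der (fun k => m (e k)) T) (fun k => x (e k))) :
    NDG (Jm m) (der m (tr e T)) x := by
  intro y hy hd k i
  have key := h (fun k => y (e k)) (fun k i hk => hy (e k) i (by
    rw [mem_Jm] at hk ⊢; exact hk)) (fun k i hk => by
      have := hd (e k) i (by rw [mem_Jm] at hk ⊢; exact hk)
      have h2 : (fun t : ℝ => der m (tr e T) (fun k i => x k i + (t : ℂ) * y k i) (e k) i)
          = fun t : ℝ => der (fun k => m (e k)) T (fun k i => x (e k) i + (t : ℂ) * y (e k) i) k i := by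
        funext t
        rw [der_tr]
      rw [h2] at this
      exact this) (e.symm k) i
  simpa using key

lemma Good_tr (e : κ ≃ κ') (m : κ' → ℕ) (T : Ten κ) (h : GoodAt (fun k => m (e k)) T) :
    GoodAt m (tr e T) := by
  obtain ⟨h1, h2, h3⟩ := h
  have hs : Sol m (tr e T) = (fe (ℕ → ℂ) e).symm '' Sol (fun k => m (e k)) T := by
    ext x
    rw [Sol_tr, Equiv.image_eq_preimage_symm]
    rfl
  refine ⟨fun x hx => ?_, ?_, ?_⟩
  · rw [Sol_tr] at hx
    obtain ⟨a, b, c⟩ := h1 _ hx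
    refine ⟨fun k i => ?_, ?_, NDG_tr e m T x c⟩
    · have := a (e.symm k) i
      rw [fe_apply, e.apply_symm_apply] at this
      exact this
    · rw [ev_tr]
      exact b
  · rw [hs]
    exact h2.image _
  · rw [hs, Set.ncard_image_of_injective _ (fe (ℕ → ℂ) e).symm.injective, h3, W_tr e m]

end TPR

theorem PR : PR_relabel := by
  intro κ κ' _ _ _ _ e h n
  obtain ⟨T, hT⟩ := h (fun k => n (e k))
  exact ⟨TPR.tr e T, fun m hm => TPR.Good_tr e m T (hT _ fun k => hm (e k))⟩

end Pool.Agent.H919S
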