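/-
H919S: all steps put together.
-/
import Pool.Agent.H919S.Final
import Pool.Agent.H919S.TA00
import Pool.Agent.H919S.TA01
import Pool.Agent.H919S.TA02
import Pool.Agent.H919S.TA03
import Pool.Agent.H919S.TA04
import Pool.Agent.H919S.TA05
import Pool.Agent.H919S.TA06
import Pool.Agent.H919S.TA07
import Pool.Agent.H919S.TA08
import Pool.Agent.H919S.TA09
import Pool.Agent.H919S.TA10
import Pool.Agent.H919S.TA11
import Pool.Agent.H919S.TA12
import Pool.Agent.H919S.TA13
import Pool.Agent.H919S.TA14
import Pool.Agent.H919S.TB01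
import Pool.Agent.H919S.TB02
import Pool.Agent.H919S.TB03
import Pool.Agent.H919S.TB04
import Pool.Agent.H919S.TB05
import Pool.Agent.H919S.TB06
import Pool.Agent.H919S.TB07
import Pool.Agent.H919S.TB08
import Pool.Agent.H919S.TB09
import Pool.Agent.H919S.TB10
import Pool.Agent.H919S.TB11
import Pool.Agent.H919S.TB12
import Pool.Agent.H919S.TB13
import Pool.Agent.H919S.TB14
import Pool.Agent.H919S.TB15
import Pool.Agent.H919S.TC1
import Pool.Agent.H919S.TC2
import Pool.Agent.H919S.TC3
import Pool.Agent.H919S.TD00
import Pool.Agent.H919S.TD01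
import Pool.Agent.H919S.TD02
import Pool.Agent.H919S.TD03
import Pool.Agent.H919S.TD04
import Pool.Agent.H919S.TD05
import Pool.Agent.H919S.TD06
import Pool.Agent.H919S.TD07
import Pool.Agent.H919S.TD08
import Pool.Agent.H919S.TD09
import Pool.Agent.H919S.TD10
import Pool.Agent.H919S.TD11
import Pool.Agent.H919S.TD12
import Pool.Agent.H919S.TE00
import Pool.Agent.H919S.TE01
import Pool.Agent.H919S.TE02
import Pool.Agent.H919S.TE03
import Pool.Agent.H919S.TE04
import Pool.Agent.H919S.TE05
import Pool.Agent.H919S.TE06
import Pool.Agent.H919S.TE07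
import Pool.Agent.H919S.TP0
import Pool.Agent.H919S.TP1
import Pool.Agent.H919S.TP2
import Pool.Agent.H919S.TPR

set_option autoImplicit false

namespace Pool.Agent.H919S

theorem basics : Basics where
  supp := B01
  euler := B02
  tend := B03
  cd := B04
  hom := B05
  cjd := B06
  congr := B07
  shift := B08
  chain := B09
  noinf := B10 B01 B02
  lim := B11
  iftV := B13 B12
  count := B14
  chainG := B15

end Pool.Agent.H919S
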