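import Pool.Agent.H919S.Stmts

set_option autoImplicit false

namespace Pool.Agent.H919S

open Finset Filter Topology

theorem B01 : B01_supp := by
  intro κ _ _ m n T x hmn hx k i hi
  unfold der
  symm
  apply Finset.sum_subset
  · intro ι hι
    simp only [box, Finset.mem_filter, Fintype.mem_piFinset, Finset.mem_range] at hι ⊢
    exact ⟨fun l => lt_of_lt_of_le (hι.1 l) (Nat.succ_le_succ (hmn l)), hι.2⟩
  · intro ι hι hι'
    simp only [box, Finset.mem_filter, Fintype.mem_piFinset, Finset.mem_range] at hι hι'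
    obtain ⟨_, hk⟩ := hι
    have h1 : ∃ l, m l < ι l := by
      by_contra hcon
      push Not at hcon
      exact hι' ⟨fun l => Nat.lt_succ_of_le (hcon l), hk⟩
    obtain ⟨l, hl⟩ := h1
    have hlk : l ≠ k := by
      rintro rfl
      omega
    rw [Finset.prod_eq_zero (Finset.mem_erase.2 ⟨hlk, Finset.mem_univ l⟩) (hx l _ hl), mul_zero]

end Pool.Agent.H919S
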