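import Pool.Agent.H919S.Stmts

set_option autoImplicit false

namespace Pool.Agent.H919S

open Finset

namespace TD01

variable {α β : Type} [Fintype α] [DecidableEq α] [Fintype β] [DecidableEq β]

/-- splitting a sum over multi-indices on `α ⊕ β` -/
theorem splitS (s : Finset (α → ℕ)) (t : Finset (β → ℕ)) (u : Finset (α ⊕ β → ℕ))
    (h : ∀ ι, ι ∈ u ↔ (fun a => ι (Sum.inl a)) ∈ s ∧ (fun b => ι (Sum.inr b)) ∈ t)
    (F : (α ⊕ β → ℕ) → ℂ) :
    ∑ ι ∈ u, F ι = ∑ p ∈ s, ∑ q ∈ t, F (Sum.elim p q) := by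
  rw [← Finset.sum_product']
  refine Finset.sum_nbij' (fun ι => (fun a => ι (Sum.inl a), fun b => ι (Sum.inr b)))
    (fun pq => Sum.elim pq.1 pq.2) ?_ ?_ ?_ ?_ ?_
  · intro ι hι
    rw [Finset.mem_product]
    exact (h ι).1 hι
  · intro pq hpq
    rw [h]
    exact Finset.mem_product.1 hpq
  · intro ι _
    funext l
    cases l <;> rfl
  · intro pq _
    rfl
  · intro ι _
    congr 1
    funext l
    cases l <;> rfl

/-- splitting a sum over multi-indices on `Option α` -/
theorem splitO (s : Finset (α → ℕ)) (N : ℕ) (u : Finset (Option α → ℕ))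
    (h : ∀ ι, ι ∈ u ↔ ι none ∈ range (N + 1) ∧ (fun a => ι (some a)) ∈ s)
    (F : (Option α → ℕ) → ℂ) :
    ∑ ι ∈ u, F ι = ∑ K ∈ range (N + 1), ∑ p ∈ s, F (oc K p) := by
  rw [← Finset.sum_product']
  refine Finset.sum_nbij' (fun ι => (ι none, fun a => ι (some a)))
    (fun pq => oc pq.1 pq.2) ?_ ?_ ?_ ?_ ?_
  · intro ι hι
    rw [Finset.mem_product]
    exact (h ι).1 hι
  · intro pq hpq
    rw [h]
    exact Finset.mem_product.1 hpq
  · intro ι _
    funext l
    cases l <;> rfl
  · intro pq _
    rfl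
  · intro ι _
    congr 1
    funext l
    cases l <;> rfl

theorem prod_inl (f : α ⊕ β → ℂ) (a : α) :
    ∏ l ∈ univ.erase (Sum.inl a), f l = (∏ b ∈ univ.erase a, f (Sum.inl b)) * ∏ b, f (Sum.inr b) := by
  have h : (univ.erase (Sum.inl a) : Finset (α ⊕ β)) = (univ.erase a).disjSum univ := by
    ext l
    cases l <;> simp
  rw [h, Finset.prod_disjSum]

theorem prod_inr (f : α ⊕ β → ℂ) (b : β) :
    ∏ l ∈ univ.erase (Sum.inr b), f l = (∏ a, f (Sum.inl a)) * ∏ c ∈ univ.erase b, f (Sum.inr c) := by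
  have h : (univ.erase (Sum.inr b) : Finset (α ⊕ β)) = univ.disjSum (univ.erase b) := by
    ext l
    cases l <;> simp
  rw [h, Finset.prod_disjSum]

theorem prod_some (f : Option α → ℂ) (a : α) :
    ∏ l ∈ univ.erase (some a), f l = f none * ∏ b ∈ univ.erase a, f (some b) := by
  have h : (univ.erase (some a) : Finset (Option α)) =
      insert none ((univ.erase a).map Function.Embedding.some) := by
    ext l
    cases l <;> simp
  rw [h, Finset.prod_insert (by simp), Finset.prod_map]
  rfl

theorem mem_box {κ : Type} [Fintype κ] [DecidableEq κ] (m ι : κ → ℕ) :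
    ι ∈ box m ↔ ∀ k, ι k ≤ m k := by
  simp [box, Fintype.mem_piFinset, Nat.lt_succ_iff]

theorem mem_box_sum (m : α ⊕ β → ℕ) (ι : α ⊕ β → ℕ) : ι ∈ box m ↔
    (fun a => ι (Sum.inl a)) ∈ box (fun a => m (Sum.inl a)) ∧
      (fun b => ι (Sum.inr b)) ∈ box (fun b => m (Sum.inr b)) := by
  simp only [mem_box]
  constructor
  · intro h
    exact ⟨fun a => h _, fun b => h _⟩
  · rintro ⟨h1, h2⟩ l
    cases l
    · exact h1 _
    · exact h2 _

theorem mem_box_oc (N : ℕ) (m : α → ℕ) (ι : Option α → ℕ) : ι ∈ box (oc N m) ↔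
    ι none ∈ range (N + 1) ∧ (fun a => ι (some a)) ∈ box m := by
  simp only [mem_box, Finset.mem_range, Nat.lt_succ_iff]
  constructor
  · intro h
    exact ⟨h none, fun a => h (some a)⟩
  · rintro ⟨h1, h2⟩ l
    cases l
    · exact h1
    · exact h2 _

theorem cmp_elim (N : ℕ) (A : Ten (Option α)) (C : Ten (Option β)) (ε : ℝ) (p : α → ℕ)
    (q : β → ℕ) : ((cmp N A C ε (Sum.elim p q) : ℝ) : ℂ) =
      ∑ K ∈ range (N + 1), (ε : ℂ) ^ K * (A (oc K p) : ℂ) * (C (oc K q) : ℂ) := by
  unfold cmp
  push_cast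
  rfl

end TD01

open TD01 in
theorem D01 : D01_der := by
  intro α β _ _ _ _ N m A C ε z
  refine ⟨?_, ?_, ?_⟩
  · intro a i
    unfold der
    rw [splitS ((box fun a => m (Sum.inl a)).filter (fun p => p a = i))
      (box fun b => m (Sum.inr b)) _ (by
        intro ι
        rw [Finset.mem_filter, Finset.mem_filter, mem_box_sum]
        tauto)]
    rw [splitO ((box fun a => m (Sum.inl a)).filter (fun p => p a = i)) N _ (by
        intro ι
        rw [Finset.mem_filter, Finset.mem_filter, mem_box_oc]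
        tauto)]
    simp only [prod_inl, prod_some, cmp_elim, Finset.sum_mul]
    rw [Finset.sum_comm' (s := range (N + 1)) (t := fun _ =>
      (box fun a => m (Sum.inl a)).filter (fun p => p a = i))
      (t' := (box fun a => m (Sum.inl a)).filter (fun p => p a = i))
      (s' := fun _ => range (N + 1)) (by intro x y; tauto)]
    refine Finset.sum_congr rfl fun p _ => ?_
    rw [Finset.sum_comm]
    refine Finset.sum_congr rfl fun K _ => ?_
    simp only [Option.elim, vC, ev, slc, rgt, Sum.elim_inl, Sum.elim_inr, oc]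
    simp only [Finset.mul_sum, Finset.sum_mul]
    refine Finset.sum_congr rfl fun q _ => ?_
    ring
  · intro b i
    unfold der
    rw [splitS (box fun a => m (Sum.inl a))
      ((box fun b => m (Sum.inr b)).filter (fun p => p b = i)) _ (by
        intro ι
        rw [Finset.mem_filter, Finset.mem_filter, mem_box_sum]
        tauto)]
    rw [splitO ((box fun b => m (Sum.inr b)).filter (fun p => p b = i)) N _ (by
        intro ι
        rw [Finset.mem_filter, Finset.mem_filter, mem_box_oc]
        tauto)]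
    simp only [prod_inr, prod_some, cmp_elim, Finset.sum_mul]
    rw [Finset.sum_comm]
    rw [Finset.sum_comm' (s := range (N + 1)) (t := fun _ =>
      (box fun b => m (Sum.inr b)).filter (fun p => p b = i))
      (t' := (box fun b => m (Sum.inr b)).filter (fun p => p b = i))
      (s' := fun _ => range (N + 1)) (by intro x y; tauto)]
    refine Finset.sum_congr rfl fun q _ => ?_
    rw [Finset.sum_comm]
    refine Finset.sum_congr rfl fun K _ => ?_
    simp only [Option.elim, vA, ev, slc, lft, Sum.elim_inl, Sum.elim_inr, oc]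
    simp only [Finset.mul_sum, Finset.sum_mul]
    refine Finset.sum_congr rfl fun p _ => ?_
    ring
  · unfold ev
    rw [splitS (box fun a => m (Sum.inl a)) (box fun b => m (Sum.inr b)) _ (mem_box_sum m)]
    simp only [Fintype.prod_sum_type, cmp_elim, Finset.sum_mul]
    have h1 : ∀ p ∈ box (fun a => m (Sum.inl a)),
        (∑ q ∈ box (fun b => m (Sum.inr b)), ∑ K ∈ range (N + 1),
          (ε : ℂ) ^ K * (A (oc K p) : ℂ) * (C (oc K q) : ℂ) *
            ((∏ a, z (Sum.inl a) (Sum.elim p q (Sum.inl a))) *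
              ∏ b, z (Sum.inr b) (Sum.elim p q (Sum.inr b)))) =
        ∑ K ∈ range (N + 1), ∑ q ∈ box (fun b => m (Sum.inr b)),
          (ε : ℂ) ^ K * (A (oc K p) : ℂ) * (C (oc K q) : ℂ) *
            ((∏ a, z (Sum.inl a) (Sum.elim p q (Sum.inl a))) *
              ∏ b, z (Sum.inr b) (Sum.elim p q (Sum.inr b))) := fun p _ => Finset.sum_comm
    rw [Finset.sum_congr rfl h1, Finset.sum_comm]
    refine Finset.sum_congr rfl fun K _ => ?_
    simp only [vA, vC, ev, slc, lft, rgt, Sum.elim_inl, Sum.elim_inr]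
    simp only [Finset.mul_sum, Finset.sum_mul]
    rw [Finset.sum_comm]
    refine Finset.sum_congr rfl fun q _ => ?_
    refine Finset.sum_congr rfl fun p _ => ?_
    ring

end Pool.Agent.H919S
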