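import Pool.Agent.H919S.Stmts

set_option autoImplicit false

namespace Pool.Agent.H919S

open Finset Filter Topology

namespace TE07

variable {d : ℕ} {n : Fin d → ℕ}

/-- extension by zero -/
noncomputable def ext (x : ∀ i : Fin d, Fin (n i + 1) → ℂ) : Vec (Fin d) := fun k i =>
  if h : i < n k + 1 then x k ⟨i, h⟩ else 0

theorem ext_fin (x : ∀ i : Fin d, Fin (n i + 1) → ℂ) (k : Fin d) (j : Fin (n k + 1)) :
    ext x k (j : ℕ) = x k j := by
  unfold ext
  rw [dif_pos j.2]

theorem sum_box (f : (Fin d → ℕ) → ℂ) :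
    ∑ ι : (∀ i : Fin d, Fin (n i + 1)), f (fun k => (ι k : ℕ)) = ∑ ι ∈ box n, f ι := by
  refine Finset.sum_bij (fun ι _ => fun k => (ι k : ℕ)) ?_ ?_ ?_ ?_
  · intro ι _
    unfold box
    rw [Fintype.mem_piFinset]
    intro k
    exact Finset.mem_range.2 (ι k).2
  · intro ι _ ι' _ h
    funext k
    exact Fin.ext (congrFun h k)
  · intro ι' h
    unfold box at h
    rw [Fintype.mem_piFinset] at h
    exact ⟨fun k => ⟨ι' k, Finset.mem_range.1 (h k)⟩, Finset.mem_univ _, rfl⟩
  · intro ι _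
    rfl

theorem sum_eq (T' : Ten (Fin d)) (x : ∀ i : Fin d, Fin (n i + 1) → ℂ) (k : Fin d)
    (j : Fin (n k + 1)) :
    ∑ ι : (∀ i : Fin d, Fin (n i + 1)),
      (if ι k = j then ((T' (fun k => (ι k : ℕ)) : ℝ) : ℂ) *
        ∏ i ∈ Finset.univ.erase k, x i (ι i) else 0) = der n T' (ext x) k (j : ℕ) := by
  unfold der
  rw [Finset.sum_filter, ← sum_box (n := n)]
  refine Finset.sum_congr rfl fun ι _ => ?_
  have h1 : (ι k = j) = ((ι k : ℕ) = (j : ℕ)) := propext Fin.ext_iff
  simp only [h1, ext_fin]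

theorem der_smul (T' : Ten (Fin d)) (c : Fin d → ℂ) (x : Vec (Fin d)) (k : Fin d) (i : ℕ) :
    der n T' (fun l i => c l * x l i) k i = (∏ l ∈ univ.erase k, c l) * der n T' x k i := by
  unfold der
  rw [Finset.mul_sum]
  refine Finset.sum_congr rfl fun ι _ => ?_
  rw [Finset.prod_mul_distrib]
  ring

theorem SC_smul (T' : Ten (Fin d)) (c : Fin d → ℂ) (hc : ∀ k, c k ≠ 0) {x : Vec (Fin d)}
    (hx : x ∈ SC n T' 1) : (fun l i => c l * x l i) ∈ SC n T' 1 := by
  obtain ⟨h1, h2, h3⟩ := hx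
  refine ⟨fun k i hi => ?_, fun k => ?_, fun k => ?_⟩
  · change c k * x k i = 0
    rw [h1 k i hi, mul_zero]
  · obtain ⟨i, hi⟩ := h2 k
    exact ⟨i, mul_ne_zero (hc k) hi⟩
  · obtain ⟨l, hl⟩ := h3 k
    refine ⟨(∏ l ∈ univ.erase k, c l) * l / c k, fun i hi => ?_⟩
    have h4 := hl i hi
    rw [der_smul]
    simp only [Complex.ofReal_one, one_pow, one_mul] at h4 ⊢
    rw [h4]
    field_simp [hc k]

theorem mem_iff (T' : Ten (Fin d)) (x : ∀ i : Fin d, Fin (n i + 1) → ℂ) :
    ((∀ k : Fin d, x k ≠ 0) ∧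
        ∀ k : Fin d, ∃ l : ℂ, ∀ j : Fin (n k + 1),
          ∑ ι : (∀ i : Fin d, Fin (n i + 1)),
            (if ι k = j then ((T' (fun k => (ι k : ℕ)) : ℝ) : ℂ) *
              ∏ i ∈ Finset.univ.erase k, x i (ι i) else 0) = l * x k j) ↔
      ext x ∈ SC n T' 1 := by
  constructor
  · rintro ⟨h1, h2⟩
    refine ⟨fun k i hi => ?_, fun k => ?_, fun k => ?_⟩
    · unfold ext
      rw [dif_neg (by omega)]
    · obtain ⟨j, hj⟩ := Function.ne_iff.1 (h1 k)
      exact ⟨j, by rw [ext_fin]; exact hj⟩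
    · obtain ⟨l, hl⟩ := h2 k
      refine ⟨l, fun i hi => ?_⟩
      have h3 := hl ⟨i, by omega⟩
      rw [sum_eq, ← ext_fin x k] at h3
      simp only [Complex.ofReal_one, one_pow, one_mul]
      exact h3
  · rintro ⟨h1, h2, h3⟩
    refine ⟨fun k => ?_, fun k => ?_⟩
    · obtain ⟨i, hi⟩ := h2 k
      intro h0
      apply hi
      unfold ext
      split_ifs
      · rw [h0]; rfl
      · rfl
    · obtain ⟨l, hl⟩ := h3 k
      refine ⟨l, fun j => ?_⟩
      have h4 := hl j (by omega)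
      simp only [Complex.ofReal_one, one_pow, one_mul] at h4
      rw [sum_eq, ← ext_fin x k]
      exact h4

end TE07

open TE07 in
theorem E07 (hC1 : C1_total) : E07_frozen := by
  intro d n T' N r hN hr hx hi
  have hre : ∀ b k i, (((r b k i).re : ℝ) : ℂ) = r b k i := by
    intro b k i
    apply Complex.ext
    · simp
    · rw [Complex.ofReal_im, (hr b).2 k i]
  have hz : ∀ b k i, n k < i → r b k i = 0 := fun b k i hki => (hr b).1.1 k i hki
  refine ⟨fun ι => T' (fun k => (ι k : ℕ)), N, fun m k j => (r m k j).re, ?_, ?_, ?_⟩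
  · rw [hN]
    exact (hC1 d n).symm
  · intro x
    rw [mem_iff]
    constructor
    · intro h
      obtain ⟨b, hb⟩ := hx _ h
      refine ⟨b, fun k => ?_⟩
      obtain ⟨c, hc, hcx⟩ := hb k
      refine ⟨c, hc, fun j => ?_⟩
      rw [← ext_fin x k, hcx, hre]
    · rintro ⟨b, hb⟩
      choose c hc hcx using hb
      have h1 : TE07.ext x = fun k i => c k * r b k i := by
        funext k i
        by_cases hki : i < n k + 1
        · have h2 := hcx k ⟨i, hki⟩
          rw [← ext_fin x k, hre] at h2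
          exact h2
        · rw [hz b k i (by omega), mul_zero]
          unfold TE07.ext
          rw [dif_neg hki]
      rw [h1]
      exact SC_smul T' c hc (hr b).1
  · intro m m' h
    symm
    refine hi m' m fun k => ?_
    obtain ⟨c, hc, hcx⟩ := h k
    refine ⟨c, hc, fun i => ?_⟩
    by_cases hki : i < n k + 1
    · have h2 := hcx ⟨i, hki⟩
      rw [hre, hre] at h2
      exact h2
    · rw [hz m' k i (by omega), hz m k i (by omega), mul_zero]

end Pool.Agent.H919S
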